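import Pool.Agent.MP_d32a63_an.H13N.Pat

/-! Tools from function theory. -/

open Set Filter Topology Metric Polynomial
open Complex (I)
open Pool.Agent.MP_d32a63_an.H95 (Core Sec jet W0 Flat RealStmt)
open Pool.Agent.MP_d32a63_an.H58 hiding Cells Sq LAV LA1 LA2 LIMA LIMB LIM FIN

namespace Pool.Agent.MP_d32a63_an.H13N

noncomputable section

namespace AnaA

theorem wh_bd {K : ℝ} {g μ : ℂ → ℂ} {A : Set ℂ} (h : Wh K 0 g μ A) {u v : ℂ} (hu : u ∈ A)
    (hv : v ∈ A) : ‖g v - g u‖ ≤ K * ‖v - u‖ + K * ‖v - u‖ ^ 2 := by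
  have h1 := h.tay u hu v hv
  have h2 := h.bm u hu
  rw [add_zero] at h1
  have e : g v - g u = (g v - g u - μ u * (v - u)) + μ u * (v - u) := by ring
  have h3 : ‖μ u * (v - u)‖ ≤ K * ‖v - u‖ := by
    rw [norm_mul]; exact mul_le_mul_of_nonneg_right h2 (norm_nonneg _)
  calc ‖g v - g u‖ ≤ ‖g v - g u - μ u * (v - u)‖ + ‖μ u * (v - u)‖ := by
        conv_lhs => rw [e]
        exact norm_add_le _ _
    _ ≤ _ := by linarith

theorem wh_cont {K : ℝ} {g μ : ℂ → ℂ} {A : Set ℂ} (h : Wh K 0 g μ A) : ContinuousOn g A := by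
  intro u hu
  rw [ContinuousWithinAt, tendsto_iff_norm_sub_tendsto_zero]
  have hc : Continuous fun v : ℂ => K * ‖v - u‖ + K * ‖v - u‖ ^ 2 := by fun_prop
  have h0 : Tendsto (fun v : ℂ => K * ‖v - u‖ + K * ‖v - u‖ ^ 2) (𝓝[A] u) (𝓝 0) := by
    simpa using (hc.tendsto u).mono_left (nhdsWithin_le_nhds (s := A))
  refine squeeze_zero' (Eventually.of_forall fun _ => norm_nonneg _) ?_ h0
  filter_upwards [self_mem_nhdsWithin] with v hv using wh_bd h hu hv

theorem wh_der {K : ℝ} {g μ : ℂ → ℂ} {A : Set ℂ} (h : Wh K 0 g μ A) {u : ℂ}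
    (hu : u ∈ interior A) : HasDerivAt g (μ u) u := by
  rw [hasDerivAt_iff_isLittleO]
  refine Asymptotics.IsLittleO.of_bound fun ε hε => ?_
  have h0 : Tendsto (fun y : ℂ => K * ‖y - u‖) (𝓝 u) (𝓝 0) := by
    have hc : Continuous fun y : ℂ => K * ‖y - u‖ := by fun_prop
    simpa using hc.tendsto u
  filter_upwards [mem_interior_iff_mem_nhds.1 hu, h0.eventually (eventually_le_nhds hε)]
    with y hy hy2
  have h1 := h.tay u (interior_subset hu) y hy
  rw [add_zero] at h1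
  have e1 : g y - g u - (y - u) • μ u = g y - g u - μ u * (y - u) := by
    rw [smul_eq_mul]; ring
  rw [e1]
  nlinarith [norm_nonneg (y - u)]

theorem wh_lip {K : ℝ} {g μ : ℂ → ℂ} {A : Set ℂ} (h : Wh K 0 g μ A) {u v : ℂ} (hu : u ∈ A)
    (hv : v ∈ A) (h1 : ‖v - u‖ ≤ 1) : ‖g v - g u‖ ≤ 2 * K * ‖v - u‖ := by
  have h2 := wh_bd h hu hv
  have hK : 0 ≤ K := (norm_nonneg _).trans (h.bg u hu)
  have h3 : ‖v - u‖ ^ 2 ≤ ‖v - u‖ := by nlinarith [norm_nonneg (v - u)]
  nlinarith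

/-- points near the middle of the base of a triangle -/
theorem near_mid (γ : ℂ) (hγ : 0 < γ.im) : ∃ r : ℝ, 0 < r ∧ ∀ w ∈ closedBall (1 / 2 : ℂ) r,
    0 ≤ w.im → ∃ t x : ℝ, t = w.im / γ.im ∧ t < 1 ∧ 0 ≤ x ∧ x ≤ 1 ∧
      w = (t : ℂ) * γ + ((1 - t : ℝ) : ℂ) * (x : ℂ) := by
  have c1 : Continuous fun w : ℂ => w.im / γ.im := by fun_prop
  have c2 : Continuous fun w : ℂ => w.re - w.im / γ.im * γ.re := by fun_prop
  have c3 : Continuous fun w : ℂ => w.re - w.im / γ.im * γ.re + w.im / γ.im := by fun_prop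
  have e1 : ∀ᶠ w in 𝓝 (1 / 2 : ℂ), w.im / γ.im < 1 :=
    c1.continuousAt.eventually_lt continuousAt_const (by simp)
  have e2 : ∀ᶠ w in 𝓝 (1 / 2 : ℂ), 0 < w.re - w.im / γ.im * γ.re :=
    continuousAt_const.eventually_lt c2.continuousAt (by simp)
  have e3 : ∀ᶠ w in 𝓝 (1 / 2 : ℂ), w.re - w.im / γ.im * γ.re + w.im / γ.im < 1 :=
    c3.continuousAt.eventually_lt continuousAt_const (by simp; norm_num)
  obtain ⟨r, hr, H⟩ := Metric.nhds_basis_closedBall.eventually_iff.1 (e1.and (e2.and e3))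
  refine ⟨r, hr, fun w hw _ => ?_⟩
  obtain ⟨h1, h2, h3⟩ := H hw
  have h4 : 0 < 1 - w.im / γ.im := by linarith
  refine ⟨w.im / γ.im, (w.re - w.im / γ.im * γ.re) / (1 - w.im / γ.im), rfl, h1,
    (div_pos h2 h4).le, (div_le_one h4).2 (by linarith), ?_⟩
  rw [← Complex.ofReal_mul, mul_div_cancel₀ _ h4.ne']
  apply Complex.ext
  · simp only [Complex.add_re, Complex.mul_re, Complex.ofReal_re, Complex.ofReal_im]; ring
  · simp only [Complex.add_im, Complex.mul_im, Complex.ofReal_re, Complex.ofReal_im]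
    field_simp
    ring

theorem uniq0 (hP : PAIN) {A : Set ℂ} {f : ℂ → ℂ} {p q c : ℂ} (hA : Convex ℝ A)
    (hc : c ∈ interior A) (hpq : p ≠ q) (him : 0 < ((c - p) / (q - p)).im)
    (hf : ContinuousOn f A) (hd : DifferentiableOn ℂ f (interior A)) (hs : segment ℝ p q ⊆ A)
    (h0 : ∀ u ∈ segment ℝ p q, f u = 0) : ∀ u ∈ A, f u = 0 := by
  classical
  have hD : q - p ≠ 0 := sub_ne_zero.2 hpq.symm
  obtain ⟨r, hr, H⟩ := near_mid _ him
  have seg : ∀ x : ℝ, 0 ≤ x → x ≤ 1 → p + (q - p) * x ∈ segment ℝ p q := fun x h1 h2 =>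
    ⟨1 - x, x, by linarith, h1, by ring, by
      simp only [Complex.real_smul]; push_cast; ring⟩
  have key : ∀ w ∈ closedBall (1 / 2 : ℂ) r, 0 ≤ w.im → p + (q - p) * w ∈ A ∧
      (w.im = 0 → f (p + (q - p) * w) = 0) ∧ (0 < w.im → p + (q - p) * w ∈ interior A) := by
    intro w hw hw0
    obtain ⟨t, x, ht, t1, x0, x1, e⟩ := H w hw hw0
    have t0 : 0 ≤ t := by rw [ht]; exact div_nonneg hw0 him.le
    have e' : p + (q - p) * w = t • c + (1 - t) • (p + (q - p) * x) := by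
      rw [e]
      simp only [Complex.real_smul]
      push_cast
      field_simp
      ring
    refine ⟨?_, fun h => ?_, fun h => ?_⟩
    · rw [e']
      exact hA (interior_subset hc) (hs (seg x x0 x1)) t0 (by linarith) (by ring)
    · have : t = 0 := by rw [ht, h, zero_div]
      rw [e', this, zero_smul, sub_zero, one_smul, zero_add]
      exact h0 _ (seg x x0 x1)
    · rw [e']
      exact hA.combo_interior_self_mem_interior hc (hs (seg x x0 x1))
        (by rw [ht]; exact div_pos h him) (by linarith) (by ring)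
  let u : ℂ → ℂ := fun w => if 0 < w.im then f (p + (q - p) * w) else 0
  have uc : ContinuousOn u (closedBall (1 / 2 : ℂ) r) := by
    have e : closedBall (1 / 2 : ℂ) r = (closedBall (1 / 2 : ℂ) r ∩ {w | 0 ≤ w.im}) ∪
        (closedBall (1 / 2 : ℂ) r ∩ {w | w.im ≤ 0}) := by
      ext w
      constructor
      · intro hw
        rcases le_total 0 w.im with h | h
        · exact Or.inl ⟨hw, h⟩
        · exact Or.inr ⟨hw, h⟩
      · rintro (h | h) <;> exact h.1
    rw [e]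
    refine ContinuousOn.union_of_isClosed ?_ ?_
      (isClosed_closedBall.inter (isClosed_le continuous_const Complex.continuous_im))
      (isClosed_closedBall.inter (isClosed_le Complex.continuous_im continuous_const))
    · refine (hf.comp (f := fun w : ℂ => p + (q - p) * w) (by fun_prop)
        fun w hw => (key w hw.1 hw.2).1).congr fun w hw => ?_
      have hw2 : 0 ≤ w.im := hw.2
      rcases hw2.eq_or_lt with h | h
      · simp only [u, Function.comp, if_neg (not_lt.2 h.ge)]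
        exact ((key w hw.1 hw.2).2.1 h.symm).symm
      · simp only [u, Function.comp, if_pos h]
    · refine (continuousOn_const (c := (0 : ℂ))).congr fun w hw => ?_
      have hw2 : w.im ≤ 0 := hw.2
      simp only [u, if_neg (not_lt.2 hw2)]
  have up : ∀ w : ℂ, 0 < w.im → u =ᶠ[𝓝 w] fun w => f (p + (q - p) * w) := fun w hw => by
    filter_upwards [continuousAt_const.eventually_lt Complex.continuous_im.continuousAt hw]
      with z hz
    simp only [u, if_pos hz]
  have lo : ∀ w : ℂ, w.im < 0 → u =ᶠ[𝓝 w] 0 := fun w hw => by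
    filter_upwards [Complex.continuous_im.continuousAt.eventually_lt continuousAt_const hw]
      with z hz
    simp only [u, if_neg (not_lt.2 hz.le), Pi.zero_apply]
  have ud : DifferentiableOn ℂ u (ball (1 / 2 : ℂ) r) := by
    refine hP u 0 1 (1 / 2) r one_ne_zero (uc.mono ball_subset_closedBall) fun w hw h => ?_
    rw [sub_zero, mul_one] at h
    rcases lt_or_gt_of_ne h with h | h
    · exact (differentiableAt_const (0 : ℂ)).congr_of_eventuallyEq (lo w h)
    · have h1 := (key w (ball_subset_closedBall hw) h.le).2.2 h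
      have h2 : DifferentiableAt ℂ f (p + (q - p) * w) :=
        hd.differentiableAt (isOpen_interior.mem_nhds h1)
      exact (h2.comp w (f := fun w : ℂ => p + (q - p) * w) (by fun_prop)).congr_of_eventuallyEq
        (up w h)
  have mem : ∀ s : ℝ, |s| < r → (1 / 2 + (s : ℂ) * I) ∈ ball (1 / 2 : ℂ) r := fun s hs => by
    rw [mem_ball, dist_eq_norm, add_sub_cancel_left, norm_mul, Complex.norm_I, mul_one,
      Complex.norm_real, Real.norm_eq_abs]
    exact hs
  have u0 : EqOn u 0 (ball (1 / 2 : ℂ) r) :=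
    (ud.analyticOnNhd isOpen_ball).eqOn_zero_of_preconnected_of_eventuallyEq_zero
      (convex_ball _ _).isPreconnected (mem (-(r / 2)) (by rw [abs_lt]; constructor <;> linarith))
      (lo _ (by simp; linarith))
  set w1 : ℂ := 1 / 2 + ((r / 2 : ℝ) : ℂ) * I with hw1
  have m1 : w1 ∈ ball (1 / 2 : ℂ) r := mem (r / 2) (by rw [abs_lt]; constructor <;> linarith)
  have i1 : 0 < w1.im := by rw [hw1]; simp; linarith
  have z1 := (key w1 (ball_subset_closedBall m1) i1.le).2.2 i1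
  have ev : ∀ᶠ w in 𝓝 w1, f (p + (q - p) * w) = 0 := by
    filter_upwards [up w1 i1, isOpen_ball.mem_nhds m1] with w h1 h2
    rw [← h1]; exact u0 h2
  have ev' : f =ᶠ[𝓝 (p + (q - p) * w1)] 0 := by
    have ct : Tendsto (fun z : ℂ => (z - p) / (q - p)) (𝓝 (p + (q - p) * w1)) (𝓝 w1) := by
      have hc' : Continuous fun z : ℂ => (z - p) / (q - p) := by fun_prop
      have := hc'.tendsto (p + (q - p) * w1)
      rwa [add_sub_cancel_left, mul_div_cancel_left₀ _ hD] at this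
    filter_upwards [ct.eventually ev] with z hz
    rwa [mul_div_cancel₀ _ hD, add_sub_cancel] at hz
  have f0 : EqOn f 0 (interior A) :=
    (hd.analyticOnNhd isOpen_interior).eqOn_zero_of_preconnected_of_eventuallyEq_zero
      hA.interior.isPreconnected z1 ev'
  have fA : EqOn f 0 A := f0.of_subset_closure hf continuousOn_const interior_subset (by
    rw [hA.closure_interior_eq_closure_of_nonempty_interior ⟨c, hc⟩]; exact subset_closure)
  exact fun u hu => fA hu

theorem uniq1 (hP : PAIN) {A : Set ℂ} {f : ℂ → ℂ} {p q : ℂ} (hA : Convex ℝ A)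
    (hi : (interior A).Nonempty) (hf : ContinuousOn f A) (hd : DifferentiableOn ℂ f (interior A))
    (hpq : p ≠ q) (hs : segment ℝ p q ⊆ A) (h0 : ∀ u ∈ segment ℝ p q, f u = 0) :
    ∀ u ∈ A, f u = 0 := by
  have hD : q - p ≠ 0 := sub_ne_zero.2 hpq.symm
  have hD' : p - q ≠ 0 := sub_ne_zero.2 hpq
  obtain ⟨c, hc, him⟩ : ∃ c ∈ interior A, ((c - p) / (q - p)).im ≠ 0 := by
    obtain ⟨c, hc⟩ := hi
    by_cases h : ((c - p) / (q - p)).im = 0
    · have hc' : Continuous fun ε : ℝ => c + (ε : ℂ) * I * (q - p) := by fun_prop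
      have t : Tendsto (fun ε : ℝ => c + (ε : ℂ) * I * (q - p)) (𝓝 0) (𝓝 c) := by
        simpa using hc'.tendsto 0
      obtain ⟨ε, h1, h2⟩ := (((t.eventually (isOpen_interior.mem_nhds hc)).filter_mono
        (nhdsWithin_le_nhds (s := {0}ᶜ))).and self_mem_nhdsWithin).exists
      refine ⟨_, h1, ?_⟩
      have e : (c + (ε : ℂ) * I * (q - p) - p) / (q - p) = (c - p) / (q - p) + (ε : ℂ) * I := by
        field_simp
        ring
      rw [e, Complex.add_im, h]
      simpa using h2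
    · exact ⟨c, hc, h⟩
  rcases lt_or_gt_of_ne him with h | h
  · refine uniq0 hP (p := q) (q := p) hA hc hpq.symm ?_ hf hd (by rwa [segment_symm])
      (by rwa [segment_symm])
    have e : (c - q) / (p - q) = 1 - (c - p) / (q - p) := by
      field_simp
      ring
    rw [e, Complex.sub_im, Complex.one_im]
    linarith
  · exact uniq0 hP hA hc hpq h hf hd hs h0

theorem int3' {A : Set ℂ} {p q r : ℂ} (hA : Convex ℝ A) (hp : p ∈ A) (hq : q ∈ A) (hr : r ∈ A)
    (h : ∀ x y : ℝ, (x : ℂ) * (q - p) + (y : ℂ) * (r - p) = 0 → x = 0 ∧ y = 0) :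
    (interior A).Nonempty := by
  let L : ℂ →ₗ[ℝ] ℂ :=
    { toFun := fun w => (w.re : ℂ) * (q - p) + (w.im : ℂ) * (r - p)
      map_add' := fun a b => by simp only [Complex.add_re, Complex.add_im]; push_cast; ring
      map_smul' := fun a b => by
        simp only [Complex.real_smul, Complex.mul_re, Complex.mul_im, Complex.ofReal_re,
          Complex.ofReal_im, RingHom.id_apply]
        push_cast; ring }
  have hinj : Function.Injective L := by
    rw [injective_iff_map_eq_zero]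
    intro w hw
    obtain ⟨h1, h2⟩ := h w.re w.im hw
    exact Complex.ext h1 h2
  have ho : IsOpenMap L :=
    L.isOpenMap_of_finiteDimensional (LinearMap.injective_iff_surjective.1 hinj)
  let U : Set ℂ := {w | 0 < w.re ∧ 0 < w.im ∧ w.re + w.im < 1}
  have hU : IsOpen U := (isOpen_lt continuous_const Complex.continuous_re).inter
    ((isOpen_lt continuous_const Complex.continuous_im).inter
      (isOpen_lt (Complex.continuous_re.add Complex.continuous_im) continuous_const))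
  have hV : IsOpen ((fun z => p + z) '' (L '' U)) := isOpenMap_add_left p _ (ho U hU)
  have hs : (fun z => p + z) '' (L '' U) ⊆ A := by
    rintro _ ⟨_, ⟨w, ⟨h1, h2, h3⟩, rfl⟩, rfl⟩
    have hh : hull p r q ⊆ A := convexHull_min (by
      rintro z (rfl | rfl | rfl) <;> assumption) hA
    refine hh (mem_hull.2 ⟨w.re, w.im, h1.le, h2.le, h3.le, ?_⟩)
    show p + ((w.re : ℂ) * (q - p) + (w.im : ℂ) * (r - p)) = _
    ring
  exact ⟨_, interior_maximal hs hV ⟨_, ⟨⟨1 / 3, 1 / 3⟩, ⟨by norm_num, by norm_num, by norm_num⟩,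
    rfl⟩, rfl⟩⟩

theorem a0 : acol 0 = 1 := by simp [acol]
theorem a1 : acol 1 = (Real.sqrt 3 : ℂ) * I := by simp [acol]
theorem a2 : acol 2 = -1 := by simp [acol]
theorem a3 : acol 3 = 1 := by simp [acol]
theorem a4 : acol 4 = (Real.sqrt 3 : ℂ) * I := by simp [acol]

theorem s3 : 0 < Real.sqrt 3 := Real.sqrt_pos.2 (by norm_num)
theorem s3q : Real.sqrt 3 * Real.sqrt 3 = 3 := Real.mul_self_sqrt (by norm_num)
theorem s3l : 173 / 100 < Real.sqrt 3 := Real.lt_sqrt_of_sq_lt (by norm_num)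
theorem s3u : Real.sqrt 3 < 174 / 100 := (Real.sqrt_lt' (by norm_num)).2 (by norm_num)

theorem mem_tg {τ : ℝ} {w u : ℂ} : u ∈ Tg τ w ↔ ∃ x y : ℝ, 0 ≤ x ∧ 0 ≤ y ∧ x + y ≤ 1 ∧
    u = w + τ * (-1 + (x : ℂ) * ((Real.sqrt 3 : ℂ) * I + 1) + 2 * y) := by
  unfold Tg
  rw [mem_hull, a2, a3, a4]
  refine exists_congr fun x => exists_congr fun y => and_congr_right fun _ =>
    and_congr_right fun _ => and_congr_right fun _ => ?_
  constructor <;> (intro h; rw [h]; ring)

theorem tgm' (ξ : ℂ) :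
    ξ ∈ Tg 1 0 ↔ 0 ≤ ξ.im ∧ Real.sqrt 3 * |ξ.re| + ξ.im ≤ Real.sqrt 3 := by
  have h3 := s3
  rw [mem_tg]
  constructor
  · rintro ⟨x, y, h1, h2, h4, e⟩
    have e1 : ξ.re = -1 + x + 2 * y := by rw [e]; simp
    have e2 : ξ.im = x * Real.sqrt 3 := by rw [e]; simp
    have h5 : |ξ.re| ≤ 1 - x := by rw [e1, abs_le]; constructor <;> linarith
    rw [e2]
    exact ⟨by positivity, by nlinarith⟩
  · rintro ⟨h1, h2⟩
    have h5 : |ξ.re| ≤ 1 - ξ.im / Real.sqrt 3 := by
      have : Real.sqrt 3 * |ξ.re| ≤ Real.sqrt 3 * (1 - ξ.im / Real.sqrt 3) := by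
        rw [mul_sub, mul_div_cancel₀ _ h3.ne']; linarith
      exact le_of_mul_le_mul_left this h3
    rw [abs_le] at h5
    refine ⟨ξ.im / Real.sqrt 3, (ξ.re + 1 - ξ.im / Real.sqrt 3) / 2, by positivity, by linarith,
      by linarith, ?_⟩
    generalize hx : ξ.im / Real.sqrt 3 = x
    have hx' : ξ.im = x * Real.sqrt 3 := by rw [← hx]; field_simp
    apply Complex.ext
    · simp; ring
    · simp [hx']

theorem tgs' {τ : ℝ} (w ξ : ℂ) (hτ : 0 < τ) : w + τ * ξ ∈ Tg τ w ↔ ξ ∈ Tg 1 0 := by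
  have h : (τ : ℂ) ≠ 0 := Complex.ofReal_ne_zero.2 hτ.ne'
  rw [mem_tg, mem_tg]
  refine exists_congr fun x => exists_congr fun y => and_congr_right fun _ =>
    and_congr_right fun _ => and_congr_right fun _ => ?_
  rw [add_right_inj, mul_right_inj' h, Complex.ofReal_one, zero_add, one_mul]

theorem tgi' {τ : ℝ} (w ξ : ℂ) (hτ : 0 < τ) (hξ : ξ ∈ interior (Tg 1 0)) :
    w + τ * ξ ∈ interior (Tg τ w) := by
  have h : (τ : ℂ) ≠ 0 := Complex.ofReal_ne_zero.2 hτ.ne'
  rw [mem_interior_iff_mem_nhds] at hξ ⊢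
  have ct : Tendsto (fun z : ℂ => (z - w) / τ) (𝓝 (w + τ * ξ)) (𝓝 ξ) := by
    have hc' : Continuous fun z : ℂ => (z - w) / τ := by fun_prop
    have := hc'.tendsto (w + τ * ξ)
    rwa [add_sub_cancel_left, mul_div_cancel_left₀ _ h] at this
  filter_upwards [ct.eventually hξ] with z hz
  have := (tgs' w _ hτ).2 hz
  rwa [mul_div_cancel₀ _ h, add_sub_cancel] at this

theorem actr_re : actr.re = 0 := by simp [actr]

theorem actr_im : actr.im = Real.sqrt 3 / 3 := by
  have h := s3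
  have e : actr = ((Real.sqrt 3 / 3 : ℝ) : ℂ) * I := by
    have h1 : (Real.sqrt 3 : ℂ) ≠ 0 := Complex.ofReal_ne_zero.2 h.ne'
    have h2 : (Real.sqrt 3 : ℂ) * (Real.sqrt 3 : ℂ) = 3 := by exact_mod_cast s3q
    unfold actr
    push_cast
    field_simp
    rw [sq, h2]
  rw [e]; simp

theorem near_actr {z : ℂ} {r : ℝ} (h : z ∈ ball actr r) :
    z.re ^ 2 + (z.im - Real.sqrt 3 / 3) ^ 2 < r ^ 2 := by
  rw [mem_ball, dist_eq_norm] at h
  have h1 := Complex.sq_norm (z - actr)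
  rw [Complex.normSq_apply, Complex.sub_re, Complex.sub_im, actr_re, actr_im] at h1
  have h2 : ‖z - actr‖ ^ 2 < r ^ 2 := by nlinarith [norm_nonneg (z - actr)]
  nlinarith

theorem tgb' : ball actr (1 / 2) ⊆ Tg 1 0 := by
  intro z hz
  have h := near_actr hz
  have h1 := s3l
  have h2 := s3u
  have h3 := s3q
  rw [tgm']
  have h4 : |z.re| ^ 2 = z.re ^ 2 := sq_abs _
  rw [← h4] at h
  have h5 := abs_nonneg z.re
  generalize |z.re| = x at *
  constructor
  · nlinarith
  · have h6 : Real.sqrt 3 * x + (z.im - Real.sqrt 3 / 3) < 1 := by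
      by_contra hn
      rw [not_lt] at hn
      nlinarith [sq_nonneg (x - Real.sqrt 3 * (z.im - Real.sqrt 3 / 3))]
    linarith

theorem maxp {T U : Set ℂ} (hT : IsClosed T) (hb : Bornology.IsBounded T) (hU : IsOpen U)
    (hUT : U ⊆ T) {f : ℂ → ℂ} (hc : ContinuousOn f T) (hd : DifferentiableOn ℂ f (interior T))
    {B : ℝ} (h : ∀ z ∈ T, z ∉ U → ‖f z‖ ≤ B) : ∀ z ∈ T, ‖f z‖ ≤ B := by
  intro z hz
  by_cases hzU : z ∈ U
  · have hcl : closure U ⊆ T := closure_minimal hUT hT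
    refine Complex.norm_le_of_forall_mem_frontier_norm_le (hb.subset hUT)
      ⟨hd.mono (interior_maximal hUT hU), hc.mono hcl⟩ (fun y hy => ?_) (subset_closure hzU)
    rw [hU.frontier_eq] at hy
    exact h y (hcl hy.1) hy.2
  · exact h z hz hzU

theorem mx' {f : ℂ → ℂ} {B : ℝ} (hc : ContinuousOn f (Tg 1 0))
    (hd : DifferentiableOn ℂ f (interior (Tg 1 0)))
    (h : ∀ t : ℝ, 0 ≤ t → t ≤ 1 → ‖f (acol 2 + t * (acol 0 - acol 2))‖ ≤ B ∧
      ‖f (acol 0 + t * (acol 1 - acol 0))‖ ≤ B ∧ ‖f (acol 1 + t * (acol 2 - acol 1))‖ ≤ B) :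
    ∀ ξ ∈ Tg 1 0, ‖f ξ‖ ≤ B := by
  have h3 := s3
  have e : Tg 1 0 = {ξ : ℂ | 0 ≤ ξ.im ∧ Real.sqrt 3 * |ξ.re| + ξ.im ≤ Real.sqrt 3} :=
    Set.ext tgm'
  have cc : Continuous fun ξ : ℂ => Real.sqrt 3 * |ξ.re| + ξ.im := by fun_prop
  refine maxp (U := {ξ : ℂ | 0 < ξ.im ∧ Real.sqrt 3 * |ξ.re| + ξ.im < Real.sqrt 3}) ?_ ?_ ?_ ?_
    hc hd fun z hz hn => ?_
  · rw [e]
    exact (isClosed_le continuous_const Complex.continuous_im).inter
      (isClosed_le cc continuous_const)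
  · refine (isBounded_closedBall (x := (0 : ℂ)) (r := 3)).subset fun z hz => ?_
    obtain ⟨h1, h2⟩ := (tgm' z).1 hz
    rw [mem_closedBall, dist_zero_right]
    have h4 := Complex.norm_le_abs_re_add_abs_im z
    rw [abs_of_nonneg h1] at h4
    nlinarith [abs_nonneg z.re, s3l, s3u]
  · exact (isOpen_lt continuous_const Complex.continuous_im).inter (isOpen_lt cc continuous_const)
  · exact fun z hz => (tgm' z).2 ⟨hz.1.le, hz.2.le⟩
  obtain ⟨h1, h2⟩ := (tgm' z).1 hz
  have h4 : |z.re| ≤ 1 := by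
    have : Real.sqrt 3 * |z.re| ≤ Real.sqrt 3 * 1 := by linarith
    exact le_of_mul_le_mul_left this h3
  rw [abs_le] at h4
  simp only [a0, a1, a2] at h
  rcases h1.eq_or_lt with k | k
  · have := (h ((z.re + 1) / 2) (by linarith) (by linarith)).1
    have e' : -1 + (((z.re + 1) / 2 : ℝ) : ℂ) * (1 - -1) = z := by
      generalize hx : (z.re + 1) / 2 = x
      apply Complex.ext
      · simp; linarith
      · simp [← k]
    rwa [e'] at this
  have k2 : Real.sqrt 3 * |z.re| + z.im = Real.sqrt 3 :=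
    le_antisymm h2 (not_lt.1 fun k' => hn ⟨k, k'⟩)
  rcases le_total 0 z.re with k3 | k3
  · rw [abs_of_nonneg k3] at k2
    have := (h (1 - z.re) (by linarith) (by linarith)).2.1
    have e' : 1 + ((1 - z.re : ℝ) : ℂ) * ((Real.sqrt 3 : ℂ) * I - 1) = z := by
      apply Complex.ext
      · simp
      · simp; linarith
    rwa [e'] at this
  · rw [abs_of_nonpos k3] at k2
    have := (h (-z.re) (by linarith) (by linarith)).2.2
    have e' : (Real.sqrt 3 : ℂ) * I + ((-z.re : ℝ) : ℂ) * (-1 - (Real.sqrt 3 : ℂ) * I) = z := by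
      apply Complex.ext
      · simp
      · simp; linarith
    rwa [e'] at this

theorem wt_norm (lam : ℝ) (z : ℂ) : ‖Complex.exp ((lam : ℂ) * (9 / 10 + I * z) ^ 2)‖ =
    Real.exp (lam * ((9 / 10 - z.im) ^ 2 - z.re ^ 2)) := by
  rw [Complex.norm_exp]
  congr 1
  have e : (9 / 10 + I * z : ℂ) = ⟨9 / 10 - z.im, z.re⟩ := by
    apply Complex.ext
    · simp; ring
    · simp
  rw [e, Complex.re_ofReal_mul, sq, Complex.mul_re]
  ring

theorem tc0' {K η : ℝ} (hK : 0 < K) (hη : 0 < η) : ∃ δ : ℝ, 0 < δ ∧ ∀ f : ℂ → ℂ,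
    ContinuousOn f D0 → DifferentiableOn ℂ f (interior D0) → (∀ z ∈ D0, ‖f z‖ ≤ K) →
    (∀ x : ℝ, |x| ≤ 9 / 10 → ‖f x‖ ≤ δ) → ∀ z ∈ ball actr (1 / 20), ‖f z‖ ≤ η := by
  obtain ⟨lam, hl, hl'⟩ : ∃ lam : ℝ, 0 < lam ∧ K = η * (lam * (1 / 20)) :=
    ⟨20 * K / η, by positivity, by field_simp⟩
  refine ⟨K * Real.exp (-lam), by positivity, fun f hc hd hb h0 z hz => ?_⟩
  have cc : Continuous fun ξ : ℂ => |ξ.re| + ξ.im := by fun_prop
  have hw : Differentiable ℂ fun z : ℂ => Complex.exp ((lam : ℂ) * (9 / 10 + I * z) ^ 2) := by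
    fun_prop
  have key : ∀ z ∈ D0, ‖f z * Complex.exp ((lam : ℂ) * (9 / 10 + I * z) ^ 2)‖ ≤ K := by
    refine maxp (U := {ξ : ℂ | 0 < ξ.im ∧ |ξ.re| + ξ.im < 9 / 10}) ?_ ?_ ?_ ?_
      (hc.mul hw.continuous.continuousOn) (hd.mul hw.differentiableOn) fun y hy hn => ?_
    · exact (isClosed_le continuous_const Complex.continuous_im).inter
        (isClosed_le cc continuous_const)
    · refine (isBounded_closedBall (x := (0 : ℂ)) (r := 3)).subset fun z hz => ?_
      obtain ⟨h1, h2⟩ := hz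
      rw [mem_closedBall, dist_zero_right]
      have h4 := Complex.norm_le_abs_re_add_abs_im z
      rw [abs_of_nonneg h1] at h4
      linarith
    · exact (isOpen_lt continuous_const Complex.continuous_im).inter
        (isOpen_lt cc continuous_const)
    · exact fun z hz => ⟨hz.1.le, hz.2.le⟩
    obtain ⟨h1, h2⟩ := id hy
    rw [Pi.mul_apply, norm_mul, wt_norm]
    rcases h1.eq_or_lt with k | k
    · have e : (y.re : ℂ) = y := Complex.ext (by simp) (by simp [k])
      have h3 := h0 y.re (by linarith)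
      rw [e] at h3
      have h4 : Real.exp (lam * ((9 / 10 - y.im) ^ 2 - y.re ^ 2)) ≤ Real.exp lam := by
        rw [Real.exp_le_exp, ← k]
        nlinarith [sq_nonneg y.re]
      calc _ ≤ K * Real.exp (-lam) * Real.exp lam :=
            mul_le_mul h3 h4 (Real.exp_pos _).le (by positivity)
        _ = K := by rw [mul_assoc, ← Real.exp_add, neg_add_cancel, Real.exp_zero, mul_one]
    · have k2 : |y.re| + y.im = 9 / 10 := le_antisymm h2 (not_lt.1 fun k' => hn ⟨k, k'⟩)
      have e : (9 / 10 - y.im) ^ 2 - y.re ^ 2 = 0 := by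
        rw [← sq_abs y.re, ← k2]; ring
      rw [e, mul_zero, Real.exp_zero, mul_one]
      exact hb y hy
  have h1 := near_actr hz
  have h2 := s3l
  have h3 := s3u
  have h4 : |z.re| ≤ 1 / 20 := abs_le.2 ⟨by nlinarith [sq_nonneg (z.im - Real.sqrt 3 / 3)],
    by nlinarith [sq_nonneg (z.im - Real.sqrt 3 / 3)]⟩
  have h5 : z.im - Real.sqrt 3 / 3 ≤ 1 / 20 := by nlinarith [sq_nonneg z.re]
  have h6 : -(1 / 20) ≤ z.im - Real.sqrt 3 / 3 := by nlinarith [sq_nonneg z.re]
  have h7 := key z ⟨by linarith, by linarith⟩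
  rw [norm_mul, wt_norm] at h7
  have h8 : 1 / 20 ≤ (9 / 10 - z.im) ^ 2 - z.re ^ 2 := by
    nlinarith [sq_nonneg (z.im - Real.sqrt 3 / 3)]
  have h9 : lam * (1 / 20) ≤ Real.exp (lam * ((9 / 10 - z.im) ^ 2 - z.re ^ 2)) := by
    have := Real.add_one_le_exp (lam * ((9 / 10 - z.im) ^ 2 - z.re ^ 2))
    nlinarith
  have h10 : ‖f z‖ * (lam * (1 / 20)) ≤ η * (lam * (1 / 20)) := by
    rw [← hl']
    exact (mul_le_mul_of_nonneg_left h9 (norm_nonneg _)).trans h7
  exact le_of_mul_le_mul_right h10 (by positivity)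

end AnaA

open AnaA in
theorem rowANA : R_ANA := fun _ hP =>
  { cont := fun _ _ _ _ h => wh_cont h
    der := fun _ _ _ _ h _ hu => wh_der h hu
    lip := fun _ _ _ _ h _ hu _ hv h1 => wh_lip h hu hv h1
    uniq := fun _ _ _ _ hA hi hf hd hpq hs h0 => uniq1 hP hA hi hf hd hpq hs h0
    int3 := fun _ _ _ _ hA hp hq hr h => int3' hA hp hq hr h
    tgm := tgm'
    tgs := fun _ w ξ hτ => tgs' w ξ hτ
    tgi := fun _ w ξ hτ hξ => tgi' w ξ hτ hξ
    tgb := tgb'
    mx := fun _ _ hc hd h => mx' hc hd h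
    tc0 := fun _ _ hK hη => tc0' hK hη }

end

end Pool.Agent.MP_d32a63_an.H13N
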