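import Pool.Agent.MP_d32a63_an.H13N.PREP3B

/-! The data of a fine level: the choice of the parameters. -/

open Set Filter Topology Metric Polynomial
open Complex (I)
open Pool.Agent.MP_d32a63_an.H95 (Core Sec jet W0 Flat RealStmt)
open Pool.Agent.MP_d32a63_an.H58 hiding Cells Sq LAV LA1 LA2 LIMA LIMB LIM FIN

namespace Pool.Agent.MP_d32a63_an.H13N

noncomputable section

namespace PREP3

theorem nd_div {τ : ℝ} {N : ℕ} (N0 : 0 < N) {e1 e2 : ℂ} (h : ND τ (e1 * N) (e2 * N)) :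
    ND (τ / N) e1 e2 := by
  have hN : (0 : ℝ) < N := by exact_mod_cast N0
  intro x y
  obtain ⟨a1, a2⟩ := h x y
  rw [show (x : ℂ) * (e1 * N) + (y : ℂ) * (e2 * N) = ((x : ℂ) * e1 + (y : ℂ) * e2) * N by ring,
    norm_mul, Complex.norm_natCast] at a1 a2
  constructor
  · rw [show τ / N * (|x| + |y|) / 2 = τ * (|x| + |y|) / 2 / N by ring, div_le_iff₀ hN]
    exact a1
  · rw [show 3 * (τ / N) * (|x| + |y|) = 3 * τ * (|x| + |y|) / N by ring, le_div_iff₀ hN]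
    exact a2

/-- The fine level on a given coarse level. -/
theorem fine (hB : BASIC) {n : ℕ} {ω : ℂ} {c γ : ℝ} {Mod : ℂ → Finset ℂ} (hR : RT ω c γ Mod)
    {W : Set ℂ} (hW : W0 ⊆ W) {F : ℕ → ℂ → ℂ} {g L τ κ a Cg : ℝ} (h : Fn n F g L)
    (hrat : ∃ q : ℚ, L = q) (t0 : 0 < τ) (t1 : τ ≤ 1) (hκ : κ = 50 * τ) (g0 : 0 < g)
    (g1 : g ≤ γ * τ / 16) (g2 : g ≤ τ / 3000) (a0 : 0 < a) (a1 : a ≤ 1 / 100) (hCg : 0 < Cg)
    {m0 : ℕ} (hm0 : 20 ≤ m0) {O : Set Obj} {To : Obj → ℂ[X]} {μ : Obj → ℝ} (hgeo : ObjGeo W L O)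
    (oj : ∀ o ∈ O, ∀ j ≤ n, jet (To o) j o.y = F j o.y ∧ (o.thr → jet (To o) j o.fin = F j o.fin))
    (oc : ∀ o ∈ O, Close n F κ (To o) (segment ℝ o.y o.fin)) (hμ0 : ∀ o, 0 ≤ μ o)
    (hμ : ∀ o ∈ O, ∀ z ∈ segment ℝ o.y o.fin, ‖(To o).eval z - F 0 z‖ ≤ μ o)
    {ℓ0 : ℝ} (hℓ0 : 0 < ℓ0) :
    ∃ (D : GD3) (ε : ℝ), D.ℓ ≤ ℓ0 ∧ Prep3 n Cg c ω W F κ τ τ a m0 L O To
      (fun o => g + 4 * τ * a + μ o)
      (fun o => Cg * o.St.card * (2 * (g + 4 * τ * a + μ o) + 8 * τ * a) / κ) D ε := by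
  classical
  have l0 := h.L0
  have k0 : 0 < κ := by linarith
  obtain ⟨t, ht⟩ := exists_nat_gt (max (8 / ℓ0) (max (800 / L) (8 / a)))
  simp only [max_lt_iff] at ht
  obtain ⟨u1, u2, u3⟩ := ht
  rw [div_lt_iff₀ (by positivity)] at u1 u2 u3
  have tR : (0 : ℝ) < t := by
    by_contra hc
    nlinarith [Nat.cast_nonneg (α := ℝ) t]
  have tN : 0 < t := by exact_mod_cast tR
  have mR : (20 : ℝ) ≤ m0 := by exact_mod_cast hm0
  obtain ⟨N, hN⟩ : ∃ N : ℕ, N = 6 * t * m0 := ⟨_, rfl⟩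
  have NR : (N : ℝ) = 6 * t * m0 := by rw [hN]; push_cast; ring
  have tle : (t : ℝ) ≤ N := by rw [NR]; nlinarith
  have hNR : (0 : ℝ) < N := by linarith
  have N0 : 0 < N := by exact_mod_cast hNR
  have h6 : 6 ∣ N := ⟨t * m0, by rw [hN]; ring⟩
  obtain ⟨ℓ, hℓ⟩ : ∃ ℓ : ℝ, ℓ = 8 / N := ⟨_, rfl⟩
  have ℓ0' : 0 < ℓ := by rw [hℓ]; positivity
  have ℓ1 : ℓ ≤ ℓ0 := by rw [hℓ, div_le_iff₀ hNR]; nlinarith
  have ℓL : 100 * ℓ ≤ L := by
    rw [hℓ, ← mul_div_assoc, div_le_iff₀ hNR]; nlinarith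
  have hsig : τ / N = τ * (ℓ / 8) := by rw [hℓ]; field_simp
  have haN : 8 ≤ a * N := by nlinarith
  obtain ⟨s, hs⟩ : ∃ s : ℝ, s = 1 / m0 := ⟨_, rfl⟩
  have s0 : 0 ≤ s := by rw [hs]; positivity
  have s1 : s ≤ 1 := by rw [hs, div_le_one (by linarith)]; linarith
  have hhs : ((6 * t : ℕ) : ℝ) = s * N := by rw [hs, NR]; push_cast; field_simp
  obtain ⟨xw, hxw⟩ : ∃ xw : ℕ, xw = ⌈a * N⌉₊ + 3 := ⟨_, rfl⟩
  have x1 : a * N + 3 ≤ xw := by
    have := Nat.le_ceil (a * N)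
    rw [hxw]; push_cast; linarith
  have x2 : (xw : ℝ) ≤ a * N + 4 := by
    have := Nat.ceil_lt_add_one (show 0 ≤ a * N by positivity)
    rw [hxw]; push_cast; linarith
  have x3 : (xw : ℝ) / N ≤ 2 * a := by rw [div_le_iff₀ hNR]; linarith
  have x4 : 2 * xw + 6 ≤ N := by
    have h1 : a * N ≤ 1 / 100 * N := by gcongr
    have : 2 * (xw : ℝ) + 6 ≤ N := by linarith
    exact_mod_cast this
  have hcen : ∀ R, act W L R → ‖cen L R‖ ≤ 1 := fun R hQ => H41.act_norm hB hW l0 hQ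
  have hδ : 2 * g / N = 2 * g / τ * (τ * (ℓ / 8)) := by rw [← hsig]; field_simp
  have hδ2 : 2 * g / N ≤ 2 * g / τ * τ := by
    rw [hδ]
    have : τ * (ℓ / 8) ≤ τ := by nlinarith [h.L1]
    gcongr
  have hlk : ∀ Q, act W L (clu Q) →
      (∀ u ∈ S6, p1 τ ω (d1 n N F τ s L ℓ 1 Q) (d2 n N F τ s L ℓ 1 Q) u ≠ 0 ∧
        ‖zz n N F τ s L ℓ τ ω Q u - xq L ℓ Q‖ ≤ ℓ / 3) ∧
      ∀ u ∈ S6, ∀ u' ∈ S6, u ≠ u' →
        c * ℓ ≤ |(zz n N F τ s L ℓ τ ω Q u).re - (zz n N F τ s L ℓ τ ω Q u').re| := by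
    intro Q hQ
    obtain ⟨⟨sg, hsg, b1, b2⟩, b3, b4, -⟩ := cell_geo (N := N) hB h (hcen _ hQ) t0 s0 s1 ℓ0' ℓL N0
    rw [hsig, hδ] at b1 b2
    obtain ⟨c1, c2⟩ := links hB hR t0 ℓ0' (δ := 2 * g / τ)
      (by rw [← mul_div_assoc, div_le_iff₀ t0]; linarith)
      (by rw [← mul_div_assoc, div_le_iff₀ t0]; linarith) hsg (lx Q) b1 b2 (b3.trans hδ2)
      (b4.trans hδ2)
    refine ⟨fun u hu => ⟨(c1 u hu).1, ?_⟩, fun u hu u' hu' hne => ?_⟩
    · unfold zz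
      rw [sub_sub_cancel_left, norm_neg]
      exact (c1 u hu).2
    · unfold zz
      rw [Complex.sub_re, Complex.sub_re, sub_sub_sub_cancel_left, abs_sub_comm]
      exact c2 u hu u' hu' hne
  refine ⟨⟨L, ℓ, N, 6 * t, xw, c, g * ℓ ^ 2, 2 * τ / N, TT n N F τ s L ℓ τ ω,
    fun Q => S6.image (zz n N F τ s L ℓ τ ω Q), fun Q m m' => zz n N F τ s L ℓ τ ω Q (tr m m')⟩,
    τ, ℓ1, ⟨ℓ0', ℓL, h.L1, ⟨8 / N, by show ℓ = _; rw [hℓ]; push_cast; rfl⟩, hrat, N0, h6,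
      by show 0 < 6 * t; omega, ?_, ⟨2 * t, by show 6 * t = _; ring⟩, x4, hR.c0, hR.c1,
      by show 0 ≤ g * ℓ ^ 2; positivity, by show 0 ≤ 2 * τ / N; positivity,
      fun Q hQ ζ hζ => ?_, fun Q hQ ζ hζ ζ' hζ' hne => ?_, fun Q hQ m m' hm => ?_,
      fun Q hQ m hm => ?_, fun Q x hQ hx => tt_shv N0 hQ hx,
      fun Q x hQ hx hk => tt_shh N0 h6 ⟨2 * t, by ring⟩ hhs hQ hx hk, hgeo, oj, oc,
      fun o _ => ?_, fun o ho j hj x hx z hz hzs => ?_⟩, rfl, rfl, hN.symm, ?_, le_rfl, t1, hsig,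
      x1, fun o _ => ?_, fun Q hQ => ?_⟩
  · show 6 * t ≤ N
    rw [hN]; exact Nat.le_mul_of_pos_right _ (by omega)
  · obtain ⟨u, hu, rfl⟩ := Finset.mem_image.1 hζ
    exact ((hlk Q hQ).1 u hu).2
  · obtain ⟨u, hu, rfl⟩ := Finset.mem_image.1 hζ
    obtain ⟨u', hu', rfl⟩ := Finset.mem_image.1 hζ'
    exact (hlk Q hQ).2 u hu u' hu' fun e => hne (by rw [e])
  · obtain ⟨b1, b2⟩ := (hlk Q hQ).1 _ (tr_mem hm)
    exact ⟨Finset.mem_image_of_mem _ (tr_mem hm),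
      tt_lk hB h (hcen _ hQ) t0 s0 s1 ℓ0' ℓL N0 hm b1 b2⟩
  · exact tt_close hB h (hcen _ hQ) t0 s0 s1 ℓ0' ℓL t0 hR.om N0 (by linarith) hm
  · have := hμ0 o
    positivity
  · obtain ⟨-, hQ, -⟩ := hgeo.st o ho j hj
    have hz' : ‖z - cen L (o.k, j)‖ ≤ 2 * L := (mem_ball_iff_norm.1 hz).le.trans (by linarith)
    have b1 := h.ep (hcen _ hQ) (Or.inr (Or.inl rfl)) hz' (Nat.zero_le n)
    rw [hB.j0] at b1
    have b2 := hμ o ho z hzs
    constructor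
    · show ‖(To o - TT n N F τ s L ℓ τ ω (cel (o.k, j) 0 3) (0, x)).eval z‖ ≤ g + 4 * τ * a + μ o
      have b3 : ‖((τ * ((2 * x - N) / N) : ℝ) : ℂ)‖ ≤ 4 * τ * a := by
        rw [Complex.norm_real, Real.norm_eq_abs, abs_mul, abs_of_pos t0, abs_div, abs_of_pos hNR]
        have h2 : |2 * (x : ℝ) - N| ≤ 2 * xw := by exact_mod_cast hx.2
        calc τ * (|2 * (x : ℝ) - N| / N) ≤ τ * (2 * xw / N) := by gcongr
          _ = 2 * τ * (xw / N) := by ring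
          _ ≤ 2 * τ * (2 * a) := by gcongr
          _ = 4 * τ * a := by ring
      rw [eval_sub, tt_mid N0 _ hx.1]
      generalize ((τ * ((2 * x - N) / N) : ℝ) : ℂ) = w at b3
      generalize (EP n F L ((o.k, j).1 - 1, (o.k, j).2)).eval z = p at b1
      rw [show (To o).eval z - (p + w) = ((To o).eval z - F 0 z) - (p - F 0 z) - w by ring]
      linarith [norm_sub_le (((To o).eval z - F 0 z) - (p - F 0 z)) w,
        norm_sub_le ((To o).eval z - F 0 z) (p - F 0 z)]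
    · intro x' hx'
      show ‖(TT n N F τ s L ℓ τ ω (cel (o.k, j) 0 3) (0, x') -
        TT n N F τ s L ℓ τ ω (cel (o.k, j) 0 3) (0, x)).eval z‖ ≤ 2 * τ / N * |((x' - x : ℤ) : ℝ)|
      rw [eval_sub, tt_mid N0 _ hx.1, tt_mid N0 _ hx'.1, add_sub_add_left_eq_sub,
        ← Complex.ofReal_sub, Complex.norm_real, Real.norm_eq_abs,
        show τ * ((2 * (x' : ℝ) - N) / N) - τ * ((2 * x - N) / N) =
          2 * τ / N * ((x' - x : ℤ) : ℝ) by push_cast; ring, abs_mul,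
        abs_of_pos (by positivity)]
  · show g * ℓ ^ 2 ≤ κ * ℓ ^ 2
    gcongr
    linarith
  · show Cg * o.St.card * (2 * (g + 4 * τ * a + μ o) + 2 * (2 * τ / N) * xw) / κ ≤
      Cg * o.St.card * (2 * (g + 4 * τ * a + μ o) + 8 * τ * a) / κ
    have b1 : 2 * (2 * τ / N) * xw ≤ 8 * τ * a := by
      calc 2 * (2 * τ / N) * xw = 4 * τ * (xw / N) := by ring
        _ ≤ 4 * τ * (2 * a) := by gcongr
        _ = 8 * τ * a := by ring
    gcongr
  · obtain ⟨⟨sg, hsg, b1, b2⟩, b3, b4, b5, b6⟩ :=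
      cell_geo (N := N) hB h (hcen _ hQ) t0 s0 s1 ℓ0' ℓL N0
    have hNc : (N : ℂ) ≠ 0 := by exact_mod_cast N0.ne'
    have c1 : 2 * g / N ≤ τ / N := by gcongr; linarith
    have c2 : 28 * g * ℓ / N ≤ 1000 / τ * (τ / N) ^ 2 := by
      have e : 1000 / τ * (τ / N) ^ 2 = 125 * τ * ℓ / N := by rw [hℓ]; field_simp; norm_num
      rw [e]
      gcongr ?_ * ℓ / N
      linarith
    have c3 : ∀ e p : ℂ, ‖e - sg * (((τ / N : ℝ) : ℂ) * p)‖ ≤ 2 * g / N →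
        ‖e * N - sg * (τ * p)‖ ≤ τ / 2 := fun e p he => by
      rw [show e * N - sg * (τ * p) = (e - sg * (((τ / N : ℝ) : ℂ) * p)) * N by
        push_cast; field_simp, norm_mul, Complex.norm_natCast]
      rw [le_div_iff₀ hNR] at he
      linarith
    rw [← hs]
    refine ⟨d1 n N F τ s L ℓ 0 Q, d2 n N F τ s L ℓ 0 Q, d1 n N F τ s L ℓ 1 Q,
      d2 n N F τ s L ℓ 1 Q, ⟨nd_div N0 (nd_of hB t0 (lx Q) hsg (c3 _ _ b1) (c3 _ _ b2)),
        b3.trans c1, b4.trans c1, b5.trans c2, b6.trans c2⟩, fun m m' _ => ?_⟩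
    show zz n N F τ s L ℓ τ ω Q (tr m m') - xq L ℓ Q = _
    rw [q0_eq, q1_eq]
    unfold zz
    rw [sub_sub_cancel_left]

end PREP3

open PREP3 in
theorem rowPREP3 : R_PREP3 := by
  classical
  intro hB hM hO hRt n hn Cg hCg
  obtain ⟨ω, c, γ, Mod, r1, r2, r3, r4, r5, r6, r7⟩ := hRt
  have hR : RT ω c γ Mod := ⟨r1, r2, r3, r4, r5, r6, r7⟩
  refine ⟨c, ω, r2, r1, fun s Γ hΓ κ hκ hκ1 => ?_⟩
  obtain ⟨mo, M, hM0, hmo, hFb, hmod⟩ := hM n s
  obtain ⟨dO, hdO, hO1⟩ := hO n s Γ hΓ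
  obtain ⟨Lg, hL, hLg⟩ := H95.short_gap hΓ.fin hΓ.ne
  obtain ⟨Dn, hDn, hden⟩ := H95.com_den hΓ.fin hΓ.rat
  obtain ⟨τ, hτ⟩ : ∃ τ : ℝ, τ = κ / 50 := ⟨_, rfl⟩
  have t0 : 0 < τ := by rw [hτ]; positivity
  have t1 : τ ≤ 1 / 50 := by linarith
  refine ⟨τ, τ, 21 * M, min dO (min (1 / 10) (mo (κ / 2) / 2)),
    fun η => min (κ * η / (6 * Cg)) (mo (κ * η / (4 * Cg)) / 2), t0, by linarith, t0,
    by positivity, lt_min hdO (lt_min (by norm_num) (half_pos (hmo _ (by positivity)))),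
    fun η hη => lt_min (by positivity) (half_pos (hmo _ (by positivity))), fun d hd => ?_⟩
  obtain ⟨d0, hd⟩ := hd
  have hd1 : d ≤ dO := hd.trans (min_le_left _ _)
  have hd2 : d ≤ 1 / 10 := hd.trans ((min_le_right _ _).trans (min_le_left _ _))
  have hd3 : d ≤ mo (κ / 2) / 2 := hd.trans ((min_le_right _ _).trans (min_le_right _ _))
  obtain ⟨a, ha⟩ : ∃ a : ℝ, a = min (1 / 100) (min d (κ * d * Lg / (9 * Cg))) := ⟨_, rfl⟩
  have a0 : 0 < a := by rw [ha]; exact lt_min (by norm_num) (lt_min d0 (by positivity))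
  have a1 : a ≤ 1 / 100 := by rw [ha]; exact min_le_left _ _
  have a2 : a ≤ d := by rw [ha]; exact (min_le_right _ _).trans (min_le_left _ _)
  have a3 : a ≤ κ * d * Lg / (9 * Cg) := by
    rw [ha]; exact (min_le_right _ _).trans (min_le_right _ _)
  refine ⟨a, a0, fun m0 hm0 L0 hL0 => ?_⟩
  obtain ⟨g, hg⟩ : ∃ g : ℝ, g = min a (min (γ * τ / 16) (τ / 3000)) := ⟨_, rfl⟩
  have g0 : 0 < g := by rw [hg]; exact lt_min a0 (lt_min (by positivity) (by positivity))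
  have g1 : g ≤ a := by rw [hg]; exact min_le_left _ _
  have g2 : g ≤ γ * τ / 16 := by rw [hg]; exact (min_le_right _ _).trans (min_le_left _ _)
  have g3 : g ≤ τ / 3000 := by rw [hg]; exact (min_le_right _ _).trans (min_le_right _ _)
  have hmg := hmo g g0
  obtain ⟨L, l0, hl, hrat, hk⟩ := H95.scale hDn hden
    (B := min (min L0 (d ^ 2)) (min (mo g / 3) (min (Lg / 4) (1 / 100))))
    (lt_min (lt_min hL0 (by positivity))
      (lt_min (by positivity) (lt_min (by positivity) (by norm_num))))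
  simp only [le_min_iff] at hl
  obtain ⟨⟨q1, q2⟩, q3, q4, q5⟩ := hl
  have hF : Fn n s.F g L := ⟨hn, l0, q5, fun y z hy hz j hj =>
    (hmod g g0 y z hy (by linarith) j hj).1⟩
  obtain ⟨O, hgeo, hgood⟩ := hO1 d ⟨d0, hd1⟩ L l0 q2 hk
  have hT : ∀ o : Obj, ∃ T : ℂ[X], (o ∈ O → o.thr → ∀ j ≤ n, ∀ z ∈ segment ℝ o.y o.fin,
      s.F j z = jet T j z) ∧ (¬o.thr → T = tay (n + 1) s.F o.y) := by
    intro o
    by_cases h : o.thr
    · by_cases ho : o ∈ O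
      · obtain ⟨g', hg', e1, e2⟩ := hgood.th' o ho h
        exact ⟨g'.T, fun _ _ => by rw [e1, e2]; exact hΓ.jets g' hg', fun h' => (h' h).elim⟩
      · exact ⟨0, fun h' => (ho h').elim, fun h' => (h' h).elim⟩
    · exact ⟨_, fun _ h' => (h h').elim, fun _ => rfl⟩
  choose To hT1 hT2 using hT
  obtain ⟨S, hS⟩ : ∃ S : Set ℝ, S = {u | 0 < u ∧ 2 * d ≤ mo u} := ⟨_, rfl⟩
  have mS : ∀ u, u ∈ S ↔ 0 < u ∧ 2 * d ≤ mo u := fun u => by rw [hS]; rfl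
  have hSne : S.Nonempty := ⟨κ / 2, (mS _).2 ⟨by positivity, by linarith⟩⟩
  have hSb : BddBelow S := ⟨0, fun u hu => ((mS u).1 hu).1.le⟩
  have hS0 : 0 ≤ sInf S := le_csInf hSne fun u hu => ((mS u).1 hu).1.le
  have hprobe : ∀ o ∈ O, ¬o.thr → ∀ u ∈ S, ∀ j ≤ n, ∀ z ∈ segment ℝ o.y o.fin,
      ‖jet (To o) j z - s.F j z‖ ≤ u := by
    intro o ho h u hu j hj z hz
    obtain ⟨hu1, hu2⟩ := (mS u).1 hu
    have b1 := (hgood.prb o ho h).1
    have b2 := H95.obj_len hgeo l0 ho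
    have b3 : ‖o.y‖ ≤ 2 := by
      have m1 : midpoint ℝ o.y o.fin ∈ openSegment ℝ o.y o.fin := midpoint_mem_openSegment _ _
      have m2 := (hB.inn s.W _ s.base fun h' =>
        Set.disjoint_left.1 (hgeo.free o ho) m1 (subset_closure h')).2
      have m3 := H95.seg_near (openSegment_subset_segment ℝ _ _ m1)
      have m4 := norm_sub_le (midpoint ℝ o.y o.fin) (midpoint ℝ o.y o.fin - o.y)
      rw [sub_sub_cancel] at m4
      linarith
    rw [hT2 o h]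
    exact (hmod u hu1 o.y z b3 ((H95.seg_near hz).trans (by linarith)) j hj).1
  have v1 : 2 * (g + 4 * τ * a) + 8 * τ * a ≤ 3 * a := by nlinarith
  have v0 : 0 ≤ 2 * (g + 4 * τ * a) + 8 * τ * a := by positivity
  refine ⟨L, O, To, fun o => g + 4 * τ * a + if o.thr then 0 else sInf S,
    fun o => Cg * o.St.card *
      (2 * (g + 4 * τ * a + if o.thr then 0 else sInf S) + 8 * τ * a) / κ, q1,
    ⟨l0, q5, q2, hgeo, hgood, bv_ok hB hF s.base hM0 hFb g3, fun o ho h η hη hdη => ?_,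
      fun o ho h => ?_⟩, fun ℓ0 hℓ0 => fine hB hR s.base hF hrat t0 (by linarith) (by linarith) g0
        g2 g3 a0 a1 hCg hm0 (μ := fun o => if o.thr then 0 else sInf S) hgeo
        (fun o ho j hj => ?_) (fun o ho j hj z hz => ?_) (fun o => ?_) (fun o ho z hz => ?_) hℓ0⟩
  · have b2 : (o.St.card : ℝ) ≤ 1 := by exact_mod_cast (hgood.prb o ho h).2
    have b5 : d ≤ κ * η / (6 * Cg) := hdη.trans (min_le_left _ _)
    have b6 : d ≤ mo (κ * η / (4 * Cg)) / 2 := hdη.trans (min_le_right _ _)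
    have b7 : sInf S ≤ κ * η / (4 * Cg) := csInf_le hSb ((mS _).2 ⟨by positivity, by linarith⟩)
    simp only [if_neg h]
    have b8 : 2 * (g + 4 * τ * a + sInf S) + 8 * τ * a ≤
        3 * (κ * η / (6 * Cg)) + 2 * (κ * η / (4 * Cg)) := by linarith
    have b3 : Cg * o.St.card * (2 * (g + 4 * τ * a + sInf S) + 8 * τ * a) / κ ≤
        Cg * 1 * (3 * (κ * η / (6 * Cg)) + 2 * (κ * η / (4 * Cg))) / κ :=
      div_le_div_of_nonneg_right (mul_le_mul (by gcongr) b8 (by linarith) (by positivity)) hκ.le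
    have b4 : Cg * 1 * (3 * (κ * η / (6 * Cg)) + 2 * (κ * η / (4 * Cg))) / κ = η := by
      field_simp; ring
    linarith
  · obtain ⟨g', hg', e1, e2⟩ := hgood.th' o ho h
    have b1 : Lg ≤ o.Λ := by rw [← H95.obj_len hgeo l0 ho, e1, e2]; exact hLg g' hg'
    have b2 := hgood.card o ho
    refine ⟨?_, by linarith⟩
    simp only [if_pos h, add_zero]
    have b3 : Cg * o.St.card * (2 * (g + 4 * τ * a) + 8 * τ * a) / κ ≤
        Cg * (3 / d) * (3 * (κ * d * Lg / (9 * Cg))) / κ := by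
      gcongr
      linarith
    have b4 : Cg * (3 / d) * (3 * (κ * d * Lg / (9 * Cg))) / κ = Lg := by field_simp; ring
    linarith
  · by_cases h : o.thr
    · exact ⟨(hT1 o ho h j hj _ (left_mem_segment _ _ _)).symm,
        fun _ => (hT1 o ho h j hj _ (right_mem_segment _ _ _)).symm⟩
    · exact ⟨by rw [hT2 o h]; exact hB.jt _ _ _ j (by omega), fun h' => (h h').elim⟩
  · by_cases h : o.thr
    · rw [hT1 o ho h j hj z hz, sub_self, norm_zero]; positivity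
    · exact hprobe o ho h _ ((mS _).2 ⟨by positivity, by linarith⟩) j hj z hz
  · show 0 ≤ if o.thr then 0 else sInf S
    split_ifs
    · exact le_rfl
    · exact hS0
  · show _ ≤ if o.thr then 0 else sInf S
    split_ifs with h
    · rw [hT1 o ho h 0 (Nat.zero_le _) z hz, hB.j0, sub_self, norm_zero]
    · refine le_csInf hSne fun u hu => ?_
      rw [← hB.j0]
      exact hprobe o ho h u hu 0 (Nat.zero_le _) z hz

end

end Pool.Agent.MP_d32a63_an.H13N
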