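import Pool.Agent.MP_d32a63_an.H13N.AllOf
import Pool.Agent.MP_d32a63_an.H13N.PREP3

/-! Assembly for every order `n ≥ 2`. -/

open Pool.Agent.MP_d32a63_an.H58

namespace Pool.Agent.MP_d32a63_an.H13N

theorem all (n : ℕ) (hn : 2 ≤ n) : Goal n := all_of rowPREP3 n hn

end Pool.Agent.MP_d32a63_an.H13N
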