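import Pool.Agent.MP_d32a63_an.H13N.Pat

/-! Gluing of the functions of the cells inside one cluster. -/

open Set Filter Topology Metric Polynomial
open Complex (I)
open Pool.Agent.MP_d32a63_an.H95 (Core Sec jet W0 Flat RealStmt)
open Pool.Agent.MP_d32a63_an.H58 hiding Cells Sq LAV LA1 LA2 LIMA LIMB LIM FIN

namespace Pool.Agent.MP_d32a63_an.H13N

noncomputable section

namespace CLUa

theorem rl0 {K : ℝ} {A B A' B' : ℂ} (h : Rl K 0 0 A B A' B') : A = A' := by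
  have := h.1
  simp only [mul_zero, sub_zero, norm_zero, ne_eq, OfNat.ofNat_ne_zero, not_false_eq_true,
    zero_pow, add_zero, norm_le_zero_iff, sub_eq_zero] at this
  exact this.symm

theorem nd_ind {τ : ℝ} (hτ : 0 < τ) {e1 e2 : ℂ} (h : ND τ e1 e2) (x y : ℝ)
    (e : (x : ℂ) * e1 + (y : ℂ) * e2 = 0) : x = 0 ∧ y = 0 := by
  have := (h x y).1
  rw [e, norm_zero] at this
  have a1 := abs_nonneg x
  have a2 := abs_nonneg y
  have a3 : |x| + |y| ≤ 0 := by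
    by_contra hn
    have : 0 < τ * (|x| + |y|) := mul_pos hτ (not_le.1 hn)
    linarith
  exact ⟨abs_eq_zero.1 (by linarith), abs_eq_zero.1 (by linarith)⟩

theorem nd_ne {τ : ℝ} (hτ : 0 < τ) {e1 e2 : ℂ} (h : ND τ e1 e2) : e1 ≠ 0 ∧ e2 ≠ 0 := by
  constructor
  · intro e
    have := (nd_ind hτ h 1 0 (by simp [e])).1
    norm_num at this
  · intro e
    have := (nd_ind hτ h 0 1 (by simp [e])).2
    norm_num at this

/-- All the hypotheses of the row. -/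
structure Hy (W : Set ℂ) (L : ℝ) (O : Set Obj) (τ s a K M : ℝ) (F0 : ℂ → ℂ)
    (bv : ℤ × ℤ → ℤ × ℤ → ℂ) (g μ b : ℤ × ℤ → ℂ → ℂ) : Prop where
  hB : BASIC
  hH : HULL
  hA : ANA
  t0 : 0 < τ
  t1 : τ ≤ 1
  s0 : 0 < s
  s1 : s ≤ 1 / 20
  hv : BV W L τ M F0 bv
  hE : Ex W L O τ s a K bv g μ b

variable {W : Set ℂ} {L : ℝ} {O : Set Obj} {τ s a K M : ℝ} {F0 : ℂ → ℂ}
  {bv : ℤ × ℤ → ℤ × ℤ → ℂ} {g μ b : ℤ × ℤ → ℂ → ℂ}

theorem mem_rg {Q : ℤ × ℤ} {x y : ℝ} (h1 : 0 ≤ x) (h2 : x ≤ hq s Q) (h3 : 0 ≤ y)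
    (h4 : x + y ≤ 1) : pq bv τ s Q x y ∈ Rg bv τ s Q := ⟨x, y, h1, h2, h3, h4, rfl⟩

theorem act_of {Q R : ℤ × ℤ} (h : clu Q = R) (hR : act W L R) : act W L (clu Q) := by
  rw [h]; exact hR

theorem hq0 {Q : ℤ × ℤ} (h : kd Q = 0) : hq s Q = 1 := by unfold hq; rw [if_pos h]

theorem hq1 {Q : ℤ × ℤ} (h : kd Q ≠ 0) : hq s Q = s := by unfold hq; rw [if_neg h]

/-- Equality on a segment gives equality on the intersection of the two regions. -/
theorem Hy.gl (H : Hy W L O τ s a K M F0 bv g μ b) {Q Q' : ℤ × ℤ} (hQ : act W L (clu Q))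
    (hQ' : act W L (clu Q')) (hi : (interior (Rg bv τ s Q ∩ Rg bv τ s Q')).Nonempty)
    {A D : ℂ} (hD : D ≠ 0) {t1 t2 : ℝ} (ht : t1 < t2) (P : ℝ → ℂ) (hP : ∀ t, P t = A + t * D)
    (h : ∀ t, t1 ≤ t → t ≤ t2 →
      P t ∈ Rg bv τ s Q ∧ P t ∈ Rg bv τ s Q' ∧ g Q (P t) = g Q' (P t)) :
    ∀ u ∈ Rg bv τ s Q, u ∈ Rg bv τ s Q' → g Q u = g Q' u := by
  have seg : ∀ u ∈ segment ℝ (P t1) (P t2), ∃ t, t1 ≤ t ∧ t ≤ t2 ∧ u = P t := by
    rintro u ⟨p, q, hp, hq, hpq, rfl⟩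
    have e1 : p * t1 + q * t2 = t1 + q * (t2 - t1) := by
      rw [show p = 1 - q by linarith]; ring
    have e2 : p * t1 + q * t2 = t2 - p * (t2 - t1) := by
      rw [show q = 1 - p by linarith]; ring
    have e3 := mul_nonneg hp (sub_pos.2 ht).le
    have e4 := mul_nonneg hq (sub_pos.2 ht).le
    refine ⟨p * t1 + q * t2, by linarith, by linarith, ?_⟩
    have e : (q : ℂ) = 1 - p := by rw [← Complex.ofReal_one, ← hpq]; push_cast; ring
    simp only [hP, Complex.real_smul]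
    push_cast
    rw [e]; ring
  have w1 := H.hE.wh Q hQ
  have w2 := H.hE.wh Q' hQ'
  intro u hu hu'
  have := H.hA.uniq (Rg bv τ s Q ∩ Rg bv τ s Q') (fun z => g Q z - g Q' z) (P t1) (P t2)
    ((rg_convex _ _ _ _).inter (rg_convex _ _ _ _)) hi
    (((H.hA.cont _ _ _ _ w1).mono inter_subset_left).sub
      ((H.hA.cont _ _ _ _ w2).mono inter_subset_right))
    (fun z hz => ((H.hA.der _ _ _ _ w1 z (interior_mono inter_subset_left hz)).sub
      (H.hA.der _ _ _ _ w2 z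
        (interior_mono inter_subset_right hz))).differentiableAt.differentiableWithinAt)
    (by
      rw [hP, hP]
      intro e
      have e2 : (t1 : ℂ) = t2 := mul_right_cancel₀ hD (add_left_cancel e)
      exact ht.ne (by exact_mod_cast e2))
    (fun z hz => by
      obtain ⟨t, a1, a2, rfl⟩ := seg z hz
      exact ⟨(h t a1 a2).1, (h t a1 a2).2.1⟩)
    (fun z hz => by
      obtain ⟨t, a1, a2, rfl⟩ := seg z hz
      exact sub_eq_zero.2 (h t a1 a2).2.2) u ⟨hu, hu'⟩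
  exact sub_eq_zero.1 this

theorem pq_clu {Q Q' : ℤ × ℤ} (h : clu Q' = clu Q) :
    pq bv τ s Q' = pq (fun _ => bv (clu Q)) τ s Q' := by rw [pq_row, h]

/-- The values on the right side of `Q` are the values on the left side of `Q'`. -/
def Lk (bv : ℤ × ℤ → ℤ × ℤ → ℂ) (τ s : ℝ) (g : ℤ × ℤ → ℂ → ℂ) (Q Q' : ℤ × ℤ) : Prop :=
  ∀ t, s ≤ t → t ≤ 1 → pq bv τ s Q (min (hq s Q) t) (1 - t) = pq bv τ s Q' 0 t ∧
    g Q (pq bv τ s Q' 0 t) = g Q' (pq bv τ s Q' 0 t)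

theorem Hy.lk (H : Hy W L O τ s a K M F0 bv g μ b) {Q : ℤ × ℤ} (hQ : act W L (clu Q))
    (h15 : la Q ≠ 15) (hc : clu (rn Q) = clu Q) : Lk bv τ s g Q (rn Q) := by
  intro t h1 h2
  have e : pq bv τ s Q (min (hq s Q) t) (1 - t) = pq bv τ s (rn Q) 0 t := by
    rw [pq_clu hc, pq_row]
    exact pq_right _ _ _ (Or.inl h15) h2 (Or.inr h1)
  refine ⟨e, ?_⟩
  have := H.hE.hor Q t hQ (hc ▸ hQ) (H.s0.le.trans h1) h2 (Or.inr h1) (Or.inl (Or.inl h15))
  rw [show dl L Q (rn Q) = 0 by unfold dl; rw [hc, sub_self], e] at this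
  exact rl0 this

theorem Hy.up (H : Hy W L O τ s a K M F0 bv g μ b) {Q : ℤ × ℤ} (hQ : act W L (clu Q))
    (hV : VS Q) (hc : clu (un Q) = clu Q) {t : ℝ} (h0 : 0 ≤ t) (h1 : t ≤ hq s Q)
    (h2 : t ≤ hq s (un Q)) : pq bv τ s Q t 0 = pq bv τ s (un Q) t 0 ∧
      g Q (pq bv τ s (un Q) t 0) = g (un Q) (pq bv τ s (un Q) t 0) := by
  have e : pq bv τ s Q t 0 = pq bv τ s (un Q) t 0 := by
    rw [pq_clu hc, pq_row]
    exact pq_up _ _ _ hV t
  refine ⟨e, ?_⟩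
  have := H.hE.ver Q t hV hQ (hc ▸ hQ) h0 h1 h2
  rw [show dl L Q (un Q) = 0 by unfold dl; rw [hc, sub_self], e] at this
  exact rl0 this

/-! ### Full cells -/

theorem Hy.ball_sub (H : Hy W L O τ s a K M F0 bv g μ b) {Q R : ℤ × ℤ} (hR : act W L R)
    (hc : clu Q = R) (hk : kd Q = 0) : ball (bv R R + τ * actr) (τ / 20) ⊆ Rg bv τ s Q := by
  subst hc
  rw [rg_full bv τ s hk]
  exact H.hH _ _ _ _ _ _ (tri_full H.t0 H.t1 H.hv s hR hk)

theorem Hy.int_full (H : Hy W L O τ s a K M F0 bv g μ b) {Q Q' R : ℤ × ℤ} (hR : act W L R)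
    (hc : clu Q = R) (hk : kd Q = 0) (hc' : clu Q' = R) (hk' : kd Q' = 0) :
    (interior (Rg bv τ s Q ∩ Rg bv τ s Q')).Nonempty := by
  have := H.t0
  exact ⟨bv R R + τ * actr, interior_maximal
    (subset_inter (H.ball_sub hR hc hk) (H.ball_sub hR hc' hk')) isOpen_ball
    (mem_ball_self (by positivity))⟩

/-- Equality on the central ball of the cluster `R`. -/
def Eb (bv : ℤ × ℤ → ℤ × ℤ → ℂ) (τ : ℝ) (g : ℤ × ℤ → ℂ → ℂ) (R Q Q' : ℤ × ℤ) : Prop :=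
  ∀ u ∈ ball (bv R R + τ * actr) (τ / 20), g Q u = g Q' u

theorem Eb.symm {R Q Q' : ℤ × ℤ} (h : Eb bv τ g R Q Q') : Eb bv τ g R Q' Q :=
  fun u hu => (h u hu).symm

theorem Eb.trans {R Q Q' Q'' : ℤ × ℤ} (h : Eb bv τ g R Q Q') (h' : Eb bv τ g R Q' Q'') :
    Eb bv τ g R Q Q'' := fun u hu => (h u hu).trans (h' u hu)

theorem Hy.full_lk (H : Hy W L O τ s a K M F0 bv g μ b) {Q Q' R : ℤ × ℤ} (hR : act W L R)
    (hc : clu Q = R) (hk : kd Q = 0) (hc' : clu Q' = R) (hk' : kd Q' = 0)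
    (h : Lk bv τ s g Q Q') : Eb bv τ g R Q Q' := by
  have s0 := H.s0
  have s1 := H.s1
  have n := nd_ne H.t0 (nd_cell H.hB H.t0 H.hv s (Q := Q') (hc' ▸ hR))
  intro u hu
  refine H.gl (hc ▸ hR) (hc' ▸ hR) (H.int_full hR hc hk hc' hk') (A := v0 bv τ s Q') n.2
    (t1 := s) (t2 := 1) (by linarith) (fun t => pq bv τ s Q' 0 t)
    (fun t => by unfold pq; simp) (fun t h1 h2 => ⟨?_, ?_, (h t h1 h2).2⟩) u
    (H.ball_sub hR hc hk hu) (H.ball_sub hR hc' hk' hu)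
  · rw [← (h t h1 h2).1]
    refine mem_rg (le_min (by rw [hq0 hk]; norm_num) (by linarith)) (min_le_left _ _)
      (by linarith) ?_
    linarith [min_le_right (hq s Q) t]
  · exact mem_rg le_rfl (by rw [hq0 hk']; norm_num) (by linarith) (by linarith)

theorem Hy.full_up (H : Hy W L O τ s a K M F0 bv g μ b) {Q R : ℤ × ℤ} (hR : act W L R)
    (hV : VS Q) (hc : clu Q = R) (hk : kd Q = 0) (hc' : clu (un Q) = R) (hk' : kd (un Q) = 0) :
    Eb bv τ g R Q (un Q) := by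
  have n := nd_ne H.t0 (nd_cell H.hB H.t0 H.hv s (Q := un Q) (hc' ▸ hR))
  intro u hu
  refine H.gl (hc ▸ hR) (hc' ▸ hR) (H.int_full hR hc hk hc' hk') (A := v0 bv τ s (un Q)) n.1
    (t1 := 0) (t2 := 1) one_pos (fun t => pq bv τ s (un Q) t 0)
    (fun t => by unfold pq; simp) (fun t h1 h2 => ?_) u
    (H.ball_sub hR hc hk hu) (H.ball_sub hR hc' hk' hu)
  have k := H.up (hc ▸ hR) hV (hc'.trans hc.symm) h1 (by rw [hq0 hk]; exact h2)
    (by rw [hq0 hk']; exact h2)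
  refine ⟨?_, mem_rg h1 (by rw [hq0 hk']; exact h2) le_rfl (by linarith), k.2⟩
  rw [← k.1]
  exact mem_rg h1 (by rw [hq0 hk]; exact h2) le_rfl (by linarith)

/-! ### Thin cells -/

/-- Two thin cells on the same side. -/
theorem Hy.twin (H : Hy W L O τ s a K M F0 bv g μ b) {Q1 Q2 : ℤ × ℤ} (h1 : act W L (clu Q1))
    (h2 : act W L (clu Q2)) (k1 : kd Q1 ≠ 0) (k2 : kd Q2 ≠ 0)
    (e : ∀ x y, pq bv τ s Q1 x y = pq bv τ s Q2 (s - x) (1 - y)) {x0 : ℝ} (a0 : 0 ≤ x0)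
    (a1 : x0 ≤ s)
    (h : ∀ y, s ≤ y → y ≤ 1 - s → g Q1 (pq bv τ s Q1 x0 y) = g Q2 (pq bv τ s Q1 x0 y))
    {x y : ℝ} (b0 : 0 ≤ x) (b1 : x ≤ s) (b2 : s - x ≤ y) (b3 : x + y ≤ 1) :
    g Q1 (pq bv τ s Q1 x y) = g Q2 (pq bv τ s Q1 x y) := by
  have s0 := H.s0
  have s1 := H.s1
  have nd := nd_cell H.hB H.t0 H.hv s h1
  have n := nd_ne H.t0 nd
  have m : ∀ x y : ℝ, 0 ≤ x → x ≤ s → s - x ≤ y → x + y ≤ 1 →
      pq bv τ s Q1 x y ∈ Rg bv τ s Q1 ∩ Rg bv τ s Q2 := by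
    intro x y c0 c1 c2 c3
    refine ⟨mem_rg c0 (by rw [hq1 k1]; exact c1) (by linarith) c3, ?_⟩
    rw [e]
    exact mem_rg (by linarith) (by rw [hq1 k2]; linarith) (by linarith) (by linarith)
  have hi : (interior (Rg bv τ s Q1 ∩ Rg bv τ s Q2)).Nonempty := by
    refine H.hA.int3 _ _ _ _ ((rg_convex _ _ _ _).inter (rg_convex _ _ _ _))
      (m 0 s le_rfl s0.le (by linarith) (by linarith))
      (m s s s0.le le_rfl (by linarith) (by linarith))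
      (m 0 1 le_rfl s0.le (by linarith) (by linarith)) fun p q hpq => ?_
    have := nd_ind H.t0 nd (p * s) (q * (1 - s)) (by
      rw [← hpq]; unfold pq; push_cast; ring)
    exact ⟨(mul_eq_zero.1 this.1).resolve_right s0.ne',
      (mul_eq_zero.1 this.2).resolve_right (by linarith)⟩
  have k := m x y b0 b1 b2 b3
  refine H.gl h1 h2 hi (A := pq bv τ s Q1 x0 0) n.2 (t1 := s) (t2 := 1 - s) (by linarith)
    (fun t => pq bv τ s Q1 x0 t) (fun t => by unfold pq; simp) (fun t c1 c2 => ?_) _ k.1 k.2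
  have k' := m x0 t a0 a1 (by linarith) (by linarith)
  exact ⟨k'.1, k'.2, h t c1 c2⟩

theorem pq_twin {Q1 Q2 : ℤ × ℤ} (k1 : kd Q1 = 1) (k2 : kd Q2 = 2)
    (e1 : vp bv τ Q2 (ix Q2) = vp bv τ Q1 (ix Q1))
    (e2 : vp bv τ Q2 (ix Q2 + 1) = vp bv τ Q1 (ix Q1 + 1)) (e3 : ee τ (ix Q2) = ee τ (ix Q1))
    (x y : ℝ) : pq bv τ s Q1 x y = pq bv τ s Q2 (s - x) (1 - y) := by
  unfold pq v0 v1 v2
  simp only [k1, k2, e1, e2, e3]
  simp
  ring

/-- The values on the left side of a thin pair are the values on its right side. -/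
theorem Hy.pair (H : Hy W L O τ s a K M F0 bv g μ b) {Q : ℤ × ℤ} (hQ : act W L (clu Q))
    (h15 : la Q ≠ 15) (hc : clu (rn Q) = clu Q) (k : kd Q = 1) {t : ℝ} (h1 : s ≤ t) (h2 : t ≤ 1) :
    pq bv τ s Q 0 t = pq bv τ s (rn Q) (min (hq s (rn Q)) t) (1 - t) ∧
      g Q (pq bv τ s Q 0 t) = g (rn Q) (pq bv τ s Q 0 t) := by
  have s0 := H.s0
  obtain ⟨t1, t2, t3, t4⟩ := rn_tab (Q := Q) (Or.inl h15)
  have k2 : kd (rn Q) = 2 := t4.2 k
  have l : lx (rn Q) = ix (rn Q) := by unfold lx; rw [if_neg (by omega)]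
  rw [l] at t1 t2 t3
  have e : ∀ x y, pq bv τ s Q x y = pq bv τ s (rn Q) (s - x) (1 - y) :=
    pq_twin k k2 (by unfold vp; rw [hc, t1, acol_mod t3])
      (by unfold vp; rw [hc, t2, acol_mod (p := ix (rn Q) + 1) (q := ix Q + 1) (by omega)])
      (ee_mod τ t3)
  refine ⟨by rw [e, hq1 (by omega), min_eq_left h1, sub_zero], ?_⟩
  refine H.twin hQ (hc ▸ hQ) (by omega) (by omega) e s0.le le_rfl (fun y c1 c2 => ?_) le_rfl s0.le
    (by linarith) (by linarith)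
  have := (H.lk hQ h15 hc (1 - y) (by linarith) (by linarith)).2
  rw [e, sub_self]
  exact this

/-- A link is handed on through a thin pair. -/
theorem Hy.lk_pair (H : Hy W L O τ s a K M F0 bv g μ b) {P Q : ℤ × ℤ} (hQ : act W L (clu Q))
    (h15 : la Q ≠ 15) (h15' : la (rn Q) ≠ 15) (hc : clu (rn Q) = clu Q)
    (hc' : clu (rn (rn Q)) = clu (rn Q)) (k : kd Q = 1) (h : Lk bv τ s g P Q) :
    Lk bv τ s g P (rn (rn Q)) := by
  intro t h1 h2
  obtain ⟨a1, a2⟩ := h t h1 h2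
  obtain ⟨b1, b2⟩ := H.pair hQ h15 hc k h1 h2
  obtain ⟨c1, c2⟩ := H.lk (hc ▸ hQ) h15' hc' t h1 h2
  refine ⟨a1.trans (b1.trans c1), ?_⟩
  rw [← c2, ← c1, ← b1, a2, b2]

/-- A thin cell inside a full cell with the same vertices. -/
theorem Hy.sub (H : Hy W L O τ s a K M F0 bv g μ b) {Q1 Q : ℤ × ℤ} (h1 : act W L (clu Q1))
    (h2 : act W L (clu Q)) (k1 : kd Q1 ≠ 0) (k : kd Q = 0) (e : pq bv τ s Q1 = pq bv τ s Q)
    {A D : ℂ} (hD : D ≠ 0) {t1 t2 : ℝ} (ht : t1 < t2) (P : ℝ → ℂ) (hP : ∀ t, P t = A + t * D)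
    (h : ∀ t, t1 ≤ t → t ≤ t2 → P t ∈ Rg bv τ s Q1 ∧ g Q1 (P t) = g Q (P t)) :
    ∀ u ∈ Rg bv τ s Q1, g Q1 u = g Q u := by
  have s0 := H.s0
  have s1 := H.s1
  have nd := nd_cell H.hB H.t0 H.hv s h1
  have m : Rg bv τ s Q1 ⊆ Rg bv τ s Q := by
    rintro _ ⟨x, y, c0, c1, c2, c3, rfl⟩
    rw [e]
    exact mem_rg c0 (by rw [hq0 k]; linarith) c2 c3
  have hi : (interior (Rg bv τ s Q1 ∩ Rg bv τ s Q)).Nonempty := by
    rw [inter_eq_left.2 m]
    refine H.hA.int3 _ _ _ _ (rg_convex _ _ _ _)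
      (mem_rg (x := 0) (y := 0) le_rfl (by rw [hq1 k1]; linarith) le_rfl (by linarith))
      (mem_rg (x := s) (y := 0) s0.le (by rw [hq1 k1]) le_rfl (by linarith))
      (mem_rg (x := 0) (y := 1) le_rfl (by rw [hq1 k1]; linarith) zero_le_one (by linarith))
      fun p q hpq => ?_
    have := nd_ind H.t0 nd (p * s) q (by rw [← hpq]; unfold pq; push_cast; ring)
    exact ⟨(mul_eq_zero.1 this.1).resolve_right s0.ne', this.2⟩
  intro u hu
  exact H.gl h1 h2 hi hD ht P hP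
    (fun t c1 c2 => ⟨(h t c1 c2).1, m (h t c1 c2).1, (h t c1 c2).2⟩) u hu (m hu)

/-! ### The rows of a cluster -/

theorem Hy.lk_cel (H : Hy W L O τ s a K M F0 bv g μ b) {R : ℤ × ℤ} (hR : act W L R) {i j : ℤ}
    (i0 : 0 ≤ i) (i1 : i < 15) (j0 : 0 ≤ j) (j1 : j < 6) (h : ¬(i = 14 ∧ j = 0)) :
    Lk bv τ s g (cel R i j) (cel R (i + 1) j) := by
  have c1 : clu (cel R i j) = R := clu_cel R i0 (by omega) j0 j1 (by omega)
  have c2 : clu (cel R (i + 1) j) = R := clu_cel R (by omega) (by omega) j0 j1 (by omega)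
  rw [← rn_cel]
  exact H.lk (act_of c1 hR) (by rw [la_cel R i0 (by omega)]; omega) (by rw [rn_cel, c1, c2])

theorem Hy.lk_cel2 (H : Hy W L O τ s a K M F0 bv g μ b) {R P : ℤ × ℤ} (hR : act W L R) {i j : ℤ}
    (i0 : 0 ≤ i) (i1 : i < 14) (j0 : 0 ≤ j) (j1 : j < 6) (h : ¬(i = 13 ∧ j = 0))
    (k : kd0 i j = 1) (hl : Lk bv τ s g P (cel R i j)) : Lk bv τ s g P (cel R (i + 2) j) := by
  have c1 : clu (cel R i j) = R := clu_cel R i0 (by omega) j0 j1 (by omega)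
  have c2 : clu (cel R (i + 1) j) = R := clu_cel R (by omega) (by omega) j0 j1 (by omega)
  have c3 : clu (cel R (i + 1 + 1) j) = R := clu_cel R (by omega) (by omega) j0 j1 (by omega)
  have := H.lk_pair (act_of c1 hR) (by rw [la_cel R i0 (by omega)]; omega)
    (by rw [rn_cel, la_cel R (by omega) (by omega)]; omega) (by rw [rn_cel, c1, c2])
    (by rw [rn_cel, rn_cel, c2, c3]) (by rw [kd_cel R i0 (by omega) j0 j1, k]) hl
  rwa [rn_cel, rn_cel, add_assoc, one_add_one_eq_two] at this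

theorem tabC : ∀ i ∈ Finset.Ico (0 : ℤ) 16, ∀ j ∈ Finset.Ico (0 : ℤ) 6, kd0 i j = 0 →
    ¬(i = 15 ∧ j = 0) ∧ (i = (if j = 0 then 3 else 0) ∨ (1 ≤ i ∧ kd0 (i - 1) j = 0) ∨
      (3 ≤ i ∧ kd0 (i - 3) j = 0 ∧ kd0 (i - 3 + 1) j = 1) ∨
      (5 ≤ i ∧ kd0 (i - 5) j = 0 ∧ kd0 (i - 5 + 1) j = 1 ∧ kd0 (i - 5 + 1 + 2) j = 1)) := by
  decide

theorem Hy.row0 (H : Hy W L O τ s a K M F0 bv g μ b) {R : ℤ × ℤ} (hR : act W L R) {j : ℤ}
    (j0 : 0 ≤ j) (j1 : j < 6) (n : ℕ) : ∀ i : ℤ, 0 ≤ i → i < 16 → i < n → kd0 i j = 0 →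
      Eb bv τ g R (cel R (if j = 0 then 3 else 0) j) (cel R i j) := by
  induction n with
  | zero => intro i i0 _ i2; simp at i2; omega
  | succ n ih =>
    intro i i0 i1 i2 k
    have i3 : i ≤ n := by push_cast at i2; omega
    obtain ⟨q, h⟩ := tabC i (Finset.mem_Ico.2 ⟨i0, i1⟩) j (Finset.mem_Ico.2 ⟨j0, j1⟩) k
    have fin : ∀ i' : ℤ, 0 ≤ i' → i' < i → kd0 i' j = 0 → Lk bv τ s g (cel R i' j) (cel R i j) →
        Eb bv τ g R (cel R (if j = 0 then 3 else 0) j) (cel R i j) := by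
      intro i' c0 c1 k' hl
      refine (ih i' c0 (by omega) (by omega) k').trans (H.full_lk hR
        (clu_cel R c0 (by omega) j0 j1 (by omega)) (by rw [kd_cel R c0 (by omega) j0 j1, k'])
        (clu_cel R i0 i1 j0 j1 q) (by rw [kd_cel R i0 i1 j0 j1, k]) hl)
    rcases h with h | ⟨h1, h2⟩ | ⟨h1, h2, h3⟩ | ⟨h1, h2, h3, h4⟩
    · rw [← h]; exact fun _ _ => rfl
    · refine fin (i - 1) (by omega) (by omega) h2 ?_
      have := H.lk_cel hR (i := i - 1) (by omega) (by omega) j0 j1 (by omega)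
      rwa [sub_add_cancel] at this
    · refine fin (i - 3) (by omega) (by omega) h2 ?_
      have := H.lk_cel2 hR (i := i - 3 + 1) (by omega) (by omega) j0 j1 (by omega) h3
        (H.lk_cel hR (i := i - 3) (by omega) (by omega) j0 j1 (by omega))
      rwa [show i - 3 + 1 + 2 = i by ring] at this
    · refine fin (i - 5) (by omega) (by omega) h2 ?_
      have := H.lk_cel2 hR (i := i - 5 + 1 + 2) (by omega) (by omega) j0 j1 (by omega) h4
        (H.lk_cel2 hR (i := i - 5 + 1) (by omega) (by omega) j0 j1 (by omega) h3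
          (H.lk_cel hR (i := i - 5) (by omega) (by omega) j0 j1 (by omega)))
      rwa [show i - 5 + 1 + 2 + 2 = i by ring] at this

theorem Hy.row (H : Hy W L O τ s a K M F0 bv g μ b) {R : ℤ × ℤ} (hR : act W L R) {j : ℤ}
    (j0 : 0 ≤ j) (j1 : j < 6) {i i' : ℤ} (i0 : 0 ≤ i) (i1 : i < 16) (k : kd0 i j = 0)
    (i0' : 0 ≤ i') (i1' : i' < 16) (k' : kd0 i' j = 0) : Eb bv τ g R (cel R i j) (cel R i' j) :=
  (H.row0 hR j0 j1 16 i i0 i1 (by exact_mod_cast i1) k).symm.trans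
    (H.row0 hR j0 j1 16 i' i0' i1' (by exact_mod_cast i1') k')

theorem Hy.up_cel (H : Hy W L O τ s a K M F0 bv g μ b) {R : ℤ × ℤ} (hR : act W L R) {i j : ℤ}
    (h : (i = 8 ∧ (j = 0 ∨ j = 2)) ∨ (i = 7 ∧ (j = 1 ∨ j = 3)) ∨ (i = 4 ∧ j = 4)) :
    Eb bv τ g R (cel R i j) (cel R i (j + 1)) := by
  have i0 : 0 ≤ i := by omega
  have i1 : i < 16 := by omega
  have j0 : 0 ≤ j := by omega
  have j1 : j < 6 := by omega
  have j2 : 0 ≤ j + 1 := by omega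
  have j3 : j + 1 < 6 := by omega
  rw [← un_cel]
  refine H.full_up hR ?_ (clu_cel R i0 i1 j0 j1 (by omega)) ?_
    (by rw [un_cel]; exact clu_cel R i0 i1 j2 j3 (by omega)) ?_
  · unfold VS
    rw [la_cel R i0 i1, lb_cel R i j0 j1]
    omega
  · rw [kd_cel R i0 i1 j0 j1]
    rcases h with ⟨rfl, rfl | rfl⟩ | ⟨rfl, rfl | rfl⟩ | ⟨rfl, rfl⟩ <;> decide
  · rw [un_cel, kd_cel R i0 i1 j2 j3]
    rcases h with ⟨rfl, rfl | rfl⟩ | ⟨rfl, rfl | rfl⟩ | ⟨rfl, rfl⟩ <;> decide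

theorem Hy.core (H : Hy W L O τ s a K M F0 bv g μ b) {R : ℤ × ℤ} (hR : act W L R) {i j : ℤ}
    (i0 : 0 ≤ i) (i1 : i < 16) (j0 : 0 ≤ j) (j1 : j < 6) (k : kd0 i j = 0) :
    Eb bv τ g R (cel R i j) (cel R 7 0) := by
  have r : ∀ j i i' : ℤ, (0 ≤ j ∧ j < 6 ∧ 0 ≤ i ∧ i < 16 ∧ 0 ≤ i' ∧ i' < 16 ∧ kd0 i j = 0 ∧
      kd0 i' j = 0) → Eb bv τ g R (cel R i j) (cel R i' j) :=
    fun j i i' h => H.row hR h.1 h.2.1 h.2.2.1 h.2.2.2.1 h.2.2.2.2.2.2.1 h.2.2.2.2.1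
      h.2.2.2.2.2.1 h.2.2.2.2.2.2.2
  have e1 : Eb bv τ g R (cel R 7 0) (cel R 7 1) :=
    ((r 0 7 8 (by decide)).trans (H.up_cel hR (i := 8) (j := 0) (by omega))).trans
      (r 1 8 7 (by decide))
  have e2 : Eb bv τ g R (cel R 7 0) (cel R 7 2) :=
    e1.trans (H.up_cel hR (i := 7) (j := 1) (by omega))
  have e3 : Eb bv τ g R (cel R 7 0) (cel R 7 3) :=
    e2.trans (((r 2 7 8 (by decide)).trans (H.up_cel hR (i := 8) (j := 2) (by omega))).trans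
      (r 3 8 7 (by decide)))
  have e4 : Eb bv τ g R (cel R 7 0) (cel R 7 4) :=
    e3.trans (H.up_cel hR (i := 7) (j := 3) (by omega))
  have e5 : Eb bv τ g R (cel R 7 0) (cel R 7 5) :=
    e4.trans (((r 4 7 4 (by decide)).trans (H.up_cel hR (i := 4) (j := 4) (by omega))).trans
      (r 5 4 7 (by decide)))
  have k7 : kd0 7 j = 0 := by unfold kd0; simp
  refine (H.row hR j0 j1 i0 i1 k (i' := 7) (by norm_num) (by norm_num) k7).trans ?_
  have hj : j = 0 ∨ j = 1 ∨ j = 2 ∨ j = 3 ∨ j = 4 ∨ j = 5 := by omega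
  rcases hj with rfl | rfl | rfl | rfl | rfl | rfl
  · exact fun _ _ => rfl
  · exact e1.symm
  · exact e2.symm
  · exact e3.symm
  · exact e4.symm
  · exact e5.symm

/-! ### The tentacle and the receiving cells -/

theorem pq_ten (R : ℤ × ℤ) :
    pq bv τ s (cel (R.1, R.2 + 1) 15 0) = pq bv τ s (cel R 15 5) := by
  funext x y
  unfold pq v0 v1 v2 vp
  rw [clu_ten]
  simp (disch := norm_num) only [kd_cel, ix_cel, bs_cel, clu_cel]
  simp [kd0, ix0, ee, acol, -mul_eq_mul_left_iff, -add_left_inj, -add_right_inj]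
  ring

theorem Hy.ten (H : Hy W L O τ s a K M F0 bv g μ b) {R : ℤ × ℤ} (hR : act W L R) :
    ∀ u ∈ Rg bv τ s (cel (R.1, R.2 + 1) 15 0),
      g (cel (R.1, R.2 + 1) 15 0) u = g (cel R 15 5) u := by
  have s0 := H.s0
  have s1 := H.s1
  have c1 : clu (cel (R.1, R.2 + 1) 15 0) = R := by rw [clu_ten]; simp
  have c2 : clu (cel R 15 5) = R :=
    clu_cel R (by norm_num) (by norm_num) (by norm_num) (by norm_num) (by norm_num)
  have k1 : kd (cel (R.1, R.2 + 1) 15 0) ≠ 0 := by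
    rw [kd_cel _ (by norm_num) (by norm_num) (by norm_num) (by norm_num)]; decide
  have k2 : kd (cel R 15 5) = 0 := by
    rw [kd_cel _ (by norm_num) (by norm_num) (by norm_num) (by norm_num)]; decide
  have hV : VS (cel R 15 5) := by
    unfold VS
    rw [la_cel R (by norm_num) (by norm_num), lb_cel R _ (by norm_num) (by norm_num)]
    omega
  have n := nd_ne H.t0 (nd_cell H.hB H.t0 H.hv s (Q := cel (R.1, R.2 + 1) 15 0) (act_of c1 hR))
  refine H.sub (act_of c1 hR) (act_of c2 hR) k1 k2 (pq_ten R) (A := v0 bv τ s (cel (R.1, R.2 + 1) 15 0))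
    n.1 s0 (fun t => pq bv τ s (cel (R.1, R.2 + 1) 15 0) t 0) (fun t => by unfold pq; simp)
    fun t a1 a2 => ⟨mem_rg a1 (by rw [hq1 k1]; exact a2) le_rfl (by linarith), ?_⟩
  have := (H.up (Q := cel R 15 5) (act_of c2 hR) hV (by rw [un_last, c1, c2]) a1
    (by rw [hq0 k2]; linarith) (by rw [un_last, hq1 k1]; exact a2)).2
  rw [un_last] at this
  exact this.symm

theorem pq_rec (R : ℤ × ℤ) : pq bv τ s (cel R 1 0) = pq bv τ s (cel R 3 0) := by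
  funext x y
  unfold pq v0 v1 v2 vp
  simp (disch := norm_num) only [kd_cel, ix_cel, bs_cel, clu_cel]
  simp [kd0, ix0, ee, acol, -mul_eq_mul_left_iff, -add_left_inj, -add_right_inj]
  ring

theorem pq_rec0 (R : ℤ × ℤ) (x y : ℝ) :
    pq bv τ s (cel R 1 0) x y = pq bv τ s (cel R 0 0) (s - x) (1 - y) := by
  unfold pq v0 v1 v2 vp
  simp (disch := norm_num) only [kd_cel, ix_cel, bs_cel, clu_cel]
  simp [kd0, ix0, ee, acol]
  try ring

theorem Hy.rec0 (H : Hy W L O τ s a K M F0 bv g μ b) {R : ℤ × ℤ} (hR : act W L R) {t : ℝ}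
    (h1 : s ≤ t) (h2 : t ≤ 1 - s) :
    g (cel R 0 0) (pq bv τ s (cel R 0 0) 0 t) = g (cel R 3 0) (pq bv τ s (cel R 0 0) 0 t) := by
  have s0 := H.s0
  have s1 := H.s1
  have c : ∀ i : ℤ, 0 ≤ i → i < 15 → clu (cel R i 0) = R := fun i i0 i1 =>
    clu_cel R i0 (by omega) le_rfl (by norm_num) (by omega)
  have c0 := c 0 le_rfl (by norm_num)
  have c1 := c 1 (by norm_num) (by norm_num)
  have c2 := c 2 (by norm_num) (by norm_num)
  have c3 := c 3 (by norm_num) (by norm_num)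
  have k0 : kd (cel R 0 0) ≠ 0 := by
    rw [kd_cel _ (by norm_num) (by norm_num) (by norm_num) (by norm_num)]; decide
  have k1 : kd (cel R 1 0) = 1 := by
    rw [kd_cel _ (by norm_num) (by norm_num) (by norm_num) (by norm_num)]; decide
  have k1' : kd (cel R 1 0) ≠ 0 := by omega
  have k3 : kd (cel R 3 0) = 0 := by
    rw [kd_cel _ (by norm_num) (by norm_num) (by norm_num) (by norm_num)]; decide
  have l01 : Lk bv τ s g (cel R 0 0) (cel R 1 0) :=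
    H.lk_cel hR (i := 0) le_rfl (by norm_num) le_rfl (by norm_num) (by norm_num)
  have l23 : Lk bv τ s g (cel R 2 0) (cel R 3 0) :=
    H.lk_cel hR (i := 2) (by norm_num) (by norm_num) le_rfl (by norm_num) (by norm_num)
  have r1 : rn (cel R 1 0) = cel R 2 0 := rn_cel R 1 0
  have e : pq bv τ s (cel R 0 0) 0 t = pq bv τ s (cel R 1 0) s (1 - t) := by
    rw [pq_rec0, sub_self, sub_sub_cancel]
  have n := nd_ne H.t0 (nd_cell H.hB H.t0 H.hv s (Q := cel R 1 0) (act_of c1 hR))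
  have a1 := H.twin (act_of c1 hR) (act_of c0 hR) k1' k0 (pq_rec0 R) le_rfl s0.le
    (fun y b1 b2 => (l01 y b1 (by linarith)).2.symm) (x := s) (y := 1 - t) s0.le le_rfl
    (by linarith) (by linarith)
  have a2 := H.sub (act_of c1 hR) (act_of c3 hR) k1' k3 (pq_rec R) (A := v0 bv τ s (cel R 1 0)) n.2
    (t1 := s) (t2 := 1) (by linarith) (fun y => pq bv τ s (cel R 1 0) 0 y)
    (fun y => by unfold pq; simp)
    (fun y b1 b2 => ⟨mem_rg le_rfl (by rw [hq1 k1']; linarith) (by linarith) (by linarith), by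
      have p := (H.pair (Q := cel R 1 0) (act_of c1 hR)
        (by rw [la_cel R (by norm_num) (by norm_num)]; norm_num) (by rw [r1, c1, c2]) k1 b1 b2).2
      rw [r1] at p
      have q := (l23 y b1 b2).2
      rw [← pq_rec R] at q
      exact p.trans q⟩)
    (pq bv τ s (cel R 1 0) s (1 - t))
    (mem_rg s0.le (by rw [hq1 k1']) (by linarith) (by linarith))
  rw [e, ← a1, a2]

end CLUa

theorem rowCLU : R_CLU := by
  intro hB hH hA W L O τ s a K M F0 bv g μ b t0 t1 s0 s1 hv hE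
  have H : CLUa.Hy W L O τ s a K M F0 bv g μ b := ⟨hB, hH, hA, t0, t1, s0, s1, hv, hE⟩
  exact ⟨fun R i j hR i0 i1 j0 j1 k => H.core hR i0 i1 j0 j1 k, fun R hR => H.ten hR,
    fun R t hR h1 h2 => H.rec0 hR h1 h2⟩

end

end Pool.Agent.MP_d32a63_an.H13N
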