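import Pool.Agent.MP_d32a63_an.H13N.Pat
import Pool.Agent.MP_d32a63_an.H41.OutA

/-! Row FIN: one finite level of the outer scale. -/

open Set Filter Topology Metric Polynomial
open Complex (I)
open Pool.Agent.MP_d32a63_an.H95 (Core Sec jet W0 Flat RealStmt)
open Pool.Agent.MP_d32a63_an.H58 hiding Cells Sq LAV LA1 LA2 LIMA LIMB LIM FIN

namespace Pool.Agent.MP_d32a63_an.H13N

theorem rowFIN : R_FIN := by
  intro hB hI hC hZ hR n hL s Γ hΓ κ hκ
  have : UF.NeBot := (hyperfilter ℕ).neBot'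
  obtain ⟨τ, K, M, d1, βc, hτ, hτ1, hK, hM, hd1, hβc, h1⟩ := hL s Γ hΓ κ hκ
  obtain ⟨K', βL, hK', hβL, h2⟩ := hR τ (10 * (4 * K)) M hτ hτ1 (by linarith) hM
  refine ⟨τ, K', fun η => min (βL (η / 2)) (min (βc (η / 8)) (η / (4 * (K + 3)))), hτ, hK',
    fun η hη => lt_min (hβL _ (by linarith)) (lt_min (hβc _ (by linarith)) (by positivity)),
    fun d0 hd0 => ?_⟩
  set d := min d0 (min d1 (1 / 10)) with hd
  have hdp : 0 < d := lt_min hd0 (lt_min hd1 (by norm_num))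
  have hdd1 : d ≤ d1 := (min_le_right _ _).trans (min_le_left _ _)
  have hd10 : d ≤ 1 / 10 := (min_le_right _ _).trans (min_le_right _ _)
  obtain ⟨a, ha, h3⟩ := h1 d ⟨hdp, hdd1⟩
  obtain ⟨s0, L0, hs0, hL0, h4⟩ := h2 d a hdp ha
  obtain ⟨m1, hm1⟩ := exists_nat_ge (1 / s0)
  set m0 := m1 + 20 with hm0
  have m0r : (m0 : ℝ) = m1 + 20 := by rw [hm0]; push_cast; ring
  have m1p : (0 : ℝ) ≤ m1 := Nat.cast_nonneg _
  have m0p : (0 : ℝ) < m0 := by linarith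
  have sp : (0 : ℝ) < 1 / m0 := by positivity
  have s20 : (1 : ℝ) / m0 ≤ 1 / 20 := one_div_le_one_div_of_le (by norm_num) (by linarith)
  have ss0 : (1 : ℝ) / m0 ≤ s0 := by
    rw [div_le_iff₀ hs0] at hm1
    rw [div_le_iff₀ m0p]; nlinarith
  obtain ⟨L, O, cost, bv, hLL, hy, h5⟩ := h3 m0 (by omega) L0 hL0
  refine ⟨d, min_le_left _ _, ?_⟩
  by_contra hn
  choose N hh s' Γ' hσ hE hΓ' hBr hG using fun k : ℕ => h5 (1 / ((k : ℝ) + 1)) (by positivity)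
  have bad : ∀ k : ℕ, ∃ G, Sec n (s' k).W G ∧ GapOK (Γ' k) (G 0) ∧ ∃ e, LipD (s' k).W e (G 0) ∧
      ∀ ℓ Φ μ c, ¬Cells s.W Γ (s.F 0) τ K'
        (fun η => min (βL (η / 2)) (min (βc (η / 8)) (η / (4 * (K + 3))))) e d (G 0) ℓ Φ μ c := by
    intro k
    by_contra hk
    push Not at hk
    exact hn ⟨s' k, Γ' k, hE k, hΓ' k, hBr k, fun G a1 a2 e a3 => hk G a1 a2 e a3⟩
  choose G g1 g2 e g3 g4 using bad
  choose A ν β hF using fun k => hG k (G k) (g1 k) (g2 k) (e k) (g3 k)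
  have lim : Tendsto (fun k => τ / N k) atTop (𝓝 0) :=
    squeeze_zero (fun k => by positivity) hσ tendsto_one_div_add_atTop_nhds_zero_nat
  obtain ⟨g, μ, b, hEx, hmid, hfl⟩ := hI s.W L O τ (1 / m0) a K M (s.F 0) cost bv e
    (fun k => G k 0) N hh A ν β hτ hτ1 sp s20 hK hy.bv lim hF
  have hGl := hC s.W L O τ (1 / m0) a (4 * K) M (s.F 0) bv g μ b hτ hτ1 sp s20 hy.bv hEx
  obtain ⟨hZn, hz2⟩ := hZ s.W L O τ (1 / m0) a (4 * K) M (s.F 0) bv g μ b hτ hτ1 sp s20 hy.L0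
    (by linarith [hy.L1]) (by linarith) hy.bv hEx hGl
  have hRel := h4 s.W L O (1 / m0) (s.F 0) bv _ _ _ _ _ _ sp ss0 hy.L0 hLL hy.bv hZn
  have fA := hB.finA s.W L s.base hy.L0
  have e1 : ∀ᶠ k in UF, ∀ R ∈ {R | act s.W L R},
      ‖A k (cel R 0 3) (0, (N k : ℤ) / 2) - g (cel R 3 0) (bv R (R.1 - 1, R.2))‖ ≤ d := by
    rw [eventually_all_finite fA]
    intro R hR'
    have t := hmid R hR'
    rw [(hz2 R hR').1] at t
    filter_upwards [(Metric.tendsto_nhds.1 t) d hdp] with k hk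
    rw [← dist_eq_norm]; exact hk.le
  have e2 : ∀ᶠ k in UF, ∀ R ∈ {R | act s.W L R}, ball (cen L R) (3 * L) ⊆ ball (e k) (1 / 10) →
      ∀ u ∈ Rg bv τ (1 / m0) (cel R 7 0), ∀ u' ∈ Rg bv τ (1 / m0) (cel R 7 0),
        g (cel R 7 0) u = g (cel R 7 0) u' := by
    rw [eventually_all_finite fA]
    intro R hR'
    rcases (hyperfilter ℕ).em fun k => ball (cen L R) (3 * L) ⊆ ball (e k) (1 / 10) with h | h
    · exact Eventually.of_forall fun k _ => hfl R hR' h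
    · exact Eventually.mono h fun k hk hk' => (hk hk').elim
  obtain ⟨k, k1, k2⟩ := (e1.and e2).exists
  have hK0 : 0 ≤ K' := by linarith
  have Ld : L ≤ d := by nlinarith [hy.ld]
  refine g4 k L (fun R => g (cel R 7 0)) (fun R => μ (cel R 7 0)) (fun _ _ => 0)
    ⟨hdp, hd10, hy.L0, hy.ld, fun Q hQ => ?_, hRel.ver,
      fun k j a1 a2 a3 => hRel.hor k j a1 a2 (hy.good.fr k j a3),
      fun i j a1 a2 a3 a4 => hRel.cr i j a1 a2 a3 (hy.good.fr _ j a4), fun g0 hg0 z hz hd' => ?_,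
      fun k' y s1 hp => ?_, fun Q hQ hb w hw w' hw' => ?_⟩
  · exact H41.wh_mono (hRel.wh Q hQ) hK0 le_rfl le_rfl hdp.le subset_rfl
  · obtain ⟨o, ho, j, hj, e3, e4⟩ := hy.good.st g0 hg0 z hz hd'
    obtain ⟨b1, b2, -⟩ := hy.geo.st o ho j hj
    exact ⟨o.k, j, hy.good.k3 o ho, e3, e4, hRel.sta o ho j hj b1 b2⟩
  · obtain ⟨o, ho, hth, rfl, rfl, j, hj, e3⟩ := hy.good.pr k' y s1 hp
    obtain ⟨-, b2, -⟩ := hy.geo.st o ho j hj
    refine ⟨j, e3, fun η hη hdη c0 hc0 => ?_⟩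
    have c1 : d ≤ βc (η / 8) := hdη.trans ((min_le_right _ _).trans (min_le_left _ _))
    have c2 : d ≤ η / (4 * (K + 3)) := hdη.trans ((min_le_right _ _).trans (min_le_right _ _))
    rw [le_div_iff₀ (by positivity)] at c2
    have c3 := hRel.pro (o.k, j) b2 (η / 2) (by linarith) c0
      fun w hw => (hc0 w hw).trans (min_le_left _ _)
    have c4 := (hF k).st o ho j hj
    have c5 := k1 (o.k, j) b2
    have c6 := (hy.good.prb o ho hth).1
    have c7 := hy.prb o ho hth (η / 8) (by linarith) c1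
    have c8 : K * L ≤ K * d := mul_le_mul_of_nonneg_left Ld (by linarith)
    simp only at c3 c4 c5
    have c9 := norm_sub_le_norm_sub_add_norm_sub (G k 0 o.y)
      (A k (cel (o.k, j) 0 3) (0, (N k : ℤ) / 2)) c0
    have c10 := norm_sub_le_norm_sub_add_norm_sub (A k (cel (o.k, j) 0 3) (0, (N k : ℤ) / 2))
      (g (cel (o.k, j) 3 0) (bv (o.k, j) (o.k - 1, j))) c0
    linarith
  · rw [k2 Q hQ hb w ((hz2 Q hQ).2 hw) w' ((hz2 Q hQ).2 hw'), sub_self, norm_zero]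
    positivity

end Pool.Agent.MP_d32a63_an.H13N
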