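import Pool.Agent.MP_d32a63_an.H13N.GRID3A

/-! The realisation of the pattern of clusters from the general grid. -/

open Set Filter Topology Metric Polynomial
open Complex (I)
open Pool.Agent.MP_d32a63_an.H95 (Core Sec jet W0 Flat RealStmt)
open Pool.Agent.MP_d32a63_an.H58 hiding Cells Sq LAV LA1 LA2 LIMA LIMB LIM FIN

namespace Pool.Agent.MP_d32a63_an.H13N

namespace GRID3

noncomputable section

/-- The sharing relation with the right neighbour. -/
def SR (W : Set ℂ) (D : GD3) (O : Set Obj) (Q : ℤ × ℤ) (x : ℤ) : Prop :=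
  act W D.L (clu Q) ∧ act W D.L (clu (rn Q)) ∧ Sh D.N x ∧ (kd Q = 0 ∨ (D.hh : ℤ) ≤ x) ∧
    (HF D.L O Q ∨ (HS O Q ∧ D.Mid x))

/-- The sharing relation with the upper neighbour. -/
def SV (W : Set ℂ) (D : GD3) (Q : ℤ × ℤ) (x : ℤ) : Prop :=
  VS Q ∧ act W D.L (clu Q) ∧ act W D.L (clu (un Q)) ∧ Sh D.N x ∧ x ≤ HH D.N D.hh Q ∧
    x ≤ HH D.N D.hh (un Q)

theorem oy {W L O} (H : ObjGeo W L O) (ℓ : ℝ) {o : Obj} (ho : o ∈ O) :
    (⟨xw L ℓ (16 * o.k), o.y.im⟩ : ℂ) = o.y := by rw [xw_mul]; exact obj_y H ho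

theorem ofin {W L O} (H : ObjGeo W L O) (ℓ : ℝ) {o : Obj} (ho : o ∈ O) :
    (⟨xw L ℓ (16 * o.k), o.y.im + o.s * o.Λ⟩ : ℂ) = o.fin := by rw [xw_mul]; exact obj_fin H ho

theorem SR.side {W D O Q x} (h : SR W D O Q x) : la Q ≠ 15 ∨ lb Q ≤ 3 := by
  rcases h.2.2.2.2 with (h | h) | ⟨h, -⟩
  · exact Or.inl h
  · exact Or.inr h.1
  · exact Or.inr h.2.1.le

theorem sr_mid {W D O} (H : ObjGeo W D.L O) (hl : 0 < D.L) {o : Obj} (ho : o ∈ O) {j x : ℤ}
    (hs : SR W D O (16 * o.k - 1, j) x)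
    (hne : (wallG (xw D.L D.ℓ) (yx D.L D.ℓ) (16 * o.k) j ∩ openSegment ℝ o.y o.fin).Nonempty) :
    j % 6 = 3 ∧ j / 6 ∈ o.St ∧ D.Mid x := by
  obtain ⟨z, hz, hz'⟩ := hne
  have hz := wall_sub hl _ _ _ hz
  have hz2 := (mem_open (H.sg o ho) (by linarith [H.len o ho])).1 hz'
  have e1 : (rc (16 * o.k - 1, j)).1 + 1 = o.k := by unfold rc; simp only; omega
  rcases hs.2.2.2.2 with (h | ⟨-, h⟩) | ⟨⟨-, h3, o', ho', hk, hj⟩, hm⟩
  · exact absurd (by unfold la; simp only; omega) h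
  · exact absurd ⟨hz2.2.1.le, hz2.2.2.le⟩ (h o ho e1.symm z.im ⟨hz.2.1, hz.2.2⟩)
  · rw [e1] at hk
    by_cases hoo : o = o'
    · subst hoo; exact ⟨h3, hj, hm⟩
    · have := wall_open H hl ho' hj (hk ▸ hz)
      exact absurd (openSegment_subset_segment _ _ _ this)
        (Set.disjoint_left.1 (H.cross o ho o' ho' hoo) hz')

theorem sr_eq {n W F κ D O To ν} (H : GHyp3 n W F κ D O To ν) {Q : ℤ × ℤ} {X : ℕ}
    (hs : SR W D O Q ((D.N : ℤ) - X)) :
    D.T Q (((tp D.N (HH D.N D.hh Q) X : ℕ) : ℤ), (X : ℤ)) = D.T (rn Q) (0, (D.N : ℤ) - X) := by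
  rw [← H.shh Q _ hs.side hs.2.2.1 hs.2.2.2.1]
  obtain ⟨b1, b2, -⟩ := hs.2.2.1
  unfold rnd tp
  exact congrArg _ (Prod.ext (by simp only; omega) (by simp only; omega))

theorem st_wall {W L O} (H : ObjGeo W L O) (hl : 0 < L) (ℓ : ℝ) {o : Obj} (ho : o ∈ O) {j : ℤ}
    (hj : j ∈ o.St) : wallG (xw L ℓ) (yx L ℓ) (16 * o.k) (6 * j + 3) ⊆
      H23.wall L o.k j ∩ openSegment ℝ o.y o.fin := fun z hz => by
  have := wall_sub hl _ _ _ hz
  rw [show (6 * j + 3) / 6 = j by omega] at this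
  exact ⟨this, wall_open H hl ho hj this⟩

theorem st_left (k j : ℤ) : (16 * k - 1, 6 * j + 3) = cel (k - 1, j) 15 3 :=
  Prod.ext (by unfold cel; simp only; ring) rfl

theorem st_right (k j : ℤ) : rn (16 * k - 1, 6 * j + 3) = cel (k, j) 0 3 :=
  Prod.ext (by unfold cel rn; simp only; ring) rfl

theorem HH_bd {n W F κ D O To ν} (H : GHyp3 n W F κ D O To ν) (Q : ℤ × ℤ) :
    1 ≤ HH D.N D.hh Q ∧ HH D.N D.hh Q ≤ D.N := by
  have := H.h0
  have := H.h1
  unfold HH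
  split_ifs <;> omega

open Classical in
/-- The grid data that belong to the hypotheses `GHyp3`. -/
def data {n : ℕ} (s : Core n) {κ : ℝ} {D : GD3} {O : Set Obj} {To : Obj → ℂ[X]}
    {ν : Obj → ℝ} (H : GHyp3 n s.W s.F κ D O To ν) (hA : {Q | act s.W D.L (clu Q)}.Finite)
    (h : ℤ × ℤ → ℝ → ℝ) (h1 : ∀ Q x x', |h Q x - h Q x'| ≤ 1 / D.c * |x - x'|)
    (h2 : ∀ Q x, |h Q x - yc D.L D.ℓ Q.1 Q.2| ≤ D.ℓ / 3) (δ' : ℝ) (hδ : 0 < δ') :
    GData s κ D.ℓ (D.L / 6) (1 / D.c) D.ν' D.N (D.N / 2 - D.xw) (D.N / 2 + D.xw) Obj where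
  Act := hA.toFinset
  H := HH D.N D.hh
  T Q v := D.T Q (v.2, v.1)
  xc := xc D.L D.ℓ
  xw := xw D.L D.ℓ
  yc := yc D.L D.ℓ
  yx := yx D.L D.ℓ
  h := h
  reg Q := ball (cen D.L (clu Q)) (2 * D.L)
  shR Q X := SR s.W D O Q ((D.N : ℤ) - X)
  shV Q k := SV s.W D Q k
  Th := H.geo.fin.toFinset
  I o := 16 * o.k
  y0 o := o.y.im
  y1 o := o.y.im + o.s * o.Λ
  P := To
  gap o := o.thr
  St o := o.St.image fun j => 6 * j + 3
  c o := (if o.St.Nonempty then ν o + 2 * D.ν' * D.xw else 0) + δ'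
  hx1 := hx1 H.l0 H.lL
  hx2 := hx2 H.l0 H.lL
  hy1 i j := (yc_step H.l0 H.lL i j).1
  hy2 i j := (yx_step H.l0 H.lL i j).1
  ratc i := by
    obtain ⟨q, hq⟩ := H.ratL
    obtain ⟨q', hq'⟩ := H.ratl
    rw [hq, hq']
    exact rat_xc i
  ratw i := by
    obtain ⟨q, hq⟩ := H.ratL
    obtain ⟨q', hq'⟩ := H.ratl
    rw [hq, hq']
    exact rat_xw i
  ratl := H.ratl
  hH := HH_bd H
  conv _ := convex_ball _ _
  box := box_reg H.l0 H.lL
  wl Q := wall_reg H.l0 H.lL Q (Or.inl rfl)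
  wr Q := wall_reg H.l0 H.lL Q (Or.inr rfl)
  act Q hQ := by
    rw [Set.Finite.mem_toFinset] at hQ
    exact Disjoint.mono_left (ball_subset_ball (by linarith [H.l0, H.lL])) hQ
  lab Q hQ v hv hv' j hj z hz := by
    rw [Set.Finite.mem_toFinset] at hQ
    exact H.close Q hQ _ ⟨by simp, by simp only; omega, by simp, by simp only; omega⟩ j hj z hz
  hlip := h1
  hmid := h2
  hR i j X hs := by
    obtain ⟨b1, b2, b3⟩ := hs.2.2.1
    refine ⟨hA.mem_toFinset.2 hs.1, hA.mem_toFinset.2 hs.2.1, by omega, by omega, ?_⟩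
    have e1 : ((D.N - X : ℕ) : ℤ) = (D.N : ℤ) - X := by omega
    simp only [e1]
    exact sr_eq H hs
  hV i j k hs := by
    obtain ⟨a1, a2, a3, a4, a5, a6⟩ := hs
    have a7 : (k : ℤ) ≤ HH D.N D.hh (i, j + 1) := a6
    obtain ⟨b1, b2, b3⟩ := id a4
    exact ⟨vs_even a1, hA.mem_toFinset.2 a2, hA.mem_toFinset.2 a3, by omega, by omega, by omega,
      by omega, H.shv (i, j) k a1 a4⟩
  thw t _ j := yx_mul _ _ _ _
  len t ht := by
    rw [Set.Finite.mem_toFinset] at ht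
    have := H.geo.len t ht
    have h0 : 0 < t.Λ := by linarith [H.l0, H.lL]
    rcases H.geo.sg t ht with e | e <;> rw [e] <;> simp [abs_of_pos h0] <;> linarith
  start t ht := by
    rw [Set.Finite.mem_toFinset] at ht
    rw [oy H.geo _ ht]
    exact ⟨H.geo.mem t ht, fun j hj => (H.oj t ht j hj).1⟩
  free t ht := by
    rw [Set.Finite.mem_toFinset] at ht
    rw [oy H.geo _ ht, ofin H.geo _ ht]
    exact H.geo.free t ht
  disj t ht t' ht' hne := by
    rw [Set.Finite.mem_toFinset] at ht ht'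
    rw [oy H.geo _ ht, ofin H.geo _ ht, oy H.geo _ ht', ofin H.geo _ ht']
    exact H.geo.cross t ht t' ht' hne
  near t ht j hj z hz := by
    rw [Set.Finite.mem_toFinset] at ht
    rw [oy H.geo _ ht, ofin H.geo _ ht] at hz
    exact H.oc t ht j hj z hz
  stop t ht hg := by
    rw [Set.Finite.mem_toFinset] at ht
    rw [ofin H.geo _ ht]
    exact ⟨H.geo.thr t ht hg, fun j hj => (H.oj t ht j hj).2 hg⟩
  cross t ht j X hs hne := by
    rw [Set.Finite.mem_toFinset] at ht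
    rw [oy H.geo _ ht, ofin H.geo _ ht] at hne
    obtain ⟨a0, a1, a2, a3⟩ := sr_mid H.geo (by linarith [H.l0, H.lL]) ht hs hne
    have := H.xw
    obtain ⟨k, hk⟩ := H.N6
    rw [abs_le] at a3
    exact ⟨Finset.mem_image.2 ⟨_, a1, by omega⟩, by omega, by omega⟩
  station t ht j₀ hj₀ := by
    rw [Set.Finite.mem_toFinset] at ht
    obtain ⟨j, hj, rfl⟩ := Finset.mem_image.1 hj₀
    have hL : 0 < D.L := by linarith [H.l0, H.lL]
    refine ⟨hA.mem_toFinset.2 ?_, fun z hz => ?_⟩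
    · change act s.W D.L (clu _)
      rw [st_left, clu_cel _ (by norm_num) (by norm_num) (by norm_num) (by norm_num) (by norm_num)]
      exact (H.geo.st t ht j hj).1
    obtain ⟨hw, hzo⟩ := st_wall H.geo hL _ ht hj hz
    have hzb : z ∈ ball (cen D.L (t.k, j)) D.L := by
      rw [mem_ball, dist_eq_norm]
      refine sq_norm hL ⟨hw.1.ge, ?_, hw.2.1, hw.2.2⟩
      rw [hw.1]; simp only; nlinarith
    have hT : ∀ X : ℕ, SR s.W D O (16 * t.k - 1, 6 * j + 3) ((D.N : ℤ) - X) →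
        D.Mid ((D.N : ℤ) - X) ∧ D.T (16 * t.k - 1, 6 * j + 3)
          (((tp D.N (HH D.N D.hh (16 * t.k - 1, 6 * j + 3)) X : ℕ) : ℤ), (X : ℤ)) =
          D.T (cel (t.k, j) 0 3) (0, (D.N : ℤ) - X) := fun X hs =>
      ⟨(sr_mid H.geo hL ht hs ⟨z, hz, hzo⟩).2.2, by rw [sr_eq H hs, st_right]⟩
    have hseg := openSegment_subset_segment _ _ _ hzo
    constructor
    · intro X hs
      obtain ⟨m1, e1⟩ := hT X hs
      have := (H.os t ht j hj _ m1 z hzb hseg).1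
      simp only [e1]
      have hne : t.St.Nonempty := ⟨j, hj⟩
      rw [if_pos hne, eval_sub, norm_sub_rev, ← eval_sub]
      have : 0 ≤ 2 * D.ν' * D.xw := by have := H.n0; positivity
      linarith
    · intro X X' hs hs' hX
      obtain ⟨m1, e1⟩ := hT X hs
      obtain ⟨m2, e2⟩ := hT X' hs'
      have := (H.os t ht j hj _ m1 z hzb hseg).2 _ m2
      simp only [e1, e2]
      refine this.trans (le_of_eq ?_)
      have hX' : (X : ℝ) ≤ X' := by exact_mod_cast hX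
      push_cast
      rw [abs_of_nonpos (by linarith)]; ring
  cpos t ht := by
    rw [Set.Finite.mem_toFinset] at ht
    have := H.on t ht
    have := H.n0
    split_ifs <;> positivity
  win t ht hne := by
    rw [Set.Finite.mem_toFinset] at ht
    have h3 := H.on t ht
    have h4 := H.xw
    have e : D.xw ≤ D.N / 2 := by omega
    rw [if_pos (Finset.image_nonempty.1 hne)]
    push_cast [Nat.cast_sub e]
    linarith

open Classical in
theorem cost_le {n W F κ D O To ν} (H : GHyp3 n W F κ D O To ν) {C Cg δ δ' B : ℝ} (hC : 0 < C)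
    (hκ : 0 < κ) (hCg : 4 * C ≤ Cg) (hδ : 0 < δ') (hδ' : C * ((3 * B + 1) * δ') / κ = δ)
    {o : Obj} (ho : o ∈ O) (hB : (o.St.card : ℝ) ≤ B) :
    |o.y.im + o.s * o.Λ - o.y.im| + C * ((3 * (o.St.image fun j => 6 * j + 3).card + 1) *
      ((if o.St.Nonempty then ν o + 2 * D.ν' * D.xw else 0) + δ')) / κ ≤
      o.Λ + D.cost Cg κ ν o + δ := by
  rw [Finset.card_image_of_injective _ fun a b (e : 6 * a + 3 = 6 * b + 3) => by omega]
  have h0 : 0 < o.Λ := by linarith [H.geo.len o ho, H.l0, H.lL]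
  have e1 : |o.y.im + o.s * o.Λ - o.y.im| = o.Λ := by
    rcases H.geo.sg o ho with e | e <;> rw [e] <;> simp [abs_of_pos h0]
  have e2 : C * ((3 * o.St.card + 1) * δ') / κ ≤ δ := by
    rw [← hδ']; gcongr
  have e3 : C * ((3 * o.St.card + 1) * (if o.St.Nonempty then ν o + 2 * D.ν' * D.xw else 0)) / κ
      ≤ D.cost Cg κ ν o := by
    have hν := H.on o ho
    have hν' := H.n0
    have : 0 ≤ Cg := by linarith
    unfold GD3.cost
    split_ifs with hne
    · have : (1 : ℝ) ≤ o.St.card := by exact_mod_cast hne.card_pos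
      refine div_le_div_of_nonneg_right ?_ hκ.le
      have p1 : 0 ≤ D.ν' * D.xw := by positivity
      calc C * ((3 * o.St.card + 1) * (ν o + 2 * D.ν' * D.xw))
          ≤ C * ((4 * o.St.card) * (2 * ν o + 2 * D.ν' * D.xw)) := by
            gcongr <;> linarith
        _ = 4 * C * o.St.card * (2 * ν o + 2 * D.ν' * D.xw) := by ring
        _ ≤ _ := by gcongr
    · rw [mul_zero, mul_zero, zero_div]; positivity
  rw [e1, mul_add (3 * (o.St.card : ℝ) + 1), mul_add C, add_div]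
  linarith

theorem grid (hB : BASIC) {n : ℕ} {C Cg : ℝ} (hn : 2 ≤ n) (hC : 0 < C) (hG : GStmt n C)
    (g1 : 4 * C ≤ Cg) (g2 : 1000 * 4 ^ n + 1000 * n ≤ Cg) : GRID3 n Cg := by
  classical
  intro s κ δ hκ hκ1 hδ D O To ν H
  have hl := H.l0
  have lL := H.lL
  have L1 := H.L1
  have hL : 0 < D.L := by linarith
  have hA := fin_cells hB s.base hL
  obtain ⟨h, h1, h2, h3⟩ := exists_prof H
  obtain ⟨B, hB'⟩ := (H.geo.fin.image fun o => (o.St.card : ℝ)).bddAbove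
  have hB0 : ∀ o ∈ O, (o.St.card : ℝ) ≤ |B| := fun o ho =>
    (hB' ⟨o, ho, rfl⟩).trans (le_abs_self B)
  obtain ⟨δ', hδ'⟩ : ∃ δ', δ' = δ * κ / (C * (3 * |B| + 1)) := ⟨_, rfl⟩
  have hδ0 : 0 < δ' := by rw [hδ']; positivity
  have hx := H.xw
  have hc := H.c0
  obtain ⟨s', γ, Γ, a, b, R, r, o1, o2, o3, o4, o5, o6, o7, o8, o9, o10, o11⟩ :=
    hG s κ D.ℓ (D.L / 6) (1 / D.c) D.ν' D.N (D.N / 2 - D.xw) (D.N / 2 + D.xw) Obj
      (data s H hA h h1 h2 δ' hδ0) hκ hl (by linarith) (by positivity) (by positivity) H.n0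
      (by omega) (by omega) (by omega)
  have hcost := fun o (ho : o ∈ O) => cost_le H hC hκ g1 hδ0 (δ := δ)
    (by rw [hδ']; field_simp) ho (hB0 o ho)
  have ct : ∀ Q, (data s H hA h h1 h2 δ' hδ0).ct Q = xq D.L D.ℓ Q := fun Q => (xq_eq _ _ Q).symm
  have hth : ∀ {o}, o ∈ O → o ∈ (data s H hA h h1 h2 δ' hδ0).Th := fun ho =>
    H.geo.fin.mem_toFinset.2 ho
  have root : ∀ Q, act s.W D.L (clu Q) → ∀ v : ℕ × ℕ, v.1 + v.2 ≤ D.N → v.2 ≤ HH D.N D.hh Q →
      r Q v ∈ closure s'.W ∧ ‖r Q v - xq D.L D.ℓ Q‖ ≤ D.ℓ ∧ ‖r Q v‖ ≤ 3 := by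
    intro Q hQ v v1 v2
    obtain ⟨e1, e2⟩ := o6 Q (hA.mem_toFinset.2 hQ) v v1 v2
    rw [ct] at e2
    refine ⟨e1, e2, ?_⟩
    have c1 : ‖cen D.L (clu Q)‖ ≤ 1 := (hB.inn s.W _ s.base fun h =>
      Set.disjoint_left.1 hQ (mem_ball_self (by linarith)) (subset_closure h)).2
    have c2 := xq_near hl.le D.L Q
    linarith [norm_le_norm_add_norm_sub' (r Q v) (xq D.L D.ℓ Q),
      norm_le_norm_add_norm_sub' (xq D.L D.ℓ Q) (cen D.L (clu Q))]
  have tri := fun x y z : ℂ => norm_sub_le_norm_sub_add_norm_sub x y z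
  refine ⟨s', (fun g => (⟨a g, b g, R g⟩ : Seg)) '' (Γ : Set γ),
    fun Q m => r Q (m.2.toNat, m.1.toNat), ⟨o1, o2, o3⟩, ?_, ?_⟩
  · refine ⟨(Γ.finite_toSet).image _, ?_, ?_, ?_, ?_, ?_, ?_, ?_⟩
    · rintro _ ⟨g, hg, rfl⟩; exact (o4 g hg).1
    · rintro _ ⟨g, hg, rfl⟩; exact (o4 g hg).2.2.2.2.2.1
    · rintro _ ⟨g, hg, rfl⟩; exact (o4 g hg).2.2.2.2.2.2
    · rintro _ ⟨g, hg, rfl⟩; exact ⟨(o4 g hg).2.1, (o4 g hg).2.2.1⟩
    · rintro _ ⟨g, hg, rfl⟩; exact (o4 g hg).2.2.2.1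
    · rintro _ ⟨g, hg, rfl⟩ _ ⟨g', hg', rfl⟩ hne
      exact o5 g hg g' hg' fun e => hne (by rw [e])
    · rintro _ ⟨g, hg, rfl⟩; exact (o4 g hg).2.2.2.2.1
  refine ⟨fun o ho ht => ?_, fun Q hQ m hm => ?_, fun G hS hO Q hQ m m' hm hm' hN => ?_,
    fun G hS Q x a1 a2 a3 a4 a5 a6 z hz => ?_, fun G hS Q x a1 a2 a3 a4 a5 z hz => ?_,
    fun G hS o ho j hj x hx' => ?_⟩
  · obtain ⟨g, hg, e1, e2, e3⟩ := o9 o (hth ho) ht
    refine ⟨_, ⟨g, hg, rfl⟩, e1.trans (ofin H.geo _ ho), e2.trans (by linarith), fun G hS => ?_⟩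
    have := e3 G hS
    simp only [data, oy H.geo _ ho] at this
    exact this.trans (hcost o ho)
  · obtain ⟨b1, b2, b3, b4⟩ := hm
    obtain ⟨e1, e2, -⟩ := root Q hQ (m.2.toNat, m.1.toNat) (by simp only; omega)
      (by simp only; omega)
    exact ⟨e1, e2⟩
  · obtain ⟨b1, b2, b3, b4⟩ := hm
    obtain ⟨c1, c2, c3, c4⟩ := hm'
    obtain ⟨hζ1, hζ2⟩ := H.lk Q hQ m m' hN
    generalize D.ζ Q m m' = ζ at hζ1 hζ2 ⊢
    have bx := H.box Q hQ ζ hζ1
    have hre : |ζ.re - xc D.L D.ℓ Q.1| ≤ D.ℓ / 3 := by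
      have := (Complex.abs_re_le_norm _).trans bx
      rwa [xq_eq] at this
    have hO' : ∀ g ∈ Γ, ‖G 0 (a g) - G 0 (b g)‖ ≤ 4 * ‖a g - b g‖ := fun g hg =>
      hO _ ⟨g, hg, rfl⟩
    have em : (((m.1.toNat : ℕ) : ℤ), ((m.2.toNat : ℕ) : ℤ)) = m := by
      ext <;> simp only <;> omega
    have em' : (((m'.1.toNat : ℕ) : ℤ), ((m'.2.toNat : ℕ) : ℤ)) = m' := by
      ext <;> simp only <;> omega
    have d2 : m.1.toNat ≤ HH D.N D.hh Q := by omega
    have d2' : m'.1.toNat ≤ HH D.N D.hh Q := by omega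
    have hb : ‖H95.tay n G (r Q (m'.2.toNat, m'.1.toNat)) ζ -
        H95.tay n G (r Q (m.2.toNat, m.1.toNat)) ζ‖ ≤
        C * ‖(D.T Q m' - D.T Q m).eval ζ‖ / κ + 4 ^ n * (40 + 20 * (1 / D.c)) * D.ℓ ^ n := by
      rcases hN with e | e | e
      · have := o11 G hS hO' Q (hA.mem_toFinset.2 hQ) (m.2.toNat, m.1.toNat)
          (m'.2.toNat, m'.1.toNat) ⟨by simp only; omega, d2, by simp only; omega, d2', Or.inl (by
            rw [e]; ext <;> simp only <;> omega)⟩ ζ hre (h3 Q hQ ζ hζ1)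
        rw [norm_sub_rev]
        simpa only [data, em, em'] using this
      · have := o11 G hS hO' Q (hA.mem_toFinset.2 hQ) (m.2.toNat, m.1.toNat)
          (m'.2.toNat, m'.1.toNat) ⟨by simp only; omega, d2, by simp only; omega, d2',
            Or.inr (Or.inl (by rw [e]; ext <;> simp only <;> omega))⟩ ζ hre (h3 Q hQ ζ hζ1)
        rw [norm_sub_rev]
        simpa only [data, em, em'] using this
      · have e1 : m'.1 = m.1 - 1 := by rw [e]
        have e2 : m'.2 = m.2 + 1 := by rw [e]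
        have := o11 G hS hO' Q (hA.mem_toFinset.2 hQ) (m'.2.toNat, m'.1.toNat)
          (m.2.toNat, m.1.toNat) ⟨by simp only; omega, d2', by simp only; omega, d2,
            Or.inr (Or.inr (by simp only; omega))⟩ ζ hre (h3 Q hQ ζ hζ1)
        simp only [data, em, em'] at this
        rw [eval_sub, norm_sub_rev (eval ζ (D.T Q m')), ← eval_sub]
        exact this
    obtain ⟨p1, p2, p3⟩ := root Q hQ (m'.2.toNat, m'.1.toNat) (by simp only; omega) d2'
    obtain ⟨q1, q2, q3⟩ := root Q hQ (m.2.toNat, m.1.toNat) (by simp only; omega) d2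
    rw [norm_sub_rev] at p2 q2
    refine (comb hB hn hS p1 q1 p3 q3 hc H.c1 g2 hl.le (u := D.ℓ) (by linarith) (by linarith)
      ((tri _ (xq D.L D.ℓ Q) _).trans (by linarith))
      ((tri _ (xq D.L D.ℓ Q) _).trans (by linarith)) hb).trans ?_
    have : C * ‖(D.T Q m' - D.T Q m).eval ζ‖ / κ ≤ Cg * D.β / κ := by
      gcongr
      · linarith
      · linarith
    linarith
  · obtain ⟨b1, b2, b3⟩ := id a4
    obtain ⟨u1, u2⟩ := up_geo hl lL Q
    have n0 := norm_nonneg (dl D.L Q (un Q))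
    have ex : ((x.toNat : ℕ) : ℤ) = x := by omega
    have z1 : ‖z - xq D.L D.ℓ Q‖ ≤ ‖dl D.L Q (un Q)‖ + D.ℓ := by
      rcases hz with rfl | rfl
      · rw [sub_self, norm_zero]; linarith
      · exact u1
    have z2 : ‖z - xq D.L D.ℓ (un Q)‖ ≤ ‖dl D.L Q (un Q)‖ + D.ℓ := by
      rcases hz with rfl | rfl
      · rwa [norm_sub_rev]
      · rw [sub_self, norm_zero]; linarith
    have := o8 Q.1 Q.2 x.toNat (show SV s.W D Q _ by rw [ex]; exact ⟨a1, a2, a3, a4, a5, a6⟩)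
      (‖dl D.L Q (un Q)‖ + D.ℓ) (by rw [ct, ct]; exact u1) G hS z
      (by rw [ct]; exact z1.trans (by linarith)) (by rw [ct]; exact z2.trans (by linarith))
    obtain ⟨p1, p2, p3⟩ := root Q a2 (0, x.toNat) (by simp only; omega) (by simp only; omega)
    obtain ⟨q1, q2, q3⟩ := root (un Q) a3 (0, x.toNat) (by simp only; omega) (by simp only; omega)
    rw [norm_sub_rev] at p2 q2
    rw [← zero_add (_ / _ * _)]
    exact comb hB hn hS p1 q1 p3 q3 hc H.c1 g2 (ρ := ‖dl D.L Q (un Q)‖ + D.ℓ) (by linarith)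
      (by linarith) (by linarith) ((tri _ _ _).trans ((add_le_add z1 p2).trans (by linarith)))
      ((tri _ _ _).trans ((add_le_add z2 q2).trans (by linarith))) (by rw [zero_add]; exact this)
  · obtain ⟨b1, b2, b3⟩ := id a3
    obtain ⟨u1, u2, u3⟩ := rt_geo hl lL Q
    have n0 := norm_nonneg (dl D.L Q (rn Q))
    have ex : (D.N : ℤ) - ((D.N - x.toNat : ℕ) : ℤ) = x := by omega
    have u4 : ‖xq D.L D.ℓ Q - xq D.L D.ℓ (rn Q)‖ ≤ 2 * (3 * (‖dl D.L Q (rn Q)‖ + D.ℓ)) := by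
      rw [norm_sub_rev] at u1
      exact (tri _ _ _).trans ((add_le_add u1 u2).trans (by linarith))
    have z1 : ‖z - xq D.L D.ℓ Q‖ ≤ 2 * (3 * (‖dl D.L Q (rn Q)‖ + D.ℓ)) := by
      rcases hz with rfl | rfl
      · rw [sub_self, norm_zero]; linarith
      · rwa [norm_sub_rev]
    have z2 : ‖z - xq D.L D.ℓ (rn Q)‖ ≤ 2 * (3 * (‖dl D.L Q (rn Q)‖ + D.ℓ)) := by
      rcases hz with rfl | rfl
      · exact u4
      · rw [sub_self, norm_zero]; linarith
    have := o7 Q.1 Q.2 (D.N - x.toNat)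
      (show SR s.W D O Q _ by rw [ex]; exact ⟨a1, a2, a3, a4, a5⟩)
      (3 * (‖dl D.L Q (rn Q)‖ + D.ℓ)) (by linarith) (by rw [ct]; exact u1) (by rw [ct]; exact u2)
      G hS z (by rw [ct]; exact z1) (by rw [ct]; exact z2)
    have e1 : ((rnd D.N D.hh Q x).2.toNat, (rnd D.N D.hh Q x).1.toNat) =
        (D.N - x.toNat, tp D.N (HH D.N D.hh Q) (D.N - x.toNat)) := by
      unfold rnd tp
      exact Prod.ext (by simp only; omega) (by simp only; omega)
    rw [show D.N - (D.N - x.toNat) = x.toNat by omega] at this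
    obtain ⟨p1, p2, p3⟩ := root Q a1 (D.N - x.toNat, tp D.N (HH D.N D.hh Q) (D.N - x.toNat))
      (by unfold tp; simp only; omega) (min_le_left _ _)
    obtain ⟨q1, q2, q3⟩ := root (rn Q) a2 (x.toNat, 0) (by simp only; omega) (Nat.zero_le _)
    rw [norm_sub_rev] at p2 q2
    rw [e1, ← zero_add (_ / _ * _)]
    exact comb hB hn hS p1 q1 p3 q3 hc H.c1 g2 (ρ := 3 * (‖dl D.L Q (rn Q)‖ + D.ℓ)) (by linarith)
      le_rfl (by linarith) ((tri _ _ _).trans ((add_le_add z1 p2).trans (by linarith)))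
      ((tri _ _ _).trans ((add_le_add z2 q2).trans (by linarith))) (by rw [zero_add]; exact this)
  · have a3 : Sh D.N x := by
      obtain ⟨m1, m2⟩ := hx'
      rw [abs_le] at m2
      exact ⟨by omega, by omega, m1⟩
    obtain ⟨b1, b2, b3⟩ := id a3
    obtain ⟨a1, a2, -⟩ := H.geo.st o ho j hj
    have ex : (D.N : ℤ) - ((D.N - x.toNat : ℕ) : ℤ) = x := by omega
    have hs : SR s.W D O (16 * o.k - 1, 6 * j + 3) ((D.N : ℤ) - ((D.N - x.toNat : ℕ) : ℤ)) := by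
      rw [ex]
      refine ⟨?_, ?_, a3, Or.inl ?_, Or.inr ⟨⟨?_, ?_, o, ho, ?_, ?_⟩, hx'⟩⟩
      · rwa [st_left, clu_cel _ (by norm_num) (by norm_num) (by norm_num) (by norm_num)
          (by norm_num)]
      · rwa [st_right, clu_cel _ (by norm_num) (by norm_num) (by norm_num) (by norm_num)
          (by norm_num)]
      · rw [st_left, kd_cel _ (by norm_num) (by norm_num) (by norm_num) (by norm_num)]
        decide
      · unfold la; simp only; omega
      · unfold lb; simp only; omega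
      · unfold rc; simp only; omega
      · unfold rc; simp only; rwa [show (6 * j + 3) / 6 = j by omega]
    have := o10 o (hth ho) (6 * j + 3) _ hs (by
      simp only [data, oy H.geo _ ho, ofin H.geo _ ho]
      exact fun z hz => (st_wall H.geo hL _ ho hj hz).2) (3 * D.L) (by linarith)
      (by rw [ct]; exact wc_xq hl lL (16 * o.k, 6 * j + 3) (Or.inl rfl)) G hS
    simp only [data, oy H.geo _ ho] at this
    rw [show D.N - (D.N - x.toNat) = x.toNat by omega] at this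
    have e : cel (o.k, j) 0 3 = (16 * o.k, 6 * j + 3) := Prod.ext (add_zero _) rfl
    have f1 : (10 : ℝ) ≤ 1 / D.c := by rw [le_div_iff₀ hc]; linarith [H.c1]
    have f2 : (72 : ℝ) ≤ Cg := by
      linarith [one_le_pow₀ (n := n) (by norm_num : (1 : ℝ) ≤ 4), Nat.cast_nonneg (α := ℝ) n]
    have f3 : (40 + 20 * (1 / D.c)) * (3 * D.L) ≤ Cg / D.c * D.L := by
      rw [div_eq_mul_one_div Cg]
      have : 72 * (1 / D.c) ≤ Cg * (1 / D.c) := by gcongr
      nlinarith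
    rw [e]
    exact this.trans (add_le_add (hcost o ho) f3)

end

end GRID3

theorem rowGRID3 : R_GRID3 := fun hB n C hn hC hG =>
  ⟨4 * C + (1000 * 4 ^ n + 1000 * n), by positivity, GRID3.grid hB hn hC hG
    (le_add_of_nonneg_right (by positivity)) (le_add_of_nonneg_left (by positivity))⟩

end Pool.Agent.MP_d32a63_an.H13N
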