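import Pool.Agent.MP_d32a63_an.H13N.Pat
import Pool.Agent.MP_d32a63_an.H96.Lima

/-! The row `INNER`: the limit of the lattice fields along the ultrafilter. -/

open Set Filter Topology Metric Polynomial
open Complex (I)
open Pool.Agent.MP_d32a63_an.H95 (Core Sec jet W0 Flat RealStmt)
open Pool.Agent.MP_d32a63_an.H58 hiding Cells Sq LAV LA1 LA2 LIMA LIMB LIM FIN
open Pool.Agent.MP_d32a63_an.H96 (bddlim uf_le uf_ne)

namespace Pool.Agent.MP_d32a63_an.H13N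

namespace INNER

noncomputable section

/-- The rescaled integers converge to `x`. -/
def Cv (N : ℕ → ℕ) (a : ℕ → ℤ) (x : ℝ) : Prop := Tendsto (fun k => (a k : ℝ) / N k) UF (𝓝 x)

variable {N H : ℕ → ℕ} {τ K h : ℝ} {e1 e2 v : ℂ} {A ν β : ℕ → ℤ × ℤ → ℂ}

lemma cv_of (hN : ∀ k, 0 < N k) (hi : Tendsto (fun k => ((N k : ℝ))⁻¹) UF (𝓝 0)) {a : ℕ → ℤ}
    {x : ℝ} (ha : ∀ k, |(a k : ℝ) - x * N k| ≤ 3) : Cv N a x := by
  rw [Cv, tendsto_iff_dist_tendsto_zero]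
  refine squeeze_zero (fun _ => dist_nonneg) (fun k => ?_) (by simpa using hi.const_mul 3)
  have h0 : (0 : ℝ) < N k := by exact_mod_cast hN k
  rw [Real.dist_eq, show (a k : ℝ) / N k - x = ((a k : ℝ) - x * N k) * (N k : ℝ)⁻¹ by field_simp,
    abs_mul, abs_of_pos (inv_pos.2 h0)]
  exact mul_le_mul_of_nonneg_right (ha k) (inv_pos.2 h0).le

lemma fl_abs (x : ℝ) : |((⌊x⌋ : ℤ) : ℝ) - x| ≤ 3 :=
  abs_le.2 ⟨by linarith [Int.lt_floor_add_one x], by linarith [Int.floor_le x]⟩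

lemma fl_nd (hH : ∀ k, (H k : ℝ) = h * N k) {x y : ℝ} (h1 : 0 ≤ x) (h2 : x ≤ h) (h3 : 0 ≤ y)
    (h4 : x + y ≤ 1) (k : ℕ) : Nd2 (N k) (H k) (⌊x * N k⌋, ⌊y * N k⌋) := by
  have h0 : (0 : ℝ) ≤ N k := Nat.cast_nonneg _
  have a1 := Int.floor_le (x * N k)
  have a2 := Int.floor_le (y * N k)
  refine ⟨Int.floor_nonneg.2 (by positivity), ?_, Int.floor_nonneg.2 (by positivity), ?_⟩
  · have : ((⌊x * N k⌋ : ℤ) : ℝ) ≤ H k := by rw [hH]; nlinarith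
    exact_mod_cast this
  · have : ((⌊x * N k⌋ : ℤ) : ℝ) + ((⌊y * N k⌋ : ℤ) : ℝ) ≤ N k := by nlinarith
    exact_mod_cast this

lemma lim_dd (hi : Tendsto (fun k => ((N k : ℝ))⁻¹) UF (𝓝 0)) {m m' : ℕ → ℤ × ℤ} {x y x' y' : ℝ}
    (c1 : Cv N (fun k => (m k).1) x) (c2 : Cv N (fun k => (m k).2) y)
    (c1' : Cv N (fun k => (m' k).1) x') (c2' : Cv N (fun k => (m' k).2) y') (τ : ℝ) :
    Tendsto (fun k => τ / N k * dd (m k) (m' k)) UF (𝓝 (τ * (|x' - x| + |y' - y|))) := by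
  have := (((c1'.sub c1).abs.add (c2'.sub c2).abs).add hi).const_mul τ
  rw [add_zero] at this
  refine this.congr fun k => ?_
  rw [← sub_div, ← sub_div, abs_div, abs_div, Nat.abs_cast, dd, abs_sub_comm,
    abs_sub_comm ((m' k).2 : ℝ)]
  push_cast
  ring

lemma lim_q0 {m m' : ℕ → ℤ × ℤ} {x y x' y' : ℝ}
    (c1 : Cv N (fun k => (m k).1) x) (c2 : Cv N (fun k => (m k).2) y)
    (c1' : Cv N (fun k => (m' k).1) x') (c2' : Cv N (fun k => (m' k).2) y') (e1 e2 : ℂ) :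
    Tendsto (fun k => q0 (e1 / N k) (e2 / N k) (m k) (m' k)) UF
      (𝓝 (((x' - x : ℝ) : ℂ) * e1 + ((y' - y : ℝ) : ℂ) * e2)) := by
  refine (((c1'.sub c1).ofReal.mul_const e1).add ((c2'.sub c2).ofReal.mul_const e2)).congr
    fun k => ?_
  simp only [q0]
  push_cast
  ring

/-- The limit fields of one cell. -/
lemma cell (hK : 1 ≤ K) (hN : ∀ k, 0 < N k) (hi : Tendsto (fun k => ((N k : ℝ))⁻¹) UF (𝓝 0))
    (hH : ∀ k, (H k : ℝ) = h * N k) (hτ : 0 < τ) (hnd : ND τ e1 e2)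
    (hO : ∀ k, NOut (N k) (H k) (τ / N k) K (e1 / N k) (e2 / N k) (A k) (ν k) (β k))
    (R : Set ℂ) (hR : ∀ u ∈ R, ∃ x y : ℝ, 0 ≤ x ∧ x ≤ h ∧ 0 ≤ y ∧ x + y ≤ 1 ∧
      u = v + x * e1 + y * e2) :
    ∃ g μ b : ℂ → ℂ, Wh (4 * K) 0 g μ R ∧ (∀ u ∈ R, ‖b u‖ ≤ 4 * K) ∧
      (∀ u ∈ R, ∀ u' ∈ R, ‖b u' - b u‖ ≤ 4 * K * ‖u' - u‖) ∧
      ∀ (m : ℕ → ℤ × ℤ) (x y : ℝ), 0 ≤ x → x ≤ h → 0 ≤ y → x + y ≤ 1 →
        (∀ k, Nd2 (N k) (H k) (m k)) → Cv N (fun k => (m k).1) x → Cv N (fun k => (m k).2) y →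
        Tendsto (fun k => A k (m k)) UF (𝓝 (g (v + x * e1 + y * e2))) ∧
          Tendsto (fun k => β k (m k)) UF (𝓝 (b (v + x * e1 + y * e2))) := by
  have := uf_ne
  let c : ℂ → ℝ × ℝ := fun u => Classical.epsilon fun z : ℝ × ℝ => u = v + z.1 * e1 + z.2 * e2
  have hc : ∀ x y : ℝ, c (v + x * e1 + y * e2) = (x, y) := fun x y => by
    have h1 : v + x * e1 + y * e2 = v + (c (v + x * e1 + y * e2)).1 * e1 +
        (c (v + x * e1 + y * e2)).2 * e2 :=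
      Classical.epsilon_spec (p := fun z : ℝ × ℝ => v + x * e1 + y * e2 = v + z.1 * e1 + z.2 * e2)
        ⟨(x, y), rfl⟩
    generalize c (v + x * e1 + y * e2) = z at h1
    have h2 := (hnd (z.1 - x) (z.2 - y)).1
    rw [show ((z.1 - x : ℝ) : ℂ) * e1 + ((z.2 - y : ℝ) : ℂ) * e2 = 0 by
      push_cast; linear_combination -h1, norm_zero] at h2
    have h3 : |z.1 - x| + |z.2 - y| ≤ 0 := by nlinarith
    exact Prod.ext (sub_eq_zero.1 (abs_nonpos_iff.1 (by linarith [abs_nonneg (z.2 - y)])))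
      (sub_eq_zero.1 (abs_nonpos_iff.1 (by linarith [abs_nonneg (z.1 - x)])))
  let fl : ℝ × ℝ → ℕ → ℤ × ℤ := fun z k => (⌊z.1 * N k⌋, ⌊z.2 * N k⌋)
  let li : (ℕ → ℤ × ℤ → ℂ) → (ℕ → ℤ × ℤ) → ℂ := fun F m => limUnder UF fun k => F k (m k)
  have f1 : ∀ z, Cv N (fun k => (fl z k).1) z.1 := fun z => cv_of hN hi fun k => fl_abs _
  have f2 : ∀ z, Cv N (fun k => (fl z k).2) z.2 := fun z => cv_of hN hi fun k => fl_abs _
  have tA : ∀ m : ℕ → ℤ × ℤ, (∀ k, Nd2 (N k) (H k) (m k)) →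
      Tendsto (fun k => A k (m k)) UF (𝓝 (li A m)) := fun m hm =>
    bddlim _ K (Eventually.of_forall fun k => (hO k).ba _ (hm k))
  have tν : ∀ m : ℕ → ℤ × ℤ, (∀ k, Nd2 (N k) (H k) (m k)) →
      Tendsto (fun k => ν k (m k)) UF (𝓝 (li ν m)) := fun m hm =>
    bddlim _ K (Eventually.of_forall fun k => (hO k).bn _ (hm k))
  have tβ : ∀ m : ℕ → ℤ × ℤ, (∀ k, Nd2 (N k) (H k) (m k)) →
      Tendsto (fun k => β k (m k)) UF (𝓝 (li β m)) := fun m hm =>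
    bddlim _ K (Eventually.of_forall fun k => (hO k).bb _ (hm k))
  have key : ∀ (m m' : ℕ → ℤ × ℤ) (x y x' y' : ℝ), (∀ k, Nd2 (N k) (H k) (m k)) →
      (∀ k, Nd2 (N k) (H k) (m' k)) → Cv N (fun k => (m k).1) x → Cv N (fun k => (m k).2) y →
      Cv N (fun k => (m' k).1) x' → Cv N (fun k => (m' k).2) y' → ∀ w : ℂ,
      w = v + x' * e1 + y' * e2 - (v + x * e1 + y * e2) →
      ‖li ν m' - li ν m‖ ≤ 4 * K * ‖w‖ ∧ ‖li A m' - li A m - li ν m * w‖ ≤ 4 * K * ‖w‖ ^ 2 ∧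
        ‖li β m' - li β m‖ ≤ 4 * K * ‖w‖ := by
    intro m m' x y x' y' n n' c1 c2 c1' c2' w hw
    have d := lim_dd hi c1 c2 c1' c2' τ
    have q := lim_q0 c1 c2 c1' c2' e1 e2
    have h2 := (hnd (x' - x) (y' - y)).1
    rw [show ((x' - x : ℝ) : ℂ) * e1 + ((y' - y : ℝ) : ℂ) * e2 = w by
      rw [hw]; push_cast; ring] at q h2
    have d0 : 0 ≤ τ * (|x' - x| + |y' - y|) := by positivity
    have l1 := le_of_tendsto_of_tendsto' ((tν m' n').sub (tν m n)).norm (d.const_mul K)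
      fun k => (hO k).lip _ _ (n k) (n' k)
    have l2 := le_of_tendsto_of_tendsto' (((tA m' n').sub (tA m n)).sub ((tν m n).mul q)).norm
      ((d.pow 2).const_mul K) fun k => (hO k).tay _ _ (n k) (n' k)
    have l3 := le_of_tendsto_of_tendsto' ((tβ m' n').sub (tβ m n)).norm (d.const_mul K)
      fun k => (hO k).blip _ _ (n k) (n' k)
    generalize τ * (|x' - x| + |y' - y|) = D at *
    have w0 := norm_nonneg w
    have b1 : K * D ≤ 4 * K * ‖w‖ := by nlinarith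
    have b2 : D ^ 2 ≤ 4 * ‖w‖ ^ 2 := by nlinarith
    exact ⟨l1.trans b1, l2.trans (by nlinarith), l3.trans b1⟩
  have hn : ∀ u ∈ R, (∀ k, Nd2 (N k) (H k) (fl (c u) k)) ∧ u = v + (c u).1 * e1 + (c u).2 * e2 :=
    fun u hu => by
      obtain ⟨x, y, h1, h2, h3, h4, rfl⟩ := hR u hu
      rw [hc]
      exact ⟨fl_nd hH h1 h2 h3 h4, rfl⟩
  have k2 := fun u hu u' hu' => key _ _ _ _ _ _ (hn u hu).1 (hn u' hu').1 (f1 _) (f2 _) (f1 _)
    (f2 _) (u' - u) (congrArg₂ _ (hn u' hu').2 (hn u hu).2)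
  have hK4 : K ≤ 4 * K := by linarith
  refine ⟨fun u => li A (fl (c u)), fun u => li ν (fl (c u)), fun u => li β (fl (c u)),
    ⟨fun u hu => ?_, fun u hu => ?_, fun u hu u' hu' => ?_, fun u hu u' hu' => ?_⟩,
    fun u hu => ?_, fun u hu u' hu' => (k2 u hu u' hu').2.2, fun m x y h1 h2 h3 h4 hm c1 c2 => ?_⟩
  · exact (le_of_tendsto' (tA _ (hn u hu).1).norm fun k => (hO k).ba _ ((hn u hu).1 k)).trans hK4
  · exact (le_of_tendsto' (tν _ (hn u hu).1).norm fun k => (hO k).bn _ ((hn u hu).1 k)).trans hK4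
  · rw [add_zero]; exact (k2 u hu u' hu').1
  · rw [add_zero]; exact (k2 u hu u' hu').2.1
  · exact (le_of_tendsto' (tβ _ (hn u hu).1).norm fun k => (hO k).bb _ ((hn u hu).1 k)).trans hK4
  · obtain ⟨-, a1, a2⟩ := key (fl (x, y)) m x y x y (fl_nd hH h1 h2 h3 h4) hm (f1 _) (f2 _) c1 c2
      0 (sub_self _).symm
    simp only [mul_zero, sub_zero, norm_zero, ne_eq, OfNat.ofNat_ne_zero, not_false_eq_true,
      zero_pow, norm_le_zero_iff, sub_eq_zero] at a1 a2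
    simp only [hc]
    exact ⟨a1 ▸ tA m hm, a2 ▸ tβ m hm⟩

lemma rl_lim {σ : ℕ → ℝ} (hK : 1 ≤ K) (hσ : Tendsto σ UF (𝓝 0)) {Δ a b a' b' : ℂ}
    {A B A' B' : ℕ → ℂ} (h1 : Tendsto A UF (𝓝 a)) (h2 : Tendsto B UF (𝓝 b))
    (h3 : Tendsto A' UF (𝓝 a')) (h4 : Tendsto B' UF (𝓝 b'))
    (h : ∀ k, Rl K (σ k) Δ (A k) (B k) (A' k) (B' k)) : Rl (4 * K) 0 Δ a b a' b' := by
  have := uf_ne
  have t := (hσ.const_add (‖Δ‖ ^ 2)).const_mul K
  have e : K * (‖Δ‖ ^ 2 + 0) ≤ 4 * K * (‖Δ‖ ^ 2 + 0) := by nlinarith [sq_nonneg ‖Δ‖]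
  exact ⟨(le_of_tendsto_of_tendsto' ((h3.sub h1).sub (h2.mul_const Δ)).norm t
    fun k => (h k).1).trans e, (le_of_tendsto_of_tendsto' ((h3.sub h1).sub (h4.mul_const Δ)).norm t
      fun k => (h k).2).trans e⟩

lemma pick_up {n : ℕ} (h0 : 0 < n) (h6 : 6 ∣ n) {t : ℝ} (t0 : 0 ≤ t) (t1 : t ≤ 1) :
    ∃ x : ℤ, Sh n x ∧ |(x : ℝ) - t * n| ≤ 3 ∧
      ∀ j : ℕ, (j : ℝ) ≤ t * n → (j : ℝ) ≤ n / 20 → (j : ℤ) ≤ x := by
  have n6 : (6 : ℝ) ≤ n := by exact_mod_cast Nat.le_of_dvd h0 h6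
  have a1 := Int.le_ceil (t * n / 3)
  have a2 := Int.ceil_lt_add_one (t * n / 3)
  have a3 : t * n ≤ n := by nlinarith
  have a4 : 0 ≤ t * n := by positivity
  refine ⟨min ((n : ℤ) - 3) (max 3 (3 * ⌈t * n / 3⌉)), ⟨by omega, by omega, by omega⟩, ?_,
    fun j j1 j2 => ?_⟩
  · push_cast
    refine abs_le.2 ⟨?_, ?_⟩
    · exact le_sub_iff_add_le.2 (le_min (by linarith) (le_max_of_le_right (by linarith)))
    · exact sub_le_iff_le_add.2 (min_le_of_right_le (max_le (by linarith) (by linarith)))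
  · have b1 : (j : ℝ) ≤ n - 3 := by linarith
    have b2 : (j : ℝ) ≤ 3 * ⌈t * n / 3⌉ := by linarith
    exact le_min (by exact_mod_cast b1) (le_max_of_le_right (by exact_mod_cast b2))

lemma pick_down {n : ℕ} (h0 : 0 < n) (h6 : 6 ∣ n) {t : ℝ} (t0 : 0 ≤ t) (t1 : t ≤ 1) :
    ∃ x : ℤ, Sh n x ∧ |(x : ℝ) - t * n| ≤ 3 ∧ ∀ j : ℕ, t * n ≤ j → 3 ≤ j → x ≤ (j : ℤ) := by
  have n6 : (6 : ℝ) ≤ n := by exact_mod_cast Nat.le_of_dvd h0 h6
  have a1 := Int.floor_le (t * n / 3)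
  have a2 := Int.lt_floor_add_one (t * n / 3)
  have a3 : t * n ≤ n := by nlinarith
  have a4 : 0 ≤ t * n := by positivity
  refine ⟨max 3 (min ((n : ℤ) - 3) (3 * ⌊t * n / 3⌋)), ⟨by omega, by omega, by omega⟩, ?_,
    fun j j1 j2 => ?_⟩
  · push_cast
    refine abs_le.2 ⟨?_, ?_⟩
    · exact le_sub_iff_add_le.2 (le_max_of_le_right (le_min (by linarith) (by linarith)))
    · exact sub_le_iff_le_add.2 (max_le (by linarith) (min_le_of_right_le (by linarith)))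
  · have b2 : 3 * (⌊t * n / 3⌋ : ℝ) ≤ j := by linarith
    exact max_le (by exact_mod_cast j2) (min_le_of_right_le (by exact_mod_cast b2))

end

end INNER

open INNER in
theorem rowINNER : R_INNER := by
  intro hB W L O τ s a K M F0 cost bv e g0 N hh A ν β hτ hτ1 hs hs1 hK hbv hσ hF
  have := uf_ne
  have hN := fun k => (hF k).N0
  have hN' : ∀ k, (0 : ℝ) < N k := fun k => by exact_mod_cast hN k
  replace hσ := hσ.mono_left uf_le
  have hi : Tendsto (fun k => ((N k : ℝ))⁻¹) UF (𝓝 0) := by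
    have := hσ.const_mul τ⁻¹
    rw [mul_zero] at this
    exact this.congr fun k => by field_simp
  have hH : ∀ Q k, (HH (N k) (hh k) Q : ℝ) = hq s Q * N k := fun Q k => by
    unfold HH hq
    split_ifs
    · rw [one_mul]
    · exact (hF k).hs
  have q0 : ∀ Q, 0 < hq s Q ∧ hq s Q ≤ 1 := fun Q => by
    unfold hq
    split_ifs <;> constructor <;> linarith
  have H3 : ∀ Q k, 3 ≤ HH (N k) (hh k) Q ∧ HH (N k) (hh k) Q ≤ N k := fun Q k => by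
    have h1 : (0 : ℝ) < HH (N k) (hh k) Q := by rw [hH]; exact mul_pos (q0 Q).1 (hN' k)
    have h2 : (HH (N k) (hh k) Q : ℝ) ≤ N k := by rw [hH]; nlinarith [(q0 Q).2, hN' k]
    refine ⟨Nat.le_of_dvd (by exact_mod_cast h1) ?_, by exact_mod_cast h2⟩
    unfold HH
    split_ifs
    exacts [(show 3 ∣ 6 by norm_num).trans (hF k).N6, (hF k).h3]
  have ex : ∀ Q, ∃ g μ b : ℂ → ℂ, act W L (clu Q) → Wh (4 * K) 0 g μ (Rg bv τ s Q) ∧
      (∀ u ∈ Rg bv τ s Q, ‖b u‖ ≤ 4 * K) ∧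
      (∀ u ∈ Rg bv τ s Q, ∀ u' ∈ Rg bv τ s Q, ‖b u' - b u‖ ≤ 4 * K * ‖u' - u‖) ∧
      ∀ (m : ℕ → ℤ × ℤ) (x y : ℝ), 0 ≤ x → x ≤ hq s Q → 0 ≤ y → x + y ≤ 1 →
        (∀ k, Nd2 (N k) (HH (N k) (hh k) Q) (m k)) → Cv N (fun k => (m k).1) x →
        Cv N (fun k => (m k).2) y → Tendsto (fun k => A k Q (m k)) UF (𝓝 (g (pq bv τ s Q x y))) ∧
          Tendsto (fun k => β k Q (m k)) UF (𝓝 (b (pq bv τ s Q x y))) := fun Q => by
    by_cases hQ : act W L (clu Q)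
    · obtain ⟨g, μ, b, h⟩ := cell (v := v0 bv τ s Q) hK hN hi (hH Q) hτ (nd_cell hB hτ hbv s hQ)
        (fun k => (hF k).nd Q hQ) (Rg bv τ s Q) fun u hu => hu
      exact ⟨g, μ, b, fun _ => h⟩
    · exact ⟨0, 0, 0, fun h => absurd h hQ⟩
  choose g μ b hg using ex
  have c0 : Cv N (fun _ => 0) 0 := cv_of hN hi fun k => by simp
  refine ⟨g, μ, b, ⟨fun Q hQ => (hg Q hQ).1, fun Q hQ => (hg Q hQ).2.1,
    fun Q hQ => (hg Q hQ).2.2.1, fun Q t h1 h2 t0 t1 h3 h4 => ?_,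
    fun Q t h0 h1 h2 t0 t1 t2 => ?_⟩, fun R hR => ?_, fun R hR hev u hu u' hu' => ?_⟩
  · choose x x1 x2 x3 using fun k => pick_up (hN k) (hF k).N6 t0 t1
    have c1 : Cv N x t := cv_of hN hi x2
    obtain ⟨a1, a2⟩ := (hg Q h1).2.2.2 (fun k => rnd (N k) (hh k) Q (x k)) (min (hq s Q) t) (1 - t)
      (le_min (q0 Q).1.le t0) (min_le_left _ _) (by linarith) (by linarith [min_le_right (hq s Q) t])
      (fun k => by
        obtain ⟨b1, b2, -⟩ := x1 k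
        refine ⟨?_, ?_, ?_, ?_⟩ <;> simp only [rnd] <;> omega)
      (((tendsto_const_nhds (x := hq s Q)).min c1).congr fun k => by
        simp only [rnd]
        push_cast
        rw [← min_div_div_right (hN' k).le, hH, mul_div_cancel_right₀ _ (hN' k).ne'])
      (((tendsto_const_nhds (x := (1 : ℝ))).sub c1).congr fun k => by
        simp only [rnd]
        push_cast
        rw [sub_div, div_self (hN' k).ne'])
    obtain ⟨a3, a4⟩ := (hg _ h2).2.2.2 (fun k => (0, x k)) 0 t le_rfl (q0 _).1.le t0 (by linarith)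
      (fun k => by
        obtain ⟨b1, b2, -⟩ := x1 k
        refine ⟨?_, ?_, ?_, ?_⟩ <;> simp only <;> omega) c0 c1
    refine rl_lim hK hσ a1 a2 a3 a4 fun k => (hF k).hor Q _ h1 h2 (x1 k)
      (h3.imp_right fun h => x3 k _ ?_ ?_) (h4.imp_right fun h => ⟨h.1, ?_⟩)
    · rw [(hF k).hs]; nlinarith [hN' k]
    · rw [(hF k).hs]; nlinarith [hN' k]
    · obtain ⟨b1, b2⟩ := abs_le.1 h.2
      obtain ⟨b3, b4⟩ := abs_le.1 (x2 k)
      exact abs_le.2 ⟨by nlinarith [hN' k], by nlinarith [hN' k]⟩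
  · have t3 := t1.trans (q0 Q).2
    choose x x1 x2 x3 using fun k => pick_down (hN k) (hF k).N6 t0 t3
    have c1 : Cv N x t := cv_of hN hi x2
    have hx : ∀ Q', t ≤ hq s Q' → ∀ k, x k ≤ HH (N k) (hh k) Q' := fun Q' h k =>
      x3 k _ (by rw [hH]; nlinarith [hN' k]) (H3 Q' k).1
    have hn : ∀ Q', t ≤ hq s Q' → ∀ k, Nd2 (N k) (HH (N k) (hh k) Q') (x k, 0) := fun Q' h k => by
      obtain ⟨b1, b2, -⟩ := x1 k
      have := hx Q' h k
      refine ⟨?_, ?_, ?_, ?_⟩ <;> simp only <;> omega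
    obtain ⟨a1, a2⟩ := (hg Q h1).2.2.2 (fun k => (x k, 0)) t 0 t0 t1 le_rfl (by linarith)
      (hn Q t1) c1 c0
    obtain ⟨a3, a4⟩ := (hg _ h2).2.2.2 (fun k => (x k, 0)) t 0 t0 t2 le_rfl (by linarith)
      (hn _ t2) c1 c0
    exact rl_lim hK hσ a1 a2 a3 a4 fun k => (hF k).ver Q _ h0 h1 h2 (x1 k) (hx _ t1 k) (hx _ t2 k)
  · have hc : clu (cel R 0 3) = R := clu_cel R le_rfl (by norm_num) (by norm_num) (by norm_num)
      (by norm_num)
    refine ((hg _ (hc.symm ▸ hR)).2.2.2 (fun k => (0, (N k : ℤ) / 2)) 0 (1 / 2) le_rfl (q0 _).1.le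
      (by norm_num) (by norm_num) (fun k => ?_) c0 (cv_of hN hi fun k => ?_)).1
    · refine ⟨?_, ?_, ?_, ?_⟩ <;> simp only <;> omega
    · obtain ⟨j, hj⟩ := (hF k).N6
      rw [show ((N k : ℕ) : ℤ) / 2 = 3 * j by omega, hj]
      push_cast
      rw [show (3 : ℝ) * j - 1 / 2 * (6 * j) = 0 by ring]
      norm_num
  · have hc : clu (cel R 7 0) = R := clu_cel R (by norm_num) (by norm_num) le_rfl (by norm_num)
      (by norm_num)
    have hk : ∀ k, HH (N k) (hh k) (cel R 7 0) = N k := fun k => if_pos (by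
      rw [kd_cel R (by norm_num) (by norm_num) le_rfl (by norm_num)]; decide)
    obtain ⟨x, y, h1, h2, h3, h4, rfl⟩ := hu
    obtain ⟨x', y', h1', h2', h3', h4', rfl⟩ := hu'
    have n1 := fl_nd (hH _) h1 h2 h3 h4
    have n2 := fl_nd (hH _) h1' h2' h3' h4'
    have a1 := ((hg _ (hc.symm ▸ hR)).2.2.2 _ x y h1 h2 h3 h4 n1
      (cv_of hN hi fun k => fl_abs _) (cv_of hN hi fun k => fl_abs _)).1
    have a2 := ((hg _ (hc.symm ▸ hR)).2.2.2 _ x' y' h1' h2' h3' h4' n2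
      (cv_of hN hi fun k => fl_abs _) (cv_of hN hi fun k => fl_abs _)).1
    have := le_of_tendsto_of_tendsto (a1.sub a2).norm (hσ.const_mul K) (hev.mono fun k hk' =>
      (hF k).flat R hR hk' _ _ (by simpa only [hk] using n1 k) (by simpa only [hk] using n2 k))
    rw [mul_zero, norm_le_zero_iff, sub_eq_zero] at this
    exact this

end Pool.Agent.MP_d32a63_an.H13N
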