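import Pool.Agent.MP_d32a63_an.H13N.Pat

/-! Row LEVEL: the discrete fields of one fine level. -/

open Set Filter Topology Metric Polynomial
open Complex (I)
open Pool.Agent.MP_d32a63_an.H95 (Core Sec jet W0 Flat RealStmt)
open Pool.Agent.MP_d32a63_an.H58 hiding Cells Sq LAV LA1 LA2 LIMA LIMB LIM FIN

namespace Pool.Agent.MP_d32a63_an.H13N.LEVEL

noncomputable section

theorem tay2 (G : ℕ → ℂ → ℂ) (p z : ℂ) : (tay 2 G p).eval z = G 0 p + G 1 p * (z - p) := by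
  unfold tay
  simp [Finset.sum_range_succ]

theorem tay2' (G : ℕ → ℂ → ℂ) (p x z : ℂ) :
    (tay 2 G p).eval z = (tay 2 G p).eval x + G 1 p * (z - x) := by
  rw [tay2, tay2]; ring

theorem dd_nonneg (m m' : ℤ × ℤ) : 0 ≤ dd m m' := by unfold dd; positivity

theorem nout_mono {N H : ℕ} {σ K K' : ℝ} {e1 e2 : ℂ} {A ν β : ℤ × ℤ → ℂ} (hσ : 0 ≤ σ)
    (hK : K ≤ K') (h : NOut N H σ K e1 e2 A ν β) : NOut N H σ K' e1 e2 A ν β :=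
  ⟨fun m hm => (h.ba m hm).trans hK, fun m hm => (h.bn m hm).trans hK,
    fun m hm => (h.bb m hm).trans hK,
    fun m m' hm hm' => (h.lip m m' hm hm').trans
      (mul_le_mul_of_nonneg_right hK (mul_nonneg hσ (dd_nonneg _ _))),
    fun m m' hm hm' => (h.tay m m' hm hm').trans (mul_le_mul_of_nonneg_right hK (sq_nonneg _)),
    fun m m' hm hm' => (h.blip m m' hm hm').trans
      (mul_le_mul_of_nonneg_right hK (mul_nonneg hσ (dd_nonneg _ _)))⟩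

/-- Two affine functions that are close at both centres. -/
theorem rl_of {u v K σ ℓ : ℝ} {x x' Δ A B A' B' : ℂ} (hu : 0 ≤ u) (hσ : 0 ≤ σ) (l0 : 0 ≤ ℓ)
    (l1 : ℓ ≤ 1) (hv : ℓ ≤ v * σ) (hK1 : 2 * u ≤ K) (hK2 : (2 * u + 28) * v ≤ K)
    (hB : ‖B‖ ≤ 1) (hB' : ‖B'‖ ≤ 1) (hx : ‖x' - x - Δ‖ ≤ 28 * ℓ)
    (h1 : ‖A - (A' + B' * (x - x'))‖ ≤ u * (‖Δ‖ + ℓ) ^ 2)
    (h2 : ‖A + B * (x' - x) - A'‖ ≤ u * (‖Δ‖ + ℓ) ^ 2) : Rl K σ Δ A B A' B' := by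
  have b1 : (‖Δ‖ + ℓ) ^ 2 ≤ 2 * ‖Δ‖ ^ 2 + 2 * ℓ := by nlinarith [sq_nonneg (‖Δ‖ - ℓ)]
  have b2 : u * (‖Δ‖ + ℓ) ^ 2 ≤ u * (2 * ‖Δ‖ ^ 2 + 2 * ℓ) := mul_le_mul_of_nonneg_left b1 hu
  have b3 : 2 * u * ‖Δ‖ ^ 2 ≤ K * ‖Δ‖ ^ 2 := mul_le_mul_of_nonneg_right hK1 (sq_nonneg _)
  have b4 : (2 * u + 28) * ℓ ≤ (2 * u + 28) * (v * σ) :=
    mul_le_mul_of_nonneg_left hv (by linarith)
  have b5 : (2 * u + 28) * v * σ ≤ K * σ := mul_le_mul_of_nonneg_right hK2 hσ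
  have b6 : u * (‖Δ‖ + ℓ) ^ 2 + 28 * ℓ ≤ K * (‖Δ‖ ^ 2 + σ) := by nlinarith
  have key : ∀ b : ℂ, ‖b‖ ≤ 1 → ‖b * (x' - x - Δ)‖ ≤ 28 * ℓ := fun b hb => by
    rw [norm_mul]
    calc ‖b‖ * ‖x' - x - Δ‖ ≤ 1 * (28 * ℓ) := mul_le_mul hb hx (norm_nonneg _) zero_le_one
      _ = 28 * ℓ := one_mul _
  constructor
  · have e : A' - A - B * Δ = B * (x' - x - Δ) - (A + B * (x' - x) - A') := by ring
    rw [e]
    linarith [norm_sub_le (B * (x' - x - Δ)) (A + B * (x' - x) - A'), key B hB]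
  · have e : A' - A - B' * Δ = B' * (x' - x - Δ) - (A - (A' + B' * (x - x'))) := by ring
    rw [e]
    linarith [norm_sub_le (B' * (x' - x - Δ)) (A - (A' + B' * (x - x'))), key B' hB']

section level

variable {n : ℕ} {Cg c : ℝ} {ω : ℂ} {W : Set ℂ} {F : ℕ → ℂ → ℂ} {Γ : Set Seg}
  {κ τ ε0 a M d : ℝ} {m0 : ℕ} {βc : ℝ → ℝ} {D : GD3} {O : Set Obj} {To : Obj → ℂ[X]}
  {ν cost : Obj → ℝ} {ε : ℝ} {W' : Set ℂ} {Γ' : Set Seg} {rt : ℤ × ℤ → ℤ × ℤ → ℂ}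
  {G : ℕ → ℂ → ℂ} {bv : ℤ × ℤ → ℤ × ℤ → ℂ}

theorem bridge (hL : Lay W Γ (F 0) τ M βc d D.L O cost bv)
    (hP : Prep3 n Cg c ω W F κ τ ε0 a m0 D.L O To ν cost D ε)
    (hO : GOut3 n Cg κ D.L W D O ν W' Γ' rt) : Bridge n Γ W' Γ' := by
  intro g0 hg0
  obtain ⟨o, ho, hth, e1, e2⟩ := hL.good.th g0 hg0
  obtain ⟨g', hg', e3, b1, b2⟩ := hO.thr o ho hth
  obtain ⟨b3, b4⟩ := hL.thr o ho hth
  have l0 := hL.L0
  have b5 := hP.cst o ho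
  have hΛ : ‖g0.p - g0.v‖ = o.Λ := by
    rw [← e1, ← e2]; unfold Obj.fin
    rw [sub_add_cancel_left, norm_neg, norm_mul, Complex.norm_I, mul_one, Complex.norm_real,
      Real.norm_eq_abs, abs_mul, abs_of_pos (show 0 < o.Λ by linarith)]
    rcases hL.geo.sg o ho with h | h <;> rw [h] <;> simp
  refine ⟨g', hg', e3.trans e2, by rw [hΛ]; linarith, fun G hG => ?_⟩
  have := b2 G hG
  rw [hΛ, ← e1]; linarith

theorem hh_bd (hP : Prep3 n Cg c ω W F κ τ ε0 a m0 D.L O To ν cost D ε) (Q : ℤ × ℤ) :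
    1 ≤ HH D.N D.hh Q ∧ HH D.N D.hh Q ≤ D.N ∧ 3 ∣ HH D.N D.hh Q := by
  have h1 := hP.hyp.N0
  have h2 := hP.hyp.h0
  have h3 := hP.hyp.h1
  have h4 := hP.hyp.h3
  have h5 := hP.hyp.N6
  unfold HH
  split_ifs
  · omega
  · omega

theorem root_bd (hB : BASIC) (hn : 2 ≤ n) (hW : W0 ⊆ W)
    (hP : Prep3 n Cg c ω W F κ τ ε0 a m0 D.L O To ν cost D ε)
    (hO : GOut3 n Cg κ D.L W D O ν W' Γ' rt) (hS : Sec n W' G) {Q : ℤ × ℤ}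
    (hQ : act W D.L (clu Q)) {m : ℤ × ℤ} (hm : Nd2 D.N (HH D.N D.hh Q) m) :
    ‖G 0 (rt Q m)‖ ≤ 1 ∧ ‖G 1 (rt Q m)‖ ≤ 1 ∧
      ‖(tay 2 G (rt Q m)).eval (xq D.L D.ℓ Q) - G 0 (rt Q m)‖ ≤ D.ℓ := by
  have l0 := hP.hyp.l0
  have l1 := hP.hyp.lL
  have l2 := hP.hyp.L1
  have h1 : ‖cen D.L (clu Q)‖ ≤ 1 :=
    (hB.inn W _ hW fun h => Set.disjoint_left.1 hQ (mem_ball_self (by linarith))
      (subset_closure h)).2
  obtain ⟨r1, r2⟩ := hO.root Q hQ m hm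
  have h2 := xq_near l0.le D.L Q
  have h3 : ‖rt Q m‖ ≤ 3 := by
    have e : rt Q m = (rt Q m - xq D.L D.ℓ Q) + (xq D.L D.ℓ Q - cen D.L (clu Q)) +
        cen D.L (clu Q) := by ring
    have := norm_add₃_le (a := rt Q m - xq D.L D.ℓ Q) (b := xq D.L D.ℓ Q - cen D.L (clu Q))
      (c := cen D.L (clu Q))
    rw [← e] at this
    linarith
  have h4 := hS.bdd 1 (by omega) _ r1 h3
  refine ⟨hS.bdd 0 (by omega) _ r1 h3, h4, ?_⟩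
  rw [tay2, add_sub_cancel_left, norm_mul, norm_sub_rev]
  calc ‖G 1 (rt Q m)‖ * ‖rt Q m - xq D.L D.ℓ Q‖ ≤ 1 * D.ℓ :=
        mul_le_mul h4 r2 (norm_nonneg _) zero_le_one
    _ = D.ℓ := one_mul _

theorem sig_bd (hε0 : 0 < ε0) (hP : Prep3 n Cg c ω W F κ τ ε0 a m0 D.L O To ν cost D ε) :
    0 < τ / D.N ∧ τ / D.N ≤ D.ℓ ∧ D.ℓ ≤ 8 / ε0 * (τ / D.N) := by
  have l0 := hP.hyp.l0
  have h1 := hP.eps
  have h2 := hP.eps1
  rw [hP.sig]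
  refine ⟨mul_pos (by linarith) (by linarith), by nlinarith, ?_⟩
  rw [div_mul_eq_mul_div, le_div_iff₀ hε0]
  nlinarith

theorem fl (hB : BASIC) (hn : 2 ≤ n) (hW : W0 ⊆ W) (hCg : 0 < Cg) (hc : 0 < c) (hκ : 0 < κ)
    (hε0 : 0 < ε0) (hm0 : 20 ≤ m0) (hω : ‖ω‖ = 1) {K1 σ1 K : ℝ} (hK1 : 1 ≤ K1)
    (hK : K = K1 + 2 + 2 * (Cg / c) + (2 * (Cg / c) + 28) * (8 / ε0)) (hℓ : D.ℓ ≤ σ1)
    (hN : ∀ (N H : ℕ) (σ ε : ℝ) (ω e1 e2 f1 f2 e1' e2' : ℂ) (A B : ℤ × ℤ → ℂ), 1 ≤ H → H ≤ N →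
      0 < σ → σ ≤ σ1 → ε0 ≤ ε → ε ≤ 1 → ‖ω‖ = 1 → NG σ (1000 / ε0) e1 e2 f1 f2 e1' e2' →
      (∀ m, Nd2 N H m → ‖A m‖ ≤ 2 ∧ ‖B m‖ ≤ 1) →
      (∀ m m', Nd2 N H m → Nd2 N H m' → Nb m m' →
        ‖A m' - A m - (B m' - B m) * (q0 e1 e2 m m' / q1 ε ω f1 f2 m m')‖ ≤
          (Cg / c + Cg) * (8 / ε0) ^ 2 * σ ^ 2) →
      ∃ ν β : ℤ × ℤ → ℂ, NOut N H σ K1 e1' e2' A ν β ∧
        ∀ m, Nd2 N H m → (m.1 - m.2) % 3 = 0 → β m = B m)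
    (hP : Prep3 n Cg c ω W F κ τ ε0 a m0 D.L O To ν cost D ε)
    (hO : GOut3 n Cg κ D.L W D O ν W' Γ' rt) (hS : Sec n W' G) (hOK : GapOK Γ' (G 0)) {e : ℂ}
    (hLip : LipD W' e (G 0)) :
    ∃ A μ β, FL W D.L O τ (1 / m0) a K cost (bvF n F D.L) e (G 0) D.N D.hh A μ β := by
  have l0 := hP.hyp.l0
  have l1 := hP.hyp.lL
  have l2 := hP.hyp.L1
  have hN0 := hP.hyp.N0
  have hN6 := hP.hyp.N6
  obtain ⟨s0, s1, s2⟩ := sig_bd hε0 hP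
  have hu : 0 ≤ Cg / c := by positivity
  have hv : 0 < 8 / ε0 := by positivity
  have huv : 0 ≤ (2 * (Cg / c) + 28) * (8 / ε0) := by positivity
  have hex : ∀ Q, ∃ μ β : ℤ × ℤ → ℂ, act W D.L (clu Q) →
      NOut D.N (HH D.N D.hh Q) (τ / D.N) K1
        ((v1 (bvF n F D.L) τ (1 / m0) Q - v0 (bvF n F D.L) τ (1 / m0) Q) / D.N)
        ((v2 (bvF n F D.L) τ (1 / m0) Q - v0 (bvF n F D.L) τ (1 / m0) Q) / D.N)
        (fun m => (tay 2 G (rt Q m)).eval (xq D.L D.ℓ Q)) μ β ∧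
      ∀ m, Nd2 D.N (HH D.N D.hh Q) m → (m.1 - m.2) % 3 = 0 → β m = G 1 (rt Q m) := by
    intro Q
    by_cases hQ : act W D.L (clu Q)
    swap
    · exact ⟨fun _ => 0, fun _ => 0, fun h => (hQ h).elim⟩
    obtain ⟨e1, e2, f1, f2, hG, hζ⟩ := hP.ng Q hQ
    obtain ⟨μ, β, h⟩ := hN D.N (HH D.N D.hh Q) (τ / D.N) ε ω e1 e2 f1 f2 _ _
      (fun m => (tay 2 G (rt Q m)).eval (xq D.L D.ℓ Q)) (fun m => G 1 (rt Q m))
      (hh_bd hP Q).1 (hh_bd hP Q).2.1 s0 (s1.trans hℓ) hP.eps hP.eps1 hω hG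
      (fun m hm => by
        obtain ⟨b1, b2, b3⟩ := root_bd hB hn hW hP hO hS hQ hm
        refine ⟨?_, b2⟩
        have := norm_add_le ((tay 2 G (rt Q m)).eval (xq D.L D.ℓ Q) - G 0 (rt Q m))
          (G 0 (rt Q m))
        rw [sub_add_cancel] at this
        linarith)
      fun m m' hm hm' hnb => by
        have h1 := hO.lk G hS hOK Q hQ m m' hm hm' hnb
        have h2 : Cg * D.β / κ ≤ Cg * D.ℓ ^ 2 := by
          rw [div_le_iff₀ hκ, mul_assoc, mul_comm (D.ℓ ^ 2)]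
          exact mul_le_mul_of_nonneg_left hP.beta hCg.le
        have h3 : D.ℓ ^ 2 ≤ (8 / ε0 * (τ / D.N)) ^ 2 := pow_le_pow_left₀ l0.le s2 2
        have h4 : (Cg / c + Cg) * D.ℓ ^ 2 ≤ (Cg / c + Cg) * (8 / ε0 * (τ / D.N)) ^ 2 :=
          mul_le_mul_of_nonneg_left h3 (by positivity)
        rw [hP.cc, eval_sub, tay2' G _ (xq D.L D.ℓ Q), tay2' G (rt Q m) (xq D.L D.ℓ Q),
          hζ m m' hnb] at h1
        have e : (tay 2 G (rt Q m')).eval (xq D.L D.ℓ Q) - (tay 2 G (rt Q m)).eval (xq D.L D.ℓ Q) -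
            (G 1 (rt Q m') - G 1 (rt Q m)) * (q0 e1 e2 m m' / q1 ε ω f1 f2 m m') =
            (tay 2 G (rt Q m')).eval (xq D.L D.ℓ Q) +
              G 1 (rt Q m') * -(q0 e1 e2 m m' / q1 ε ω f1 f2 m m') -
            ((tay 2 G (rt Q m)).eval (xq D.L D.ℓ Q) +
              G 1 (rt Q m) * -(q0 e1 e2 m m' / q1 ε ω f1 f2 m m')) := by ring
        rw [e, mul_assoc, ← mul_pow]
        linarith
    exact ⟨μ, β, fun _ => h⟩
  choose μ β hex using hex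
  have pair : ∀ Q Q' m m', act W D.L (clu Q) → act W D.L (clu Q') →
      Nd2 D.N (HH D.N D.hh Q) m → Nd2 D.N (HH D.N D.hh Q') m' → (m.1 - m.2) % 3 = 0 →
      (m'.1 - m'.2) % 3 = 0 →
      (∀ z, (z = xq D.L D.ℓ Q ∨ z = xq D.L D.ℓ Q') →
        ‖(tay 2 G (rt Q m) - tay 2 G (rt Q' m')).eval z‖ ≤
          Cg / D.c * (‖dl D.L Q Q'‖ + D.ℓ) ^ 2) →
      Rl K (τ / D.N) (dl D.L Q Q') ((tay 2 G (rt Q m)).eval (xq D.L D.ℓ Q)) (β Q m)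
        ((tay 2 G (rt Q' m')).eval (xq D.L D.ℓ Q')) (β Q' m') := by
    intro Q Q' m m' hQ hQ' hm hm' c1 c2 h
    rw [(hex Q hQ).2 m hm c1, (hex Q' hQ').2 m' hm' c2]
    have h1 := h _ (Or.inl rfl)
    have h2 := h _ (Or.inr rfl)
    rw [hP.cc, eval_sub, tay2' G (rt Q' m') (xq D.L D.ℓ Q')] at h1
    rw [hP.cc, eval_sub, tay2' G (rt Q m) (xq D.L D.ℓ Q)] at h2
    exact rl_of hu s0.le l0.le (by linarith) s2 (by linarith) (by linarith)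
      (root_bd hB hn hW hP hO hS hQ hm).2.1 (root_bd hB hn hW hP hO hS hQ' hm').2.1
      (xq_sub l0.le D.L Q Q') h1 h2
  refine ⟨fun Q m => (tay 2 G (rt Q m)).eval (xq D.L D.ℓ Q), μ, β, hN0, hN6, hP.hyp.h3, ?_,
    fun Q hQ => nout_mono s0.le (by linarith) (hex Q hQ).1, ?_, ?_, ?_, ?_⟩
  · have h1 : (D.hh : ℝ) * m0 = D.N := by exact_mod_cast hP.hm
    have h2 : (0 : ℝ) < m0 := by exact_mod_cast (by omega : 0 < m0)
    rw [← h1]; field_simp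
  · intro Q x hQ hQ' hx hk hf
    obtain ⟨x0, x1, x2⟩ := hx
    obtain ⟨a1, a2, a3⟩ := hh_bd hP Q
    refine pair Q (rn Q) _ _ hQ hQ' ?_ ?_ ?_ ?_
      (hO.shh G hS Q x hQ hQ' ⟨x0, x1, x2⟩ hk (hf.imp_right fun h => ⟨h.1, x2, ?_⟩))
    · unfold rnd Nd2; simp only; omega
    · unfold Nd2; simp only; omega
    · unfold rnd; simp only; omega
    · simp only; omega
    · have h3 := hP.xw
      have h4 : |2 * (x : ℝ) - D.N| ≤ 2 * D.xw := by linarith [h.2]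
      exact_mod_cast h4
  · intro Q x hV hQ hQ' hx b1 b2
    obtain ⟨x0, x1, x2⟩ := hx
    refine pair Q (un Q) _ _ hQ hQ' ?_ ?_ ?_ ?_ (hO.shv G hS Q x hV hQ hQ' ⟨x0, x1, x2⟩ b1 b2)
    · unfold Nd2; simp only; omega
    · unfold Nd2; simp only; omega
    · simp only; omega
    · simp only; omega
  · intro o ho j hj
    have hQ : act W D.L (clu (cel (o.k, j) 0 3)) := by
      rw [clu_cel _ le_rfl (by norm_num) (by norm_num) (by norm_num) (by norm_num)]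
      exact (hP.hyp.geo.st o ho j hj).2.1
    have hm : Nd2 D.N (HH D.N D.hh (cel (o.k, j) 0 3)) (0, (D.N : ℤ) / 2) := by
      unfold Nd2; simp only; omega
    have b1 := (root_bd hB hn hW hP hO hS hQ hm).2.2
    have b2 := hO.st G hS o ho j hj ((D.N : ℤ) / 2) ⟨by omega, by
      have : 2 * ((D.N : ℤ) / 2) - D.N = 0 := by omega
      rw [this, abs_zero]; positivity⟩
    rw [hP.cc] at b2
    have b3 := hP.cst o ho
    have b4 : (2 + Cg / c) * D.L ≤ K * D.L := mul_le_mul_of_nonneg_right (by linarith) (by linarith)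
    have b5 := norm_sub_le (G 0 o.y - G 0 (rt (cel (o.k, j) 0 3) (0, (D.N : ℤ) / 2)))
      ((tay 2 G (rt (cel (o.k, j) 0 3) (0, (D.N : ℤ) / 2))).eval (xq D.L D.ℓ (cel (o.k, j) 0 3)) -
        G 0 (rt (cel (o.k, j) 0 3) (0, (D.N : ℤ) / 2)))
    rw [sub_sub_sub_cancel_right] at b5
    linarith
  · intro R hR hb m m' hm hm'
    have e1 : clu (cel R 7 0) = R :=
      clu_cel _ (by norm_num) (by norm_num) le_rfl (by norm_num) (by norm_num)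
    have e2 : HH D.N D.hh (cel R 7 0) = D.N := by
      unfold HH
      rw [kd_cel _ (by norm_num) (by norm_num) le_rfl (by norm_num), if_pos (by decide)]
    have hQ : act W D.L (clu (cel R 7 0)) := by rw [e1]; exact hR
    have hx := xq_near l0.le D.L (cel R 7 0)
    rw [e1] at hx
    have key : ∀ m, Nd2 D.N D.N m → rt (cel R 7 0) m ∈ closure W' ∩ ball e (1 / 10) ∧
        ‖rt (cel R 7 0) m - xq D.L D.ℓ (cel R 7 0)‖ ≤ D.ℓ ∧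
        ‖(tay 2 G (rt (cel R 7 0) m)).eval (xq D.L D.ℓ (cel R 7 0)) - G 0 (rt (cel R 7 0) m)‖ ≤
          D.ℓ := by
      intro m hm
      have hm2 : Nd2 D.N (HH D.N D.hh (cel R 7 0)) m := by rw [e2]; exact hm
      obtain ⟨r1, r2⟩ := hO.root _ hQ m hm2
      refine ⟨⟨r1, hb (mem_ball_iff_norm.2 ?_)⟩, r2, (root_bd hB hn hW hP hO hS hQ hm2).2.2⟩
      have := norm_add_le (rt (cel R 7 0) m - xq D.L D.ℓ (cel R 7 0))
        (xq D.L D.ℓ (cel R 7 0) - cen D.L R)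
      rw [sub_add_sub_cancel] at this
      linarith
    obtain ⟨p1, p2, p3⟩ := key m hm
    obtain ⟨r1, r2, r3⟩ := key m' hm'
    have b5 := hLip _ p1 _ r1
    have b6 := norm_sub_le (rt (cel R 7 0) m - xq D.L D.ℓ (cel R 7 0))
      (rt (cel R 7 0) m' - xq D.L D.ℓ (cel R 7 0))
    rw [sub_sub_sub_cancel_right] at b6
    have b7 : 4 * (8 / ε0) ≤ K := by nlinarith
    have b8 : 4 * (8 / ε0) * (τ / D.N) ≤ K * (τ / D.N) := mul_le_mul_of_nonneg_right b7 s0.le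
    show ‖(tay 2 G (rt (cel R 7 0) m)).eval (xq D.L D.ℓ (cel R 7 0)) -
      (tay 2 G (rt (cel R 7 0) m')).eval (xq D.L D.ℓ (cel R 7 0))‖ ≤ _
    set P := (tay 2 G (rt (cel R 7 0) m)).eval (xq D.L D.ℓ (cel R 7 0))
    set P' := (tay 2 G (rt (cel R 7 0) m')).eval (xq D.L D.ℓ (cel R 7 0))
    set T := G 0 (rt (cel R 7 0) m)
    set T' := G 0 (rt (cel R 7 0) m')
    have e' : P - P' = (P - T) + (T - T') - (P' - T') := by ring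
    rw [e']
    have c1 := norm_sub_le ((P - T) + (T - T')) (P' - T')
    have c2 := norm_add_le (P - T) (T - T')
    linarith

end level

end

end Pool.Agent.MP_d32a63_an.H13N.LEVEL

theorem Pool.Agent.MP_d32a63_an.H13N.rowLEVEL : Pool.Agent.MP_d32a63_an.H13N.R_LEVEL := by
  intro hB hN n Cg hn hCg hG hP s Γ hΓ κ hκ
  obtain ⟨c, ω, hc, hω, hP1⟩ := hP Cg hCg
  have hκ0 : 0 < min κ 1 := lt_min hκ one_pos
  obtain ⟨τ, ε0, M, d1, βc, hτ, hτ1, hε0, hM, hd1, hβc, hP2⟩ :=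
    hP1 s Γ hΓ (min κ 1) hκ0 (min_le_right _ _)
  obtain ⟨K1, σ1, hK1, hσ1, hN1⟩ := hN ε0 (1000 / ε0) ((Cg / c + Cg) * (8 / ε0) ^ 2) hε0
    (by positivity) (by positivity)
  refine ⟨τ, K1 + 2 + 2 * (Cg / c) + (2 * (Cg / c) + 28) * (8 / ε0), M, d1, βc, hτ, hτ1, ?_, hM,
    hd1, hβc, fun d hd => ?_⟩
  · have : 0 ≤ 2 * (Cg / c) + (2 * (Cg / c) + 28) * (8 / ε0) := by positivity
    linarith
  obtain ⟨a, ha, hP3⟩ := hP2 d hd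
  refine ⟨a, ha, fun m0 hm0 L0 hL0 => ?_⟩
  obtain ⟨L, O, To, ν, cost, hL, hLay, hP4⟩ := hP3 m0 hm0 L0 hL0
  refine ⟨L, O, cost, _, hL, hLay, fun σ0 hσ0 => ?_⟩
  obtain ⟨D, ε, hℓ, hPr⟩ := hP4 (min σ0 σ1) (lt_min hσ0 hσ1)
  obtain rfl := hPr.hL
  obtain ⟨s', Γ', rt, hE, hΓ', hO⟩ := hG s (min κ 1) D.L hκ0 (min_le_right _ _) hLay.L0 D O To ν
    hPr.hyp
  exact ⟨D.N, D.hh, s', Γ', (LEVEL.sig_bd hε0 hPr).2.1.trans (hℓ.trans (min_le_left _ _)),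
    ⟨hE.sub, hE.eq, fun j hj z => (hE.near j hj z).trans (min_le_left _ _)⟩, hΓ',
    LEVEL.bridge hLay hPr hO, fun G hS hOK e hLip => LEVEL.fl hB hn s.base hCg hc hκ0 hε0 hm0 hω
      hK1 rfl (hℓ.trans (min_le_right _ _)) hN1 hPr hO hS hOK hLip⟩
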