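import Pool.Agent.MP_d32a63_an.H13N.Spec
import Pool.Agent.MP_d32a63_an.H96.Lima

/-! The row `LIMA`: the limit of the cluster fields along the ultrafilter. -/

open Set Filter Topology Metric Polynomial
open Complex (I)
open Pool.Agent.MP_d32a63_an.H95 (Core Sec jet W0 Flat RealStmt)
open Pool.Agent.MP_d32a63_an.H58 hiding Cells Sq LAV LA1 LA2 LIMA LIMB LIM FIN R_LIMA
open Pool.Agent.MP_d32a63_an.H96 (uf_le uf_ne bddlim hasDerivAt_of_sq loc cell_sub lim_sq lim_lin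
  loc8 seg_re)

namespace Pool.Agent.MP_d32a63_an.H13N

namespace LIMAA

section

variable {n : ℕ} {s : Core n} {Γ : Set Seg} {τ K : ℝ} {βf : ℝ → ℝ} {e : ℂ} {d ℓ : ℕ → ℝ}
  {G : ℕ → ℕ → ℂ → ℂ} {Φ μ c : ℕ → ℤ × ℤ → ℂ → ℂ}

theorem d_lim (hS : Sq s Γ τ K βf e d ℓ G Φ μ c) : Tendsto d UF (𝓝 0) := hS.lim.mono_left uf_le

theorem l_lim (hS : Sq s Γ τ K βf e d ℓ G Φ μ c) : Tendsto ℓ UF (𝓝 0) := by
  refine squeeze_zero (fun J => (hS.cells J).l0.le) (fun J => ?_) (d_lim hS)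
  have h1 := (hS.cells J).ld
  have h2 := (hS.cells J).d0
  have h3 := (hS.cells J).d1
  nlinarith

theorem ev_small (hS : Sq s Γ τ K βf e d ℓ G Φ μ c) {R : ℝ} (hR : 0 < R) :
    ∀ᶠ J in UF, 4 * ℓ J < R := by
  filter_upwards [(l_lim hS).eventually (eventually_lt_nhds (show (0 : ℝ) < R / 4 by linarith))]
    with J hJ
  linarith

/-- The cell of `z` is eventually active and its tube contains the smaller disc. -/
theorem ev (hB : BASIC) (hS : Sq s Γ τ K βf e d ℓ G Φ μ c) {z : ℂ} (hz : z ∉ closure s.W)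
    {ρ : ℝ} (hρ : ρ < τ / 50) : ∀ᶠ J in UF, act s.W (ℓ J) (cl (ℓ J) z) ∧
      ball (s.F 0 z + τ * actr) ρ ⊆ tube (s.F 0) τ (ℓ J) (cl (ℓ J) z) := by
  obtain ⟨R, hR, h1, h2⟩ := loc s τ hz hρ
  filter_upwards [ev_small hS hR] with J hJ
  obtain ⟨h3, h4⟩ := cell_sub hB (hS.cells J).l0 z hJ
  exact ⟨h1.mono_left h4, h2 _ h3⟩

theorem ev1 (hB : BASIC) (hS : Sq s Γ τ K βf e d ℓ G Φ μ c) {z w : ℂ} (hz : z ∉ closure s.W)
    (hw : w ∈ ball (s.F 0 z + τ * actr) (τ / 50)) : ∀ᶠ J in UF, act s.W (ℓ J) (cl (ℓ J) z) ∧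
      w ∈ tube (s.F 0) τ (ℓ J) (cl (ℓ J) z) := by
  obtain ⟨ρ, hρ, hw2⟩ := exists_lt_mem_ball_of_mem_ball hw
  filter_upwards [ev hB hS hz hρ] with J hJ
  exact ⟨hJ.1, hJ.2 hw2⟩

theorem ev_bd (hB : BASIC) (hS : Sq s Γ τ K βf e d ℓ G Φ μ c) {z w : ℂ} (hz : z ∉ closure s.W)
    (hw : w ∈ ball (s.F 0 z + τ * actr) (τ / 50)) :
    ∀ᶠ J in UF, ‖Φ J (cl (ℓ J) z) w‖ ≤ K := by
  filter_upwards [ev1 hB hS hz hw] with J hJ
  exact ((hS.cells J).wh _ hJ.1).bg w hJ.2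

theorem cvg (hB : BASIC) (hS : Sq s Γ τ K βf e d ℓ G Φ μ c) {z w : ℂ} (hz : z ∉ closure s.W)
    (hw : w ∈ ball (s.F 0 z + τ * actr) (τ / 50)) :
    Tendsto (fun J => Φ J (cl (ℓ J) z) w) UF (𝓝 (phi ℓ Φ z w)) :=
  bddlim _ K (ev_bd hB hS hz hw)

theorem lim_hw (hB : BASIC) (hS : Sq s Γ τ K βf e d ℓ G Φ μ c) {z : ℂ} (hz : z ∉ closure s.W) :
    DifferentiableOn ℂ (phi ℓ Φ z) (ball (s.F 0 z + τ * actr) (τ / 50)) := by
  intro w hw
  obtain ⟨ρ, hρ, hw2⟩ := exists_lt_mem_ball_of_mem_ball hw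
  have hev := ev hB hS hz hρ
  have hm : Tendsto (fun J => μ J (cl (ℓ J) z) w) UF
      (𝓝 (limUnder UF fun J => μ J (cl (ℓ J) z) w)) := by
    refine bddlim _ K ?_
    filter_upwards [hev] with J hJ
    exact ((hS.cells J).wh _ hJ.1).bm w (hJ.2 hw2)
  refine (hasDerivAt_of_sq (C := K) (m := limUnder UF fun J => μ J (cl (ℓ J) z) w)
    ?_).differentiableAt.differentiableWithinAt
  filter_upwards [isOpen_ball.mem_nhds hw2] with y hy
  refine lim_sq (d_lim hS) (cvg hB hS hz (ball_subset_ball hρ.le hy)) (cvg hB hS hz hw) hm ?_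
  filter_upwards [hev] with J hJ
  exact ((hS.cells J).wh _ hJ.1).tay w (hJ.2 hw2) y (hJ.2 hy)

theorem lim_bd (hB : BASIC) (hS : Sq s Γ τ K βf e d ℓ G Φ μ c) {z w : ℂ} (hz : z ∉ closure s.W)
    (hw : w ∈ ball (s.F 0 z + τ * actr) (τ / 50)) : ‖phi ℓ Φ z w‖ ≤ K := by
  have := uf_ne
  exact le_of_tendsto (cvg hB hS hz hw).norm (ev_bd hB hS hz hw)

theorem lim_fl (hB : BASIC) (hS : Sq s Γ τ K βf e d ℓ G Φ μ c) {z w w' : ℂ}
    (hz : z ∉ closure s.W) (he : z ∈ ball e (1 / 10))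
    (hw : w ∈ ball (s.F 0 z + τ * actr) (τ / 50))
    (hw' : w' ∈ ball (s.F 0 z + τ * actr) (τ / 50)) : phi ℓ Φ z w = phi ℓ Φ z w' := by
  obtain ⟨R, hR, hsub⟩ := Metric.isOpen_iff.1 isOpen_ball z he
  have h : ‖phi ℓ Φ z w - phi ℓ Φ z w'‖ ≤ K * 0 := by
    refine lim_lin (d_lim hS) (cvg hB hS hz hw) (cvg hB hS hz hw') ?_
    filter_upwards [ev1 hB hS hz hw, ev1 hB hS hz hw', ev_small hS hR] with J h1 h2 h3
    rw [zero_add]
    exact (hS.cells J).flat _ h1.1 ((cell_sub hB (hS.cells J).l0 z h3).2.trans hsub) w h1.2 w' h2.2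
  rw [mul_zero] at h
  exact sub_eq_zero.1 (norm_le_zero_iff.1 h)

theorem lim_un (hB : BASIC) (hU : UL) (hS : Sq s Γ τ K βf e d ℓ G Φ μ c) {z : ℂ}
    (hz : z ∉ closure s.W) : TendstoUniformlyOn (fun J w => Φ J (cl (ℓ J) z) w) (phi ℓ Φ z) UF
      (ball (s.F 0 z + τ * actr) (τ / 60)) := by
  have hτ := hS.t0
  have hK := hS.K1
  have hρ : τ / 60 < τ / 50 := by linarith
  refine (hU UF (fun J w => Φ J (cl (ℓ J) z) w) (phi ℓ Φ z) _ (K * (τ + 2)) d uf_ne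
    isBounded_ball (d_lim hS) (fun x hx => cvg hB hS hz (ball_subset_ball hρ.le hx)) ?_).1
  filter_upwards [ev hB hS hz hρ] with J hJ x hx y hy
  have hW := (hS.cells J).wh _ hJ.1
  have h1 := hW.tay y (hJ.2 hy) x (hJ.2 hx)
  have h2 := hW.bm y (hJ.2 hy)
  have hd0 := (hS.cells J).d0
  have hd1 := (hS.cells J).d1
  have h3 : ‖x - y‖ ≤ τ := by
    have h4 := dist_triangle_right x y (s.F 0 z + τ * actr)
    rw [mem_ball] at hx hy
    rw [← dist_eq_norm]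
    linarith
  have h5 : ‖Φ J (cl (ℓ J) z) x - Φ J (cl (ℓ J) z) y‖ ≤
      ‖Φ J (cl (ℓ J) z) x - Φ J (cl (ℓ J) z) y - μ J (cl (ℓ J) z) y * (x - y)‖ +
        ‖μ J (cl (ℓ J) z) y * (x - y)‖ := norm_le_norm_sub_add _ _
  rw [norm_mul] at h5
  have h6 := norm_nonneg (x - y)
  have h7 : ‖μ J (cl (ℓ J) z) y‖ * ‖x - y‖ ≤ K * (‖x - y‖ + d J) :=
    mul_le_mul h2 (by linarith) h6 (by linarith)
  have h8 : (‖x - y‖ + d J) ^ 2 ≤ (τ + 1) * (‖x - y‖ + d J) := by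
    rw [sq]
    exact mul_le_mul_of_nonneg_right (by linarith) (by linarith)
  have h9 : K * (‖x - y‖ + d J) ^ 2 ≤ K * ((τ + 1) * (‖x - y‖ + d J)) :=
    mul_le_mul_of_nonneg_left h8 (by linarith)
  calc _ ≤ K * ((τ + 1) * (‖x - y‖ + d J)) + K * (‖x - y‖ + d J) := by linarith
    _ = K * (τ + 2) * (‖x - y‖ + d J) := by ring

theorem ev_d (hS : Sq s Γ τ K βf e d ℓ G Φ μ c) {R : ℝ} (hR : 0 < R) :
    ∀ᶠ J in UF, 10 * d J ≤ R := by
  filter_upwards [(d_lim hS).eventually (eventually_lt_nhds (show (0 : ℝ) < R / 10 by linarith))]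
    with J hJ
  linarith

theorem off_gap (hB : BASIC) (h1 : LA1) (hU : UL) (hM : MOR)
    (hS : Sq s Γ τ K βf e d ℓ G Φ μ c) {z w : ℂ}
    (hz : z ∉ closure s.W) (hw : w ∈ ball (s.F 0 z + τ * actr) (τ / 50))
    (hg : ∀ g ∈ Γ, z ∉ segment ℝ g.p g.v) : DifferentiableAt ℂ (fun x => phi ℓ Φ x w) z := by
  have hK := hS.K1
  obtain ⟨R, hR, hD, hT, hG⟩ := loc8 s τ hz hw Γ hS.gaps.fin hg
  have h8 : ball z R ⊆ ball z (8 * R) := ball_subset_ball (by linarith)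
  obtain ⟨hun, hL⟩ := hU UF (fun J x => Φ J (cl (ℓ J) x) w) (fun x => phi ℓ Φ x w) (ball z R)
    (100 * K) d uf_ne isBounded_ball (d_lim hS)
    (fun x hx => cvg hB hS (Set.disjoint_left.1 hD (h8 hx)) (hT x (h8 hx))) (by
      filter_upwards [ev_d hS hR] with J hJ
      exact h1 _ _ _ _ _ _ _ _ _ _ _ _ _ _ hS.gaps (hS.cells J) hK z w R hJ hD
        (fun Q hQ => hT _ hQ) (Or.inl hG))
  have hC : ContinuousOn (fun x => phi ℓ Φ x w) (ball z R) := by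
    have hLip : LipschitzOnWith (Real.toNNReal (100 * K)) (fun x => phi ℓ Φ x w) (ball z R) := by
      refine LipschitzOnWith.of_dist_le' fun x hx y hy => ?_
      rw [dist_eq_norm, dist_eq_norm]
      exact hL x hx y hy
    exact hLip.continuousOn
  refine (hM _ (fun J Q => Φ J Q w) ℓ d z R (fun J => (hS.cells J).l0) (l_lim hS) (d_lim hS) hC hun
    ?_).differentiableAt (ball_mem_nhds z hR)
  filter_upwards [ev_d hS hR, ev_small hS hR] with J hJ hJ' i j a1 a2 a3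
  have l0 := (hS.cells J).l0
  have d0 := (hS.cells J).d0
  have sub : ∀ {x : ℂ} {r : ℝ}, x ∈ ball z R → r ≤ R → ball x r ⊆ ball z (8 * R) :=
    fun hx hr => ball_subset (by rw [mem_ball] at hx; linarith)
  exact (hS.cells J).cr i j (hD.mono_left (sub a1 (by linarith)))
    (hD.mono_left (sub a2 (by linarith))) (hD.mono_left (sub a3 (by linarith)))
    (Or.inr ⟨hD.mono_left (sub a3 (by linarith)),
      fun g hg => (hG g hg).mono_left (sub a3 (by linarith))⟩)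
    w (hT _ (h8 a1)) (hT _ (h8 a2)) (hT _ (h8 a3))

theorem on_gap (hB : BASIC) (h1 : LA1) (hU : UL) (hM : MOR) (hP : PAIN)
    (hS : Sq s Γ τ K βf e d ℓ G Φ μ c) {z w : ℂ} (hz : z ∉ closure s.W)
    (hw : w ∈ ball (s.F 0 z + τ * actr) (τ / 50)) {g : Seg} (hg : g ∈ Γ)
    (hzg : z ∈ segment ℝ g.p g.v) : DifferentiableAt ℂ (fun x => phi ℓ Φ x w) z := by
  have hK := hS.K1
  have hop : z ∈ openSegment ℝ g.p g.v :=
    mem_openSegment_of_ne_left_right (fun h => hz (h ▸ (hS.gaps.ends g hg).1))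
      (fun h => hz (h ▸ (hS.gaps.ends g hg).2)) hzg
  obtain ⟨R, hR, hD, hT, hG⟩ := loc8 s τ hz hw {g' | g' ∈ Γ ∧ g' ≠ g}
    (hS.gaps.fin.subset fun g' h => h.1)
    (fun g' h => Set.disjoint_left.1 (hS.gaps.cross g hg g' h.1 (Ne.symm h.2)) hop)
  have h8 : ball z R ⊆ ball z (8 * R) := ball_subset_ball (by linarith)
  have hL : ∀ x ∈ ball z R, ∀ y ∈ ball z R,
      ‖phi ℓ Φ x w - phi ℓ Φ y w‖ ≤ 100 * K * ‖x - y‖ := by
    intro x hx y hy
    refine lim_lin (d_lim hS) (cvg hB hS (Set.disjoint_left.1 hD (h8 hx)) (hT x (h8 hx)))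
      (cvg hB hS (Set.disjoint_left.1 hD (h8 hy)) (hT y (h8 hy))) ?_
    filter_upwards [ev_d hS hR] with J hJ
    exact h1 _ _ _ _ _ _ _ _ _ _ _ _ _ _ hS.gaps (hS.cells J) hK z w R hJ hD
      (fun Q hQ => hT _ hQ) (Or.inr ⟨g, hg, hzg, fun g' hg' hne => hG g' ⟨hg', hne⟩⟩) x hx y hy
  have hC : ContinuousOn (fun x => phi ℓ Φ x w) (ball z R) := by
    have hLip : LipschitzOnWith (Real.toNNReal (100 * K)) (fun x => phi ℓ Φ x w) (ball z R) := by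
      refine LipschitzOnWith.of_dist_le' fun x hx y hy => ?_
      rw [dist_eq_norm, dist_eq_norm]
      exact hL x hx y hy
    exact hLip.continuousOn
  refine (hP _ z I z R Complex.I_ne_zero hC fun y hy hne => ?_).differentiableAt
    (ball_mem_nhds z hR)
  refine off_gap hB h1 hU hM hS (Set.disjoint_left.1 hD (h8 hy)) (hT y (h8 hy)) fun g' hg' hy' => ?_
  by_cases hgg : g' = g
  · subst hgg
    apply hne
    have e1 := seg_re (hS.gaps.vert g' hg') hy'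
    have e2 := seg_re (hS.gaps.vert g' hg') hzg
    simp [e1, e2]
  · exact Set.disjoint_left.1 (hG g' ⟨hg', hgg⟩) (h8 hy) hy'

end

end LIMAA

open LIMAA in
theorem rowLIMA : R_LIMA := by
  intro hB h1 hU hP hM n s Γ τ K βf e d ℓ G Φ μ c hS
  refine ⟨fun z hz => lim_hw hB hS hz, fun z hz w hw => ?_,
    fun z hz he w hw w' hw' => lim_fl hB hS hz he hw hw', fun z hz w hw => lim_bd hB hS hz hw,
    fun z hz => lim_un hB hU hS hz⟩
  by_cases h : ∃ g ∈ Γ, z ∈ segment ℝ g.p g.v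
  · obtain ⟨g, hg, hzg⟩ := h
    exact on_gap hB h1 hU hM hP hS hz hw hg hzg
  · exact off_gap hB h1 hU hM hS hz hw fun g hg hzg => h ⟨g, hg, hzg⟩

end Pool.Agent.MP_d32a63_an.H13N
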