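import Pool.Agent.MP_d32a63_an.H13N.Spec
import Pool.Agent.MP_d32a63_an.H5.Node

/-! Row NODE1: the discrete fields on the nodes of a trapezoid cell. -/

open Set Filter Topology Metric Polynomial
open Complex (I)
open Pool.Agent.MP_d32a63_an.H95 (Core Sec jet W0 Flat RealStmt)
open Pool.Agent.MP_d32a63_an.H58 hiding Cells Sq LAV LA1 LA2 LIMA LIMB LIM FIN
open Pool.Agent.MP_d32a63_an.H5 (St base up)

namespace Pool.Agent.MP_d32a63_an.H13N

noncomputable section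

namespace Node1

lemma chain {N H : ℕ} (f : ℤ × ℤ → ℂ) {A : ℝ} (hA : 0 ≤ A) {m m' : ℤ × ℤ} (hm : Nd2 N H m)
    (hm' : Nd2 N H m')
    (h : ∀ p p', Nd2 N H p → Nd2 N H p' → St p p' → dd m p ≤ dd m m' → ‖f p' - f p‖ ≤ A) :
    ‖f m' - f m‖ ≤ A * dd m m' := by
  obtain ⟨a1, a2, a3, a4⟩ := hm
  obtain ⟨b1, b2, b3, b4⟩ := hm'
  have k : ∀ p : ℤ × ℤ, p = m ∨ p = m' → ‖f p - f (min m.1 m'.1, min m.2 m'.2)‖ ≤
      A * (((p.1 - min m.1 m'.1 : ℤ) : ℝ) + ((p.2 - min m.2 m'.2 : ℤ) : ℝ)) := by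
    intro p hp
    have q : min m.1 m'.1 ≤ p.1 ∧ p.1 ≤ max m.1 m'.1 ∧ min m.2 m'.2 ≤ p.2 ∧ p.2 ≤ max m.2 m'.2 ∧
        p.1 + p.2 ≤ N ∧ p.1 ≤ H := by
      rcases hp with rfl | rfl <;> omega
    refine H5.box f A (_, _) p q.1 q.2.2.1
      (fun s h1 h2 => h _ _ ?_ ?_ (Or.inl rfl) (H5.dd_le ?_ ?_ ?_ ?_))
      (fun s h1 h2 => h _ _ ?_ ?_ (Or.inr rfl) (H5.dd_le ?_ ?_ ?_ ?_)) <;>
    simp only [Nd2] at * <;> omega
  have k1 := k m (Or.inl rfl)
  have k2 := k m' (Or.inr rfl)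
  have k3 := norm_sub_le (f m' - f (min m.1 m'.1, min m.2 m'.2))
    (f m - f (min m.1 m'.1, min m.2 m'.2))
  rw [sub_sub_sub_cancel_right] at k3
  have e : ∀ x y : ℤ, ((x - min x y : ℤ) : ℝ) + ((y - min x y : ℤ) : ℝ) = |((x - y : ℤ) : ℝ)| := by
    intro x y
    rw [← Int.cast_abs, ← Int.cast_add, Int.cast_inj, abs_eq_max_neg]
    omega
  rw [dd, ← e, ← e]
  linarith

lemma base_nd {N H : ℕ} (hN : 0 < N) {m : ℤ × ℤ} (h : Nd2 N H m) :
    Nd2 N H (base N m) ∧ Nd2 N H ((base N m).1, (base N m).2 + 1) ∧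
      Nb (base N m) ((base N m).1, (base N m).2 + 1) := by
  refine ⟨?_, ?_, Or.inr (Or.inl rfl)⟩ <;>
  · simp only [Nd2, base] at *
    split_ifs <;> (try simp only) <;> omega

/-- The slopes of the edges of a triangle are close. -/
def Tri (N H : ℕ) (c : ℝ) (μ : ℤ × ℤ → ℤ × ℤ → ℂ) : Prop :=
  ∀ m m' m'', Nd2 N H m → Nd2 N H m' → Nd2 N H m'' → Nb m m' → Nb m' m'' → Nb m m'' →
    ‖μ m m'' - μ m m'‖ ≤ c ∧ ‖μ m m'' - μ m' m''‖ ≤ c

section tri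

variable {N H : ℕ} {c : ℝ} {μ : ℤ × ℤ → ℤ × ℤ → ℂ}

lemma upT (h : Tri N H c μ) (a b : ℤ) (ha : 0 ≤ a) (hb : 0 ≤ b) (hH : a < H) (hab : a + b < N) :
    ‖up μ (a, b) - μ (a, b) (a + 1, b)‖ ≤ c ∧ ‖up μ (a, b) - μ (a + 1, b) (a, b + 1)‖ ≤ c :=
  h _ _ _ ⟨ha, hH.le, hb, hab.le⟩ ⟨by omega, by omega, hb, by omega⟩
    ⟨ha, hH.le, by omega, by omega⟩ (Or.inl rfl) (Or.inr (Or.inr (by simp))) (Or.inr (Or.inl rfl))

lemma dnT (h : Tri N H c μ) (a b : ℤ) (ha : 0 ≤ a) (hb : 0 ≤ b) (hH : a < H)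
    (hab : a + b + 1 < N) :
    ‖up μ (a + 1, b) - up μ (a, b)‖ ≤ 2 * c ∧ ‖up μ (a, b + 1) - up μ (a + 1, b)‖ ≤ 2 * c := by
  obtain ⟨h1, h2⟩ := h (a + 1, b) (a, b + 1) (a + 1, b + 1) ⟨by omega, by omega, hb, by omega⟩
    ⟨ha, hH.le, by omega, by omega⟩ ⟨by omega, by omega, by omega, by omega⟩
    (Or.inr (Or.inr (by simp))) (Or.inl rfl) (Or.inr (Or.inl rfl))
  have h3 := norm_sub_le_of_le h1 (upT h a b ha hb hH (by omega)).2
  have h4 := norm_sub_le_of_le (upT h a (b + 1) ha (by omega) hH (by omega)).1 h2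
  rw [sub_sub_sub_cancel_right] at h3 h4
  exact ⟨h3.trans_eq (by ring), h4.trans_eq (by ring)⟩

lemma step (h : Tri N H c μ) (h0 : 0 ≤ c) (hH : 1 ≤ H) {p p' : ℤ × ℤ} (hp : Nd2 N H p)
    (hp' : Nd2 N H p') (hs : St p p') : ‖up μ (base N p') - up μ (base N p)‖ ≤ 4 * c ∧
      ‖μ p p' - up μ (base N p)‖ ≤ c := by
  obtain ⟨a, b⟩ := p
  simp only [Nd2] at hp
  rcases hs with rfl | rfl <;> simp only [Nd2] at hp' <;>
    rw [show base N (a, b) = (a, b) from if_pos (by omega)]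
  · refine ⟨?_, by
      rw [norm_sub_rev]; exact (upT h a b hp.1 hp.2.2.1 (by omega) (by omega)).1⟩
    rw [base]
    split_ifs with k1 k2
    · exact (dnT h a b hp.1 hp.2.2.1 (by omega) (by omega)).1.trans (by linarith)
    · simpa using h0
    · omega
  · refine ⟨?_, by simpa [up] using h0⟩
    rw [base]
    split_ifs with k1 k2
    · by_cases k : a < H
      · obtain ⟨h1, h2⟩ := dnT h a b hp.1 hp.2.2.1 k (by omega)
        have := norm_add_le_of_le h2 h1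
        rw [sub_add_sub_cancel] at this
        linarith
      · have h1 := (dnT h (a - 1) b (by omega) hp.2.2.1 (by omega) (by omega)).2
        have h2 := (dnT h (a - 1) (b + 1) (by omega) (by omega) (by omega) (by omega)).1
        rw [sub_add_cancel] at h1 h2
        have := norm_add_le_of_le h2 h1
        rw [sub_add_sub_cancel] at this
        linarith
    · have := (dnT h (a - 1) b (by omega) hp.2.2.1 (by omega) (by omega)).2
      rw [sub_add_cancel] at this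
      exact this.trans (by linarith)
    · simpa using h0

lemma lip (h : Tri N H c μ) (h0 : 0 ≤ c) (hH : 1 ≤ H) {m m' : ℤ × ℤ} (hm : Nd2 N H m)
    (hm' : Nd2 N H m') : ‖up μ (base N m') - up μ (base N m)‖ ≤ 4 * c * dd m m' :=
  chain (fun p => up μ (base N p)) (mul_nonneg (by norm_num) h0) hm hm'
    fun _ _ a b k _ => (step h h0 hH a b k).1

end tri

/-! ### Edges -/

lemma q0_le {f1 f2 : ℂ} {c : ℝ} (h1 : ‖f1‖ ≤ c) (h2 : ‖f2‖ ≤ c) {m m' : ℤ × ℤ} (h : Nb m m') :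
    ‖q0 f1 f2 m m'‖ ≤ 2 * c := by
  have h0 := (norm_nonneg _).trans h1
  rcases h with rfl | rfl | rfl
  · have : q0 f1 f2 m (m.1 + 1, m.2) = f1 := by simp [q0]
    rw [this]; linarith
  · have : q0 f1 f2 m (m.1, m.2 + 1) = f2 := by simp [q0]
    rw [this]; linarith
  · have : q0 f1 f2 m (m.1 - 1, m.2 + 1) = f2 - f1 := by simp [q0]; ring
    rw [this]
    exact (norm_sub_le_of_le h2 h1).trans_eq (by ring)

lemma col_nb {m m' : ℤ × ℤ} (h : Nb m m') :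
    ∃ k : ℤ, 1 ≤ |k| ∧ |k| ≤ 2 ∧ col m' - col m = k := by
  refine ⟨(m'.1 - m'.2) % 3 - (m.1 - m.2) % 3, ?_, ?_, by simp [col]⟩ <;>
  · rw [abs_eq_max_neg]
    rcases h with rfl | rfl | rfl <;> simp only <;> omega

lemma col_le (m : ℤ × ℤ) : ‖col m‖ ≤ 2 := by
  have : |(m.1 - m.2) % 3| ≤ 2 := by
    rw [abs_eq_max_neg]
    omega
  rw [col, Complex.norm_intCast]
  exact_mod_cast this

section edges

variable {σ ε : ℝ} {ω e1 e2 f1 f2 : ℂ}

lemma q1_bd (he : 0 ≤ ε) (hω : ‖ω‖ = 1) (h1 : ‖f1‖ ≤ σ) (h2 : ‖f2‖ ≤ σ) {m m' : ℤ × ℤ}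
    (h : Nb m m') : ε - 2 * σ ≤ ‖q1 ε ω f1 f2 m m'‖ ∧ ‖q1 ε ω f1 f2 m m'‖ ≤ 2 * σ + 2 * ε := by
  obtain ⟨k, k1, k2, e⟩ := col_nb h
  have a := q0_le h1 h2 h
  have b : ‖(ε : ℂ) * (k : ℂ) * ω‖ = ε * |(k : ℝ)| := by
    rw [norm_mul, norm_mul, hω, mul_one, Complex.norm_real, Real.norm_of_nonneg he,
      Complex.norm_intCast]
  have k1' : (1 : ℝ) ≤ |(k : ℝ)| := by exact_mod_cast k1
  have k2' : |(k : ℝ)| ≤ 2 := by exact_mod_cast k2
  have c1 := norm_add_le (q0 f1 f2 m m') ((ε : ℂ) * (k : ℂ) * ω)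
  have c2 := norm_sub_le (q0 f1 f2 m m' + (ε : ℂ) * (k : ℂ) * ω) (q0 f1 f2 m m')
  rw [add_sub_cancel_left] at c2
  rw [q1, e]
  constructor <;> nlinarith

lemma nd_le (h : ND σ e1 e2) : ‖e1‖ ≤ 3 * σ ∧ ‖e2‖ ≤ 3 * σ :=
  ⟨by simpa using (h 1 0).2, by simpa using (h 0 1).2⟩

lemma det_ge (hσ : 0 ≤ σ) (he : 0 ≤ ε) (hω : ‖ω‖ = 1) (h : ND σ e1 e2) (h1 : ‖f1‖ ≤ σ)
    (h2 : ‖f2‖ ≤ σ) {m m' m'' : ℤ × ℤ} (n1 : Nb m m') (n3 : Nb m' m'') (n2 : Nb m m'') :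
    ε * (σ / 2) - 24 * σ ^ 2 ≤
      ‖q0 e1 e2 m m' * q1 ε ω f1 f2 m' m'' - q0 e1 e2 m' m'' * q1 ε ω f1 f2 m m'‖ := by
  obtain ⟨k, k1, -, ek⟩ := col_nb n1
  obtain ⟨l, l1, -, el⟩ := col_nb n3
  have hy : 1 ≤ |l * (m'.2 - m.2) - k * (m''.2 - m'.2)| := by
    have : (m'.2 - m.2 = 0 ∧ m''.2 - m'.2 = 1) ∨ (m'.2 - m.2 = 1 ∧ m''.2 - m'.2 = 0) := by
      simp only [Nb, Prod.ext_iff] at n1 n2 n3
      omega
    rcases this with ⟨a, b⟩ | ⟨a, b⟩ <;> rw [a, b] <;> simpa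
  have hy' : (1 : ℝ) ≤ |((l * (m'.2 - m.2) - k * (m''.2 - m'.2) : ℤ) : ℝ)| := by exact_mod_cast hy
  have a := (h ((l * (m'.1 - m.1) - k * (m''.1 - m'.1) : ℤ) : ℝ)
    ((l * (m'.2 - m.2) - k * (m''.2 - m'.2) : ℤ) : ℝ)).1
  have a0 := abs_nonneg ((l * (m'.1 - m.1) - k * (m''.1 - m'.1) : ℤ) : ℝ)
  set Z := (((l * (m'.1 - m.1) - k * (m''.1 - m'.1) : ℤ) : ℝ) : ℂ) * e1 +
    (((l * (m'.2 - m.2) - k * (m''.2 - m'.2) : ℤ) : ℝ) : ℂ) * e2 with hZ
  have b : σ / 2 ≤ ‖Z‖ := by nlinarith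
  have c := norm_sub_le_of_le
    (norm_mul_le_of_le (q0_le (nd_le h).1 (nd_le h).2 n1) (q0_le h1 h2 n3))
    (norm_mul_le_of_le (q0_le (nd_le h).1 (nd_le h).2 n3) (q0_le h1 h2 n1))
  have d := norm_sub_le_of_le (le_refl
    ‖q0 e1 e2 m m' * q1 ε ω f1 f2 m' m'' - q0 e1 e2 m' m'' * q1 ε ω f1 f2 m m'‖) c
  have e : q0 e1 e2 m m' * q1 ε ω f1 f2 m' m'' - q0 e1 e2 m' m'' * q1 ε ω f1 f2 m m' -
      (q0 e1 e2 m m' * q0 f1 f2 m' m'' - q0 e1 e2 m' m'' * q0 f1 f2 m m') = ε * ω * Z := by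
    rw [q1, q1, ek, el, hZ]
    simp only [q0]
    push_cast
    ring
  rw [e, norm_mul, norm_mul, hω, mul_one, Complex.norm_real, Real.norm_of_nonneg he] at d
  nlinarith [mul_le_mul_of_nonneg_left b he]

end edges

lemma solve {a b p r u v : ℂ} {D R : ℝ} (hD : 0 < D) (h : D ≤ ‖a * r - b * p‖)
    (h1 : ‖u * a + v * b‖ ≤ R) (h2 : u * p + v * r = 0) (hp : ‖p‖ ≤ 3) (hr : ‖r‖ ≤ 3) :
    ‖u‖ ≤ 3 * R / D ∧ ‖v‖ ≤ 3 * R / D := by
  have k1 := norm_mul_le_of_le hr h1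
  have k2 := norm_mul_le_of_le hp h1
  rw [show r * (u * a + v * b) = u * (a * r - b * p) by linear_combination b * h2, norm_mul] at k1
  rw [show p * (u * a + v * b) = -v * (a * r - b * p) by linear_combination a * h2, norm_mul,
    norm_neg] at k2
  constructor <;> rw [le_div_iff₀ hD]
  · exact (mul_le_mul_of_nonneg_left h (norm_nonneg _)).trans k1
  · exact (mul_le_mul_of_nonneg_left h (norm_nonneg _)).trans k2

end Node1

open Node1 in
theorem rowNODE1 : R_NODE1 := by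
  intro ε0 C1 C2 he0 hC1 hC2
  obtain ⟨M, B1, B2, B3, B4, B5⟩ : ∃ M : ℝ, 1 ≤ M ∧ 4 / ε0 ≤ M ∧ 36 * C2 / ε0 ≤ M ∧ C1 ≤ M ∧
      C2 ≤ M :=
    ⟨max 1 (max _ (max _ (max _ _))), le_max_left _ _, le_max_of_le_right (le_max_left _ _),
      le_max_of_le_right (le_max_of_le_right (le_max_left _ _)),
      le_max_of_le_right (le_max_of_le_right (le_max_of_le_right (le_max_left _ _))),
      le_max_of_le_right (le_max_of_le_right (le_max_of_le_right (le_max_right _ _)))⟩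
  have MM : M ≤ M ^ 2 := by nlinarith
  refine ⟨33 * M ^ 2, ε0 / 96, by linarith, by positivity, ?_⟩
  intro N H σ ε ω e1 e2 f1 f2 e1' e2' A B hH hN hσ hs he he1 hω G hb hl
  have e0 : 0 ≤ ε := by linarith
  have M0 : 0 ≤ M * σ := by positivity
  have qb : ∀ m m', Nb m m' → ε0 / 2 ≤ ‖q1 ε ω f1 f2 m m'‖ ∧ ‖q1 ε ω f1 f2 m m'‖ ≤ 3 :=
    fun m m' n => ⟨by linarith [(q1_bd e0 hω G.f1 G.f2 n).1],
      by linarith [(q1_bd e0 hω G.f1 G.f2 n).2]⟩
  obtain ⟨μ, hμ⟩ : ∃ μ : ℤ × ℤ → ℤ × ℤ → ℂ, ∀ m m', μ m m' = (B m' - B m) / q1 ε ω f1 f2 m m' :=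
    ⟨_, fun _ _ => rfl⟩
  have hB : ∀ m m', Nb m m' → B m' - B m = μ m m' * q1 ε ω f1 f2 m m' := fun m m' n => by
    rw [hμ, div_mul_cancel₀]
    exact norm_pos_iff.1 ((half_pos he0).trans_le (qb m m' n).1)
  have hA : ∀ m m', Nd2 N H m → Nd2 N H m' → Nb m m' →
      ‖A m' - A m - μ m m' * q0 e1 e2 m m'‖ ≤ C2 * σ ^ 2 := fun m m' a b n =>
    (congrArg norm (by rw [hμ]; ring)).trans_le (hl m m' a b n)
  have hM : ∀ m m', Nd2 N H m → Nd2 N H m' → Nb m m' → ‖μ m m'‖ ≤ M := fun m m' a b n => by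
    rw [hμ, norm_div]
    calc _ ≤ (1 + 1) / (ε0 / 2) := by
          gcongr
          exacts [norm_sub_le_of_le (hb m' b).2 (hb m a).2, (qb m m' n).1]
      _ = 4 / ε0 := by field_simp; ring
      _ ≤ M := B2
  have hT : Tri N H (M * σ) μ := by
    intro m m' m'' a b c n1 n3 n2
    have d : ε0 * σ / 4 ≤
        ‖q0 e1 e2 m m' * q1 ε ω f1 f2 m' m'' - q0 e1 e2 m' m'' * q1 ε ω f1 f2 m m'‖ :=
      le_trans (by nlinarith) (det_ge hσ.le e0 hω G.nd G.f1 G.f2 n1 n3 n2)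
    have s0 : q0 e1 e2 m m'' = q0 e1 e2 m m' + q0 e1 e2 m' m'' := by
      simp only [q0]; push_cast; ring
    have s1 : q1 ε ω f1 f2 m m'' = q1 ε ω f1 f2 m m' + q1 ε ω f1 f2 m' m'' := by
      simp only [q1, q0]; push_cast; ring
    have k := norm_sub_le_of_le (norm_add_le_of_le (hA _ _ a b n1) (hA _ _ b c n3)) (hA _ _ a c n2)
    have := solve (u := μ m m'' - μ m m') (v := μ m m'' - μ m' m'') (R := 3 * (C2 * σ ^ 2))
      (by positivity) d ((congrArg norm (by rw [s0]; ring)).trans_le (k.trans_eq (by ring)))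
      (by linear_combination hB _ _ n1 + hB _ _ n3 - hB _ _ n2 - μ m m'' * s1)
      (qb _ _ n1).2 (qb _ _ n3).2
    have z : 3 * (3 * (C2 * σ ^ 2)) / (ε0 * σ / 4) ≤ M * σ := by
      calc _ = 36 * C2 / ε0 * σ := by field_simp; ring
        _ ≤ _ := by gcongr
    exact ⟨this.1.trans z, this.2.trans z⟩
  have N0 : 0 < N := by omega
  have hν : ∀ m, Nd2 N H m → ‖up μ (base N m)‖ ≤ M := fun m a =>
    hM _ _ (base_nd N0 a).1 (base_nd N0 a).2.1 (base_nd N0 a).2.2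
  have hε : ‖(ε : ℂ) * ω‖ ≤ 1 := by
    rwa [norm_mul, hω, mul_one, Complex.norm_real, Real.norm_of_nonneg e0]
  refine ⟨fun m => up μ (base N m), fun m => B m - col m * (ε * ω) * up μ (base N m),
    ⟨fun m a => (hb m a).1.trans (by linarith), fun m a => (hν m a).trans (by linarith),
      fun m a => (norm_sub_le_of_le (hb m a).2 (norm_mul_le_of_le
        (norm_mul_le_of_le (col_le m) hε) (hν m a))).trans (by linarith),
      fun m m' a b => (lip hT M0 hH a b).trans ?_, fun m m' a b => ?_, fun m m' a b => ?_⟩,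
    fun m _ h => by simp [col, h]⟩
  · have := mul_pos hσ (zero_lt_one.trans_le (H5.one_le_dd m m'))
    nlinarith
  · have hd := H5.one_le_dd m m'
    have := chain (fun p => A p - up μ (base N m) * ((p.1 : ℂ) * e1' + (p.2 : ℂ) * e2'))
      (A := 33 * M ^ 2 * σ ^ 2 * dd m m') (by positivity) a b fun p p' x y c d => by
        have k2 := (step hT M0 hH x y c).2
        have k3 := hA p p' x y c.nb
        have k4 := q0_le (nd_le G.nd).1 (nd_le G.nd).2 c.nb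
        have k5 := q0_le G.e1 G.e2 c.nb
        have k6 := (lip hT M0 hH a x).trans (mul_le_mul_of_nonneg_left d (by positivity))
        have k7 := norm_sub_le_of_le (norm_add_le_of_le (norm_add_le_of_le k3
          (norm_mul_le_of_le k2 k4)) (norm_mul_le_of_le k6 k4)) (norm_mul_le_of_le (hν m a) k5)
        refine (congrArg norm (by simp only [q0]; push_cast; ring)).trans_le (k7.trans ?_)
        have e2 : M * σ ^ 2 ≤ M ^ 2 * σ ^ 2 := by gcongr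
        have e3 : M ^ 2 * σ ^ 2 ≤ M ^ 2 * σ ^ 2 * dd m m' :=
          le_mul_of_one_le_right (by positivity) hd
        have e4 : M * σ ^ 2 * dd m m' ≤ M ^ 2 * σ ^ 2 * dd m m' := by gcongr
        have e5 : C2 * σ ^ 2 ≤ M * σ ^ 2 := by gcongr
        have e6 : M * (C1 * σ ^ 2) ≤ M * (M * σ ^ 2) := by gcongr
        nlinarith
    exact (congrArg norm (by simp only [q0]; push_cast; ring)).trans_le (this.trans_eq (by ring))
  · have hd := H5.one_le_dd m m'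
    have := chain (fun p => B p - col p * (ε * ω) * up μ (base N p))
      (A := 12 * (M * σ)) (by positivity) a b fun p p' x y c d => by
        obtain ⟨k1, k2⟩ := step hT M0 hH x y c
        have k4 := norm_mul_le_of_le (hM p p' x y c.nb) (q0_le G.f1 G.f2 c.nb)
        obtain ⟨k, -, kk, ek⟩ := col_nb c.nb
        have k5 : ‖col p' - col p‖ ≤ 2 := by
          rw [ek, Complex.norm_intCast]
          exact_mod_cast kk
        have k7 := norm_sub_le_of_le (norm_add_le_of_le k4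
          (norm_mul_le_of_le (norm_mul_le_of_le k5 hε) k2))
          (norm_mul_le_of_le (norm_mul_le_of_le (col_le p') hε) k1)
        refine (congrArg norm ?_).trans_le (k7.trans_eq (by ring))
        have := hB p p' c.nb
        rw [q1] at this
        linear_combination this
    refine this.trans ?_
    have := mul_pos hσ (zero_lt_one.trans_le hd)
    nlinarith

end

end Pool.Agent.MP_d32a63_an.H13N
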