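import Pool.Agent.MP_d32a63_an.H13N.Pat

/-! Row REL: the discrete Cauchy-Riemann relation between clusters. -/

open Set Filter Topology Metric Polynomial
open Complex (I)
open Pool.Agent.MP_d32a63_an.H95 (Core Sec jet W0 Flat RealStmt)
open Pool.Agent.MP_d32a63_an.H58 hiding Cells Sq LAV LA1 LA2 LIMA LIMB LIM FIN

namespace Pool.Agent.MP_d32a63_an.H13N

namespace REL

theorem wh_mono {K K' σ : ℝ} {g μ : ℂ → ℂ} {A B : Set ℂ} (h : Wh K 0 g μ A) (h0 : 0 ≤ K)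
    (hK : K ≤ K') (hσ : 0 ≤ σ) (hB : B ⊆ A) : Wh K' σ g μ B :=
  ⟨fun x hx => (h.bg x (hB hx)).trans hK, fun x hx => (h.bm x (hB hx)).trans hK,
    fun x hx y hy => (h.lip x (hB hx) y (hB hy)).trans (by gcongr; linarith),
    fun x hx y hy => (h.tay x (hB hx) y (hB hy)).trans (by gcongr; linarith)⟩

theorem wh_shift {K σ : ℝ} {g μ : ℂ → ℂ} {A B : Set ℂ} (h : Wh K σ g μ A) (δ : ℂ)
    (hB : ∀ u ∈ B, u + δ ∈ A) : Wh K σ (fun u => g (u + δ)) (fun u => μ (u + δ)) B :=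
  ⟨fun x hx => h.bg _ (hB x hx), fun x hx => h.bm _ (hB x hx),
    fun x hx y hy => by simpa using h.lip _ (hB x hx) _ (hB y hy),
    fun x hx y hy => by simpa using h.tay _ (hB x hx) _ (hB y hy)⟩

theorem xi_eq {τ : ℝ} (hτ : 0 < τ) (w u : ℂ) : w + τ * ((u - w) / τ) = u := by
  have : (τ : ℂ) ≠ 0 := by exact_mod_cast hτ.ne'
  field_simp
  ring

theorem xi_ball {τ r : ℝ} (hτ : 0 < τ) {w u : ℂ} (h : u ∈ ball (w + τ * actr) (τ / r)) :
    (u - w) / τ ∈ ball actr (1 / r) := by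
  have : (τ : ℂ) ≠ 0 := by exact_mod_cast hτ.ne'
  rw [mem_ball_iff_norm] at h ⊢
  rw [show (u - w) / τ - actr = (u - (w + τ * actr)) / τ by field_simp; ring, norm_div,
    Complex.norm_real, Real.norm_of_nonneg hτ.le, div_lt_iff₀ hτ]
  rwa [one_div_mul_eq_div]

theorem ball_sub (hA : ANA) {τ r : ℝ} (hτ : 0 < τ) (w : ℂ) (hr : r ≤ τ / 2) :
    ball (w + τ * actr) r ⊆ Tg τ w := fun u hu => by
  rw [← xi_eq hτ w u, hA.tgs _ _ _ hτ]
  exact hA.tgb (xi_ball hτ (ball_subset_ball hr hu))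

theorem tg_shift (hA : ANA) {τ : ℝ} (hτ : 0 < τ) {w w' u : ℂ} (h : u ∈ Tg τ w) :
    u + (w' - w) ∈ Tg τ w' := by
  rw [← xi_eq hτ w u, hA.tgs _ _ _ hτ] at h
  rwa [show u + (w' - w) = w' + τ * ((u - w) / τ) by linear_combination -xi_eq hτ w u,
    hA.tgs _ _ _ hτ]

/-- Continuous on the model triangle and holomorphic inside. -/
def Hol (f : ℂ → ℂ) : Prop :=
  ContinuousOn f (Tg 1 0) ∧ ∀ ξ ∈ interior (Tg 1 0), DifferentiableAt ℂ f ξ

theorem hol (hA : ANA) {K τ : ℝ} {g μ : ℂ → ℂ} {w : ℂ} (hτ : 0 < τ) (h : Wh K 0 g μ (Tg τ w)) :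
    Hol fun ξ => g (w + τ * ξ) :=
  ⟨(hA.cont _ _ _ _ h).comp (f := fun ξ : ℂ => w + τ * ξ) (by fun_prop)
      fun ξ hξ => (hA.tgs _ _ _ hτ).2 hξ,
    fun ξ hξ => (hA.der _ _ _ _ h _ (hA.tgi _ _ _ hτ hξ)).differentiableAt.comp
      (f := fun ξ : ℂ => w + τ * ξ) ξ (by fun_prop)⟩

theorem maps {f : ℂ → ℂ} {c : ℂ} {r B : ℝ} (hr : 0 < r) (h : ∀ z ∈ ball c r, ‖f z‖ ≤ B) :
    MapsTo f (ball c r) (closedBall (f c) (2 * B)) := fun z hz => by
  rw [mem_closedBall_iff_norm]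
  linarith [norm_sub_le (f z) (f c), h z hz, h c (mem_ball_self hr)]

theorem ee_eq : ee 1 2 = 1 + (Real.sqrt 3 : ℂ) * I := by
  simp [ee, acol, add_comm]

theorem core (hB : BASIC) (hA : ANA) {K η : ℝ} (hK : 0 < K) (hη : 0 < η) : ∃ δ > 0,
    ∀ (L s : ℝ) (o t l : ℂ → ℂ), 0 < L → 0 < s → s ≤ 1 / 20 → Hol o → Hol t → Hol l →
    (∀ ξ ∈ Tg 1 0, ‖o ξ - t ξ‖ ≤ K * L) → (∀ ξ ∈ Tg 1 0, ‖l ξ - o ξ‖ ≤ K * L) →
    (∀ x : ℝ, |x| ≤ 9 / 10 → ‖(o x - t x) / (I * L) -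
      (l (x + s * ee 1 2) - t (x + s * ee 1 2)) / ((1 + I) * L)‖ ≤ δ) →
    ∀ ξ ∈ ball actr (1 / 50), ‖o ξ - t ξ - I * (l ξ - o ξ)‖ ≤ 2 * L * (η + 32 * K * s) := by
  obtain ⟨δ, hδ, H⟩ := hA.tc0 (3 * K) η (by positivity) hη
  refine ⟨δ, hδ, fun L s o t l hL hs hs1 ho ht hl h1 h2 h3 ξ hξ => ?_⟩
  have r3 : 1 ≤ Real.sqrt 3 := Real.one_le_sqrt.2 (by norm_num)
  have m : ∀ r : ℝ, 0 ≤ r → r ≤ 1 / 20 → ∀ z ∈ D0, z + r * ee 1 2 ∈ Tg 1 0 := fun r r0 r1 z hz => by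
    have := abs_add_le z.re r
    rw [abs_of_nonneg r0] at this
    rw [hA.tgm, ee_eq]
    simp only [Complex.add_im, Complex.add_re, Complex.mul_im, Complex.mul_re, Complex.ofReal_re,
      Complex.ofReal_im, Complex.I_re, Complex.I_im, Complex.one_re, Complex.one_im]
    constructor
    · nlinarith [hz.1]
    · simp only [mul_zero, mul_one, sub_self, add_zero, zero_mul, zero_add, sub_zero]
      nlinarith [hz.1, hz.2]
  have m0 : D0 ⊆ Tg 1 0 := fun z hz => by simpa using m 0 le_rfl (by norm_num) z hz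
  have ms := m s hs.le hs1
  have mi : ∀ z ∈ interior D0, z + s * ee 1 2 ∈ interior (Tg 1 0) := fun z hz => by
    have := interior_mono (t := Homeomorph.addRight (s * ee 1 2) ⁻¹' Tg 1 0) ms hz
    rwa [← Homeomorph.preimage_interior] at this
  have n1 : ‖I * (L : ℂ)‖ = L := by simp [hL.le]
  have n2 : 1 ≤ ‖1 + I‖ := by simpa using Complex.abs_re_le_norm (1 + I)
  have n3 : ‖1 + I‖ ≤ 2 := (norm_add_le _ _).trans (by simp; norm_num)
  have n4 : ‖(1 + I) * (L : ℂ)‖ = ‖1 + I‖ * L := by simp [hL.le]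
  let c : ℂ → ℂ := fun z => (l z - t z) / ((1 + I) * L)
  have bc : ∀ z ∈ Tg 1 0, ‖c z‖ ≤ 2 * K := fun z hz => by
    rw [norm_div, n4, div_le_iff₀ (by positivity)]
    nlinarith [norm_sub_le_norm_sub_add_norm_sub (l z) (o z) (t z), h1 z hz, h2 z hz,
      mul_pos hK hL]
  have a1 := H (fun z => (o z - t z) / (I * L) - c (z + s * ee 1 2))
    ((((ho.1.sub ht.1).mono m0).div_const _).sub
      (((hl.1.sub ht.1).div_const _).comp (f := fun z => z + s * ee 1 2) (by fun_prop) ms))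
    (fun z hz => ((((ho.2 z (interior_mono m0 hz)).sub (ht.2 z (interior_mono m0 hz))).div_const
      _).sub ((((hl.2 _ (mi z hz)).sub (ht.2 _ (mi z hz))).div_const _).comp
        (f := fun z => z + s * ee 1 2) z (by fun_prop))).differentiableWithinAt)
    (fun z hz => by
      have : ‖(o z - t z) / (I * L)‖ ≤ K := by
        rw [norm_div, n1, div_le_iff₀ hL]; exact h1 z (m0 hz)
      linarith [norm_sub_le ((o z - t z) / (I * L)) (c (z + s * ee 1 2)), bc _ (ms z hz)])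
    h3 ξ (ball_subset_ball (by norm_num) hξ)
  have sb : ball ξ (1 / 4) ⊆ ball actr (1 / 2) := ball_subset_ball' (by linarith [mem_ball.1 hξ])
  have ne : ‖s * ee 1 2‖ = 2 * s := by
    rw [norm_mul, Complex.norm_real, Real.norm_of_nonneg hs.le, ee, Complex.ofReal_one, one_mul,
      hB.ac3 _ _ (by norm_num), mul_comm]
  have a2 := Complex.dist_le_div_mul_dist_of_mapsTo_ball (f := c) (z := ξ + s * ee 1 2)
    (fun z hz => by
      have := interior_maximal hA.tgb isOpen_ball (sb hz)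
      exact (((hl.2 z this).sub (ht.2 z this)).div_const _).differentiableWithinAt)
    (maps (by norm_num) fun z hz => bc z (hA.tgb (sb hz)))
    (by rw [mem_ball_iff_norm, add_sub_cancel_left, ne]; linarith)
  rw [dist_eq_norm, dist_eq_norm, add_sub_cancel_left, ne] at a2
  have hL' : (L : ℂ) ≠ 0 := by exact_mod_cast hL.ne'
  have h0 : 1 + I ≠ 0 := norm_pos_iff.1 (by linarith)
  rw [show o ξ - t ξ - I * (l ξ - o ξ) = I * ((1 + I) * L) * (((o ξ - t ξ) / (I * L) -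
    c (ξ + s * ee 1 2)) + (c (ξ + s * ee 1 2) - c ξ)) by
      simp only [c]; field_simp; ring, norm_mul, norm_mul, n4, Complex.norm_I, one_mul]
  gcongr
  exact (norm_add_le _ _).trans (by linarith)

theorem near {c u v : ℂ} {r r' e : ℝ} (h : u ∈ ball c r) (hv : ‖v‖ ≤ e) (hr : r + e ≤ r') :
    u + v ∈ ball c r' := by
  rw [mem_ball_iff_norm] at h ⊢
  rw [add_sub_right_comm]
  linarith [norm_add_le (u - c) v]

variable {W : Set ℂ} {L τ s a K M : ℝ} {O : Set Obj} {F0 : ℂ → ℂ} {bv : ℤ × ℤ → ℤ × ℤ → ℂ}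
  {go gt gl mo mt ml : ℤ × ℤ → ℂ → ℂ}

theorem dlt (hL : 0 < L) (hL1 : L ≤ 1) (hM : 0 < M) (h : BV W L τ M F0 bv) {R : ℤ × ℤ}
    (hR : act W L R) : ‖bv (R.1 + 1, R.2) R - bv R R‖ ≤ 2 * M * L ∧
      ‖bv (R.1, R.2 - 1) R - bv R R‖ ≤ 2 * M * L := by
  obtain ⟨p, hp, h1, h2⟩ := h.b2 R hR
  have e1 : ‖p * L‖ ≤ M * L := by
    rw [norm_mul, Complex.norm_real, Real.norm_of_nonneg hL.le]; gcongr
  have e2 : ‖p * (I * L)‖ ≤ M * L := by rwa [mul_left_comm, norm_mul, Complex.norm_I, one_mul]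
  have e3 : M * L ^ 2 ≤ M * L := by gcongr; nlinarith
  exact ⟨by linarith [norm_le_norm_sub_add (bv (R.1 + 1, R.2) R - bv R R) (p * L)],
    by linarith [norm_le_add_norm_add (bv (R.1, R.2 - 1) R - bv R R) (p * (I * L))]⟩

section
variable (hA : ANA) (hτ : 0 < τ) (hτ1 : τ ≤ 1) (hK : 1 ≤ K) (hL : 0 < L) (hL1 : L ≤ 1) (hM : 0 < M)
  (hML : 2 * M * L ≤ τ / 100) (h : BV W L τ M F0 bv) (Z : Zn W L O τ s a K bv go gt gl mo mt ml)
include hA hτ hτ1 hK hML Z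

theorem mv {R : ℤ × ℤ} (hR : act W L R) {w δ : ℂ} (hw : w ∈ ball (bv R R + τ * actr) (τ / 25))
    (hδ : ‖δ‖ ≤ 2 * M * L) : gt R (w + δ) = go R (w + δ) ∧ gl R (w + δ) = go R (w + δ) ∧
      ‖go R (w + δ) - go R w‖ ≤ 4 * K * M * L ∧
      ‖go R (w + δ) - go R w - mo R w * δ‖ ≤ 4 * K * M ^ 2 * L ^ 2 ∧ ‖mo R w‖ ≤ K := by
  have h1 : w + δ ∈ ball (bv R R + τ * actr) (τ / 20) := near hw hδ (by linarith)
  have h2 := ball_sub hA hτ _ (by linarith) hw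
  have h3 := ball_sub hA hτ _ (by linarith) h1
  have h4 := hA.lip _ _ _ _ (Z.wo R hR) _ h2 _ h3 (by rw [add_sub_cancel_left]; linarith)
  have h5 := (Z.wo R hR).tay _ h2 _ h3
  rw [add_sub_cancel_left] at h4 h5
  refine ⟨Z.ct R hR _ h1, Z.cl R hR _ h1, h4.trans (by nlinarith), h5.trans ?_,
    (Z.wo R hR).bm _ h2⟩
  calc _ ≤ K * (2 * M * L) ^ 2 := by rw [add_zero]; gcongr
    _ = _ := by ring

include hL hL1 hM h

theorem ver' {i j : ℤ} (h0 : act W L (i, j - 1)) (h1 : act W L (i, j)) {w : ℂ}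
    (w0 : w ∈ ball (bv (i, j - 1) (i, j - 1) + τ * actr) (τ / 25))
    (w1 : w ∈ ball (bv (i, j) (i, j) + τ * actr) (τ / 25)) :
    ‖go (i, j) w - go (i, j - 1) w‖ ≤ K * (1 + 4 * M) * L := by
  obtain ⟨e, -, b, -⟩ := mv hA hτ hτ1 hK hML Z h0 w0 (dlt hL hL1 hM h h1).2
  have := Z.lv i j h0 h1 _ (hA.tgb (ball_subset_ball (by norm_num) (xi_ball hτ w1)))
  rw [xi_eq hτ, show bv (i, j - 1) (i, j) + τ * ((w - bv (i, j) (i, j)) / τ) =
    w + (bv (i, j - 1) (i, j) - bv (i, j) (i, j)) by linear_combination xi_eq hτ (bv (i, j) (i, j)) w,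
    e] at this
  linarith [norm_sub_le_norm_sub_add_norm_sub (go (i, j) w)
    (go (i, j - 1) (w + (bv (i, j - 1) (i, j) - bv (i, j) (i, j)))) (go (i, j - 1) w)]

theorem hor' {i j : ℤ} (h0 : act W L (i, j)) (h1 : act W L (i + 1, j)) (hF : Free L O (i + 1) j)
    {w : ℂ} (w0 : w ∈ ball (bv (i, j) (i, j) + τ * actr) (τ / 25))
    (w1 : w ∈ ball (bv (i + 1, j) (i + 1, j) + τ * actr) (τ / 25)) :
    ‖go (i + 1, j) w - go (i, j) w‖ ≤ K * (1 + 4 * M) * L := by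
  obtain ⟨-, e, b, -⟩ := mv hA hτ hτ1 hK hML Z h1 w1 (dlt hL hL1 hM h h0).1
  have := Z.lh i j h0 h1 hF _ (hA.tgb (ball_subset_ball (by norm_num) (xi_ball hτ w0)))
  rw [xi_eq hτ, show bv (i + 1, j) (i, j) + τ * ((w - bv (i, j) (i, j)) / τ) =
    w + (bv (i + 1, j) (i, j) - bv (i, j) (i, j)) by linear_combination xi_eq hτ (bv (i, j) (i, j)) w,
    e] at this
  rw [norm_sub_rev] at b
  linarith [norm_sub_le_norm_sub_add_norm_sub (go (i + 1, j) w)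
    (go (i + 1, j) (w + (bv (i + 1, j) (i, j) - bv (i, j) (i, j)))) (go (i, j) w)]

theorem cr' {i j : ℤ} (h0 : act W L (i, j - 1)) (h1 : act W L (i, j)) (h2 : act W L (i + 1, j))
    (hF : Free L O (i + 1) j) {w : ℂ}
    (w0 : w ∈ ball (bv (i, j - 1) (i, j - 1) + τ * actr) (τ / 50))
    (w1 : w ∈ ball (bv (i, j) (i, j) + τ * actr) (τ / 50))
    (w2 : w ∈ ball (bv (i + 1, j) (i + 1, j) + τ * actr) (τ / 50)) {e : ℝ}
    (he : ‖go (i, j) w - gt (i, j - 1) (w + (bv (i, j - 1) (i, j) - bv (i, j) (i, j))) -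
      I * (gl (i + 1, j) (w + (bv (i + 1, j) (i, j) - bv (i, j) (i, j))) - go (i, j) w)‖ ≤ e) :
    ‖go (i, j) w - go (i, j - 1) w - I * (go (i + 1, j) w - go (i, j) w)‖ ≤
      e + K * M * (200 * (1 + 4 * M) / τ + 2 + 8 * M) * L ^ 2 := by
  have sb : ∀ {c}, w ∈ ball c (τ / 50) → ball w (τ / 50) ⊆ ball c (τ / 25) := fun hc =>
    ball_subset_ball' (by linarith [mem_ball.1 hc])
  have ww : w ∈ ball w (τ / 50) := mem_ball_self (by positivity)
  have der : ∀ {R}, act W L R → w ∈ ball (bv R R + τ * actr) (τ / 50) → ∀ v ∈ ball w (τ / 50),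
      HasDerivAt (go R) (mo R v) v := fun hR hw v hv => hA.der _ _ _ _ (Z.wo _ hR) v
    (interior_maximal (ball_sub hA hτ _ (by linarith)) isOpen_ball (sb hw hv))
  have a1 := Complex.norm_deriv_le_div_of_mapsTo_ball (f := fun v => go (i + 1, j) v - go (i, j - 1) v)
    (fun v hv => ((der h2 w2 v hv).sub (der h0 w0 v hv)).differentiableAt.differentiableWithinAt)
    (maps (B := 2 * (K * (1 + 4 * M) * L)) (by positivity) fun v hv => by
      linarith [ver' hA hτ hτ1 hK hL hL1 hM hML h Z h0 h1 (sb w0 hv) (sb w1 hv),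
        hor' hA hτ hτ1 hK hL hL1 hM hML h Z h1 h2 hF (sb w1 hv) (sb w2 hv),
        norm_sub_le_norm_sub_add_norm_sub (go (i + 1, j) v) (go (i, j) v) (go (i, j - 1) v)])
    (by positivity)
  rw [((der h2 w2 w ww).fun_sub (der h0 w0 w ww)).deriv] at a1
  obtain ⟨e0, -, -, t0, m0⟩ := mv hA hτ hτ1 hK hML Z h0 (sb w0 ww) (dlt hL hL1 hM h h1).2
  obtain ⟨-, e1, -, t1, m1⟩ := mv hA hτ hτ1 hK hML Z h2 (sb w2 ww) (dlt hL hL1 hM h h1).1
  obtain ⟨p, hp, p1, p0⟩ := h.b2 _ h1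
  dsimp only at e0 t0 e1 t1 p0 p1
  rw [e0, e1] at he
  generalize bv (i, j - 1) (i, j) - bv (i, j) (i, j) = δ0 at *
  generalize bv (i + 1, j) (i, j) - bv (i, j) (i, j) = δ1 at *
  have b0 : ‖mo (i, j - 1) w * (δ0 + p * (I * L))‖ ≤ K * (M * L ^ 2) := by
    rw [norm_mul]; gcongr
  have b1 : ‖I * (mo (i + 1, j) w * (δ1 - p * L))‖ ≤ K * (M * L ^ 2) := by
    rw [norm_mul, norm_mul, Complex.norm_I, one_mul]; gcongr
  have b2 : ‖I * (go (i + 1, j) (w + δ1) - go (i + 1, j) w - mo (i + 1, j) w * δ1)‖ ≤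
      4 * K * M ^ 2 * L ^ 2 := by rwa [norm_mul, Complex.norm_I, one_mul]
  have b3 : ‖I * (L * (p * (mo (i + 1, j) w - mo (i, j - 1) w)))‖ ≤
      L * (M * (2 * (2 * (K * (1 + 4 * M) * L)) / (τ / 50))) := by
    rw [norm_mul, norm_mul, norm_mul, Complex.norm_I, one_mul, Complex.norm_real,
      Real.norm_of_nonneg hL.le]
    gcongr
  have := norm_add_le_of_le (norm_add_le_of_le (norm_add_le_of_le (norm_add_le_of_le
    (norm_add_le_of_le he t0) b2) b0) b1) b3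
  convert this using 1
  · congr 1; ring
  · field_simp; ring

end

theorem tri {τ : ℝ} (hτ : 0 < τ) (hτ1 : τ ≤ 1) {w w' : ℂ} (h : ‖w' - w‖ ≤ τ / 3000) :
    Tri τ w 2 (w' + τ * acol 2) (w' + τ * acol 3) (w' + τ * acol 4) :=
  have e : ∀ k, ‖w' + τ * acol k - (w + τ * acol k)‖ ≤ τ / 1000 := fun k => by
    rw [add_sub_add_right_eq_sub]; linarith
  ⟨hτ, hτ1, e 2, e 3, e 4⟩

theorem mid (τ : ℝ) (w : ℂ) : (w + τ * acol 2 + (w + τ * acol 3)) / 2 = w := by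
  simp [acol]; ring

end REL

open REL

theorem rowREL : R_REL := by
  intro hB _ hL2 hL3 hA τ K M hτ hτ1 hK hM
  have hK0 : 0 < K := by linarith
  obtain ⟨βf, hβ, H3⟩ := hL3 τ K hτ hK0
  refine ⟨K * (1 + 4 * M), βf, by nlinarith, hβ, fun d a hd ha => ?_⟩
  obtain ⟨σ0, hσ0, H2⟩ := hL2 τ K (2 * a) (d / 2) hτ hK0 (by positivity) (by positivity)
  obtain ⟨δ, hδ, HC⟩ := core hB hA hK0 (η := d / 6) (by positivity)
  obtain ⟨C, hC⟩ : ∃ C, C = K * M * (200 * (1 + 4 * M) / τ + 2 + 8 * M) := ⟨_, rfl⟩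
  have hC0 : 0 < C := by rw [hC]; positivity
  refine ⟨min (1 / 20) (min (δ / (2 * K)) (d / (192 * K))), min (min 1 (τ / (200 * M)))
    (min (min (δ / (2 * K)) (d / (3 * C))) (min σ0 (d / (8 * K * M)))), by positivity,
    by positivity, fun W L O s F0 bv go gt gl mo mt ml hs hs0 hL hL0 h Z => ?_⟩
  simp only [le_min_iff] at hs0 hL0
  obtain ⟨s1, s2, s3⟩ := hs0
  obtain ⟨⟨l1, l2⟩, ⟨l3, l4⟩, l5, l6⟩ := hL0
  rw [le_div_iff₀ (by positivity)] at s2 s3 l2 l3 l4 l6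
  have hML : 2 * M * L ≤ τ / 100 := by linarith
  have tb : ∀ R, tube F0 τ L R = ball (bv R R + τ * actr) (τ / 50) := fun R => by rw [h.b0]; rfl
  have sb : ∀ {c w : ℂ}, w ∈ ball c (τ / 50) → w ∈ ball c (τ / 25) := fun hw =>
    ball_subset_ball (by linarith) hw
  refine ⟨fun R hR => wh_mono (Z.wo R hR) hK0.le (by nlinarith) le_rfl ?_, fun i j h0 h1 w => ?_,
    fun k j h0 h1 hF w => ?_, fun i j h0 h1 h2 hF w => ?_, fun o ho j hj h0 h1 w => ?_,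
    fun R hR η hη c0 hc => ?_⟩
  · rw [tb]; exact ball_sub hA hτ _ (by linarith)
  · obtain ⟨j, rfl⟩ : ∃ j', j = j' - 1 := ⟨j + 1, by ring⟩
    rw [sub_add_cancel] at h1 ⊢
    rw [tb, tb]
    exact fun w0 w1 => ver' hA hτ hτ1 hK hL l1 hM hML h Z h0 h1 (sb w0) (sb w1)
  · obtain ⟨k, rfl⟩ : ∃ k', k = k' + 1 := ⟨k - 1, by ring⟩
    rw [add_sub_cancel_right] at h0 ⊢
    rw [tb, tb]
    exact fun w0 w1 => hor' hA hτ hτ1 hK hL l1 hM hML h Z h0 h1 hF (sb w0) (sb w1)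
  · rw [tb, tb, tb]
    intro w0 w1 w2
    have q := HC L s _ _ _ hL hs s1 (hol hA hτ (Z.wo _ h1))
      (hol hA hτ (w := bv (i, j - 1) (i, j)) (by simpa using Z.wt _ h0))
      (hol hA hτ (w := bv (i + 1, j) (i, j)) (by simpa using Z.wl _ h2)) (Z.lv i j h0 h1)
      (Z.lh i j h1 h2 hF) (fun x hx => (Z.tn i j h0 h1 h2 hF x hx).trans (by linarith)) _
      (xi_ball hτ w1)
    have e : ∀ u, u + τ * ((w - bv (i, j) (i, j)) / τ) = w + (u - bv (i, j) (i, j)) := fun u => by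
      linear_combination xi_eq hτ (bv (i, j) (i, j)) w
    simp only [e, sub_self, add_zero] at q
    refine (cr' hA hτ hτ1 hK hL l1 hM hML h Z h0 h1 h2 hF w0 w1 w2 q).trans ?_
    rw [← hC]
    nlinarith
  · rw [tb, tb]
    intro w0 w1
    have d1 := (dlt hL l1 hM h h0).1
    simp only [sub_add_cancel] at d1
    obtain ⟨-, e, b, -⟩ := mv hA hτ hτ1 hK hML Z h1 (sb w1) d1
    have t := tri hτ hτ1 (w := bv (o.k - 1, j) (o.k - 1, j)) (w' := bv (o.k - 1, j) (o.k - 1, j))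
      (by simp; positivity)
    have q := H2 L _ 2 _ _ _ _ _ _ _ _ hL l5 t t (wh_mono (Z.wo _ h0) hK0.le le_rfl hL.le subset_rfl)
      (wh_shift (wh_mono (Z.wl _ h1) hK0.le le_rfl hL.le subset_rfl) _
        fun u hu => tg_shift hA hτ (w := bv (o.k - 1, j) (o.k - 1, j)) hu)
      (fun u hu hu' => by
        obtain ⟨x, y, hx, hy, hxy, rfl⟩ := hu
        have e2 : x • (bv (o.k - 1, j) (o.k - 1, j) + τ * acol 2) +
            y • (bv (o.k - 1, j) (o.k - 1, j) + τ * acol 3) =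
            bv (o.k - 1, j) (o.k - 1, j) + τ * (y - x : ℝ) := by
          obtain rfl : y = 1 - x := by linarith
          simp [acol]; ring
        rw [e2] at hu' ⊢
        rw [mid, add_sub_cancel_left, norm_mul, Complex.norm_real, Complex.norm_real,
          Real.norm_of_nonneg hτ.le, mul_comm, mul_le_mul_iff_left₀ hτ] at hu'
        rw [norm_sub_rev, add_right_comm, add_sub_cancel]
        exact Z.st o ho j hj h0 h1 _ hu' (abs_le.2 ⟨by linarith, by linarith⟩))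
      w (ball_subset_ball (by linarith) w0)
    dsimp only at q
    rw [e] at q
    linarith [norm_sub_le_norm_sub_add_norm_sub (go (o.k - 1, j) w) (go (o.k, j)
      (w + (bv (o.k, j) (o.k - 1, j) - bv (o.k - 1, j) (o.k - 1, j)))) (go (o.k, j) w)]
  · have q := H3 η hη (βf η) _ 2 _ _ _ _ _ c0 (hβ η hη) le_rfl (tri hτ hτ1 (h.b1 R hR).1)
      (wh_mono (Z.wl R hR) hK0.le le_rfl (hβ η hη).le subset_rfl) fun u hu => by
        rw [Z.cl R hR u (ball_subset_ball (by linarith) hu)]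
        exact hc u (by rwa [← h.b0])
    rwa [mid] at q

end Pool.Agent.MP_d32a63_an.H13N
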