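import Pool.Agent.MP_d32a63_an.H13N.Pat

/-! The three zone functions of a cluster. -/

open Set Filter Topology Metric Polynomial
open Complex (I)
open Pool.Agent.MP_d32a63_an.H95 (Core Sec jet W0 Flat RealStmt)
open Pool.Agent.MP_d32a63_an.H58 hiding Cells Sq LAV LA1 LA2 LIMA LIMB LIM FIN

namespace Pool.Agent.MP_d32a63_an.H13N

namespace ZN

/-- A full cell whose three vertices have the base offset `o`. -/
def Exa (a b : ℤ) (o : ℤ × ℤ) : Prop :=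
  0 ≤ a ∧ a < 16 ∧ 0 ≤ b ∧ b < 6 ∧ ¬(a = 15 ∧ b = 0) ∧ kd0 a b = 0 ∧
    of0 b (ix0 a b - 1) = o ∧ of0 b (ix0 a b) = o ∧ of0 b (ix0 a b + 1) = o

instance (a b : ℤ) (o : ℤ × ℤ) : Decidable (Exa a b o) := by unfold Exa; infer_instance

section

variable {a b : ℤ} {o : ℤ × ℤ} (h : Exa a b o) (R : ℤ × ℤ)
include h

theorem Exa.clu : clu (cel R a b) = R := clu_cel R h.1 h.2.1 h.2.2.1 h.2.2.2.1 h.2.2.2.2.1

theorem Exa.kd : kd (cel R a b) = 0 :=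
  (kd_cel R h.1 h.2.1 h.2.2.1 h.2.2.2.1).trans h.2.2.2.2.2.1

theorem Exa.ix : ix (cel R a b) = ix0 a b := ix_cel R h.1 h.2.1 h.2.2.1 h.2.2.2.1

theorem Exa.hq (s : ℝ) : hq s (cel R a b) = 1 := by unfold H13N.hq; rw [if_pos (h.kd R)]

theorem Exa.bs {R' : ℤ × ℤ} (e : (R.1 + o.1, R.2 + o.2) = R') :
    bs (cel R a b) (ix0 a b - 1) = R' ∧ bs (cel R a b) (ix0 a b) = R' ∧
      bs (cel R a b) (ix0 a b + 1) = R' := by
  obtain ⟨a0, a1, b0, b1, -, -, h0, h1, h2⟩ := h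
  simp only [bs_of, lb_cel R a b0 b1, rc_cel R a0 a1 b0 b1, h0, h1, h2, e, and_self]

theorem Exa.rg {R' : ℤ × ℤ} (e : (R.1 + o.1, R.2 + o.2) = R') (bv : ℤ × ℤ → ℤ × ℤ → ℂ)
    (τ s : ℝ) : Rg bv τ s (cel R a b) = Tg τ (bv R R') := by
  obtain ⟨h0, h1, h2⟩ := h.bs R e
  rw [← h.ix R] at h0 h1 h2
  rw [rg_exact bv τ s (h.kd R) h0 h1 h2, h.clu R]

theorem Exa.pq {R' : ℤ × ℤ} (e : (R.1 + o.1, R.2 + o.2) = R') (bv : ℤ × ℤ → ℤ × ℤ → ℂ)
    (τ s x y : ℝ) : pq bv τ s (cel R a b) x y = bv R R' + τ * (acol (ix0 a b - 1) +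
      x * (acol (ix0 a b + 1) - acol (ix0 a b - 1)) + y * (acol (ix0 a b) - acol (ix0 a b - 1))) := by
  obtain ⟨h0, h1, h2⟩ := h.bs R e
  unfold H13N.pq v0 v1 v2 vp
  simp only [h.kd R, if_true, h.ix R, h.clu R, h0, h1, h2]
  ring

end

theorem wh_mono {K K' : ℝ} {g μ : ℂ → ℂ} {A : Set ℂ} (h : Wh K 0 g μ A) (hK : K ≤ K') :
    Wh K' 0 g μ A :=
  ⟨fun x hx => (h.bg x hx).trans hK, fun x hx => (h.bm x hx).trans hK,
    fun x hx y hy => (h.lip x hx y hy).trans (mul_le_mul_of_nonneg_right hK (by positivity)),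
    fun x hx y hy => (h.tay x hx y hy).trans (mul_le_mul_of_nonneg_right hK (by positivity))⟩

theorem rl_bd {K L : ℝ} {Δ A B A' B' : ℂ} (h : Rl K 0 Δ A B A' B') (hB : ‖B‖ ≤ K) (hΔ : ‖Δ‖ = L)
    (hL : L ≤ 1) : ‖A' - A‖ ≤ 10 * K * L := by
  have h1 := h.1
  have h2 : ‖A' - A‖ ≤ ‖A' - A - B * Δ‖ + ‖B * Δ‖ := by
    simpa using norm_add_le (A' - A - B * Δ) (B * Δ)
  have h0 : 0 ≤ L := hΔ ▸ norm_nonneg _
  have hK : 0 ≤ K := (norm_nonneg _).trans hB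
  rw [norm_mul, hΔ] at h2
  rw [hΔ] at h1
  nlinarith [mul_le_mul_of_nonneg_right hB h0, mul_nonneg hK h0,
    mul_le_mul_of_nonneg_left hL (mul_nonneg hK h0)]

theorem div_bd {K : ℝ} {Δ A B : ℂ} (h : ‖A - B * Δ‖ ≤ K * (‖Δ‖ ^ 2 + 0)) (h0 : Δ ≠ 0) :
    ‖A / Δ - B‖ ≤ K * ‖Δ‖ := by
  rw [show A / Δ - B = (A - B * Δ) / Δ by field_simp, norm_div,
    div_le_iff₀ (norm_pos_iff.2 h0)]
  linarith

theorem mxl (hA : ANA) {K τ B : ℝ} (hτ : 0 < τ) {g g' μ μ' : ℂ → ℂ} {w w' : ℂ}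
    (h : Wh K 0 g μ (Tg τ w)) (h' : Wh K 0 g' μ' (Tg τ w'))
    (hs : ∀ t : ℝ, 0 ≤ t → t ≤ 1 → ∀ ξ, ξ = acol 2 + t * (acol 0 - acol 2) ∨
      ξ = acol 0 + t * (acol 1 - acol 0) ∨ ξ = acol 1 + t * (acol 2 - acol 1) →
      ‖g (w + τ * ξ) - g' (w' + τ * ξ)‖ ≤ B) :
    ∀ ξ ∈ Tg 1 0, ‖g (w + τ * ξ) - g' (w' + τ * ξ)‖ ≤ B := by
  have c : ∀ {g μ : ℂ → ℂ} {w : ℂ}, Wh K 0 g μ (Tg τ w) →
      ContinuousOn (fun ξ => g (w + τ * ξ)) (Tg 1 0) := fun h =>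
    (hA.cont _ _ _ _ h).comp (by fun_prop) fun ξ hξ => (hA.tgs τ _ ξ hτ).2 hξ
  have d : ∀ {g μ : ℂ → ℂ} {w : ℂ}, Wh K 0 g μ (Tg τ w) →
      DifferentiableOn ℂ (fun ξ => g (w + τ * ξ)) (interior (Tg 1 0)) := fun h ξ hξ =>
    ((hA.der _ _ _ _ h _ (hA.tgi τ _ ξ hτ hξ)).differentiableAt.comp ξ
      (by fun_prop)).differentiableWithinAt
  exact hA.mx _ B ((c h).sub (c h')) ((d h).sub (d h')) fun t h0 h1 =>
    ⟨hs t h0 h1 _ (.inl rfl), hs t h0 h1 _ (.inr (.inl rfl)), hs t h0 h1 _ (.inr (.inr rfl))⟩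

/-- The hypotheses. -/
structure Hy (W : Set ℂ) (L : ℝ) (O : Set Obj) (τ s a K M : ℝ) (F0 : ℂ → ℂ)
    (bv : ℤ × ℤ → ℤ × ℤ → ℂ) (g μ b : ℤ × ℤ → ℂ → ℂ) : Prop where
  hB : BASIC
  hH : HULL
  hA : ANA
  t0 : 0 < τ
  t1 : τ ≤ 1
  s0 : 0 < s
  s1 : s ≤ 1 / 20
  L0 : 0 < L
  L1 : L ≤ 1
  K1 : 1 ≤ K
  bv' : BV W L τ M F0 bv
  ex : Ex W L O τ s a K bv g μ b
  glu : Glu W L τ s bv g

variable {W : Set ℂ} {L : ℝ} {O : Set Obj} {τ s a K M : ℝ} {F0 : ℂ → ℂ}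
  {bv : ℤ × ℤ → ℤ × ℤ → ℂ} {g μ b : ℤ × ℤ → ℂ → ℂ} (H : Hy W L O τ s a K M F0 bv g μ b)
include H

theorem Hy.ball {p q : ℤ} {o : ℤ × ℤ} (h : Exa p q o) {R : ℤ × ℤ} (hR : act W L R) :
    ball (bv R R + τ * actr) (τ / 20) ⊆ Rg bv τ s (cel R p q) := by
  have h1 := H.hH _ _ _ _ _ _
    (tri_full H.t0 H.t1 H.bv' s (Q := cel R p q) ((h.clu R).symm ▸ hR) (h.kd R))
  rwa [← rg_full bv τ s (h.kd R), h.clu R] at h1

theorem Hy.wh {p q : ℤ} {o : ℤ × ℤ} (h : Exa p q o) {R R' : ℤ × ℤ} (hR : act W L R)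
    (e : (R.1 + o.1, R.2 + o.2) = R') :
    Wh K 0 (g (cel R p q)) (μ (cel R p q)) (Tg τ (bv R R')) :=
  h.rg R e bv τ s ▸ H.ex.wh _ ((h.clu R).symm ▸ hR)

/-- Exact cells with the same base carry the same function. -/
theorem Hy.eq {p q p' q' : ℤ} {o : ℤ × ℤ} (h : Exa p q o) (h' : Exa p' q' o) {R : ℤ × ℤ}
    (hR : act W L R) {u : ℂ} (hu : u ∈ Rg bv τ s (cel R p q)) :
    g (cel R p q) u = g (cel R p' q') u := by
  have hb := H.ball h hR
  have w := H.wh h hR rfl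
  have w' := H.wh h' hR rfl
  have t0 := H.t0
  rw [h.rg R rfl] at hb hu
  have hs : segment ℝ (bv R R + τ * actr) (bv R R + τ * actr + (τ / 40 : ℝ)) ⊆
      Metric.ball (bv R R + τ * actr) (τ / 20) := by
    refine (convex_ball _ _).segment_subset (mem_ball_self (by positivity)) ?_
    rw [mem_ball_iff_norm, add_sub_cancel_left, Complex.norm_real, Real.norm_of_nonneg
      (by positivity)]
    linarith
  refine sub_eq_zero.1 (H.hA.uniq _ (fun u => g (cel R p q) u - g (cel R p' q') u) _ _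
    (convex_convexHull ℝ _) ⟨_, interior_maximal hb isOpen_ball (mem_ball_self (by positivity))⟩
    ((H.hA.cont _ _ _ _ w).sub (H.hA.cont _ _ _ _ w'))
    (fun z hz => ((H.hA.der _ _ _ _ w z hz).sub
      (H.hA.der _ _ _ _ w' z hz)).differentiableAt.differentiableWithinAt) ?_ (hs.trans hb)
    (fun z hz => ?_) u hu)
  · rw [ne_eq, left_eq_add, Complex.ofReal_eq_zero]
    positivity
  · rw [H.glu.core R p q hR h.1 h.2.1 h.2.2.1 h.2.2.2.1 h.2.2.2.2.2.1 z (hs hz),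
      H.glu.core R p' q' hR h'.1 h'.2.1 h'.2.2.1 h'.2.2.2.1 h'.2.2.2.2.2.1 z (hs hz), sub_self]

theorem Hy.ver {i j p : ℤ} (h : Exa p 5 (0, 1)) (h' : Exa p 0 (0, 0)) (hv : ∀ R, VS (cel R p 5))
    (e : ix0 p 0 = ix0 p 5) (h1 : act W L (i, j)) (h2 : act W L (i, j + 1)) {t : ℝ} (t0 : 0 ≤ t)
    (t1 : t ≤ 1) {ξ : ℂ}
    (hξ : ξ = acol (ix0 p 5 - 1) + t * (acol (ix0 p 5 + 1) - acol (ix0 p 5 - 1))) :
    ‖g (cel (i, j + 1) 7 0) (bv (i, j + 1) (i, j + 1) + τ * ξ) -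
      g (cel (i, j) 15 5) (bv (i, j) (i, j + 1) + τ * ξ)‖ ≤ 10 * K * L := by
  have r := H.ex.ver (cel (i, j) p 5) t (hv _) ((h.clu _).symm ▸ h1)
    (by rw [un_last, h'.clu]; exact h2) t0 (by rw [h.hq]; exact t1)
    (by rw [un_last, h'.hq]; exact t1)
  have m : pq bv τ s (cel (i, j) p 5) t 0 ∈ Rg bv τ s (cel (i, j) p 5) :=
    ⟨t, 0, t0, by rw [h.hq]; exact t1, le_rfl, by linarith, rfl⟩
  have m' : pq bv τ s (cel (i, j + 1) p 0) t 0 ∈ Rg bv τ s (cel (i, j + 1) p 0) :=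
    ⟨t, 0, t0, by rw [h'.hq]; exact t1, le_rfl, by linarith, rfl⟩
  have r' := rl_bd r (H.ex.bb _ ((h.clu _).symm ▸ h1) _ m) (L := L) (by
    unfold dl
    rw [un_last, h'.clu, h.clu, show ((i, j).1, (i, j).2 + 1) = ((i, j).1 + 0, (i, j).2 + 1) by
      simp, cen_add]
    simp [H.L0.le]) H.L1
  rw [un_last, H.eq h (p' := 15) (q' := 5) (by decide) h1 m,
    H.eq h' (p' := 7) (q' := 0) (by decide) h2 m', h.pq _ (R' := (i, j + 1)) (by simp),
    h'.pq _ (R' := (i, j + 1)) (by simp), e] at r'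
  simpa [hξ] using r'

theorem Hy.hor {i j q : ℤ} (h : Exa 15 q (0, 0)) (h' : Exa 0 q (-1, 0))
    (e : acol (ix0 0 q - 1) = acol (ix0 15 q)) (e' : acol (ix0 0 q) = acol (ix0 15 q + 1))
    (h1 : act W L (i, j)) (h2 : act W L (i + 1, j)) {t : ℝ} (t0 : 0 ≤ t) (t1 : t ≤ 1)
    (hf : HF L O (cel (i, j) 15 q) ∨ (HS O (cel (i, j) 15 q) ∧ |t - 1 / 2| ≤ a)) {ξ : ℂ}
    (hξ : ξ = acol (ix0 15 q) + t * (acol (ix0 15 q + 1) - acol (ix0 15 q))) :
    ‖g (cel (i + 1, j) 3 0) (bv (i + 1, j) (i, j) + τ * ξ) -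
      g (cel (i, j) 7 0) (bv (i, j) (i, j) + τ * ξ)‖ ≤ 10 * K * L := by
  have r := H.ex.hor (cel (i, j) 15 q) t ((h.clu _).symm ▸ h1)
    (by rw [rn_last, h'.clu]; exact h2) t0 t1 (.inl (h.kd _)) hf
  rw [h.hq, min_eq_right t1] at r
  have m : pq bv τ s (cel (i, j) 15 q) t (1 - t) ∈ Rg bv τ s (cel (i, j) 15 q) :=
    ⟨t, 1 - t, t0, by rw [h.hq]; exact t1, by linarith, by linarith, rfl⟩
  have m' : pq bv τ s (cel (i + 1, j) 0 q) 0 t ∈ Rg bv τ s (cel (i + 1, j) 0 q) :=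
    ⟨0, t, le_rfl, by rw [h'.hq]; exact zero_le_one, t0, by linarith, rfl⟩
  have r' := rl_bd r (H.ex.bb _ ((h.clu _).symm ▸ h1) _ m) (L := L) (by
    unfold dl
    rw [rn_last, h'.clu, h.clu, show ((i, j).1 + 1, (i, j).2) = ((i, j).1 + 1, (i, j).2 + 0) by
      simp, cen_add]
    simp [H.L0.le]) H.L1
  rw [rn_last, H.eq h (p' := 7) (q' := 0) (by decide) h1 m,
    H.eq h' (p' := 3) (q' := 0) (by decide) h2 m', h.pq _ (R' := (i, j)) (by simp),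
    h'.pq _ (R' := (i, j)) (by simp), e, e'] at r'
  have e1 : acol (ix0 15 q - 1) + t * (acol (ix0 15 q + 1) - acol (ix0 15 q - 1)) +
      ((1 - t : ℝ) : ℂ) * (acol (ix0 15 q) - acol (ix0 15 q - 1)) = ξ := by
    rw [hξ]; push_cast; ring
  rw [e1] at r'
  simpa [hξ] using r'

theorem Hy.tn {i j : ℤ} (h0 : act W L (i, j)) (h1 : act W L (i, j + 1))
    (h2 : act W L (i + 1, j + 1)) (hf : Free L O (i + 1) (j + 1)) {x : ℝ} (hx : |x| ≤ 9 / 10) :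
    ‖(g (cel (i, j + 1) 7 0) (bv (i, j + 1) (i, j + 1) + τ * x) -
        g (cel (i, j) 15 5) (bv (i, j) (i, j + 1) + τ * x)) / (I * L) -
      (g (cel (i + 1, j + 1) 3 0) (bv (i + 1, j + 1) (i, j + 1) + τ * (x + s * ee 1 2)) -
        g (cel (i, j) 15 5) (bv (i, j) (i, j + 1) + τ * (x + s * ee 1 2))) / ((1 + I) * L)‖ ≤
      10 * K * (L + s) := by
  have s0 := H.s0
  have s1 := H.s1
  have L0 := H.L0
  have K1 := H.K1
  obtain ⟨x0, x1⟩ := abs_le.1 hx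
  obtain ⟨t, rfl⟩ : ∃ t, x = 2 * t - 1 := ⟨(x + 1) / 2, by ring⟩
  have h : Exa 14 0 (0, 0) := by decide
  have cT : clu (cel (i, j + 1) 15 0) = (i, j) := by rw [clu_ten]; simp
  have kT : kd (cel (i, j + 1) 15 0) = 1 := by
    rw [kd_cel _ (by norm_num) (by norm_num) le_rfl (by norm_num)]; rfl
  have qT : hq s (cel (i, j + 1) 15 0) = s := by unfold hq; rw [kT]; rfl
  have cU : clu (cel (i + 1, j + 1) 0 0) = (i + 1, j + 1) :=
    clu_cel _ le_rfl (by norm_num) le_rfl (by norm_num) (by norm_num)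
  have aT : act W L (clu (cel (i, j + 1) 15 0)) := cT.symm ▸ h0
  have pT : ∀ y : ℝ, pq bv τ s (cel (i, j + 1) 15 0) y t =
      bv (i, j) (i, j + 1) + τ * (((2 * t - 1 : ℝ) : ℂ) + y * ee 1 2) := by
    intro y
    unfold pq v0 v1 v2 vp
    simp (disch := norm_num) only [kT, cT, ix_cel, bs_cel]
    simp [ix0, ee, acol]
    ring
  have pU : pq bv τ s (cel (i + 1, j + 1) 0 0) 0 (1 - t) =
      bv (i + 1, j + 1) (i, j + 1) + τ * (((2 * t - 1 : ℝ) : ℂ) + s * ee 1 2) := by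
    unfold pq v0 v1 v2 vp
    simp (disch := norm_num) only [kd_cel, cU, ix_cel, bs_cel]
    simp [kd0, ix0, ee, acol]
    ring
  have pQ : pq bv τ s (cel (i, j + 1) 14 0) t (1 - t) =
      bv (i, j + 1) (i, j + 1) + τ * ((2 * t - 1 : ℝ) : ℂ) := by
    rw [h.pq _ (R' := (i, j + 1)) (by simp)]
    congr 2
    simp [ix0, acol]
    ring
  have m0 : pq bv τ s (cel (i, j + 1) 15 0) 0 t ∈ Rg bv τ s (cel (i, j + 1) 15 0) :=
    ⟨0, t, le_rfl, by rw [qT]; exact s0.le, by linarith, by linarith, rfl⟩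
  have m1 : pq bv τ s (cel (i, j + 1) 15 0) s t ∈ Rg bv τ s (cel (i, j + 1) 15 0) :=
    ⟨s, t, s0.le, qT.ge, by linarith, by linarith, rfl⟩
  have mQ : pq bv τ s (cel (i, j + 1) 14 0) t (1 - t) ∈ Rg bv τ s (cel (i, j + 1) 14 0) :=
    ⟨t, 1 - t, by linarith, by rw [h.hq]; linarith, by linarith, by linarith, rfl⟩
  have eT : rn (cel (i, j + 1) 14 0) = cel (i, j + 1) 15 0 := rn_cel _ _ _
  have eU : rn (cel (i, j + 1) 15 0) = cel (i + 1, j + 1) 0 0 := rn_last _ _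
  have r1 := (H.ex.hor (cel (i, j + 1) 14 0) t ((h.clu _).symm ▸ h1) (eT.symm ▸ aT)
    (by linarith) (by linarith) (.inl (h.kd _))
    (.inl (.inl (by rw [la_cel _ (by norm_num) (by norm_num)]; norm_num)))).2
  have r2 := (H.ex.hor (cel (i, j + 1) 15 0) (1 - t) aT (by rw [eU, cU]; exact h2)
    (by linarith) (by linarith) (.inr (by linarith)) (.inl (.inr ⟨by
      rw [lb_cel _ _ le_rfl (by norm_num)]; norm_num, by
      rw [rc_cel _ (by norm_num) (by norm_num) le_rfl (by norm_num)]; exact hf⟩))).1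
  have d1 : dl L (cel (i, j + 1) 14 0) (cel (i, j + 1) 15 0) = -(I * L) := by
    unfold dl
    rw [cT, h.clu]
    unfold cen
    push_cast
    ring
  have d2 : dl L (cel (i, j + 1) 15 0) (cel (i + 1, j + 1) 0 0) = (1 + I) * L := by
    unfold dl
    rw [cT, cU]
    unfold cen
    push_cast
    ring
  have hL : (L : ℂ) ≠ 0 := Complex.ofReal_ne_zero.2 L0.ne'
  have hI : (1 + I : ℂ) ≠ 0 := fun e => by simpa using congrArg Complex.re e
  rw [h.hq, min_eq_right (by linarith), eT, d1, H.eq h (p' := 7) (q' := 0) (by decide) h1 mQ,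
    H.glu.ten (i, j) h0 _ m0] at r1
  rw [qT, min_eq_left (by linarith), sub_sub_cancel, eU, d2, H.glu.ten (i, j) h0 _ m1,
    H.glu.rec' _ _ h2 (by linarith) (by linarith)] at r2
  have r3 := H.ex.bl _ aT _ m0 _ m1
  have b1 := div_bd r1 (neg_ne_zero.2 (mul_ne_zero Complex.I_ne_zero hL))
  have b2 := div_bd r2 (mul_ne_zero hI hL)
  set B0 := b (cel (i, j + 1) 15 0) (pq bv τ s (cel (i, j + 1) 15 0) 0 t)
  set B1 := b (cel (i, j + 1) 15 0) (pq bv τ s (cel (i, j + 1) 15 0) s t)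
  rw [pT, pQ, div_neg, ← neg_div, neg_sub, Complex.ofReal_zero, zero_mul, add_zero] at b1
  rw [pT, pU] at b2
  have n1 : ‖-(I * (L : ℂ))‖ = L := by simp [L0.le]
  have n2 : ‖(1 + I) * (L : ℂ)‖ ≤ 2 * L := by
    rw [norm_mul, Complex.norm_real, Real.norm_of_nonneg L0.le]
    exact mul_le_mul_of_nonneg_right ((norm_add_le _ _).trans (by norm_num)) L0.le
  have n3 : ‖pq bv τ s (cel (i, j + 1) 15 0) s t - pq bv τ s (cel (i, j + 1) 15 0) 0 t‖ ≤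
      2 * s := by
    have e : pq bv τ s (cel (i, j + 1) 15 0) s t - pq bv τ s (cel (i, j + 1) 15 0) 0 t =
        τ * (s * (acol 4 - acol 2)) := by
      rw [pT, pT]
      simp [ee]
      ring
    rw [e, norm_mul, norm_mul, H.hB.ac3 4 2 (by norm_num), Complex.norm_real, Complex.norm_real,
      Real.norm_of_nonneg H.t0.le, Real.norm_of_nonneg s0.le]
    nlinarith [H.t1]
  rw [n1] at b1
  have k0 : 0 ≤ K := by linarith
  have b2' := b2.trans (mul_le_mul_of_nonneg_left n2 k0)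
  have r3' := r3.trans (mul_le_mul_of_nonneg_left n3 k0)
  have tri : ∀ X Y : ℂ, ‖X - Y‖ ≤ ‖X - B0‖ + ‖Y - B1‖ + ‖B1 - B0‖ := fun X Y => by
    rw [show X - Y = X - B0 - (Y - B1) - (B1 - B0) by ring]
    exact (norm_sub_le _ _).trans (add_le_add (norm_sub_le _ _) le_rfl)
  refine (tri _ _).trans ?_
  nlinarith [mul_nonneg k0 L0.le, mul_nonneg k0 s0.le]

end ZN

theorem rowZN : R_ZN := by
  intro hB hH hA W L O τ s a K M F0 bv g μ b t0 t1 s0 s1 L0 L1 K1 hbv hex hgl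
  have H : ZN.Hy W L O τ s a K M F0 bv g μ b :=
    ⟨hB, hH, hA, t0, t1, s0, s1, L0, L1, K1, hbv, hex, hgl⟩
  have hK : K ≤ 10 * K := by linarith
  have eo : ZN.Exa 7 0 (0, 0) := by decide
  have et : ZN.Exa 15 5 (0, 1) := by decide
  have el : ZN.Exa 3 0 (-1, 0) := by decide
  have wo : ∀ R, act W L R → Wh K 0 (g (cel R 7 0)) (μ (cel R 7 0)) (Tg τ (bv R R)) :=
    fun R hR => H.wh eo hR (by simp)
  have wt : ∀ R, act W L R →
      Wh K 0 (g (cel R 15 5)) (μ (cel R 15 5)) (Tg τ (bv R (R.1, R.2 + 1))) :=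
    fun R hR => H.wh et hR (by simp)
  have wl : ∀ R, act W L R →
      Wh K 0 (g (cel R 3 0)) (μ (cel R 3 0)) (Tg τ (bv R (R.1 - 1, R.2))) :=
    fun R hR => H.wh el hR (by simp [sub_eq_add_neg])
  have vs : ∀ p, p = 7 ∨ p = 9 ∨ p = 11 → ∀ R, VS (cel R p 5) := by
    intro p hp R
    unfold VS
    rw [la_cel R (by omega) (by omega), lb_cel R p (by norm_num) (by norm_num)]
    omega
  refine ⟨⟨fun R hR => ZN.wh_mono (wo R hR) hK, fun R hR => ZN.wh_mono (wt R hR) hK,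
    fun R hR => ZN.wh_mono (wl R hR) hK,
    fun R hR => hgl.core R 15 5 hR (by norm_num) (by norm_num) (by norm_num) (by norm_num) rfl,
    fun R hR => hgl.core R 3 0 hR (by norm_num) (by norm_num) (by norm_num) (by norm_num) rfl,
    fun i j h1 h2 => ?_, fun i j h1 h2 hf => ?_, fun i j h0 h1 h2 hf x hx => ?_,
    fun o ho j hj h1 h2 x hx hx1 => ?_⟩, fun R hR => ⟨?_, ?_⟩⟩
  · obtain ⟨j, rfl⟩ : ∃ j', j = j' + 1 := ⟨j - 1, by ring⟩
    rw [add_sub_cancel_right] at h1 ⊢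
    refine ZN.mxl hA t0 (wo _ h2) (wt _ h1) fun t u0 u1 ξ hξ => ?_
    have u2 : 0 ≤ 1 - t := by linarith
    have u3 : 1 - t ≤ 1 := by linarith
    rcases hξ with rfl | rfl | rfl
    · exact H.ver (p := 7) (by decide) (by decide) (vs _ (by simp)) rfl h1 h2 u2 u3
        (by simp [ix0, acol]; ring)
    · exact H.ver (p := 11) (by decide) (by decide) (vs _ (by simp)) rfl h1 h2 u2 u3
        (by simp [ix0, acol]; ring)
    · exact H.ver (p := 9) (by decide) (by decide) (vs _ (by simp)) rfl h1 h2 u2 u3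
        (by simp [ix0, acol]; ring)
  · have w := wl _ h2
    simp only [add_sub_cancel_right] at w
    have hF : ∀ q, 0 ≤ q → q ≤ 3 → HF L O (cel (i, j) 15 q) := fun q q0 q1 => .inr ⟨by
      rw [lb_cel _ _ q0 (by omega)]; exact q1, by
      rw [rc_cel _ (by norm_num) (by norm_num) q0 (by omega)]; exact hf⟩
    refine ZN.mxl hA t0 w (wo _ h1) fun t u0 u1 ξ hξ => ?_
    rcases hξ with rfl | rfl | rfl
    · exact H.hor (q := 3) (by decide) (by decide) (acol_mod rfl) (acol_mod rfl) h1 h2 u0 u1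
        (.inl (hF _ (by norm_num) (by norm_num))) (by simp [ix0, acol])
    · exact H.hor (q := 1) (by decide) (by decide) (acol_mod rfl) (acol_mod rfl) h1 h2 u0 u1
        (.inl (hF _ (by norm_num) (by norm_num))) (by simp [ix0, acol])
    · exact H.hor (q := 2) (by decide) (by decide) (acol_mod rfl) (acol_mod rfl) h1 h2 u0 u1
        (.inl (hF _ (by norm_num) (by norm_num))) (by simp [ix0, acol])
  · obtain ⟨j, rfl⟩ : ∃ j', j = j' + 1 := ⟨j - 1, by ring⟩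
    rw [add_sub_cancel_right] at h0 ⊢
    exact H.tn h0 h1 h2 hf hx
  · obtain ⟨x0, x1⟩ := abs_le.1 hx1
    have e : o.k - 1 + 1 = o.k := sub_add_cancel _ _
    have := H.hor (i := o.k - 1) (j := j) (q := 3) (by decide) (by decide) (acol_mod rfl)
      (acol_mod rfl) h1 (e.symm ▸ h2) (t := (x + 1) / 2) (by linarith) (by linarith)
      (.inr ⟨⟨la_cel _ (by norm_num) (by norm_num) _, lb_cel _ _ (by norm_num) (by norm_num), o, ho,
        by rw [rc_cel _ (by norm_num) (by norm_num) (by norm_num) (by norm_num)]; exact ⟨e.symm, hj⟩⟩,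
        by rw [show (x + 1) / 2 - 1 / 2 = x / 2 by ring, abs_div, abs_two]; linarith⟩)
      (ξ := x) (by simp [ix0, acol]; ring)
    rwa [e] at this
  · have e3 : ZN.Exa 0 3 (-1, 0) := by decide
    rw [H.eq e3 el hR ⟨0, 1 / 2, le_rfl, by rw [e3.hq]; exact zero_le_one, by norm_num,
      by norm_num, rfl⟩, e3.pq R (R' := (R.1 - 1, R.2)) (by simp [sub_eq_add_neg])]
    congr 1
    simp [ix0, acol]
    norm_num
  · refine Subset.trans ?_ (H.ball eo hR)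
    unfold tube
    rw [hbv.b0]
    exact ball_subset_ball (by linarith)

end Pool.Agent.MP_d32a63_an.H13N
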