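import Pool.Agent.MP_d32a63_an.H13N.G
import Pool.Agent.MP_d32a63_an.H13N.GRID3
import Pool.Agent.MP_d32a63_an.H13N.NODE1
import Pool.Agent.MP_d32a63_an.H13N.LEVEL
import Pool.Agent.MP_d32a63_an.H13N.INNER
import Pool.Agent.MP_d32a63_an.H13N.ANA
import Pool.Agent.MP_d32a63_an.H13N.CLU
import Pool.Agent.MP_d32a63_an.H13N.ZN
import Pool.Agent.MP_d32a63_an.H13N.REL
import Pool.Agent.MP_d32a63_an.H13N.FIN
import Pool.Agent.MP_d32a63_an.H13N.LA
import Pool.Agent.MP_d32a63_an.H13N.MOR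
import Pool.Agent.MP_d32a63_an.H13N.LIMA
import Pool.Agent.MP_d32a63_an.H13N.LIMB
import Pool.Agent.MP_d32a63_an.H95.Rows
import Pool.Agent.MP_d32a63_an.H9.Basic
import Pool.Agent.MP_d32a63_an.H4.Data
import Pool.Agent.MP_d32a63_an.H15.Link
import Pool.Agent.MP_d32a63_an.H16.Limg
import Pool.Agent.MP_d32a63_an.H37.Ul
import Pool.Agent.MP_d32a63_an.H62.Obj
import Pool.Agent.MP_d32a63_an.H85.Top

/-! Assembly for every order `n ≥ 2`, given the preparation row. -/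

open Pool.Agent.MP_d32a63_an.H58

namespace Pool.Agent.MP_d32a63_an.H13N

theorem all_of (r3 : R_PREP3) (n : ℕ) (hn : 2 ≤ n) : Goal n := by
  have hB : BASIC := H9.basic
  obtain ⟨-, hL2, hL3⟩ := H15.link hB H15.tc
  obtain ⟨hU, hP, hCl⟩ := H37.ul
  exact final hB H9.mod (H62.obj hB) (H4.roots hB 1 le_rfl) (H15.hull hB) hL2 hL3 hU hP hCl
    (H37.glue hP) (H16.limg hB hU) H95.rowREAL H95.rowINIT H85.top rowG rowGRID3 r3 rowNODE1
    rowLEVEL rowINNER rowANA rowCLU rowZN rowREL rowFIN rowLA rowMOR rowLIMA rowLIMB n hn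

end Pool.Agent.MP_d32a63_an.H13N
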