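import Pool.Agent.MP_d32a63_an.H58.Spec

/-! Definitions for the counterexample of every order `n ≥ 2`: clusters of cells. -/

open Set Filter Topology Metric Polynomial
open Complex (I)
open Pool.Agent.MP_d32a63_an.H95 (Core Sec jet W0 Flat RealStmt)
open Pool.Agent.MP_d32a63_an.H58 hiding Cells Sq LAV LA1 LA2 LIMA LIMB LIM FIN

namespace Pool.Agent.MP_d32a63_an.H13N

noncomputable section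

/-! ### The general grid: cells at prescribed positions, trapezoid index sets -/

/-- The last node of the column `X` in a cell of height `H`. -/
def tp (N H X : ℕ) : ℕ := min H (N - X)

/-- The part of the vertical wall `i` that belongs to the row `j`. -/
def wallG (xw : ℤ → ℝ) (yx : ℤ → ℤ → ℝ) (i j : ℤ) : Set ℂ :=
  {z | z.re = xw i ∧ (yx i (j - 1) + yx i j) / 2 ≤ z.im ∧ z.im ≤ (yx i j + yx i (j + 1)) / 2}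

/-- The vertical box of the cell `Q`. -/
def boxG (ℓ : ℝ) (xc : ℤ → ℝ) (yc : ℤ → ℤ → ℝ) (Q : ℤ × ℤ) : Set ℂ :=
  {z | |z.re - xc Q.1| ≤ ℓ / 2 ∧ (yc Q.1 (Q.2 - 1) + yc Q.1 Q.2) / 2 ≤ z.im ∧
    z.im ≤ (yc Q.1 Q.2 + yc Q.1 (Q.2 + 1)) / 2}

/-- Lattice neighbours in a cell of height `H`. The node `(X, k)` is `m₂ = X`, `m₁ = k`. -/
def NbG (N H : ℕ) (ν ν' : ℕ × ℕ) : Prop :=
  ν.1 + ν.2 ≤ N ∧ ν.2 ≤ H ∧ ν'.1 + ν'.2 ≤ N ∧ ν'.2 ≤ H ∧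
    (ν' = (ν.1, ν.2 + 1) ∨ ν' = (ν.1 + 1, ν.2) ∨ (ν'.1 + 1 = ν.1 ∧ ν'.2 = ν.2 + 1))

/-- Input of the realisation. The cell `(i, j)` has its strands within `ℓ` of the point
`⟨xc i, yc i j⟩`; its arms cross the wall `re = xw i` near the ordinate `yx i j`. -/
structure GData {n : ℕ} (s : Core n) (κ ℓ l Λ σ : ℝ) (N lo hi : ℕ) (τ : Type) where
  Act : Finset (ℤ × ℤ)
  H : ℤ × ℤ → ℕ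
  T : ℤ × ℤ → ℕ × ℕ → ℂ[X]
  xc : ℤ → ℝ
  xw : ℤ → ℝ
  yc : ℤ → ℤ → ℝ
  yx : ℤ → ℤ → ℝ
  h : ℤ × ℤ → ℝ → ℝ
  reg : ℤ × ℤ → Set ℂ
  /-- the node `(X, tp X)` of `(i, j)` is shared with the node `(N - X, 0)` of `(i + 1, j)` -/
  shR : ℤ × ℤ → ℕ → Prop
  /-- the node `(0, k)` of `(i, j)`, `i + j` even, is shared with `(0, k)` of `(i, j + 1)` -/
  shV : ℤ × ℤ → ℕ → Prop
  Th : Finset τ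
  I : τ → ℤ
  y0 : τ → ℝ
  y1 : τ → ℝ
  P : τ → ℂ[X]
  gap : τ → Prop
  St : τ → Finset ℤ
  c : τ → ℝ
  hx1 : ∀ i, xw i + ℓ / 2 ≤ xc i
  hx2 : ∀ i, xc i + ℓ / 2 ≤ xw (i + 1)
  hy1 : ∀ i j, yc i j + ℓ ≤ yc i (j + 1)
  hy2 : ∀ i j, yx i j + ℓ ≤ yx i (j + 1)
  ratc : ∀ i, ∃ q : ℚ, xc i = q
  ratw : ∀ i, ∃ q : ℚ, xw i = q
  ratl : ∃ q : ℚ, ℓ = q
  hH : ∀ Q, 1 ≤ H Q ∧ H Q ≤ N
  conv : ∀ Q, Convex ℝ (reg Q)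
  box : ∀ Q, boxG ℓ xc yc Q ⊆ reg Q
  wl : ∀ Q, wallG xw yx Q.1 Q.2 ⊆ reg Q
  wr : ∀ Q, wallG xw yx (Q.1 + 1) Q.2 ⊆ reg Q
  act : ∀ Q ∈ Act, Disjoint (reg Q) (closure s.W)
  lab : ∀ Q ∈ Act, ∀ ν : ℕ × ℕ, ν.1 + ν.2 ≤ N → ν.2 ≤ H Q → ∀ j ≤ n, ∀ z ∈ reg Q,
    ‖jet (T Q ν) j z - s.F j z‖ ≤ κ / 2
  hlip : ∀ Q x x', |h Q x - h Q x'| ≤ Λ * |x - x'|
  hmid : ∀ Q x, |h Q x - yc Q.1 Q.2| ≤ ℓ / 3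
  hR : ∀ i j X, shR (i, j) X → (i, j) ∈ Act ∧ (i + 1, j) ∈ Act ∧ 1 ≤ X ∧ X < N ∧
    T (i, j) (X, tp N (H (i, j)) X) = T (i + 1, j) (N - X, 0)
  hV : ∀ i j k, shV (i, j) k → Even (i + j) ∧ (i, j) ∈ Act ∧ (i, j + 1) ∈ Act ∧ 1 ≤ k ∧ k < N ∧
    k ≤ H (i, j) ∧ k ≤ H (i, j + 1) ∧ T (i, j) (0, k) = T (i, j + 1) (0, k)
  thw : ∀ t ∈ Th, ∀ j : ℤ, yx (I t) j = (j + 1 / 2) * l
  len : ∀ t ∈ Th, 2 * l ≤ |y1 t - y0 t|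
  start : ∀ t ∈ Th, (⟨xw (I t), y0 t⟩ : ℂ) ∈ closure s.W ∧
    ∀ j ≤ n, jet (P t) j ⟨xw (I t), y0 t⟩ = s.F j ⟨xw (I t), y0 t⟩
  free : ∀ t ∈ Th,
    Disjoint (openSegment ℝ (⟨xw (I t), y0 t⟩ : ℂ) ⟨xw (I t), y1 t⟩) (closure s.W)
  disj : ∀ t ∈ Th, ∀ t' ∈ Th, t ≠ t' →
    Disjoint (openSegment ℝ (⟨xw (I t), y0 t⟩ : ℂ) ⟨xw (I t), y1 t⟩)
      (segment ℝ (⟨xw (I t'), y0 t'⟩ : ℂ) ⟨xw (I t'), y1 t'⟩)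
  near : ∀ t ∈ Th, ∀ j ≤ n, ∀ z ∈ segment ℝ (⟨xw (I t), y0 t⟩ : ℂ) ⟨xw (I t), y1 t⟩,
    ‖jet (P t) j z - s.F j z‖ ≤ κ / 2
  stop : ∀ t ∈ Th, gap t → (⟨xw (I t), y1 t⟩ : ℂ) ∈ closure s.W ∧
    ∀ j ≤ n, jet (P t) j ⟨xw (I t), y1 t⟩ = s.F j ⟨xw (I t), y1 t⟩
  cross : ∀ t ∈ Th, ∀ j X, shR (I t - 1, j) X →
    (wallG xw yx (I t) j ∩ openSegment ℝ (⟨xw (I t), y0 t⟩ : ℂ) ⟨xw (I t), y1 t⟩).Nonempty →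
    j ∈ St t ∧ lo ≤ X ∧ X ≤ hi
  station : ∀ t ∈ Th, ∀ j ∈ St t, (I t - 1, j) ∈ Act ∧ ∀ z ∈ wallG xw yx (I t) j,
    (∀ X, shR (I t - 1, j) X →
      ‖(T (I t - 1, j) (X, tp N (H (I t - 1, j)) X) - P t).eval z‖ ≤ c t) ∧
    (∀ X X', shR (I t - 1, j) X → shR (I t - 1, j) X' → X ≤ X' →
      ‖(T (I t - 1, j) (X', tp N (H (I t - 1, j)) X') -
        T (I t - 1, j) (X, tp N (H (I t - 1, j)) X)).eval z‖ ≤ σ * ((X' : ℝ) - X))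
  cpos : ∀ t ∈ Th, 0 < c t
  win : ∀ t ∈ Th, (St t).Nonempty → σ * ((hi : ℝ) - lo) ≤ c t

/-- The centre of a cell. -/
def GData.ct {n : ℕ} {s : Core n} {κ ℓ l Λ σ : ℝ} {N lo hi : ℕ} {τ : Type}
    (D : GData s κ ℓ l Λ σ N lo hi τ) (Q : ℤ × ℤ) : ℂ := ⟨D.xc Q.1, D.yc Q.1 Q.2⟩

/-- The point near which the arms of the row `j` cross the wall `i`. -/
def GData.wc {n : ℕ} {s : Core n} {κ ℓ l Λ σ : ℝ} {N lo hi : ℕ} {τ : Type}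
    (D : GData s κ ℓ l Λ σ N lo hi τ) (i j : ℤ) : ℂ := ⟨D.xw i, D.yx i j⟩

/-- Realisation of the general grid data. -/
def GStmt (n : ℕ) (C : ℝ) : Prop :=
  ∀ (s : Core n) (κ ℓ l Λ σ : ℝ) (N lo hi : ℕ) (τ : Type) (D : GData s κ ℓ l Λ σ N lo hi τ),
    0 < κ → 0 < ℓ → ℓ ≤ 1 → 0 < l → 0 ≤ Λ → 0 ≤ σ → 1 ≤ lo → lo ≤ hi → hi < N →
    ∃ (s' : Core n) (γ : Type) (Γ : Finset γ) (a b : γ → ℂ) (R : γ → ℂ[X])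
      (r : ℤ × ℤ → ℕ × ℕ → ℂ),
      s.W ⊆ s'.W ∧ (∀ j ≤ n, ∀ z ∈ closure s.W, s'.F j z = s.F j z) ∧
      (∀ j ≤ n, ∀ z, ‖s'.F j z - s.F j z‖ ≤ κ) ∧
      (∀ g ∈ Γ, a g ≠ b g ∧ a g ∈ closure s'.W ∧ b g ∈ closure s'.W ∧
        Disjoint (openSegment ℝ (a g) (b g)) (closure s'.W) ∧
        (∀ j ≤ n, ∀ z ∈ segment ℝ (a g) (b g), s'.F j z = jet (R g) j z) ∧
        (a g).re = (b g).re ∧ ∃ q : ℚ, (a g).re = q) ∧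
      (∀ g ∈ Γ, ∀ g' ∈ Γ, g ≠ g' →
        Disjoint (openSegment ℝ (a g) (b g)) (segment ℝ (a g') (b g'))) ∧
      (∀ Q ∈ D.Act, ∀ ν : ℕ × ℕ, ν.1 + ν.2 ≤ N → ν.2 ≤ D.H Q →
        r Q ν ∈ closure s'.W ∧ ‖r Q ν - D.ct Q‖ ≤ ℓ) ∧
      (∀ i j X, D.shR (i, j) X → ∀ ρ : ℝ, ℓ ≤ ρ → ‖D.wc (i + 1) j - D.ct (i, j)‖ ≤ ρ →
        ‖D.wc (i + 1) j - D.ct (i + 1, j)‖ ≤ ρ → ∀ G, Sec n s'.W G → ∀ z : ℂ,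
        ‖z - D.ct (i, j)‖ ≤ 2 * ρ → ‖z - D.ct (i + 1, j)‖ ≤ 2 * ρ →
        ‖H95.tay n G (r (i, j) (X, tp N (D.H (i, j)) X)) z -
          H95.tay n G (r (i + 1, j) (N - X, 0)) z‖ ≤ 4 ^ n * (40 + 20 * Λ) * ρ ^ n) ∧
      (∀ i j k, D.shV (i, j) k → ∀ ρ : ℝ, ‖D.ct (i, j + 1) - D.ct (i, j)‖ ≤ ρ →
        ∀ G, Sec n s'.W G → ∀ z : ℂ, ‖z - D.ct (i, j)‖ ≤ 2 * ρ → ‖z - D.ct (i, j + 1)‖ ≤ 2 * ρ →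
        ‖H95.tay n G (r (i, j) (0, k)) z - H95.tay n G (r (i, j + 1) (0, k)) z‖ ≤
          4 ^ n * (40 + 20 * Λ) * ρ ^ n) ∧
      (∀ t ∈ D.Th, D.gap t → ∃ g ∈ Γ, b g = ⟨D.xw (D.I t), D.y1 t⟩ ∧ ‖a g - b g‖ ≤ l ∧
        ∀ G, Sec n s'.W G → ‖G 0 ⟨D.xw (D.I t), D.y0 t⟩ - G 0 (a g)‖ ≤
          |D.y1 t - D.y0 t| + C * ((3 * (D.St t).card + 1) * D.c t) / κ) ∧
      (∀ t ∈ D.Th, ∀ j X, D.shR (D.I t - 1, j) X →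
        wallG D.xw D.yx (D.I t) j ⊆
          openSegment ℝ (⟨D.xw (D.I t), D.y0 t⟩ : ℂ) ⟨D.xw (D.I t), D.y1 t⟩ →
        ∀ ρ : ℝ, ℓ ≤ ρ → ‖D.wc (D.I t) j - D.ct (D.I t, j)‖ ≤ ρ →
        ∀ G, Sec n s'.W G → ‖G 0 ⟨D.xw (D.I t), D.y0 t⟩ - G 0 (r (D.I t, j) (N - X, 0))‖ ≤
          |D.y1 t - D.y0 t| + C * ((3 * (D.St t).card + 1) * D.c t) / κ + (40 + 20 * Λ) * ρ) ∧
      ∀ G, Sec n s'.W G → (∀ g ∈ Γ, ‖G 0 (a g) - G 0 (b g)‖ ≤ 4 * ‖a g - b g‖) →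
        ∀ Q ∈ D.Act, ∀ ν ν', NbG N (D.H Q) ν ν' → ∀ z : ℂ, |z.re - D.xc Q.1| ≤ ℓ / 3 →
          z.im = D.h Q z.re →
          ‖H95.tay n G (r Q ν) z - H95.tay n G (r Q ν') z‖ ≤
            C * ‖(D.T Q ν' - D.T Q ν).eval z‖ / κ + 4 ^ n * (40 + 20 * Λ) * ℓ ^ n

/-! ### The pattern of `16 × 6` cells -/

/-- Local column. -/
def la (Q : ℤ × ℤ) : ℤ := Q.1 % 16

/-- Local row. -/
def lb (Q : ℤ × ℤ) : ℤ := Q.2 % 6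

/-- The index rectangle of a cell. -/
def rc (Q : ℤ × ℤ) : ℤ × ℤ := (Q.1 / 16, Q.2 / 6)

/-- The cell with local coordinates `(a, b)` in the rectangle `R`. -/
def cel (R : ℤ × ℤ) (a b : ℤ) : ℤ × ℤ := (16 * R.1 + a, 6 * R.2 + b)

/-- The cluster of a cell; the tentacle `(15, 0)` belongs to the cluster below. -/
def clu (Q : ℤ × ℤ) : ℤ × ℤ :=
  if la Q = 15 ∧ lb Q = 0 then (Q.1 / 16, Q.2 / 6 - 1) else (Q.1 / 16, Q.2 / 6)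

/-- `0`: full cell, `1`: first thin cell of a pair, `2`: second thin cell of a pair. -/
def kd0 (a b : ℤ) : ℕ :=
  if (b = 0 ∧ (a = 1 ∨ a = 15)) ∨ (b = 1 ∧ (a = 1 ∨ a = 3)) ∨ (b = 2 ∧ (a = 1 ∨ a = 13)) ∨
    (b = 3 ∧ (a = 11 ∨ a = 13)) then 1
  else if (b = 0 ∧ (a = 0 ∨ a = 2)) ∨ (b = 1 ∧ (a = 2 ∨ a = 4)) ∨ (b = 2 ∧ (a = 2 ∨ a = 14)) ∨
    (b = 3 ∧ (a = 12 ∨ a = 14)) then 2
  else 0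

/-- The index of a full cell in its row; for a thin cell, the index of the last full cell. -/
def ix0 (a b : ℤ) : ℤ :=
  if b = 0 then (if a ≤ 2 then 2 else if a ≤ 14 then a else 14)
  else if b = 1 then (if a ≤ 4 then 4 else a)
  else if b = 2 then (if a ≤ 2 then 2 else if a ≤ 12 then a else if a ≤ 14 then 12 else 13)
  else if b = 3 then (if a ≤ 10 then a else if a ≤ 14 then 10 else 11)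
  else a

def kd (Q : ℤ × ℤ) : ℕ := kd0 (la Q) (lb Q)

def ix (Q : ℤ × ℤ) : ℤ := ix0 (la Q) (lb Q)

/-- The cluster whose polynomial is the base of the vertex `k` of the row of `Q`. -/
def bs (Q : ℤ × ℤ) (k : ℤ) : ℤ × ℤ :=
  if lb Q ≤ 3 then (if k ≤ 5 then ((rc Q).1 - 1, (rc Q).2) else rc Q)
  else if lb Q = 4 ∧ 6 ≤ k then rc Q else ((rc Q).1, (rc Q).2 + 1)

/-- Height of a cell in nodes. -/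
def HH (N hh : ℕ) (Q : ℤ × ℤ) : ℕ := if kd Q = 0 then N else hh

/-- Relative height of a cell. -/
def hq (s : ℝ) (Q : ℤ × ℤ) : ℝ := if kd Q = 0 then 1 else s

/-- The right neighbour. -/
def rn (Q : ℤ × ℤ) : ℤ × ℤ := (Q.1 + 1, Q.2)

/-- The upper neighbour. -/
def un (Q : ℤ × ℤ) : ℤ × ℤ := (Q.1, Q.2 + 1)

/-- The centre of a cell. -/
def xq (L ℓ : ℝ) (Q : ℤ × ℤ) : ℂ :=
  cen L (clu Q) + ((((la Q : ℝ) - 8) * ℓ : ℝ) : ℂ) +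
    ((((if la Q = 15 ∧ lb Q = 0 then 6 else (lb Q : ℝ))) * ℓ : ℝ) : ℂ) * I

/-- The displacement between the clusters of two cells. -/
def dl (L : ℝ) (Q Q' : ℤ × ℤ) : ℂ := cen L (clu Q') - cen L (clu Q)

/-- The whole right side of `Q` is shared. -/
def HF (L : ℝ) (O : Set Obj) (Q : ℤ × ℤ) : Prop :=
  la Q ≠ 15 ∨ (lb Q ≤ 3 ∧ Free L O ((rc Q).1 + 1) (rc Q).2)

/-- The right side of `Q` is a station. -/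
def HS (O : Set Obj) (Q : ℤ × ℤ) : Prop :=
  la Q = 15 ∧ lb Q = 3 ∧ ∃ o ∈ O, o.k = (rc Q).1 + 1 ∧ (rc Q).2 ∈ o.St

/-- The upper side of `Q` is shared. -/
def VS (Q : ℤ × ℤ) : Prop :=
  (la Q = 8 ∧ (lb Q = 0 ∨ lb Q = 2)) ∨ (la Q = 7 ∧ (lb Q = 1 ∨ lb Q = 3)) ∨
    (la Q = 4 ∧ lb Q = 4) ∨ (lb Q = 5 ∧ (la Q = 7 ∨ la Q = 9 ∨ la Q = 11 ∨ la Q = 15))

def ee (τ : ℝ) (k : ℤ) : ℂ := (τ : ℂ) * (acol (k + 2) - acol k)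

/-- The polynomial of a cluster. -/
def EP (n : ℕ) (F : ℕ → ℂ → ℂ) (L : ℝ) (R : ℤ × ℤ) : ℂ[X] := tay (n + 1) F (cen L R)

def VP (n : ℕ) (F : ℕ → ℂ → ℂ) (τ L : ℝ) (Q : ℤ × ℤ) (k : ℤ) : ℂ[X] :=
  EP n F L (bs Q k) + C ((τ : ℂ) * acol k)

def E0 (n : ℕ) (F : ℕ → ℂ → ℂ) (τ s L : ℝ) (Q : ℤ × ℤ) : ℂ[X] :=
  if kd Q = 0 then VP n F τ L Q (ix Q - 1) else if kd Q = 1 then VP n F τ L Q (ix Q)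
  else VP n F τ L Q (ix Q + 1) + C ((s : ℂ) * ee τ (ix Q))

def E1 (n : ℕ) (F : ℕ → ℂ → ℂ) (τ s L : ℝ) (Q : ℤ × ℤ) : ℂ[X] :=
  if kd Q = 0 then VP n F τ L Q (ix Q + 1)
  else if kd Q = 1 then VP n F τ L Q (ix Q) + C (ee τ (ix Q))
  else VP n F τ L Q (ix Q + 1) + C (((s : ℂ) - 1) * ee τ (ix Q))

def E2 (n : ℕ) (F : ℕ → ℂ → ℂ) (τ s L : ℝ) (Q : ℤ × ℤ) : ℂ[X] :=
  if kd Q = 0 then VP n F τ L Q (ix Q) else if kd Q = 1 then VP n F τ L Q (ix Q + 1)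
  else VP n F τ L Q (ix Q) + C ((s : ℂ) * ee τ (ix Q))

/-- The value at the centre of the cluster `R` of the polynomial of the cluster `R'`. -/
def bvF (n : ℕ) (F : ℕ → ℂ → ℂ) (L : ℝ) (R R' : ℤ × ℤ) : ℂ := (EP n F L R').eval (cen L R)

def vp (bv : ℤ × ℤ → ℤ × ℤ → ℂ) (τ : ℝ) (Q : ℤ × ℤ) (k : ℤ) : ℂ :=
  bv (clu Q) (bs Q k) + (τ : ℂ) * acol k

def v0 (bv : ℤ × ℤ → ℤ × ℤ → ℂ) (τ s : ℝ) (Q : ℤ × ℤ) : ℂ :=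
  if kd Q = 0 then vp bv τ Q (ix Q - 1) else if kd Q = 1 then vp bv τ Q (ix Q)
  else vp bv τ Q (ix Q + 1) + (s : ℂ) * ee τ (ix Q)

def v1 (bv : ℤ × ℤ → ℤ × ℤ → ℂ) (τ s : ℝ) (Q : ℤ × ℤ) : ℂ :=
  if kd Q = 0 then vp bv τ Q (ix Q + 1) else if kd Q = 1 then vp bv τ Q (ix Q) + ee τ (ix Q)
  else vp bv τ Q (ix Q + 1) + ((s : ℂ) - 1) * ee τ (ix Q)

def v2 (bv : ℤ × ℤ → ℤ × ℤ → ℂ) (τ s : ℝ) (Q : ℤ × ℤ) : ℂ :=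
  if kd Q = 0 then vp bv τ Q (ix Q) else if kd Q = 1 then vp bv τ Q (ix Q + 1)
  else vp bv τ Q (ix Q) + (s : ℂ) * ee τ (ix Q)

/-- The point with coordinates `(x, y)` of the triangle of `Q`. -/
def pq (bv : ℤ × ℤ → ℤ × ℤ → ℂ) (τ s : ℝ) (Q : ℤ × ℤ) (x y : ℝ) : ℂ :=
  v0 bv τ s Q + (x : ℂ) * (v1 bv τ s Q - v0 bv τ s Q) + (y : ℂ) * (v2 bv τ s Q - v0 bv τ s Q)

/-- The region of values of the cell `Q`. -/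
def Rg (bv : ℤ × ℤ → ℤ × ℤ → ℂ) (τ s : ℝ) (Q : ℤ × ℤ) : Set ℂ :=
  {u | ∃ x y : ℝ, 0 ≤ x ∧ x ≤ hq s Q ∧ 0 ≤ y ∧ x + y ≤ 1 ∧ u = pq bv τ s Q x y}

/-- The model triangle with base point `w`. -/
def Tg (τ : ℝ) (w : ℂ) : Set ℂ :=
  hull (w + τ * acol 2) (w + τ * acol 3) (w + τ * acol 4)

/-- Properties of the base values. -/
structure BV (W : Set ℂ) (L τ M : ℝ) (F0 : ℂ → ℂ) (bv : ℤ × ℤ → ℤ × ℤ → ℂ) : Prop where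
  b0 : ∀ R, bv R R = F0 (cen L R)
  b1 : ∀ R, act W L R → ‖bv R (R.1 - 1, R.2) - bv R R‖ ≤ τ / 3000 ∧
    ‖bv R (R.1, R.2 + 1) - bv R R‖ ≤ τ / 3000
  b2 : ∀ R, act W L R → ∃ p : ℂ, ‖p‖ ≤ M ∧
    ‖bv (R.1 + 1, R.2) R - bv R R - p * L‖ ≤ M * L ^ 2 ∧
    ‖bv (R.1, R.2 - 1) R - bv R R + p * (I * L)‖ ≤ M * L ^ 2

/-! ### Nodes -/

/-- Nodes `(m₁, m₂)` of a cell of height `H`. -/
def Nd2 (N H : ℕ) (m : ℤ × ℤ) : Prop := 0 ≤ m.1 ∧ m.1 ≤ H ∧ 0 ≤ m.2 ∧ m.1 + m.2 ≤ N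

def q0 (e1 e2 : ℂ) (m m' : ℤ × ℤ) : ℂ :=
  ((m'.1 - m.1 : ℤ) : ℂ) * e1 + ((m'.2 - m.2 : ℤ) : ℂ) * e2

def col (m : ℤ × ℤ) : ℂ := (((m.1 - m.2) % 3 : ℤ) : ℂ)

def q1 (ε : ℝ) (ω f1 f2 : ℂ) (m m' : ℤ × ℤ) : ℂ :=
  q0 f1 f2 m m' + (ε : ℂ) * (col m' - col m) * ω

/-- Two vectors of size `σ` that span the plane. -/
def ND (σ : ℝ) (e1 e2 : ℂ) : Prop :=
  ∀ x y : ℝ, σ * (|x| + |y|) / 2 ≤ ‖(x : ℂ) * e1 + (y : ℂ) * e2‖ ∧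
    ‖(x : ℂ) * e1 + (y : ℂ) * e2‖ ≤ 3 * σ * (|x| + |y|)

/-- The geometry of the lattice of a cell. -/
structure NG (σ C1 : ℝ) (e1 e2 f1 f2 e1' e2' : ℂ) : Prop where
  nd : ND σ e1 e2
  f1 : ‖f1‖ ≤ σ
  f2 : ‖f2‖ ≤ σ
  e1 : ‖e1' - e1‖ ≤ C1 * σ ^ 2
  e2 : ‖e2' - e2‖ ≤ C1 * σ ^ 2

/-- The discrete fields of a cell. -/
structure NOut (N H : ℕ) (σ K : ℝ) (e1 e2 : ℂ) (A ν β : ℤ × ℤ → ℂ) : Prop where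
  ba : ∀ m, Nd2 N H m → ‖A m‖ ≤ K
  bn : ∀ m, Nd2 N H m → ‖ν m‖ ≤ K
  bb : ∀ m, Nd2 N H m → ‖β m‖ ≤ K
  lip : ∀ m m', Nd2 N H m → Nd2 N H m' → ‖ν m' - ν m‖ ≤ K * (σ * dd m m')
  tay : ∀ m m', Nd2 N H m → Nd2 N H m' →
    ‖A m' - A m - ν m * q0 e1 e2 m m'‖ ≤ K * (σ * dd m m') ^ 2
  blip : ∀ m m', Nd2 N H m → Nd2 N H m' → ‖β m' - β m‖ ≤ K * (σ * dd m m')

/-! ### The grid of the pattern -/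

structure GD3 where
  L : ℝ
  ℓ : ℝ
  N : ℕ
  hh : ℕ
  xw : ℕ
  c : ℝ
  β : ℝ
  ν' : ℝ
  T : ℤ × ℤ → ℤ × ℤ → ℂ[X]
  Z : ℤ × ℤ → Finset ℂ
  ζ : ℤ × ℤ → ℤ × ℤ → ℤ × ℤ → ℂ

def GD3.Mid (D : GD3) (x : ℤ) : Prop := x % 3 = 0 ∧ |2 * x - D.N| ≤ 2 * D.xw

def GD3.cost (D : GD3) (Cc κ : ℝ) (ν : Obj → ℝ) (o : Obj) : ℝ :=
  Cc * o.St.card * (2 * ν o + 2 * D.ν' * D.xw) / κ

/-- The node of `Q` that is shared with the node `(0, x)` of the right neighbour. -/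
def rnd (N hh : ℕ) (Q : ℤ × ℤ) (x : ℤ) : ℤ × ℤ := (min (HH N hh Q : ℤ) x, N - x)

structure GHyp3 (n : ℕ) (W : Set ℂ) (F : ℕ → ℂ → ℂ) (κ : ℝ) (D : GD3) (O : Set Obj)
    (To : Obj → ℂ[X]) (ν : Obj → ℝ) : Prop where
  l0 : 0 < D.ℓ
  lL : 100 * D.ℓ ≤ D.L
  L1 : D.L ≤ 1 / 100
  ratl : ∃ q : ℚ, D.ℓ = q
  ratL : ∃ q : ℚ, D.L = q
  N0 : 0 < D.N
  N6 : 6 ∣ D.N
  h0 : 0 < D.hh
  h1 : D.hh ≤ D.N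
  h3 : 3 ∣ D.hh
  xw : 2 * D.xw + 6 ≤ D.N
  c0 : 0 < D.c
  c1 : D.c ≤ 1 / 10
  b0 : 0 ≤ D.β
  n0 : 0 ≤ D.ν'
  box : ∀ Q, act W D.L (clu Q) → ∀ ζ ∈ D.Z Q, ‖ζ - xq D.L D.ℓ Q‖ ≤ D.ℓ / 3
  sep : ∀ Q, act W D.L (clu Q) → ∀ ζ ∈ D.Z Q, ∀ ζ' ∈ D.Z Q, ζ ≠ ζ' → D.c * D.ℓ ≤ |ζ.re - ζ'.re|
  lk : ∀ Q, act W D.L (clu Q) → ∀ m m', Nb m m' →
    D.ζ Q m m' ∈ D.Z Q ∧ ‖(D.T Q m' - D.T Q m).eval (D.ζ Q m m')‖ ≤ D.β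
  close : ∀ Q, act W D.L (clu Q) → ∀ m, Nd2 D.N (HH D.N D.hh Q) m →
    Close n F κ (D.T Q m) (ball (cen D.L (clu Q)) (2 * D.L))
  shv : ∀ Q (x : ℤ), VS Q → Sh D.N x → D.T Q (x, 0) = D.T (un Q) (x, 0)
  shh : ∀ Q (x : ℤ), (la Q ≠ 15 ∨ lb Q ≤ 3) → Sh D.N x → (kd Q = 0 ∨ (D.hh : ℤ) ≤ x) →
    D.T Q (rnd D.N D.hh Q x) = D.T (rn Q) (0, x)
  geo : ObjGeo W D.L O
  oj : ∀ o ∈ O, ∀ j ≤ n, jet (To o) j o.y = F j o.y ∧ (o.thr → jet (To o) j o.fin = F j o.fin)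
  oc : ∀ o ∈ O, Close n F κ (To o) (segment ℝ o.y o.fin)
  on : ∀ o ∈ O, 0 ≤ ν o
  os : ∀ o ∈ O, ∀ j ∈ o.St, ∀ x, D.Mid x → ∀ z ∈ ball (cen D.L (o.k, j)) D.L,
    z ∈ segment ℝ o.y o.fin → ‖(To o - D.T (cel (o.k, j) 0 3) (0, x)).eval z‖ ≤ ν o ∧
      ∀ x', D.Mid x' → ‖(D.T (cel (o.k, j) 0 3) (0, x') - D.T (cel (o.k, j) 0 3) (0, x)).eval z‖ ≤
        D.ν' * |((x' - x : ℤ) : ℝ)|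

structure GOut3 (n : ℕ) (Cc κ δ : ℝ) (W : Set ℂ) (D : GD3) (O : Set Obj) (ν : Obj → ℝ)
    (W' : Set ℂ) (Γ' : Set Seg) (rt : ℤ × ℤ → ℤ × ℤ → ℂ) : Prop where
  thr : ∀ o ∈ O, o.thr → ∃ g' ∈ Γ', g'.v = o.fin ∧ ‖g'.p - g'.v‖ ≤ D.L ∧
    ∀ G, Sec n W' G → ‖G 0 o.y - G 0 g'.p‖ ≤ o.Λ + D.cost Cc κ ν o + δ
  root : ∀ Q, act W D.L (clu Q) → ∀ m, Nd2 D.N (HH D.N D.hh Q) m →
    rt Q m ∈ closure W' ∧ ‖rt Q m - xq D.L D.ℓ Q‖ ≤ D.ℓ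
  lk : ∀ G, Sec n W' G → GapOK Γ' (G 0) → ∀ Q, act W D.L (clu Q) → ∀ m m',
    Nd2 D.N (HH D.N D.hh Q) m → Nd2 D.N (HH D.N D.hh Q) m' → Nb m m' →
    ‖(tay 2 G (rt Q m') - tay 2 G (rt Q m)).eval (D.ζ Q m m')‖ ≤
      Cc / D.c * D.ℓ ^ 2 + Cc * D.β / κ
  shv : ∀ G, Sec n W' G → ∀ Q (x : ℤ), VS Q → act W D.L (clu Q) → act W D.L (clu (un Q)) →
    Sh D.N x → x ≤ HH D.N D.hh Q → x ≤ HH D.N D.hh (un Q) →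
    ∀ z, (z = xq D.L D.ℓ Q ∨ z = xq D.L D.ℓ (un Q)) →
    ‖(tay 2 G (rt Q (x, 0)) - tay 2 G (rt (un Q) (x, 0))).eval z‖ ≤
      Cc / D.c * (‖dl D.L Q (un Q)‖ + D.ℓ) ^ 2
  shh : ∀ G, Sec n W' G → ∀ Q (x : ℤ), act W D.L (clu Q) → act W D.L (clu (rn Q)) →
    Sh D.N x → (kd Q = 0 ∨ (D.hh : ℤ) ≤ x) → (HF D.L O Q ∨ (HS O Q ∧ D.Mid x)) →
    ∀ z, (z = xq D.L D.ℓ Q ∨ z = xq D.L D.ℓ (rn Q)) →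
    ‖(tay 2 G (rt Q (rnd D.N D.hh Q x)) - tay 2 G (rt (rn Q) (0, x))).eval z‖ ≤
      Cc / D.c * (‖dl D.L Q (rn Q)‖ + D.ℓ) ^ 2
  st : ∀ G, Sec n W' G → ∀ o ∈ O, ∀ j ∈ o.St, ∀ x, D.Mid x →
    ‖G 0 o.y - G 0 (rt (cel (o.k, j) 0 3) (0, x))‖ ≤
      o.Λ + D.cost Cc κ ν o + δ + Cc / D.c * D.L

/-- The data of one fine level. -/
structure Prep3 (n : ℕ) (Cg c : ℝ) (ω : ℂ) (W : Set ℂ) (F : ℕ → ℂ → ℂ) (κ τ ε0 a : ℝ) (m0 : ℕ)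
    (L : ℝ) (O : Set Obj) (To : Obj → ℂ[X]) (ν cost : Obj → ℝ) (D : GD3) (ε : ℝ) : Prop where
  hyp : GHyp3 n W F κ D O To ν
  hL : D.L = L
  cc : D.c = c
  hm : D.hh * m0 = D.N
  beta : D.β ≤ κ * D.ℓ ^ 2
  eps : ε0 ≤ ε
  eps1 : ε ≤ 1
  sig : τ / D.N = ε * (D.ℓ / 8)
  xw : a * D.N + 3 ≤ D.xw
  cst : ∀ o ∈ O, D.cost Cg κ ν o ≤ cost o
  ng : ∀ Q, act W L (clu Q) → ∃ e1 e2 f1 f2 : ℂ,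
    NG (τ / D.N) (1000 / ε0) e1 e2 f1 f2
      ((v1 (bvF n F L) τ (1 / m0) Q - v0 (bvF n F L) τ (1 / m0) Q) / D.N)
      ((v2 (bvF n F L) τ (1 / m0) Q - v0 (bvF n F L) τ (1 / m0) Q) / D.N) ∧
    ∀ m m', Nb m m' → D.ζ Q m m' - xq L D.ℓ Q = -(q0 e1 e2 m m' / q1 ε ω f1 f2 m m')

/-! ### Fields of a fine level and their limits -/

/-- Two values and two slopes that fit the displacement `Δ`. -/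
def Rl (K σ : ℝ) (Δ A B A' B' : ℂ) : Prop :=
  ‖A' - A - B * Δ‖ ≤ K * (‖Δ‖ ^ 2 + σ) ∧ ‖A' - A - B' * Δ‖ ≤ K * (‖Δ‖ ^ 2 + σ)

structure FL (W : Set ℂ) (L : ℝ) (O : Set Obj) (τ s a K : ℝ) (cost : Obj → ℝ)
    (bv : ℤ × ℤ → ℤ × ℤ → ℂ) (e : ℂ) (g0 : ℂ → ℂ) (N hh : ℕ)
    (A ν β : ℤ × ℤ → ℤ × ℤ → ℂ) : Prop where
  N0 : 0 < N
  N6 : 6 ∣ N
  h3 : 3 ∣ hh
  hs : (hh : ℝ) = s * N
  nd : ∀ Q, act W L (clu Q) → NOut N (HH N hh Q) (τ / N) K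
    ((v1 bv τ s Q - v0 bv τ s Q) / N) ((v2 bv τ s Q - v0 bv τ s Q) / N) (A Q) (ν Q) (β Q)
  hor : ∀ Q (x : ℤ), act W L (clu Q) → act W L (clu (rn Q)) → Sh N x →
    (kd Q = 0 ∨ (hh : ℤ) ≤ x) → (HF L O Q ∨ (HS O Q ∧ |2 * (x : ℝ) - N| ≤ 2 * (a * N + 3))) →
    Rl K (τ / N) (dl L Q (rn Q)) (A Q (rnd N hh Q x)) (β Q (rnd N hh Q x)) (A (rn Q) (0, x))
      (β (rn Q) (0, x))
  ver : ∀ Q (x : ℤ), VS Q → act W L (clu Q) → act W L (clu (un Q)) → Sh N x →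
    x ≤ HH N hh Q → x ≤ HH N hh (un Q) →
    Rl K (τ / N) (dl L Q (un Q)) (A Q (x, 0)) (β Q (x, 0)) (A (un Q) (x, 0)) (β (un Q) (x, 0))
  st : ∀ o ∈ O, ∀ j ∈ o.St,
    ‖g0 o.y - A (cel (o.k, j) 0 3) (0, (N : ℤ) / 2)‖ ≤ o.Λ + cost o + K * L
  flat : ∀ R, act W L R → ball (cen L R) (3 * L) ⊆ ball e (1 / 10) → ∀ m m', Nd2 N N m →
    Nd2 N N m' → ‖A (cel R 7 0) m - A (cel R 7 0) m'‖ ≤ K * (τ / N)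

/-- The exact fields in the limit of the fine scale. -/
structure Ex (W : Set ℂ) (L : ℝ) (O : Set Obj) (τ s a K : ℝ) (bv : ℤ × ℤ → ℤ × ℤ → ℂ)
    (g μ b : ℤ × ℤ → ℂ → ℂ) : Prop where
  wh : ∀ Q, act W L (clu Q) → Wh K 0 (g Q) (μ Q) (Rg bv τ s Q)
  bb : ∀ Q, act W L (clu Q) → ∀ u ∈ Rg bv τ s Q, ‖b Q u‖ ≤ K
  bl : ∀ Q, act W L (clu Q) → ∀ u ∈ Rg bv τ s Q, ∀ u' ∈ Rg bv τ s Q,
    ‖b Q u' - b Q u‖ ≤ K * ‖u' - u‖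
  hor : ∀ Q (t : ℝ), act W L (clu Q) → act W L (clu (rn Q)) → 0 ≤ t → t ≤ 1 →
    (kd Q = 0 ∨ s ≤ t) → (HF L O Q ∨ (HS O Q ∧ |t - 1 / 2| ≤ a)) →
    Rl K 0 (dl L Q (rn Q)) (g Q (pq bv τ s Q (min (hq s Q) t) (1 - t)))
      (b Q (pq bv τ s Q (min (hq s Q) t) (1 - t))) (g (rn Q) (pq bv τ s (rn Q) 0 t))
      (b (rn Q) (pq bv τ s (rn Q) 0 t))
  ver : ∀ Q (t : ℝ), VS Q → act W L (clu Q) → act W L (clu (un Q)) → 0 ≤ t → t ≤ hq s Q →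
    t ≤ hq s (un Q) →
    Rl K 0 (dl L Q (un Q)) (g Q (pq bv τ s Q t 0)) (b Q (pq bv τ s Q t 0))
      (g (un Q) (pq bv τ s (un Q) t 0)) (b (un Q) (pq bv τ s (un Q) t 0))

/-- Gluing inside a cluster. -/
structure Glu (W : Set ℂ) (L τ s : ℝ) (bv : ℤ × ℤ → ℤ × ℤ → ℂ) (g : ℤ × ℤ → ℂ → ℂ) : Prop where
  core : ∀ R (a b : ℤ), act W L R → 0 ≤ a → a < 16 → 0 ≤ b → b < 6 → kd0 a b = 0 →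
    ∀ u ∈ ball (bv R R + τ * actr) (τ / 20), g (cel R a b) u = g (cel R 7 0) u
  ten : ∀ R, act W L R → ∀ u ∈ Rg bv τ s (cel (R.1, R.2 + 1) 15 0),
    g (cel (R.1, R.2 + 1) 15 0) u = g (cel R 15 5) u
  rec' : ∀ R (t : ℝ), act W L R → s ≤ t → t ≤ 1 - s →
    g (cel R 0 0) (pq bv τ s (cel R 0 0) 0 t) = g (cel R 3 0) (pq bv τ s (cel R 0 0) 0 t)

/-- The three functions of a cluster: own, top and left zone. -/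
structure Zn (W : Set ℂ) (L : ℝ) (O : Set Obj) (τ s a K : ℝ) (bv : ℤ × ℤ → ℤ × ℤ → ℂ)
    (go gt gl mo mt ml : ℤ × ℤ → ℂ → ℂ) : Prop where
  wo : ∀ R, act W L R → Wh K 0 (go R) (mo R) (Tg τ (bv R R))
  wt : ∀ R, act W L R → Wh K 0 (gt R) (mt R) (Tg τ (bv R (R.1, R.2 + 1)))
  wl : ∀ R, act W L R → Wh K 0 (gl R) (ml R) (Tg τ (bv R (R.1 - 1, R.2)))
  ct : ∀ R, act W L R → ∀ u ∈ ball (bv R R + τ * actr) (τ / 20), gt R u = go R u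
  cl : ∀ R, act W L R → ∀ u ∈ ball (bv R R + τ * actr) (τ / 20), gl R u = go R u
  lv : ∀ i j : ℤ, act W L (i, j - 1) → act W L (i, j) → ∀ ξ ∈ Tg 1 0,
    ‖go (i, j) (bv (i, j) (i, j) + τ * ξ) - gt (i, j - 1) (bv (i, j - 1) (i, j) + τ * ξ)‖ ≤ K * L
  lh : ∀ i j : ℤ, act W L (i, j) → act W L (i + 1, j) → Free L O (i + 1) j → ∀ ξ ∈ Tg 1 0,
    ‖gl (i + 1, j) (bv (i + 1, j) (i, j) + τ * ξ) - go (i, j) (bv (i, j) (i, j) + τ * ξ)‖ ≤ K * L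
  tn : ∀ i j : ℤ, act W L (i, j - 1) → act W L (i, j) → act W L (i + 1, j) → Free L O (i + 1) j →
    ∀ x : ℝ, |x| ≤ 9 / 10 →
    ‖(go (i, j) (bv (i, j) (i, j) + τ * x) - gt (i, j - 1) (bv (i, j - 1) (i, j) + τ * x)) /
        (I * L) -
      (gl (i + 1, j) (bv (i + 1, j) (i, j) + τ * (x + s * ee 1 2)) -
        gt (i, j - 1) (bv (i, j - 1) (i, j) + τ * (x + s * ee 1 2))) / ((1 + I) * L)‖ ≤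
      K * (L + s)
  st : ∀ o ∈ O, ∀ j ∈ o.St, act W L (o.k - 1, j) → act W L (o.k, j) → ∀ x : ℝ, |x| ≤ 2 * a →
    |x| ≤ 1 → ‖gl (o.k, j) (bv (o.k, j) (o.k - 1, j) + τ * x) -
      go (o.k - 1, j) (bv (o.k - 1, j) (o.k - 1, j) + τ * x)‖ ≤ K * L

/-- The relations between the functions of the clusters. -/
structure Rel (W : Set ℂ) (L : ℝ) (O : Set Obj) (F0 : ℂ → ℂ) (τ K d : ℝ) (βL : ℝ → ℝ)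
    (Φ μ : ℤ × ℤ → ℂ → ℂ) (mid : ℤ × ℤ → ℂ) : Prop where
  wh : ∀ R, act W L R → Wh K 0 (Φ R) (μ R) (tube F0 τ L R)
  ver : ∀ i j : ℤ, act W L (i, j) → act W L (i, j + 1) → ∀ w ∈ tube F0 τ L (i, j),
    w ∈ tube F0 τ L (i, j + 1) → ‖Φ (i, j + 1) w - Φ (i, j) w‖ ≤ K * L
  hor : ∀ k j : ℤ, act W L (k - 1, j) → act W L (k, j) → Free L O k j →
    ∀ w ∈ tube F0 τ L (k - 1, j), w ∈ tube F0 τ L (k, j) → ‖Φ (k, j) w - Φ (k - 1, j) w‖ ≤ K * L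
  cr : ∀ i j : ℤ, act W L (i, j - 1) → act W L (i, j) → act W L (i + 1, j) → Free L O (i + 1) j →
    ∀ w ∈ tube F0 τ L (i, j - 1), w ∈ tube F0 τ L (i, j) → w ∈ tube F0 τ L (i + 1, j) →
    ‖Φ (i, j) w - Φ (i, j - 1) w - I * (Φ (i + 1, j) w - Φ (i, j) w)‖ ≤ d * L
  sta : ∀ o ∈ O, ∀ j ∈ o.St, act W L (o.k - 1, j) → act W L (o.k, j) →
    ∀ w ∈ tube F0 τ L (o.k - 1, j), w ∈ tube F0 τ L (o.k, j) →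
    ‖Φ (o.k - 1, j) w - Φ (o.k, j) w‖ ≤ d
  pro : ∀ R, act W L R → ∀ η : ℝ, 0 < η → ∀ c0 : ℂ,
    (∀ w ∈ ball (F0 (cen L R) + τ * actr) (τ / 200), ‖Φ R w - c0‖ ≤ βL η) → ‖mid R - c0‖ ≤ η

/-! ### The interface to the outer limit -/

/-- The argument `c` is not used; it keeps the signature of the older structure. -/
structure Cells (W : Set ℂ) (Γ : Set Seg) (F0 : ℂ → ℂ) (τ K : ℝ) (βf : ℝ → ℝ) (e : ℂ) (d : ℝ)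
    (g0 : ℂ → ℂ) (ℓ : ℝ) (Φ μ c : ℤ × ℤ → ℂ → ℂ) : Prop where
  d0 : 0 < d
  d1 : d ≤ 1 / 10
  l0 : 0 < ℓ
  ld : ℓ ≤ d ^ 2
  wh : ∀ Q, act W ℓ Q → Wh K d (Φ Q) (μ Q) (tube F0 τ ℓ Q)
  ver : ∀ i j : ℤ, act W ℓ (i, j) → act W ℓ (i, j + 1) → ∀ w ∈ tube F0 τ ℓ (i, j),
    w ∈ tube F0 τ ℓ (i, j + 1) → ‖Φ (i, j + 1) w - Φ (i, j) w‖ ≤ K * ℓ
  hor : ∀ k j : ℤ, act W ℓ (k - 1, j) → act W ℓ (k, j) → Fr W Γ d ℓ k j →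
    ∀ w ∈ tube F0 τ ℓ (k - 1, j), w ∈ tube F0 τ ℓ (k, j) → ‖Φ (k, j) w - Φ (k - 1, j) w‖ ≤ K * ℓ
  cr : ∀ i j : ℤ, act W ℓ (i, j - 1) → act W ℓ (i, j) → act W ℓ (i + 1, j) →
    Fr W Γ d ℓ (i + 1) j → ∀ w ∈ tube F0 τ ℓ (i, j - 1), w ∈ tube F0 τ ℓ (i, j) →
    w ∈ tube F0 τ ℓ (i + 1, j) →
    ‖Φ (i, j) w - Φ (i, j - 1) w - I * (Φ (i + 1, j) w - Φ (i, j) w)‖ ≤ d * ℓ
  sta : ∀ g ∈ Γ, ∀ z ∈ segment ℝ g.p g.v, Disjoint (ball z (5 * d)) (closure W) →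
    ∃ k j : ℤ, k % 3 = 0 ∧ (k : ℝ) * ℓ = z.re ∧ |((j : ℝ) + 1 / 2) * ℓ - z.im| ≤ 2 * d ∧
      ∀ w ∈ tube F0 τ ℓ (k - 1, j), w ∈ tube F0 τ ℓ (k, j) → ‖Φ (k - 1, j) w - Φ (k, j) w‖ ≤ d
  pro : ∀ k y s, Prb W Γ d ℓ k y s → ∃ j : ℤ, |((j : ℝ) + 1 / 2) * ℓ - y.im - s * d| ≤ ℓ ∧
    ∀ η : ℝ, 0 < η → d ≤ βf η → ∀ c0 : ℂ,
      (∀ w ∈ ball (F0 (cen ℓ (k, j)) + τ * actr) (τ / 200), ‖Φ (k, j) w - c0‖ ≤ βf η) →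
      ‖g0 y - c0‖ ≤ η
  flat : ∀ Q, act W ℓ Q → ball (cen ℓ Q) (3 * ℓ) ⊆ ball e (1 / 10) →
    ∀ w ∈ tube F0 τ ℓ Q, ∀ w' ∈ tube F0 τ ℓ Q, ‖Φ Q w - Φ Q w'‖ ≤ K * d

/-- A sequence of finite levels with `d → 0`. -/
structure Sq {n : ℕ} (s : Core n) (Γ : Set Seg) (τ K : ℝ) (βf : ℝ → ℝ) (e : ℂ)
    (d ℓ : ℕ → ℝ) (G : ℕ → ℕ → ℂ → ℂ) (Φ μ c : ℕ → ℤ × ℤ → ℂ → ℂ) : Prop where
  gaps : Gaps n s.W s.F Γ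
  t0 : 0 < τ
  K1 : 1 ≤ K
  bf : ∀ η : ℝ, 0 < η → 0 < βf η
  lim : Tendsto d atTop (𝓝 0)
  sec : ∀ J, Sec 1 s.W (G J)
  cells : ∀ J, Cells s.W Γ (s.F 0) τ K βf e (d J) (G J 0) (ℓ J) (Φ J) (μ J) (c J)

end

end Pool.Agent.MP_d32a63_an.H13N
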