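import Pool.Agent.MP_d32a63_an.H13N.Defs

/-! Row statements for the counterexample of every order `n ≥ 2`, and the assembly. -/

open Set Filter Topology Metric Polynomial
open Complex (I)
open Pool.Agent.MP_d32a63_an.H95 (Core Sec jet W0 Flat RealStmt)
open Pool.Agent.MP_d32a63_an.H58 hiding Cells Sq LAV LA1 LA2 LIMA LIMB LIM FIN

namespace Pool.Agent.MP_d32a63_an.H13N

noncomputable section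

/-! ### One fine level -/

def GRID3 (n : ℕ) (Cc : ℝ) : Prop :=
  ∀ (s : Core n) (κ δ : ℝ), 0 < κ → κ ≤ 1 → 0 < δ → ∀ D O To ν, GHyp3 n s.W s.F κ D O To ν →
    ∃ (s' : Core n) (Γ' : Set Seg) (rt : ℤ × ℤ → ℤ × ℤ → ℂ), Ext κ s s' ∧ Gaps n s'.W s'.F Γ' ∧
      GOut3 n Cc κ δ s.W D O ν s'.W Γ' rt

/-- The data of the coarse scale `L`. -/
structure Lay (W : Set ℂ) (Γ : Set Seg) (F0 : ℂ → ℂ) (τ M : ℝ) (βc : ℝ → ℝ) (d L : ℝ)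
    (O : Set Obj) (cost : Obj → ℝ) (bv : ℤ × ℤ → ℤ × ℤ → ℂ) : Prop where
  L0 : 0 < L
  L1 : L ≤ 1 / 100
  ld : L ≤ d ^ 2
  geo : ObjGeo W L O
  good : ObjGood W Γ d L O
  bv : BV W L τ M F0 bv
  prb : ∀ o ∈ O, ¬o.thr → ∀ η : ℝ, 0 < η → d ≤ βc η → cost o ≤ η
  thr : ∀ o ∈ O, o.thr → cost o + L ≤ 2 * o.Λ ∧ 4 * L ≤ o.Λ

def PREP3 (n : ℕ) : Prop :=
  ∀ Cg : ℝ, 0 < Cg → ∃ (c : ℝ) (ω : ℂ), 0 < c ∧ ‖ω‖ = 1 ∧ ∀ (s : Core n) (Γ : Set Seg),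
    Gaps n s.W s.F Γ → ∀ κ : ℝ, 0 < κ → κ ≤ 1 →
    ∃ (τ ε0 M d1 : ℝ) (βc : ℝ → ℝ), 0 < τ ∧ τ ≤ 1 ∧ 0 < ε0 ∧ 0 < M ∧ 0 < d1 ∧
      (∀ η : ℝ, 0 < η → 0 < βc η) ∧ ∀ d ∈ Ioc 0 d1, ∃ a : ℝ, 0 < a ∧ ∀ m0 : ℕ, 20 ≤ m0 →
        ∀ L0 : ℝ, 0 < L0 → ∃ (L : ℝ) (O : Set Obj) (To : Obj → ℂ[X]) (ν cost : Obj → ℝ),
          L ≤ L0 ∧ Lay s.W Γ (s.F 0) τ M βc d L O cost (bvF n s.F L) ∧
          ∀ ℓ0 : ℝ, 0 < ℓ0 → ∃ (D : GD3) (ε : ℝ), D.ℓ ≤ ℓ0 ∧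
            Prep3 n Cg c ω s.W s.F κ τ ε0 a m0 L O To ν cost D ε

def NODE1 : Prop :=
  ∀ ε0 C1 C2 : ℝ, 0 < ε0 → 0 < C1 → 0 < C2 → ∃ K σ0 : ℝ, 1 ≤ K ∧ 0 < σ0 ∧
    ∀ (N H : ℕ) (σ ε : ℝ) (ω e1 e2 f1 f2 e1' e2' : ℂ) (A B : ℤ × ℤ → ℂ), 1 ≤ H → H ≤ N →
      0 < σ → σ ≤ σ0 → ε0 ≤ ε → ε ≤ 1 → ‖ω‖ = 1 → NG σ C1 e1 e2 f1 f2 e1' e2' →
      (∀ m, Nd2 N H m → ‖A m‖ ≤ 2 ∧ ‖B m‖ ≤ 1) →
      (∀ m m', Nd2 N H m → Nd2 N H m' → Nb m m' →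
        ‖A m' - A m - (B m' - B m) * (q0 e1 e2 m m' / q1 ε ω f1 f2 m m')‖ ≤ C2 * σ ^ 2) →
      ∃ ν β : ℤ × ℤ → ℂ, NOut N H σ K e1' e2' A ν β ∧
        ∀ m, Nd2 N H m → (m.1 - m.2) % 3 = 0 → β m = B m

def LEVEL (n : ℕ) : Prop :=
  ∀ (s : Core n) (Γ : Set Seg), Gaps n s.W s.F Γ → ∀ κ : ℝ, 0 < κ →
    ∃ (τ K M d1 : ℝ) (βc : ℝ → ℝ), 0 < τ ∧ τ ≤ 1 ∧ 1 ≤ K ∧ 0 < M ∧ 0 < d1 ∧
      (∀ η : ℝ, 0 < η → 0 < βc η) ∧ ∀ d ∈ Ioc 0 d1, ∃ a : ℝ, 0 < a ∧ ∀ m0 : ℕ, 20 ≤ m0 →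
        ∀ L0 : ℝ, 0 < L0 → ∃ (L : ℝ) (O : Set Obj) (cost : Obj → ℝ) (bv : ℤ × ℤ → ℤ × ℤ → ℂ),
          L ≤ L0 ∧ Lay s.W Γ (s.F 0) τ M βc d L O cost bv ∧
          ∀ σ0 : ℝ, 0 < σ0 → ∃ (N hh : ℕ) (s' : Core n) (Γ' : Set Seg), τ / N ≤ σ0 ∧
            Ext κ s s' ∧ Gaps n s'.W s'.F Γ' ∧ Bridge n Γ s'.W Γ' ∧
            ∀ G, Sec n s'.W G → GapOK Γ' (G 0) → ∀ e, LipD s'.W e (G 0) →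
              ∃ A ν β, FL s.W L O τ (1 / m0) a K cost bv e (G 0) N hh A ν β

/-! ### The inner limit -/

def INNER : Prop :=
  ∀ (W : Set ℂ) (L : ℝ) (O : Set Obj) (τ s a K M : ℝ) (F0 : ℂ → ℂ) (cost : Obj → ℝ)
    (bv : ℤ × ℤ → ℤ × ℤ → ℂ) (e : ℕ → ℂ) (g0 : ℕ → ℂ → ℂ) (N hh : ℕ → ℕ)
    (A ν β : ℕ → ℤ × ℤ → ℤ × ℤ → ℂ), 0 < τ → τ ≤ 1 → 0 < s → s ≤ 1 / 20 → 1 ≤ K →
    BV W L τ M F0 bv → Tendsto (fun k => τ / N k) atTop (𝓝 0) →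
    (∀ k, FL W L O τ s a K cost bv (e k) (g0 k) (N k) (hh k) (A k) (ν k) (β k)) →
    ∃ g μ b : ℤ × ℤ → ℂ → ℂ, Ex W L O τ s a (4 * K) bv g μ b ∧
      (∀ R, act W L R → Tendsto (fun k => A k (cel R 0 3) (0, (N k : ℤ) / 2)) UF
        (𝓝 (g (cel R 0 3) (pq bv τ s (cel R 0 3) 0 (1 / 2))))) ∧
      ∀ R, act W L R → (∀ᶠ k in UF, ball (cen L R) (3 * L) ⊆ ball (e k) (1 / 10)) →
        ∀ u ∈ Rg bv τ s (cel R 7 0), ∀ u' ∈ Rg bv τ s (cel R 7 0),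
          g (cel R 7 0) u = g (cel R 7 0) u'

/-- The triangle of the weighted maximum principle. -/
def D0 : Set ℂ := {z | 0 ≤ z.im ∧ |z.re| + z.im ≤ 9 / 10}

/-- Tools from function theory. -/
structure ANA : Prop where
  cont : ∀ K g μ A, Wh K 0 g μ A → ContinuousOn g A
  der : ∀ K g μ A, Wh K 0 g μ A → ∀ u ∈ interior A, HasDerivAt g (μ u) u
  lip : ∀ K g μ A, Wh K 0 g μ A → ∀ u ∈ A, ∀ v ∈ A, ‖v - u‖ ≤ 1 → ‖g v - g u‖ ≤ 2 * K * ‖v - u‖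
  uniq : ∀ (A : Set ℂ) (f : ℂ → ℂ) (p q : ℂ), Convex ℝ A → (interior A).Nonempty →
    ContinuousOn f A → DifferentiableOn ℂ f (interior A) → p ≠ q → segment ℝ p q ⊆ A →
    (∀ u ∈ segment ℝ p q, f u = 0) → ∀ u ∈ A, f u = 0
  int3 : ∀ (A : Set ℂ) (p q r : ℂ), Convex ℝ A → p ∈ A → q ∈ A → r ∈ A →
    (∀ x y : ℝ, (x : ℂ) * (q - p) + (y : ℂ) * (r - p) = 0 → x = 0 ∧ y = 0) → (interior A).Nonempty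
  tgm : ∀ ξ : ℂ, ξ ∈ Tg 1 0 ↔ 0 ≤ ξ.im ∧ Real.sqrt 3 * |ξ.re| + ξ.im ≤ Real.sqrt 3
  tgs : ∀ (τ : ℝ) (w ξ : ℂ), 0 < τ → (w + τ * ξ ∈ Tg τ w ↔ ξ ∈ Tg 1 0)
  tgi : ∀ (τ : ℝ) (w ξ : ℂ), 0 < τ → ξ ∈ interior (Tg 1 0) → w + τ * ξ ∈ interior (Tg τ w)
  tgb : ball actr (1 / 2) ⊆ Tg 1 0
  mx : ∀ (f : ℂ → ℂ) (B : ℝ), ContinuousOn f (Tg 1 0) → DifferentiableOn ℂ f (interior (Tg 1 0)) →
    (∀ t : ℝ, 0 ≤ t → t ≤ 1 → ‖f (acol 2 + t * (acol 0 - acol 2))‖ ≤ B ∧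
      ‖f (acol 0 + t * (acol 1 - acol 0))‖ ≤ B ∧ ‖f (acol 1 + t * (acol 2 - acol 1))‖ ≤ B) →
    ∀ ξ ∈ Tg 1 0, ‖f ξ‖ ≤ B
  tc0 : ∀ K η : ℝ, 0 < K → 0 < η → ∃ δ : ℝ, 0 < δ ∧ ∀ f : ℂ → ℂ, ContinuousOn f D0 →
    DifferentiableOn ℂ f (interior D0) → (∀ z ∈ D0, ‖f z‖ ≤ K) →
    (∀ x : ℝ, |x| ≤ 9 / 10 → ‖f x‖ ≤ δ) → ∀ z ∈ ball actr (1 / 20), ‖f z‖ ≤ η

def CLU : Prop :=
  ∀ (W : Set ℂ) (L : ℝ) (O : Set Obj) (τ s a K M : ℝ) (F0 : ℂ → ℂ) (bv : ℤ × ℤ → ℤ × ℤ → ℂ)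
    (g μ b : ℤ × ℤ → ℂ → ℂ), 0 < τ → τ ≤ 1 → 0 < s → s ≤ 1 / 20 → BV W L τ M F0 bv →
    Ex W L O τ s a K bv g μ b → Glu W L τ s bv g

def ZN : Prop :=
  ∀ (W : Set ℂ) (L : ℝ) (O : Set Obj) (τ s a K M : ℝ) (F0 : ℂ → ℂ) (bv : ℤ × ℤ → ℤ × ℤ → ℂ)
    (g μ b : ℤ × ℤ → ℂ → ℂ), 0 < τ → τ ≤ 1 → 0 < s → s ≤ 1 / 20 → 0 < L → L ≤ 1 → 1 ≤ K →
    BV W L τ M F0 bv → Ex W L O τ s a K bv g μ b → Glu W L τ s bv g →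
    Zn W L O τ s a (10 * K) bv (fun R => g (cel R 7 0)) (fun R => g (cel R 15 5))
        (fun R => g (cel R 3 0)) (fun R => μ (cel R 7 0)) (fun R => μ (cel R 15 5))
        (fun R => μ (cel R 3 0)) ∧
      ∀ R, act W L R → g (cel R 0 3) (pq bv τ s (cel R 0 3) 0 (1 / 2)) =
        g (cel R 3 0) (bv R (R.1 - 1, R.2)) ∧ tube F0 τ L R ⊆ Rg bv τ s (cel R 7 0)

def REL : Prop :=
  ∀ τ K M : ℝ, 0 < τ → τ ≤ 1 → 1 ≤ K → 0 < M → ∃ (K' : ℝ) (βL : ℝ → ℝ), 1 ≤ K' ∧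
    (∀ η : ℝ, 0 < η → 0 < βL η) ∧ ∀ d a : ℝ, 0 < d → 0 < a → ∃ s0 L0 : ℝ, 0 < s0 ∧ 0 < L0 ∧
      ∀ (W : Set ℂ) (L : ℝ) (O : Set Obj) (s : ℝ) (F0 : ℂ → ℂ) (bv : ℤ × ℤ → ℤ × ℤ → ℂ)
        (go gt gl mo mt ml : ℤ × ℤ → ℂ → ℂ), 0 < s → s ≤ s0 → 0 < L → L ≤ L0 →
        BV W L τ M F0 bv → Zn W L O τ s a K bv go gt gl mo mt ml →
        Rel W L O F0 τ K' d βL go mo fun R => gl R (bv R (R.1 - 1, R.2))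

def FIN (n : ℕ) : Prop :=
  ∀ (s : Core n) (Γ : Set Seg), Gaps n s.W s.F Γ → ∀ κ : ℝ, 0 < κ →
    ∃ (τ K : ℝ) (βf : ℝ → ℝ), 0 < τ ∧ 1 ≤ K ∧ (∀ η : ℝ, 0 < η → 0 < βf η) ∧
      ∀ d0 : ℝ, 0 < d0 → ∃ d : ℝ, d ≤ d0 ∧ ∃ (s' : Core n) (Γ' : Set Seg), Ext κ s s' ∧
        Gaps n s'.W s'.F Γ' ∧ Bridge n Γ s'.W Γ' ∧
        ∀ G, Sec n s'.W G → GapOK Γ' (G 0) → ∀ e, LipD s'.W e (G 0) →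
          ∃ ℓ Φ μ c, Cells s.W Γ (s.F 0) τ K βf e d (G 0) ℓ Φ μ c

/-! ### The outer limit -/

def LAV : Prop :=
  ∀ W Γ F0 τ K βf e d g0 ℓ Φ μ c, Cells W Γ F0 τ K βf e d g0 ℓ Φ μ c → 1 ≤ K →
    ∀ (k j1 j2 : ℤ) (w : ℂ), j1 ≤ j2 →
      (∀ i j : ℤ, k - 1 ≤ i → i ≤ k + 1 → j1 ≤ j → j ≤ j2 →
        act W ℓ (i, j) ∧ w ∈ tube F0 τ ℓ (i, j)) →
      ‖Φ (k, j1) w - Φ (k, j2) w‖ ≤ 6 * K * (((j2 - j1 : ℤ) : ℝ) * ℓ)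

def LA1 : Prop :=
  ∀ n W F Γ τ K βf e d g0 ℓ Φ μ c, Gaps n W F Γ → Cells W Γ (F 0) τ K βf e d g0 ℓ Φ μ c → 1 ≤ K →
    ∀ (z0 w : ℂ) (R : ℝ), 10 * d ≤ R → Disjoint (ball z0 (8 * R)) (closure W) →
      (∀ Q, cen ℓ Q ∈ ball z0 (8 * R) → w ∈ tube (F 0) τ ℓ Q) →
      ((∀ g ∈ Γ, Disjoint (ball z0 (8 * R)) (segment ℝ g.p g.v)) ∨
        ∃ g ∈ Γ, z0 ∈ segment ℝ g.p g.v ∧
          ∀ g' ∈ Γ, g' ≠ g → Disjoint (ball z0 (8 * R)) (segment ℝ g'.p g'.v)) →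
      ∀ z ∈ ball z0 R, ∀ z' ∈ ball z0 R,
        ‖Φ (cl ℓ z) w - Φ (cl ℓ z') w‖ ≤ 100 * K * (‖z - z'‖ + d)

/-- Discrete Morera theorem. -/
def MOR : Prop :=
  ∀ (u : ℂ → ℂ) (f : ℕ → ℤ × ℤ → ℂ) (ℓ d : ℕ → ℝ) (z0 : ℂ) (R : ℝ), (∀ J, 0 < ℓ J) →
    Tendsto ℓ UF (𝓝 0) → Tendsto d UF (𝓝 0) → ContinuousOn u (ball z0 R) →
    TendstoUniformlyOn (fun J z => f J (cl (ℓ J) z)) u UF (ball z0 R) →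
    (∀ᶠ J in UF, ∀ i j : ℤ, cen (ℓ J) (i, j - 1) ∈ ball z0 R → cen (ℓ J) (i, j) ∈ ball z0 R →
      cen (ℓ J) (i + 1, j) ∈ ball z0 R →
      ‖f J (i, j) - f J (i, j - 1) - I * (f J (i + 1, j) - f J (i, j))‖ ≤ d J * ℓ J) →
    DifferentiableOn ℂ u (ball z0 R)

def LIMA : Prop :=
  ∀ (n : ℕ) (s : Core n) Γ τ K βf e d ℓ G Φ μ c, Sq s Γ τ K βf e d ℓ G Φ μ c →
    LimA s.W (s.F 0) τ K e ℓ Φ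

def LIMB : Prop :=
  ∀ (n : ℕ) (s : Core n) Γ τ K βf e d ℓ G Φ μ c (ψ : ℂ → ℂ), Sq s Γ τ K βf e d ℓ G Φ μ c →
    LimA s.W (s.F 0) τ K e ℓ Φ → LimG s.W G →
    (∀ z, z ∉ closure s.W → ∀ w ∈ ball (s.F 0 z + τ * actr) (τ / 50), phi ℓ Φ z w = ψ z) →
    ∀ z ∈ closure s.W, z ∉ s.W → Flat s.W z → (∀ g ∈ Γ, z ≠ g.p ∧ z ≠ g.v) →
      Tendsto ψ (𝓝[(closure s.W)ᶜ] z) (𝓝 (gl G z))

def LIM (n : ℕ) : Prop :=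
  ∀ (s : Core n) (Γ : Set Seg), Gaps n s.W s.F Γ → ∀ (τ K : ℝ) (βf : ℝ → ℝ) (e : ℂ), 0 < τ →
    1 ≤ K → (∀ η : ℝ, 0 < η → 0 < βf η) → ((closure s.W)ᶜ ∩ ball e (1 / 10)).Nonempty →
    ∀ z0 ∈ s.W, ‖z0‖ < 2 → ∀ η : ℝ, 0 < η → ∃ d0 : ℝ, 0 < d0 ∧ ∀ d : ℝ, d ≤ d0 →
      ∀ G ℓ Φ μ c, Sec 1 s.W G → Cells s.W Γ (s.F 0) τ K βf e d (G 0) ℓ Φ μ c →
        ‖G 0 z0 - cau (G 0) z0‖ ≤ η

/-! ### The rows -/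

def R_G : Prop := ∀ (n : ℕ) (C : ℝ), 1 ≤ n → 0 < C → RealStmt n C → GStmt n C
def R_GRID3 : Prop := BASIC → ∀ (n : ℕ) (C : ℝ), 2 ≤ n → 0 < C → GStmt n C → ∃ Cg > 0, GRID3 n Cg
def R_PREP3 : Prop := BASIC → MOD → OBJ → ROOTS 1 → ∀ n, 2 ≤ n → PREP3 n
def R_NODE1 : Prop := NODE1
def R_LEVEL : Prop := BASIC → NODE1 → ∀ (n : ℕ) (Cg : ℝ), 2 ≤ n → 0 < Cg → GRID3 n Cg →
  PREP3 n → LEVEL n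
def R_INNER : Prop := BASIC → INNER
def R_ANA : Prop := BASIC → PAIN → ANA
def R_CLU : Prop := BASIC → HULL → ANA → CLU
def R_ZN : Prop := BASIC → HULL → ANA → ZN
def R_REL : Prop := BASIC → HULL → LINK2 → LINK3 → ANA → REL
def R_FIN : Prop := BASIC → INNER → CLU → ZN → REL → ∀ n, LEVEL n → FIN n
def R_LA : Prop := BASIC → LAV ∧ LA1
def R_MOR : Prop := BASIC → MOR
def R_LIMA : Prop := BASIC → LA1 → UL → PAIN → MOR → LIMA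
def R_LIMB : Prop := BASIC → LAV → LA1 → LIMB

theorem lim_of (hA : LIMA) (hGl : LIMG) (hBl : LIMB) (hC : CLOP) (hGlue : GLUE) (n : ℕ) :
    LIM n := by
  intro s Γ hΓ τ K βf e hτ hK hβ he z0 hz0 h2 η hη
  have : UF.NeBot := (hyperfilter ℕ).neBot'
  by_contra hn
  push Not at hn
  choose d hd G ℓ Φ μ c hS hc hlt using fun J : ℕ => hn (1 / ((J : ℝ) + 1)) (by positivity)
  have q : Sq s Γ τ K βf e d ℓ G Φ μ c := ⟨hΓ, hτ, hK, hβ, squeeze_zero (fun J => (hc J).d0.le) hd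
    tendsto_one_div_add_atTop_nhds_zero_nat, hS, hc⟩
  have a := hA n s Γ τ K βf e d ℓ G Φ μ c q
  have g := hGl s.W G s.isOpen s.base hS
  obtain ⟨c1, c2⟩ := hC (closure s.W)ᶜ (ball e (1 / 10)) (fun z => s.F 0 z + τ * actr) (τ / 50)
    (phi ℓ Φ) isClosed_closure.isOpen_compl s.conn isOpen_ball he
    ((s.cont 0).add continuous_const) (by positivity) a.hw a.hz a.fl
  have := hGlue s.W (s.X ∪ (Seg.p '' Γ ∪ Seg.v '' Γ)) (gl G) _ K s.isOpen s.base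
    (s.fin.union ((hΓ.fin.image _).union (hΓ.fin.image _))) g.dif c2
    (fun z hz h3 => (g.bd z hz h3).trans hK)
    (fun z hz => a.bd z hz _ (mem_ball_self (by positivity)))
    (fun z hz hW hP => by
      have f := s.flat z hz hW fun h => hP (.inl h)
      exact ⟨f, (g.side z hz hW f).1, hBl n s Γ τ K βf e d ℓ G Φ μ c _ q a g c1 z hz hW f
        fun γ hγ => ⟨fun h => hP (.inr (.inl ⟨γ, hγ, h.symm⟩)),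
          fun h => hP (.inr (.inr ⟨γ, hγ, h.symm⟩))⟩⟩) z0 hz0 h2
  have t := (g.pt z0 hz0 h2).norm
  rw [← this, sub_self, norm_zero] at t
  exact hη.not_ge (ge_of_tendsto' t fun J => (hlt J).le)

theorem step_of (hB : BASIC) {n : ℕ} (hn : 1 ≤ n) (hF : FIN n) (hL : LIM n) : STEP n := by
  intro s Γ hΓ κ η hκ hη z0 hz0 hz2
  obtain ⟨τ, K, βf, hτ, hK, hβ, h⟩ := hF s Γ hΓ κ hκ
  obtain ⟨d1, hd1, h1⟩ := hL s Γ hΓ τ K βf (3 / 5) hτ hK hβ s.meetP z0 hz0 hz2 η hη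
  obtain ⟨d2, hd2, h2⟩ := hL s Γ hΓ τ K βf (-3 / 5) hτ hK hβ s.meetM z0 hz0 hz2 η hη
  obtain ⟨d, hd, s', Γ', hE, hΓ', hBr, hG⟩ := h (min d1 d2) (lt_min hd1 hd2)
  refine ⟨s', Γ', hE, hΓ', hBr, fun G hS hO hLip => ?_⟩
  have hS1 : Sec 1 s.W G := hB.mono n 1 s.W s'.W G hS hE.sub hn
  rcases hLip with hl | hl
  · obtain ⟨ℓ, Φ, μ, c, hc⟩ := hG G hS hO _ hl
    exact h1 d (hd.trans (min_le_left _ _)) G ℓ Φ μ c hS1 hc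
  · obtain ⟨ℓ, Φ, μ, c, hc⟩ := hG G hS hO _ hl
    exact h2 d (hd.trans (min_le_right _ _)) G ℓ Φ μ c hS1 hc

theorem final (hB : BASIC) (hM : MOD) (hO : OBJ) (hRt : ROOTS 1) (hH : HULL) (hL2 : LINK2)
    (hL3 : LINK3) (hU : UL) (hP : PAIN) (hCl : CLOP) (hGlue : GLUE) (hGl : LIMG) (h1 : R_REAL)
    (h2 : R_INIT) (hT : R_TOP) (r1 : R_G) (r2 : R_GRID3) (r3 : R_PREP3) (r4 : R_NODE1)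
    (r5 : R_LEVEL) (r6 : R_INNER) (r7 : R_ANA) (r8 : R_CLU) (r9 : R_ZN) (r10 : R_REL)
    (r11 : R_FIN) (r12 : R_LA) (r13 : R_MOR) (r14 : R_LIMA) (r15 : R_LIMB) (n : ℕ) (hn : 2 ≤ n) :
    Goal n := by
  have hn1 : 1 ≤ n := by omega
  obtain ⟨C1, hC1, hR⟩ := h1 n hn1
  obtain ⟨Cg, hCg, hG⟩ := r2 hB n C1 hn hC1 (r1 n C1 hn1 hC1 hR)
  have hA := r7 hB hP
  have hF : FIN n := r11 hB (r6 hB) (r8 hB hH hA) (r9 hB hH hA) (r10 hB hH hL2 hL3 hA) n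
    (r5 hB r4 n Cg hn hCg hG (r3 hB hM hO hRt n hn))
  obtain ⟨hV, hA1⟩ := r12 hB
  exact hT n hn1 (h2 n) (step_of hB hn1 hF
    (lim_of (r14 hB hA1 hU hP (r13 hB)) hGl (r15 hB hV hA1) hCl hGlue n))

end

end Pool.Agent.MP_d32a63_an.H13N
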