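import Pool.Agent.MP_d32a63_an.H13N.GReal
import Pool.Agent.MP_d32a63_an.H13N.Spec
import Pool.Agent.MP_d32a63_an.H23.Main

/-! The estimates along trees, links and threads; proof of `GStmt`. -/

namespace Pool.Agent.MP_d32a63_an.H13N

open Set Polynomial Pool.Agent.MP_d32a63_an.H95 G
open Pool.Agent.MP_d32a63_an.H23 (MM bb BB bb_facts gl Ob pos_nb tay_val norm_le_one unif fin_min
  mid_mem)

namespace GData

variable {n : ℕ} {s : Core n} {κ ℓ l Λ σ : ℝ} {N lo hi : ℕ} {τ : Type}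
  (D : GData s κ ℓ l Λ σ N lo hi τ) (A : ℕ) (θ : ℝ)

/-- The edge inequalities. -/
def EdgeOK (C δ : ℝ) (G : ℕ → ℂ → ℂ) : Prop :=
  ∀ e, D.mem A θ e → e.isE →
    ‖G 0 (D.fr A θ e) - G 0 (D.ps A θ (D.hd A θ e))‖ ≤
        ‖D.fr A θ e - D.ps A θ (D.hd A θ e)‖ +
          C * (‖(D.labH e - D.labF A θ e).eval
            ((D.fr A θ e + D.ps A θ (D.hd A θ e)) / 2)‖ + δ) / κ ∧
      (D.labF A θ e = D.labH e →
        ‖G 0 (D.fr A θ e) - G 0 (D.ps A θ (D.hd A θ e))‖ ≤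
          ‖D.fr A θ e - D.ps A θ (D.hd A θ e)‖ ∧
        ∀ (z : ℂ) (d : ℝ), ‖z - D.fr A θ e‖ ≤ d → ‖z - D.ps A θ (D.hd A θ e)‖ ≤ d →
          ‖tay n G (D.fr A θ e) z - tay n G (D.ps A θ (D.hd A θ e)) z‖ ≤
            ‖D.fr A θ e - D.ps A θ (D.hd A θ e)‖ * d ^ (n - 1))

/-- A vertex of depth one. -/
noncomputable def one (Q : ℤ × ℤ) (ν : ℕ × ℕ) : ℤ × ℤ :=
  Classical.epsilon fun w : ℤ × ℤ => D.CV A Q ν w.1 w.2 1

/-- The marked point of a strand. -/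
noncomputable def rr (Q : ℤ × ℤ) (ν : ℕ × ℕ) : ℂ :=
  D.ps A θ (gl A (BB N) Q (D.one A Q ν).1 (D.one A Q ν).2)

variable {D A θ}

lemma cv_root (o : Ok ℓ l Λ σ N lo hi A θ) {Q : ℤ × ℤ} {ν : ℕ × ℕ} {α β : ℤ}
    (h : D.CV A Q ν α β 0) : gl A (BB N) Q α β = D.root A Q ν := by
  have hA := o.hA
  have := on_zero (by omega) (kok h.2.1) h.2.2
  unfold root; rw [← this]

lemma root_V' {i j : ℤ} {k : ℕ} (h : D.shV (i, j) k) :
    D.root A (i, j) (0, k) = (i * A + (A - 1 - N + k), (j + 1) * BB N) := by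
  have hr := D.hV _ _ _ h
  have k1 : D.kd (i, j) (0, k) = 3 := by
    unfold kd
    rw [if_neg (fun e => by have := D.hR _ _ _ e.2; simp only at this; omega),
      if_neg (fun e => by have := e.1; simp only at this; omega), if_pos ⟨rfl, Or.inl ⟨hr.1, h⟩⟩]
  simp only [root, k1, H23.rt, gl, hr.1]
  simp
  ring

lemma one_spec (o : Ok ℓ l Λ σ N lo hi A θ) {Q : ℤ × ℤ} {ν : ℕ × ℕ} (hQ : Q ∈ D.Act)
    (hν : D.nd Q ν) : D.CV A Q ν (D.one A Q ν).1 (D.one A Q ν).2 1 := by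
  have hA := o.hA
  obtain ⟨α, β, a, -⟩ := on_rt (A := A) (by omega) (kok (D := D) (Q := Q) hν)
  exact Classical.epsilon_spec (p := fun w : ℤ × ℤ => D.CV A Q ν w.1 w.2 1) ⟨(α, β), hQ, hν, a⟩

lemma cv_ct (o : Ok ℓ l Λ σ N lo hi A θ) {Q : ℤ × ℤ} {ν : ℕ × ℕ} {α β d : ℤ}
    (h : D.CV A Q ν α β d) (hd : 0 < d) : ‖D.ps A θ (gl A (BB N) Q α β) - D.ct Q‖ ≤ ℓ := by
  have b := cv_box o h
  exact ps_ct o Q (by omega) (by omega) (by omega) (by omega)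

lemma tri2 {u v c : ℂ} {a b : ℝ} (h1 : ‖u - c‖ ≤ a) (h2 : ‖v - c‖ ≤ b) : ‖u - v‖ ≤ a + b := by
  have := norm_sub_le (u - c) (v - c)
  rw [sub_sub_sub_cancel_right] at this
  linarith

/-- The last edge of a tree. -/
lemma arm_bd (o : Ok ℓ l Λ σ N lo hi A θ) {C δ : ℝ} {G : ℕ → ℂ → ℂ} (hG : D.EdgeOK A θ C δ G)
    {Q : ℤ × ℤ} {ν : ℕ × ℕ} {α β : ℤ} (h : D.CV A Q ν α β 1) {a b : ℝ} (hl : ℓ ≤ a)
    (ha : ‖D.ps A θ (D.root A Q ν) - D.ct Q‖ ≤ a) :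
    ‖G 0 (D.ps A θ (D.root A Q ν)) - G 0 (D.ps A θ (gl A (BB N) Q α β))‖ ≤ a + ℓ ∧
      ∀ z, ‖z - D.ct Q‖ ≤ b →
        ‖tay n G (D.ps A θ (D.root A Q ν)) z - tay n G (D.ps A θ (gl A (BB N) Q α β)) z‖ ≤
          (a + ℓ) * (b + a) ^ (n - 1) := by
  have p := (par_spec o h one_pos).1
  rw [sub_self] at p
  obtain ⟨e1, e2⟩ := (hG (.ce Q ν α β) ⟨_, one_pos, h⟩ trivial).2 rfl
  simp only [fr, hd] at e1 e2
  rw [cv_root o p] at e1 e2
  have c := cv_ct o h one_pos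
  have d := tri2 ha c
  refine ⟨e1.trans d, fun z hz => ?_⟩
  have b0 : 0 ≤ b := (norm_nonneg _).trans hz
  have := o.hℓ
  refine (e2 z (b + a) (tri2 hz ha) ((tri2 hz c).trans (by linarith))).trans ?_
  exact mul_le_mul_of_nonneg_right d (pow_nonneg (by linarith) _)

lemma tree_tay (o : Ok ℓ l Λ σ N lo hi A θ) {C δ : ℝ} {G : ℕ → ℂ → ℂ} (hG : D.EdgeOK A θ C δ G)
    {Q : ℤ × ℤ} {ν : ℕ × ℕ} {z : ℂ} (hz : ‖z - D.ct Q‖ ≤ ℓ) (m : ℕ) :
    ∀ α β, D.CV A Q ν α β (m + 1) →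
      ‖tay n G (D.rr A θ Q ν) z - tay n G (D.ps A θ (gl A (BB N) Q α β)) z‖ ≤
        (4 * ℓ + m * ((2 + Λ) * (ℓ / A))) * (2 * ℓ) ^ (n - 1) := by
  have hl := o.hℓ
  have hA := o.hA
  have pw : 0 ≤ (2 * ℓ) ^ (n - 1) := by positivity
  induction m with
  | zero =>
    intro α β h
    have h1 : D.CV A Q ν α β 1 := by simpa using h
    have h2 := one_spec o h.1 h.2.1
    simp only [Nat.cast_zero, zero_mul, add_zero]
    rcases on_one (by omega) (kok h.2.1) h1.2.2 h2.2.2 with c0 | ⟨e1, e2⟩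
    · have p := (par_spec o h1 one_pos).1
      rw [sub_self] at p
      have k := kok (D := D) h.2.1
      have q := p.2.2
      rw [c0] at k q
      have i := on_zero_in (by omega) k q
      have b := cv_box o p
      have r : ‖D.ps A θ (D.root A Q ν) - D.ct Q‖ ≤ ℓ := by
        rw [← cv_root o p]
        exact ps_ct o Q i.1 i.2.1 i.2.2 (by omega)
      have u1 := (arm_bd o hG h1 le_rfl r).2 z hz
      have u2 := (arm_bd o hG h2 le_rfl r).2 z hz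
      rw [norm_sub_rev] at u2
      rw [← two_mul] at u1 u2
      refine (norm_sub_le_norm_sub_add_norm_sub _ _ _).trans ((add_le_add u2 u1).trans ?_)
      linarith
    · unfold rr
      rw [← e1, ← e2, sub_self, norm_zero]
      positivity
  | succ m ih =>
    intro α β h
    obtain ⟨p, a⟩ := par_spec o h (by omega)
    have e := ((hG (.ce Q ν α β) ⟨_, by omega, h⟩ trivial).2 rfl).2 z (2 * ℓ)
      ((tri2 hz (cv_ct o p (by omega))).trans (by linarith))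
      ((tri2 hz (cv_ct o h (by omega))).trans (by linarith))
    simp only [fr, hd] at e
    have p1 : D.CV A Q ν (D.par A Q ν α β).1 (D.par A Q ν α β).2 (m + 1) := by
      convert p using 1; push_cast; ring
    have i := ih _ _ p1
    have b := cv_box o h
    have b' := cv_box o p1
    have d := ps_short (D := D) o Q a (by omega) (by omega) (by omega) (by omega) (by omega)
      (by omega) (by omega) (by omega)
    rw [norm_sub_rev] at d
    have := mul_le_mul_of_nonneg_right d pw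
    refine (norm_sub_le_norm_sub_add_norm_sub _ _ _).trans ((add_le_add i e).trans ?_)
    push_cast; nlinarith

lemma tree_bd (o : Ok ℓ l Λ σ N lo hi A θ) (hn : 1 ≤ n) {C δ : ℝ} {G : ℕ → ℂ → ℂ}
    (hG : D.EdgeOK A θ C δ G) {Q : ℤ × ℤ} {ν : ℕ × ℕ} {z : ℂ} (hz : ‖z - D.ct Q‖ ≤ ℓ)
    {α β d : ℤ} (h : D.CV A Q ν α β d) (hd : 0 < d) :
    ‖tay n G (D.rr A θ Q ν) z - tay n G (D.ps A θ (gl A (BB N) Q α β)) z‖ ≤
      (8 + 3 * Λ) * (2 ^ n * ℓ ^ n) := by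
  have hl := o.hℓ
  have hA := o.hA
  have b := cv_box o h
  have e := tree_tay o hG hz (d - 1).toNat α β (by convert h using 1; omega)
  refine e.trans ?_
  have m : (((d - 1).toNat : ℕ) : ℝ) ≤ 6 * A := by
    have hM : MM N = 4 * N + 4 := rfl
    have : (d - 1).toNat ≤ 6 * A := by omega
    exact_mod_cast this
  have r := rho_pos o
  have mr := mul_rho o
  have u : (((d - 1).toNat : ℕ) : ℝ) * ((2 + Λ) * (ℓ / A)) ≤ 6 * A * ((2 + Λ) * (ℓ / A)) :=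
    mul_le_mul_of_nonneg_right m (by have := o.hΛ; positivity)
  have v : 6 * (A : ℝ) * ((2 + Λ) * (ℓ / A)) = 6 * (2 + Λ) * ℓ := by
    rw [show 6 * (A : ℝ) * ((2 + Λ) * (ℓ / A)) = 6 * (2 + Λ) * (A * (ℓ / A)) by ring, mr]
  have w : (2 : ℝ) ^ n * ℓ ^ n = 2 * ℓ * (2 * ℓ) ^ (n - 1) := by
    rw [← mul_pow, ← pow_succ']; congr 1; omega
  rw [w, ← mul_assoc (8 + 3 * Λ)]
  exact mul_le_mul_of_nonneg_right (by linarith) (by positivity)

/-- Two strands with the same root. -/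
lemma share_bd (o : Ok ℓ l Λ σ N lo hi A θ) (hn : 1 ≤ n) {C δ : ℝ} {G : ℕ → ℂ → ℂ}
    (hG : D.EdgeOK A θ C δ G) {Q Q' : ℤ × ℤ} {ν ν' : ℕ × ℕ} (hQ : Q ∈ D.Act) (hQ' : Q' ∈ D.Act)
    (hν : D.nd Q ν) (hν' : D.nd Q' ν') (e : D.root A Q ν = D.root A Q' ν') {ρ : ℝ} (hρ : ℓ ≤ ρ)
    (h1 : ‖D.ps A θ (D.root A Q ν) - D.ct Q‖ ≤ 2 * ρ)
    (h2 : ‖D.ps A θ (D.root A Q ν) - D.ct Q'‖ ≤ 2 * ρ) {z : ℂ} (hz : ‖z - D.ct Q‖ ≤ 2 * ρ)
    (hz' : ‖z - D.ct Q'‖ ≤ 2 * ρ) :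
    ‖tay n G (D.rr A θ Q ν) z - tay n G (D.rr A θ Q' ν') z‖ ≤ 4 ^ n * (40 + 20 * Λ) * ρ ^ n := by
  have hl := o.hℓ
  have hΛ := o.hΛ
  have u1 := (arm_bd o hG (one_spec o hQ hν) (by linarith) h1).2 z hz
  rw [e] at h2 u1
  have u2 := (arm_bd o hG (one_spec o hQ' hν') (by linarith) h2).2 z hz'
  rw [norm_sub_rev] at u1
  refine (norm_sub_le_norm_sub_add_norm_sub _ _ _).trans ((add_le_add u1 u2).trans ?_)
  have r0 : 0 < ρ := by linarith
  have w : (4 : ℝ) ^ n * ρ ^ n = 4 * ρ * (2 * ρ + 2 * ρ) ^ (n - 1) := by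
    rw [show 2 * ρ + 2 * ρ = 4 * ρ by ring, ← mul_pow, ← pow_succ']; congr 1; omega
  have p : 0 ≤ (2 * ρ + 2 * ρ) ^ (n - 1) := by positivity
  rw [mul_right_comm, w]
  have q1 : 0 ≤ (ρ - ℓ) * (2 * ρ + 2 * ρ) ^ (n - 1) := mul_nonneg (by linarith) p
  have q2 : 0 ≤ ρ * (2 * ρ + 2 * ρ) ^ (n - 1) := by positivity
  have q3 : 0 ≤ Λ * (ρ * (2 * ρ + 2 * ρ) ^ (n - 1)) := by positivity
  nlinarith

lemma thread_bd (o : Ok ℓ l Λ σ N lo hi A θ) (hκ : 0 < κ) {C δ : ℝ} (hC : 0 < C) (hδ : 0 < δ)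
    {G : ℕ → ℂ → ℂ} (hG : D.EdgeOK A θ C δ G) {t : τ} {K : ℕ}
    (hK : ∀ b, D.TV A θ t b → |b| ≤ K) (m : ℕ) :
    ∀ b, D.TV A θ t b → D.dir t * b + K = m →
      ‖G 0 ⟨D.xw (D.I t), D.y0 t⟩ - G 0 (D.ps A θ (D.I t * A, b))‖ ≤
        |D.Yw A θ t b - D.y0 t| + C * (D.Psd t b + (m + 1) * δ) / κ := by
  induction m using Nat.strong_induction_on with
  | _ m ih =>
  intro b h hm
  have e := (hG (.te t b) h trivial).1
  obtain ⟨j, a1, -, -, a4⟩ := te_row o h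
  have len : ‖D.fr A θ (.te t b) - D.ps A θ (D.hd A θ (.te t b))‖ ≤
      |D.Yw A θ t b - D.lowY A θ t b| := by
    refine (Complex.norm_le_abs_re_add_abs_im _).trans ?_
    simp only [hd, fr, ps_wall o, Complex.sub_re, Complex.sub_im, sub_self, abs_zero, zero_add]
    rw [abs_sub_comm]
  have lw := (low_lt o h).1
  have q0 := a4 _ (a1 (mid_mem _ _))
  by_cases q : D.TV A θ t (b - D.dir t)
  · obtain ⟨c1, c2, c3⟩ := fr_te_in o q
    have k := abs_le.1 (hK _ q)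
    have dd : D.dir t * (b - D.dir t) + K = (m - 1 : ℕ) ∧ 1 ≤ m := by
      rcases dir_cases o h.1 with r | r <;> rw [r.2] at hm k ⊢ <;> omega
    have i := ih (m - 1) (by omega) _ q dd.1
    rw [c2] at e
    have e' : ‖G 0 (D.fr A θ (.te t b)) - G 0 (D.ps A θ (D.hd A θ (.te t b)))‖ ≤
        |D.Yw A θ t b - D.lowY A θ t b| +
          C * (D.Psd t b - D.Psd t (b - D.dir t) + δ) / κ := by
      refine e.trans (add_le_add len ?_)
      refine div_le_div_of_nonneg_right (mul_le_mul_of_nonneg_left ?_ hC.le) hκ.le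
      exact add_le_add q0 le_rfl
    rw [c1] at e'
    rw [← c3] at i
    refine (norm_sub_le_norm_sub_add_norm_sub _ _ _).trans ((add_le_add i e').trans (le_of_eq ?_))
    rw [lw, Nat.cast_sub dd.2]; push_cast; ring
  · obtain ⟨c1, c2, c3⟩ := fr_te_out q
    have f := te_first o h q
    rw [c2] at e
    simp only [labH, f, sub_self, eval_zero, norm_zero, zero_add] at e
    rw [c3] at len
    rw [c1] at e len
    refine e.trans (add_le_add len ?_)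
    refine div_le_div_of_nonneg_right (mul_le_mul_of_nonneg_left ?_ hC.le) hκ.le
    have := (Psd_bd o h.1 b).1
    have : (0 : ℝ) ≤ m * δ := by positivity
    linarith

lemma thread_fin (o : Ok ℓ l Λ σ N lo hi A θ) (hκ : 0 < κ) {C δ : ℝ} (hC : 0 < C) (hδ : 0 < δ)
    {G : ℕ → ℂ → ℂ} (hG : D.EdgeOK A θ C δ G) {t : τ} {K : ℕ}
    (hK : ∀ b, D.TV A θ t b → |b| ≤ K) (hd : (2 * K + 1) * δ ≤ D.c t) {b : ℤ}
    (h : D.TV A θ t b) :
    ‖G 0 ⟨D.xw (D.I t), D.y0 t⟩ - G 0 (D.ps A θ (D.I t * A, b))‖ ≤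
      |D.y1 t - D.y0 t| + C * ((3 * (D.St t).card + 1) * D.c t) / κ := by
  have k := abs_le.1 (hK _ h)
  have dd : D.dir t * b + K = (D.dir t * b + K).toNat ∧ (D.dir t * b + K).toNat ≤ 2 * K := by
    rcases dir_cases o h.1 with r | r <;> rw [r.2] <;> omega
  refine (thread_bd o hκ hC hδ hG hK _ b h dd.1).trans (add_le_add (tv_big h).1 ?_)
  refine div_le_div_of_nonneg_right (mul_le_mul_of_nonneg_left ?_ hC.le) hκ.le
  have u : (((D.dir t * b + K).toNat : ℕ) : ℝ) ≤ 2 * K := by exact_mod_cast dd.2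
  have := (Psd_bd o h.1 b).2
  nlinarith

lemma link_bd (o : Ok ℓ l Λ σ N lo hi A θ) (hn : 1 ≤ n) (hκ : 0 < κ) {C δ η ε : ℝ} (hC : 0 < C)
    {G : ℕ → ℂ → ℂ} (hG : D.EdgeOK A θ C δ G) {Q : ℤ × ℤ} {ν ν' : ℕ × ℕ} {α β : ℤ}
    (h : D.LV A Q α β ν ν') {z : ℂ} (hz : ‖z - D.ct Q‖ ≤ ℓ)
    (hb : ∀ β' d μ, D.CV A Q μ α β' d → 0 < d → ∀ j ≤ n,
      ‖G j (D.ps A θ (gl A (BB N) Q α β'))‖ ≤ 1)
    (hg : ‖G 0 (D.ps A θ (gl A (BB N) Q α β)) - G 0 (D.ps A θ (gl A (BB N) Q α (β + 1)))‖ ≤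
      4 * ‖D.ps A θ (gl A (BB N) Q α β) - D.ps A θ (gl A (BB N) Q α (β + 1))‖)
    (hp : ∀ β', 1 ≤ β' → β' + 1 ≤ BB N → ‖z - D.ps A θ (gl A (BB N) Q α β')‖ ≤ η) (hη : η ≤ 1)
    (hq : ∀ w ∈ D.reg Q, ‖z - w‖ ≤ η →
      ‖(D.T Q ν' - D.T Q ν).eval z - (D.T Q ν' - D.T Q ν).eval w‖ ≤ ε)
    (h1 : (2 * n + 10) * η ≤ ℓ ^ n) (h2 : C * (ε + δ) / κ ≤ ℓ ^ n) :
    ‖tay n G (D.rr A θ Q ν) z - tay n G (D.rr A θ Q ν') z‖ ≤
      C * ‖(D.T Q ν' - D.T Q ν).eval z‖ / κ + 4 ^ n * (40 + 20 * Λ) * ℓ ^ n := by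
  have hA := o.hA
  have bx := lv_box o h
  obtain ⟨m1, m2, m3, ⟨d, p⟩, ⟨d', p'⟩⟩ := id h
  have d0 := (on_main (by omega) (kok p.2.1) p.2.2 m1 m2).2
  have d0' := (on_main (by omega) (kok p'.2.1) p'.2.2 m1 m2).2
  have t1 := tree_bd o hn hG hz p d0
  have t2 := tree_bd o hn hG hz p' d0'
  have z1 := hp (β - 1) (by omega) (by omega)
  have z2 := hp β (by omega) (by omega)
  have z3 := hp (β + 1) (by omega) (by omega)
  have v1 := tay_val hn (hb _ _ _ p d0) z1 hη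
  have v3 := tay_val hn (hb _ _ _ p' d0') z3 hη
  have e := (hG (.le Q α β ν ν') h trivial).1
  have mq := le_sq o h (mid_mem _ _)
  simp only [fr, hd, labH, labF] at e mq
  generalize D.ps A θ (gl A (BB N) Q α (β - 1)) = u at *
  generalize D.ps A θ (gl A (BB N) Q α β) = w at *
  generalize D.ps A θ (gl A (BB N) Q α (β + 1)) = u' at *
  have zm : ‖z - (u + w) / 2‖ ≤ η := by
    rw [show z - (u + w) / 2 = ((z - u) + (z - w)) / 2 by ring, norm_div]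
    have := norm_add_le (z - u) (z - w)
    simp only [Complex.norm_ofNat]
    linarith
  have q := hq _ mq zm
  have q' : ‖(D.T Q ν' - D.T Q ν).eval ((u + w) / 2)‖ ≤ ‖(D.T Q ν' - D.T Q ν).eval z‖ + ε := by
    have := norm_sub_norm_le ((D.T Q ν' - D.T Q ν).eval ((u + w) / 2))
      ((D.T Q ν' - D.T Q ν).eval z)
    rw [norm_sub_rev] at q
    linarith
  have uw : ‖u - w‖ ≤ 2 * η := by
    have := norm_sub_le_norm_sub_add_norm_sub u z w
    rw [norm_sub_rev u z] at this; linarith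
  have wu : ‖w - u'‖ ≤ 2 * η := by
    have := norm_sub_le_norm_sub_add_norm_sub w z u'
    rw [norm_sub_rev w z] at this; linarith
  have e' : ‖G 0 u - G 0 w‖ ≤ 2 * η + C * ‖(D.T Q ν' - D.T Q ν).eval z‖ / κ + ℓ ^ n := by
    refine e.trans ?_
    have : C * (‖(D.T Q ν' - D.T Q ν).eval ((u + w) / 2)‖ + δ) / κ ≤
        C * (‖(D.T Q ν' - D.T Q ν).eval z‖ + (ε + δ)) / κ :=
      div_le_div_of_nonneg_right (mul_le_mul_of_nonneg_left (by linarith) hC.le) hκ.le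
    have e2 : C * (‖(D.T Q ν' - D.T Q ν).eval z‖ + (ε + δ)) / κ =
        C * ‖(D.T Q ν' - D.T Q ν).eval z‖ / κ + C * (ε + δ) / κ := by ring
    linarith
  generalize tay n G (D.rr A θ Q ν) z = x0 at *
  generalize tay n G (D.rr A θ Q ν') z = x5 at *
  have s1 := norm_sub_le_norm_sub_add_norm_sub x0 (tay n G u z) x5
  have s2 := norm_sub_le_norm_sub_add_norm_sub (tay n G u z) (G 0 u) x5
  have s3 := norm_sub_le_norm_sub_add_norm_sub (G 0 u) (G 0 w) x5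
  have s4 := norm_sub_le_norm_sub_add_norm_sub (G 0 w) (G 0 u') x5
  have s5 := norm_sub_le_norm_sub_add_norm_sub (G 0 u') (tay n G u' z) x5
  rw [norm_sub_rev (G 0 u') (tay n G u' z), norm_sub_rev (tay n G u' z) x5] at s5
  have hl := o.hℓ
  have hΛ := o.hΛ
  have pl : 0 < ℓ ^ n := by positivity
  have p2 : (1 : ℝ) ≤ 2 ^ n := one_le_pow₀ (by norm_num)
  have p3 : ℓ ^ n ≤ 2 ^ n * ℓ ^ n := by nlinarith
  have p4 : 0 ≤ Λ * (2 ^ n * ℓ ^ n) := by positivity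
  have p5 : 2 ^ n * (40 + 20 * Λ) * ℓ ^ n ≤ 4 ^ n * (40 + 20 * Λ) * ℓ ^ n := by
    gcongr; norm_num
  nlinarith

lemma col_exists (o : Ok ℓ l Λ σ N lo hi A θ) (x : ℝ) {z : ℂ} (hz : |z.re - x| ≤ ℓ / 3) :
    ∃ α : ℤ, (N : ℤ) + 2 ≤ α ∧ α ≤ A - N - 2 ∧ |z.re - (x - ℓ / 2 + α * (ℓ / A))| ≤ ℓ / A := by
  have r := rho_pos o
  have m := mul_rho o
  have hA : (6 * N + 18 : ℝ) ≤ A := by exact_mod_cast o.hA
  have f1 := Int.floor_le ((z.re - (x - ℓ / 2)) / (ℓ / A))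
  have f2 := Int.lt_floor_add_one ((z.re - (x - ℓ / 2)) / (ℓ / A))
  rw [le_div_iff₀ r] at f1
  rw [div_lt_iff₀ r] at f2
  obtain ⟨z1, z2⟩ := abs_le.1 hz
  generalize ⌊(z.re - (x - ℓ / 2)) / (ℓ / A)⌋ = k at *
  generalize ℓ / A = ρ at *
  subst m
  refine ⟨k, ?_, ?_, ?_⟩
  · have : ((N : ℝ) + 2) * ρ < (k + 1) * ρ := by nlinarith
    have := lt_of_mul_lt_mul_right this r.le
    have : (N : ℤ) + 2 < k + 1 := by exact_mod_cast this
    omega
  · have : (k : ℝ) * ρ ≤ (A - N - 2) * ρ := by nlinarith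
    have := le_of_mul_le_mul_right this r
    exact_mod_cast this
  · rw [abs_le]
    constructor <;> linarith

end GData

open GData

theorem rowG : R_G := by
  classical
  intro n C hn hC hR s κ l l' Λ σ N lo hi τ D hκ hl hl1 hl' hΛ hσ hlo hlh hhi
  have pl : 0 < l ^ n := by positivity
  have pl1 : l ^ n ≤ 1 := pow_le_one₀ hl.le hl1
  have hε : 0 < κ * l ^ n / (2 * C) := by positivity
  obtain ⟨η0, hη0, hu⟩ := unif ((D.Act ×ˢ (Finset.range (N + 1) ×ˢ Finset.range (N + 1)) ×ˢ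
    (Finset.range (N + 1) ×ˢ Finset.range (N + 1))).image
      fun p => D.T p.1 p.2.2 - D.T p.1 p.2.1) hε
  obtain ⟨η, hη, hη1, hη2⟩ : ∃ η > 0, η ≤ η0 ∧ (2 * n + 10) * η ≤ l ^ n :=
    ⟨min η0 (l ^ n / (2 * n + 10)), lt_min hη0 (by positivity), min_le_left _ _, by
      rw [mul_comm, ← le_div_iff₀ (by positivity)]; exact min_le_right _ _⟩
  have hη3 : η ≤ 1 := by
    have : (0 : ℝ) ≤ n := Nat.cast_nonneg n
    nlinarith
  obtain ⟨A, hA1, hA2⟩ : ∃ A : ℕ, 6 * N + 18 ≤ A ∧ (2 + Λ) * (l / A) ≤ η / 2 := by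
    obtain ⟨k, hk⟩ := exists_nat_ge ((2 + Λ) * l / (η / 2))
    refine ⟨max (6 * N + 18) k, le_max_left _ _, ?_⟩
    have a : (k : ℝ) ≤ (max (6 * N + 18) k : ℕ) := by exact_mod_cast le_max_right _ _
    have b : (0 : ℝ) < (max (6 * N + 18) k : ℕ) := by
      exact_mod_cast lt_of_lt_of_le (by omega) (le_max_left _ _)
    rw [div_le_iff₀ (by positivity)] at hk
    rw [← mul_div_assoc, div_le_iff₀ b]
    nlinarith
  have hB : (0 : ℝ) < ((BB N : ℤ) : ℝ) := by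
    have := BB_ge N
    exact_mod_cast (show 0 < BB N by omega)
  have hA0 : (0 : ℝ) < A := by exact_mod_cast (show 0 < A by omega)
  obtain ⟨θ, hθ, hθ1, hθ2, hθ3⟩ : ∃ θ > 0, θ ≤ l / A ∧ ((BB N : ℤ) : ℝ) * θ ≤ l / 12 ∧
      ((BB N : ℤ) : ℝ) * θ ≤ η / 2 := by
    refine ⟨min (l / A) (min (l / 12 / (BB N : ℤ)) (η / 2 / (BB N : ℤ))), by positivity,
      min_le_left _ _, ?_, ?_⟩
    · rw [mul_comm, ← le_div_iff₀ hB]; exact (min_le_right _ _).trans (min_le_left _ _)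
    · rw [mul_comm, ← le_div_iff₀ hB]; exact (min_le_right _ _).trans (min_le_right _ _)
  have o : Ok l l' Λ σ N lo hi A θ := ⟨hl, hl', hΛ, hσ, hlo, hlh, hhi, hA1, hθ, hθ2, hθ1⟩
  obtain ⟨K, hK⟩ : ∃ K : ℕ, ∀ t b, D.TV A θ t b → |b| ≤ K := by
    have f := (D.Th.finite_toSet.biUnion (t := fun t => {b | D.TV A θ t b})
      fun t _ => tv_finite o t).image Int.natAbs
    obtain ⟨K, hK⟩ := f.bddAbove
    refine ⟨K, fun t b h => ?_⟩
    have : b.natAbs ≤ K := hK ⟨b, Set.mem_biUnion (x := t) h.1 h, rfl⟩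
    rw [← Int.natCast_natAbs]
    exact_mod_cast this
  obtain ⟨c0, hc0, hc⟩ := fin_min D.Th D.c D.cpos
  obtain ⟨δ, hδ, hδ1, hδ2⟩ : ∃ δ > 0, δ ≤ κ * l ^ n / (2 * C) ∧ (2 * K + 1) * δ ≤ c0 :=
    ⟨min (κ * l ^ n / (2 * C)) (c0 / (2 * K + 1)), lt_min hε (by positivity), min_le_left _ _, by
      rw [mul_comm, ← le_div_iff₀ (by positivity)]; exact min_le_right _ _⟩
  obtain ⟨s', c1, c2, c3, c4, c5, c6⟩ := realise (D := D) hR o hκ hδ
  have mG : ∀ e, e ∈ (mem_finite (D := D) o).toFinset.filter (fun e => ¬ e.isE) ↔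
      D.mem A θ e ∧ ¬ e.isE := by
    intro e; simp
  refine ⟨s', Ob τ, (mem_finite (D := D) o).toFinset.filter (fun e => ¬ e.isE),
    fun e => D.ps A θ (D.hd A θ e), D.fr A θ, D.labH, D.rr A θ,
    c1, c2, c3, fun g hg => ?_, fun g hg g' hg' q => ?_, fun Q hQ ν hν hν' => ?_,
    fun i j X h ρ r0 r1 r2 G hG z z1 z2 => ?_, fun i j k h ρ r1 G hG z z1 z2 => ?_,
    fun t ht hg => ?_, fun t ht j X h hw ρ r0 r1 G hG => ?_,
    fun G hG hgap Q hQ ν ν' hnb z hz1 hz2 => ?_⟩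
  · obtain ⟨m, e⟩ := (mG g).1 hg
    refine ⟨(car o m).2.1, ?_, ?_, (c5 g m e).1, (c5 g m e).2, ?_⟩
    · cases g with
      | ce Q ν α β => exact (e trivial).elim
      | le Q α β ν ν' => exact (e trivial).elim
      | lg Q α β ν ν' => exact (c4 (.le Q α β ν ν') m trivial).2
      | te t b => exact (e trivial).elim
      | tg t => exact (c4 (.te t (D.last A θ t)) (last_spec o m.1).1 trivial).2
    · cases g with
      | ce Q ν α β => exact (e trivial).elim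
      | le Q α β ν ν' => exact (e trivial).elim
      | lg Q α β ν ν' =>
        obtain ⟨m1, m2, m3, -, ⟨d', p'⟩⟩ := id m
        have d0' := (on_main (by omega) (kok p'.2.1) p'.2.2 m1 m2).2
        exact (c4 (.ce Q ν' α (β + 1)) ⟨d', d0', p'⟩ trivial).2
      | te t b => exact (e trivial).elim
      | tg t => exact closure_mono c1 (D.stop t m.1 m.2).1
    · cases g with
      | ce Q ν α β => exact (e trivial).elim
      | le Q α β ν ν' => exact (e trivial).elim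
      | lg Q α β ν ν' =>
        refine ⟨rfl, ?_⟩
        obtain ⟨q1, e1⟩ := D.ratc Q.1
        obtain ⟨q2, e2⟩ := D.ratl
        have b := lv_box o m
        refine ⟨q1 - q2 / 2 + α * (q2 / A), (Xa_in Q.1 b.2.1 b.2.2.1).trans ?_⟩
        rw [e1, e2]; push_cast; ring
      | te t b => exact (e trivial).elim
      | tg t =>
        obtain ⟨q1, e1⟩ := D.ratw (D.I t)
        exact ⟨Xa_wall o _, q1, (Xa_wall o _).trans e1⟩
  · exact nc_all o ((mG g).1 hg).1 ((mG g').1 hg').1 q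
  · have p := one_spec o hQ ⟨hν, hν'⟩
    exact ⟨(c4 (.ce Q ν _ _) ⟨1, one_pos, p⟩ trivial).2, cv_ct o p one_pos⟩
  · have r := D.hR _ _ _ h
    have bf := bb_facts N X r.2.2.2.1.le
    have w := ps_wc (D := D) o i j (β := bb N X) (by omega) (by omega)
    rw [← (root_R h).1] at w
    refine share_bd o hn (c6 G hG) r.1 r.2.1 ⟨by simp only [tp]; omega, min_le_left _ _⟩
      ⟨by simp only; omega, Nat.zero_le _⟩ ((root_R h).1.trans (root_R h).2.symm) r0 ?_ ?_ z1 z2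
    · linarith [norm_sub_le_norm_sub_add_norm_sub
        (D.ps A θ (D.root A (i, j) (X, tp N (D.H (i, j)) X))) (D.wc (i + 1) j) (D.ct (i, j))]
    · linarith [norm_sub_le_norm_sub_add_norm_sub
        (D.ps A θ (D.root A (i, j) (X, tp N (D.H (i, j)) X))) (D.wc (i + 1) j) (D.ct (i + 1, j))]
  · have r := D.hV _ _ _ h
    obtain ⟨f0, f1, f2⟩ := ps_floor (D := D) o i j (α := A - 1 - N + k) (by omega) (by omega) r1
    have e := root_V' (A := A) h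
    refine share_bd o hn (c6 G hG) r.2.1 r.2.2.1 ⟨by simp only; omega, r.2.2.2.2.2.1⟩
      ⟨by simp only; omega, r.2.2.2.2.2.2.1⟩ (root_V h) f0 ?_ ?_ z1 z2
    · rw [e]; linarith
    · rw [e]; linarith
  · refine ⟨.tg t, (mG _).2 ⟨⟨ht, hg⟩, id⟩, rfl, (tg_row o ⟨ht, hg⟩).2, fun G hG => ?_⟩
    exact thread_fin o hκ hC hδ (c6 G hG) (hK t) (hδ2.trans (hc t ht)) (last_spec o ht).1
  · have r := D.hR _ _ _ h
    have bf := bb_facts N X r.2.2.2.1.le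
    have e0 := (root_R (A := A) h).2
    have w := ps_wc (D := D) o (D.I t - 1) j (β := bb N X) (by omega) (by omega)
    rw [← e0] at w
    have a2 := r.2.1
    rw [sub_add_cancel] at e0 w a2
    have e : D.root A (D.I t, j) (N - X, 0) = (D.I t * A,
        j * BB N + if Even (D.I t - 1 + j) then BB N - bb N X else bb N X) := by
      rw [e0]; simp only [gl, Prod.mk.injEq, and_true]; ring
    have y := ps_wallG (D := D) o (D.I t) j
      (β := if Even (D.I t - 1 + j) then BB N - bb N X else bb N X) (by split_ifs <;> omega)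
      (by split_ifs <;> omega)
    have u1 := thread_fin o hκ hC hδ (c6 G hG) (hK t) (hδ2.trans (hc t ht))
      (tv_of_mem o ht (hw y))
    rw [← e] at u1
    have u2 := (arm_bd (a := 2 * ρ) (b := 0) o (c6 G hG)
      (one_spec o a2 (ν := (N - X, 0)) ⟨by simp only; omega, Nat.zero_le _⟩) (by linarith) (by
        linarith [norm_sub_le_norm_sub_add_norm_sub (D.ps A θ (D.root A (D.I t, j) (N - X, 0)))
          (D.wc (D.I t) j) (D.ct (D.I t, j))])).1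
    refine (norm_sub_le_norm_sub_add_norm_sub _ _ _).trans ((add_le_add u1 u2).trans ?_)
    have : 0 ≤ Λ * ρ := mul_nonneg hΛ (by linarith)
    nlinarith
  · have z3 := D.hmid Q z.re
    rw [← hz2] at z3
    have zc : ‖z - D.ct Q‖ ≤ l := by
      refine (Complex.norm_le_abs_re_add_abs_im _).trans ?_
      simp only [ct, Complex.sub_re, Complex.sub_im]
      linarith
    have zs : z ∈ D.reg Q := by
      have y1 := D.hy1 Q.1 Q.2
      have y2 := D.hy1 Q.1 (Q.2 - 1)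
      rw [sub_add_cancel] at y2
      obtain ⟨z4, z5⟩ := abs_le.1 z3
      exact D.box Q ⟨by linarith, by linarith, by linarith⟩
    obtain ⟨α, m1, m2, m3⟩ := col_exists o _ hz1
    have nrm : ∀ w ∈ D.reg Q, ‖w‖ ≤ 1 := fun w hw =>
      norm_le_one (Set.disjoint_left.1 (D.act Q hQ) hw)
    have key : ∀ (μ μ' : ℕ × ℕ) (β : ℤ), D.LV A Q α β μ μ' →
        ‖tay n G (D.rr A θ Q μ) z - tay n G (D.rr A θ Q μ') z‖ ≤
          C * ‖(D.T Q μ' - D.T Q μ).eval z‖ / κ + 4 ^ n * (40 + 20 * Λ) * l ^ n := by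
      intro μ μ' β h
      obtain ⟨-, -, -, ⟨d, p⟩, ⟨d', p'⟩⟩ := id h
      refine link_bd (η := η) (ε := κ * l ^ n / (2 * C)) o hn hκ hC (c6 G hG) h zc
        (fun β' d μ p d0 j hj => hG.bdd j hj _ (c4 (.ce Q μ α β') ⟨d, d0, p⟩ trivial).2
          ((nrm _ (cv_sq o p)).trans (by norm_num)))
        (hgap (.lg Q α β μ μ') ((mG _).2 ⟨h, id⟩))
        (fun β' b1 b2 => (ps_prof o Q (by omega) (by omega) b1 b2 hz2 m3).trans ?_) hη3
        (fun w hw hzw => hu _ (Finset.mem_image.2 ⟨(Q, μ, μ'), ?_, rfl⟩) z w (nrm z zs) (nrm w hw)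
          (hzw.trans hη1)) hη2 ?_
      · have := rho_pos o
        linarith
      · have a := p.2.1.1
        have b := p'.2.1.1
        simp only [Finset.mem_product, Finset.mem_range]
        exact ⟨hQ, ⟨by omega, by omega⟩, ⟨by omega, by omega⟩⟩
      · rw [div_le_iff₀ hκ]
        have : C * (κ * l ^ n / (2 * C)) = κ * l ^ n / 2 := by field_simp
        have := mul_le_mul_of_nonneg_left hδ1 hC.le
        nlinarith
    obtain ⟨n1, k1, n2, k2, n3⟩ := hnb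
    obtain ⟨β, u, u', b0, b⟩ := pos_nb A α n1 n2 (by
      rcases n3 with r | r | r
      · left; rw [r]; exact ⟨rfl, rfl⟩
      · right; left; rw [r]; exact ⟨rfl, rfl⟩
      · right; right; exact r) m1 m2
    rcases b with ⟨b1, b2⟩ | ⟨b1, b2⟩
    · obtain ⟨d, p⟩ := pos_on (kok (D := D) (Q := Q) ⟨n1, k1⟩) b1
      obtain ⟨d', p'⟩ := pos_on (kok (D := D) (Q := Q) ⟨n2, k2⟩) b2
      exact key ν ν' β ⟨m1, m2, b0, ⟨d, hQ, ⟨n1, k1⟩, p⟩, ⟨d', hQ, ⟨n2, k2⟩, p'⟩⟩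
    · obtain ⟨d, p⟩ := pos_on (kok (D := D) (Q := Q) ⟨n2, k2⟩) b1
      obtain ⟨d', p'⟩ := pos_on (kok (D := D) (Q := Q) ⟨n1, k1⟩) b2
      have := key ν' ν β ⟨m1, m2, b0, ⟨d, hQ, ⟨n2, k2⟩, p⟩, ⟨d', hQ, ⟨n1, k1⟩, p'⟩⟩
      rw [norm_sub_rev, ← neg_sub (D.T Q ν') (D.T Q ν), eval_neg, norm_neg] at this
      exact this

end Pool.Agent.MP_d32a63_an.H13N
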