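import Pool.Agent.MP_d32a63_an.H23.Pat

/-! The pattern of strands in a cell of height `H`. -/

namespace Pool.Agent.MP_d32a63_an.H13N.G

open Pool.Agent.MP_d32a63_an.H23 (MM bb BB bb_cases bb_facts bb_even Adj Pos pos_unique pos_down
  pos_up On rt pos_box pos_main)

/-- Admissible kinds: `0` unshared, `1` right arm, `2` left arm, `3` bottom arm. -/
def Kok (N H c X k : ℕ) : Prop :=
  X + k ≤ N ∧ c ≤ 3 ∧ (c = 1 → (k = H ∨ X + k = N) ∧ 1 ≤ X ∧ X < N) ∧
    (c = 2 → k = 0 ∧ 1 ≤ X ∧ X < N) ∧ (c = 3 → X = 0 ∧ 1 ≤ k ∧ k < N) ∧ k ≤ H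

/-- A strand does not meet the arm of another node. -/
lemma pos_arm {A : ℤ} {N X k X' k' : ℕ} {α β u : ℤ} (hA : 2 * N + 5 ≤ A) (h : X + k ≤ N)
    (h' : X' + k' ≤ N) (hk : X = X' → k ≤ k') (p : Pos A N X k α β u) (e : β = bb N X') (e' : A - 1 - N + k' < α) :
    False := by
  have hM : MM N = 4 * N + 4 := rfl
  obtain ⟨-, -, p⟩ := p
  rcases bb_cases N X X' with c | c | c | c | c <;>
  rcases p with p | p | p | p | p <;> omega

lemma on_unique {A : ℤ} {N H c X k c' X' k' : ℕ} {α β t t' : ℤ} (hA : 2 * N + 5 ≤ A)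
    (h : Kok N H c X k) (h' : Kok N H c' X' k') (hc : X = X' → k = k' → c = c')
    (p : On A N c X k α β t) (p' : On A N c' X' k' α β t') : X = X' ∧ k = k' ∧ t = t' := by
  have hb := bb_facts N X (by unfold Kok at h; omega)
  have hb' := bb_facts N X' (by unfold Kok at h'; omega)
  unfold Kok at h h'
  rcases p with ⟨u, p, q⟩ | p | p | p <;> rcases p' with ⟨u', p', q'⟩ | p' | p' | p'
  · obtain ⟨e1, e2, e3⟩ := pos_unique hA h.1 h'.1 p p'
    have := hc e1 e2
    subst e1 e2 e3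
    omega
  · exact (pos_arm hA h.1 h'.1 (by omega) p p'.2.1 p'.2.2.1).elim
  · have := pos_box hA h.1 p; omega
  · have := pos_box hA h.1 p; omega
  · exact (pos_arm hA h'.1 h.1 (by omega) p' p.2.1 p.2.2.1).elim
  · rcases bb_cases N X X' with e | e | e | e | e <;> omega
  · omega
  · omega
  · have := pos_box hA h'.1 p'; omega
  · omega
  · rcases bb_cases N X X' with e | e | e | e | e <;> omega
  · omega
  · have := pos_box hA h'.1 p'; omega
  · omega
  · omega
  · omega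

lemma on_box {A : ℤ} {N H c X k : ℕ} {α β t : ℤ} (hA : 2 * N + 5 ≤ A) (h : Kok N H c X k)
    (p : On A N c X k α β t) :
    0 ≤ α ∧ α ≤ A ∧ 0 ≤ β ∧ β + 1 ≤ BB N ∧ 0 ≤ t ∧ t ≤ 3 * A + 3 * MM N ∧
      (0 < t → 1 ≤ α ∧ α + 1 ≤ A ∧ 1 ≤ β) := by
  have hb := bb_facts N X (by unfold Kok at h; omega)
  unfold Kok at h
  rcases p with ⟨u, p, q⟩ | p | p | p
  · have := pos_box hA h.1 p; omega
  · omega
  · omega
  · omega

lemma on_wall {A : ℤ} {N H c X k : ℕ} {α β t : ℤ} (hA : 2 * N + 5 ≤ A) (h : Kok N H c X k)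
    (p : On A N c X k α β t) :
    (α = 0 → c = 2 ∧ β = bb N X + MM N ∧ t = 0) ∧ (α = A → c = 1 ∧ β = bb N X ∧ t = 0) ∧
      (β = 0 → c = 3 ∧ α = A - 1 - N + k ∧ t = 0) := by
  have hb := bb_facts N X (by unfold Kok at h; omega)
  unfold Kok at h
  rcases p with ⟨u, p, q⟩ | p | p | p
  · have := pos_box hA h.1 p; omega
  · omega
  · omega
  · omega

lemma on_step {A : ℤ} {N H c X k : ℕ} {α β t : ℤ} (hA : 2 * N + 5 ≤ A) (h : Kok N H c X k)
    (p : On A N c X k α β t) (ht : 0 < t) :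
    ∃ α' β', On A N c X k α' β' (t - 1) ∧ Adj α β α' β' := by
  have hb := bb_facts N X (by unfold Kok at h; omega)
  unfold Kok at h
  rcases p with ⟨u, p, q⟩ | p | p | p
  · have hx := pos_box hA h.1 p
    have dn : (2 ≤ u ∨ (1 ≤ X ∧ 1 ≤ u)) →
        ((c = 0 ∧ X = 0 ∧ t - 1 = u - 1 - 1) ∨ (c = 0 ∧ 1 ≤ X ∧ t - 1 = max (u - 1) (-(u - 1))) ∨
        (c = 1 ∧ t - 1 = max (u - 1) (-(u - 1)) + (N + 1 - k)) ∨
        (c = 2 ∧ t - 1 = max (u - 1 - (MM N + (A - 2 - N))) (MM N + (A - 2 - N) - (u - 1)) + 1) ∨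
        (c = 3 ∧ t - 1 = u - 1)) → ∃ α' β', On A N c X k α' β' (t - 1) ∧ Adj α β α' β' := by
      intro h1 h2
      obtain ⟨α', β', r, s⟩ := pos_down hA h.1 p h1
      exact ⟨α', β', Or.inl ⟨u - 1, r, h2⟩, s⟩
    have up : (u < 0 ∨ (k = 0 ∧ X < N ∧ u < MM N + (A - 2 - N))) →
        ((c = 0 ∧ X = 0 ∧ t - 1 = u + 1 - 1) ∨ (c = 0 ∧ 1 ≤ X ∧ t - 1 = max (u + 1) (-(u + 1))) ∨
        (c = 1 ∧ t - 1 = max (u + 1) (-(u + 1)) + (N + 1 - k)) ∨
        (c = 2 ∧ t - 1 = max (u + 1 - (MM N + (A - 2 - N))) (MM N + (A - 2 - N) - (u + 1)) + 1) ∨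
        (c = 3 ∧ t - 1 = u + 1)) → ∃ α' β', On A N c X k α' β' (t - 1) ∧ Adj α β α' β' := by
      intro h1 h2
      obtain ⟨α', β', r, s⟩ := pos_up hA h.1 p h1
      exact ⟨α', β', Or.inl ⟨u + 1, r, h2⟩, s⟩
    rcases q with q | q | q | q | q
    · exact dn (by clear dn up; omega) (by clear dn up; omega)
    · rcases lt_trichotomy u 0 with e | e | e
      · exact up (by clear dn up; omega) (by clear dn up; omega)
      · omega
      · exact dn (by clear dn up; omega) (by clear dn up; omega)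
    · rcases lt_trichotomy u 0 with e | e | e
      · exact up (by clear dn up; omega) (by clear dn up; omega)
      · clear dn up
        obtain ⟨p1, p2, p⟩ := p
        refine ⟨α + 1, β, Or.inr (Or.inl ?_), by unfold Adj; omega⟩
        rcases p with p | p | p | p | p <;> omega
      · exact dn (by clear dn up; omega) (by clear dn up; omega)
    · rcases lt_trichotomy u (MM N + (A - 2 - N)) with e | e | e
      · exact up (by clear dn up; omega) (by clear dn up; omega)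
      · clear dn up
        obtain ⟨p1, p2, p⟩ := p
        refine ⟨α - 1, β, Or.inr (Or.inr (Or.inl ?_)), by unfold Adj; omega⟩
        rcases p with p | p | p | p | p <;> omega
      · exact dn (by clear dn up; omega) (by clear dn up; omega)
    · by_cases e : u = 1
      · clear dn up
        obtain ⟨p1, p2, p⟩ := p
        refine ⟨α, β - 1, Or.inr (Or.inr (Or.inr ?_)), by unfold Adj; omega⟩
        rcases p with p | p | p | p | p <;> omega
      · exact dn (by clear dn up; omega) (by clear dn up; omega)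
  · exact ⟨α + 1, β, Or.inr (Or.inl (by omega)), by unfold Adj; omega⟩
  · omega
  · omega

lemma on_zero {A : ℤ} {N H c X k : ℕ} {α β : ℤ} (hA : 2 * N + 5 ≤ A) (h : Kok N H c X k)
    (p : On A N c X k α β 0) : (α, β) = rt A N c X k := by
  have hb := bb_facts N X (by unfold Kok at h; omega)
  unfold Kok at h
  unfold rt
  rcases p with ⟨u, ⟨p1, p2, p⟩, q⟩ | p | p | p
  · split_ifs <;> rw [Prod.mk.injEq] <;> rcases p with p | p | p | p | p <;> omega
  · split_ifs <;> rw [Prod.mk.injEq] <;> omega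
  · split_ifs <;> rw [Prod.mk.injEq] <;> omega
  · split_ifs <;> rw [Prod.mk.injEq] <;> omega

lemma pos_on {A : ℤ} {N H c X k : ℕ} {α β u : ℤ} (h : Kok N H c X k) (p : Pos A N X k α β u) :
    ∃ t, On A N c X k α β t := by
  unfold Kok at h
  have : c = 0 ∨ c = 1 ∨ c = 2 ∨ c = 3 := by omega
  rcases this with e | e | e | e
  · by_cases x : X = 0
    · exact ⟨_, Or.inl ⟨u, p, Or.inl ⟨e, x, rfl⟩⟩⟩
    · exact ⟨_, Or.inl ⟨u, p, Or.inr (Or.inl ⟨e, by omega, rfl⟩)⟩⟩
  · exact ⟨_, Or.inl ⟨u, p, Or.inr (Or.inr (Or.inl ⟨e, rfl⟩))⟩⟩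
  · exact ⟨_, Or.inl ⟨u, p, Or.inr (Or.inr (Or.inr (Or.inl ⟨e, rfl⟩)))⟩⟩
  · exact ⟨_, Or.inl ⟨u, p, Or.inr (Or.inr (Or.inr (Or.inr ⟨e, rfl⟩)))⟩⟩

/-- In the main range the trees occupy odd levels only, at positive depth. -/
lemma on_main {A : ℤ} {N H c X k : ℕ} {α β t : ℤ} (hA : 2 * N + 5 ≤ A) (h : Kok N H c X k)
    (p : On A N c X k α β t) (h1 : N + 2 ≤ α) (h2 : α ≤ A - N - 2) : β % 2 = 1 ∧ 0 < t := by
  have hb := bb_facts N X (by unfold Kok at h; omega)
  obtain ⟨e, he⟩ := bb_even N X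
  unfold Kok at h
  rcases p with ⟨u, ⟨p1, p2, p⟩, q⟩ | p | p | p
  · rcases p with p | p | p | p | p <;> omega
  · omega
  · omega
  · omega

lemma on_rt {A : ℤ} {N H c X k : ℕ} (hA : 2 * N + 5 ≤ A) (h : Kok N H c X k) :
    ∃ α β, On A N c X k α β 1 ∧ On A N c X k (rt A N c X k).1 (rt A N c X k).2 0 := by
  obtain ⟨u, p⟩ := pos_main A (N + 2) h.1 le_rfl (by omega)
  obtain ⟨t, q⟩ := pos_on h p
  have ht := (on_main hA h q le_rfl (by omega)).2
  have key : ∀ m : ℕ, ∀ α β, On A N c X k α β (m + 1) → ∃ α β, On A N c X k α β 1 := by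
    intro m
    induction m with
    | zero => intro α β r; exact ⟨α, β, by simpa using r⟩
    | succ m ih =>
      intro α β r
      obtain ⟨α', β', r', -⟩ := on_step hA h r (by omega)
      exact ih α' β' (by convert r' using 1; push_cast; ring)
  obtain ⟨α, β, r⟩ := key (t - 1).toNat _ _ (by convert q using 1; omega)
  obtain ⟨α', β', r', -⟩ := on_step hA h r (by omega)
  have e := on_zero hA h (by simpa using r')
  refine ⟨α, β, r, ?_⟩
  rw [← e]; simpa using r'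

/-- A tree with an arm has one vertex of depth one. -/
lemma on_one {A : ℤ} {N H c X k : ℕ} {α β α' β' : ℤ} (hA : 2 * N + 5 ≤ A) (h : Kok N H c X k)
    (p : On A N c X k α β 1) (p' : On A N c X k α' β' 1) : c = 0 ∨ (α = α' ∧ β = β') := by
  have hb := bb_facts N X (by unfold Kok at h; omega)
  unfold Kok at h
  by_cases c0 : c = 0
  · exact Or.inl c0
  right
  rcases p with ⟨u, ⟨p1, p2, p⟩, q⟩ | p | p | p <;>
    rcases p' with ⟨u', ⟨p1', p2', p'⟩, q'⟩ | p' | p' | p'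
  · have e : u = u' ∧ (u = 1 ∨ u = MM N + (A - 2 - N)) := by omega
    clear q q'
    rcases p with p | p | p | p | p <;> rcases p' with p' | p' | p' | p' | p' <;> omega
  all_goals omega

/-- The root of a tree without arm is interior. -/
lemma on_zero_in {A : ℤ} {N H X k : ℕ} {α β : ℤ} (hA : 2 * N + 5 ≤ A) (h : Kok N H 0 X k)
    (p : On A N 0 X k α β 0) : 1 ≤ α ∧ α + 1 ≤ A ∧ 1 ≤ β := by
  rcases p with ⟨u, p, q⟩ | p | p | p
  · have := pos_box hA h.1 p; omega
  all_goals omega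

end Pool.Agent.MP_d32a63_an.H13N.G
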