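import Pool.Agent.MP_d32a63_an.H23.Geo
import Pool.Agent.MP_d32a63_an.H13N.GPat

/-! Geometry of a grid with arbitrary increasing abscissas: unit segments do not cross. -/

namespace Pool.Agent.MP_d32a63_an.H13N.G

open Set
open Pool.Agent.MP_d32a63_an.H23 (Adj mem_seg mem_oseg mem_vseg mem_vopen row_div row_mod
  exists_row)

/-- Position of a grid vertex. -/
noncomputable def pt (X : ℤ → ℝ) (Y : ℤ → ℤ → ℝ) (v : ℤ × ℤ) : ℂ := ⟨X v.1, Y v.1 v.2⟩

section NC

variable {X : ℤ → ℝ} {Y : ℤ → ℤ → ℝ}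

lemma pt_inj (hX : StrictMono X) (hY : ∀ a, StrictMono (Y a)) {v w : ℤ × ℤ}
    (h : pt X Y v = pt X Y w) : v = w := by
  have e1 : X v.1 = X w.1 := congrArg Complex.re h
  have e2 : Y v.1 v.2 = Y w.1 w.2 := congrArg Complex.im h
  have e3 : v.1 = w.1 := hX.injective e1
  rw [e3] at e2
  exact Prod.ext e3 ((hY w.1).injective e2)

lemma nc_HH (hX : StrictMono X) (hY : ∀ a, StrictMono (Y a)) {a b c d : ℤ} {z : ℂ}
    (h : z ∈ openSegment ℝ (pt X Y (a, b)) (pt X Y (a + 1, b)))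
    (h' : z ∈ segment ℝ (pt X Y (c, d)) (pt X Y (c + 1, d))) : c = a ∧ d = b := by
  obtain ⟨t, h0, h1, e1, e2⟩ := mem_oseg h
  obtain ⟨s, g0, g1, f1, f2⟩ := mem_seg h'
  simp only [pt] at e1 e2 f1 f2
  have la := hX (show a < a + 1 by omega)
  have lc := hX (show c < c + 1 by omega)
  have ca : c = a := by
    have u1 : X c < X (a + 1) := by nlinarith
    have u2 : X a < X (c + 1) := by nlinarith
    have u1' := hX.lt_iff_lt.1 u1
    have u2' := hX.lt_iff_lt.1 u2
    omega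
  subst ca
  have ts : s = t := by
    have : (s - t) * (X (c + 1) - X c) = 0 := by linarith
    rcases mul_eq_zero.1 this with r | r <;> linarith
  subst ts
  refine ⟨rfl, ?_⟩
  rcases lt_trichotomy d b with r | r | r
  · have u1 := hY c r
    have u2 := hY (c + 1) r
    nlinarith
  · exact r
  · have u1 := hY c r
    have u2 := hY (c + 1) r
    nlinarith

lemma nc_HV (hX : StrictMono X) {a b c d d' : ℤ} {z : ℂ}
    (h : z ∈ openSegment ℝ (pt X Y (a, b)) (pt X Y (a + 1, b)))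
    (h' : z ∈ segment ℝ (pt X Y (c, d)) (pt X Y (c, d'))) : False := by
  obtain ⟨t, h0, h1, e1, -⟩ := mem_oseg h
  obtain ⟨s, g0, g1, f1, -⟩ := mem_seg h'
  simp only [pt] at e1 f1
  have la := hX (show a < a + 1 by omega)
  have u1 : X c < X (a + 1) := by nlinarith
  have u2 : X a < X c := by nlinarith
  have u1' := hX.lt_iff_lt.1 u1
  have u2' := hX.lt_iff_lt.1 u2
  omega

lemma open_V (hY : ∀ a, StrictMono (Y a)) {a b : ℤ} {z : ℂ}
    (h : z ∈ openSegment ℝ (pt X Y (a, b)) (pt X Y (a, b + 1))) :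
    z.re = X a ∧ Y a b < z.im ∧ z.im < Y a (b + 1) := by
  have l := hY a (show b < b + 1 by omega)
  have := (mem_vopen (x := X a) l.ne).1 h
  rwa [min_eq_left l.le, max_eq_right l.le] at this

lemma nc_VH (hX : StrictMono X) (hY : ∀ a, StrictMono (Y a)) {a b c d : ℤ} {z : ℂ}
    (h : z ∈ openSegment ℝ (pt X Y (a, b)) (pt X Y (a, b + 1)))
    (h' : z ∈ segment ℝ (pt X Y (c, d)) (pt X Y (c + 1, d))) : False := by
  obtain ⟨e1, e2, e3⟩ := open_V hY h
  obtain ⟨s, g0, g1, f1, f2⟩ := mem_seg h'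
  simp only [pt] at f1 f2
  have lc := hX (show c < c + 1 by omega)
  have u1 : X c ≤ X a := by nlinarith
  have u2 : X a ≤ X (c + 1) := by nlinarith
  have u1' := hX.le_iff_le.1 u1
  have u2' := hX.le_iff_le.1 u2
  have key : z.im = Y a d := by
    rcases (show a = c ∨ a = c + 1 by omega) with r | r
    · subst r
      have : s = 0 := by
        have : s * (X (a + 1) - X a) = 0 := by linarith
        rcases mul_eq_zero.1 this with q | q <;> linarith
      rw [f2, this]; ring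
    · subst r
      have : s = 1 := by
        have : (1 - s) * (X (c + 1) - X c) = 0 := by linarith
        rcases mul_eq_zero.1 this with q | q <;> linarith
      rw [f2, this]; ring
  rw [key] at e2 e3
  have v1 := (hY a).lt_iff_lt.1 e2
  have v2 := (hY a).lt_iff_lt.1 e3
  omega

lemma nc_VV (hX : StrictMono X) (hY : ∀ a, StrictMono (Y a)) {a b c d : ℤ} {z : ℂ}
    (h : z ∈ openSegment ℝ (pt X Y (a, b)) (pt X Y (a, b + 1)))
    (h' : z ∈ segment ℝ (pt X Y (c, d)) (pt X Y (c, d + 1))) : c = a ∧ d = b := by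
  obtain ⟨e1, e2, e3⟩ := open_V hY h
  have l := hY c (show d < d + 1 by omega)
  obtain ⟨f1, f2, f3⟩ := (mem_vseg (x := X c)).1 h'
  rw [min_eq_left l.le] at f2
  rw [max_eq_right l.le] at f3
  have ca : a = c := hX.injective (e1.symm.trans f1)
  subst ca
  have v1 := (hY a).lt_iff_lt.1 (lt_of_lt_of_le e2 f3)
  have v2 := (hY a).lt_iff_lt.1 (lt_of_le_of_lt f2 e3)
  omega

/-- Two unit segments that cross are equal. -/
lemma nc (hX : StrictMono X) (hY : ∀ a, StrictMono (Y a)) {v w v' w' : ℤ × ℤ} {z : ℂ}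
    (hv : Adj v.1 v.2 w.1 w.2) (hv' : Adj v'.1 v'.2 w'.1 w'.2)
    (h : z ∈ openSegment ℝ (pt X Y v) (pt X Y w))
    (h' : z ∈ segment ℝ (pt X Y v') (pt X Y w')) : (v' = v ∧ w' = w) ∨ (v' = w ∧ w' = v) := by
  obtain ⟨a, b⟩ := v
  obtain ⟨a1, b1⟩ := w
  obtain ⟨c, d⟩ := v'
  obtain ⟨c1, d1⟩ := w'
  simp only [Adj] at hv hv'
  simp only [Prod.mk.injEq]
  have hs := h
  have hs' := h'
  rw [openSegment_symm] at hs
  rw [segment_symm] at hs'
  rcases hv with ⟨r1, r2 | r2⟩ | ⟨r1, r2 | r2⟩ <;>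
  rcases hv' with ⟨s1, s2 | s2⟩ | ⟨s1, s2 | s2⟩
  · subst r1 r2 s1 s2; have := nc_VV hX hY h h'; omega
  · obtain rfl : d = d1 + 1 := by omega
    subst r1 r2 s1; have := nc_VV hX hY h hs'; omega
  · subst r1 r2 s1 s2; exact (nc_VH hX hY h h').elim
  · obtain rfl : c = c1 + 1 := by omega
    subst r1 r2 s1; exact (nc_VH hX hY h hs').elim
  · obtain rfl : b = b1 + 1 := by omega
    subst r1 s1 s2; have := nc_VV hX hY hs h'; omega
  · obtain rfl : b = b1 + 1 := by omega
    obtain rfl : d = d1 + 1 := by omega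
    subst r1 s1; have := nc_VV hX hY hs hs'; omega
  · obtain rfl : b = b1 + 1 := by omega
    subst r1 s1 s2; exact (nc_VH hX hY hs h').elim
  · obtain rfl : b = b1 + 1 := by omega
    obtain rfl : c = c1 + 1 := by omega
    subst r1 s1; exact (nc_VH hX hY hs hs').elim
  · subst r1 r2 s1 s2; exact (nc_HV hX h h').elim
  · subst r1 r2 s1 s2; exact (nc_HV hX h h').elim
  · subst r1 r2 s1 s2; have := nc_HH hX hY h h'; omega
  · obtain rfl : c = c1 + 1 := by omega
    subst r1 r2 s1; have := nc_HH hX hY h hs'; omega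
  · obtain rfl : a = a1 + 1 := by omega
    subst r1 s1 s2; exact (nc_HV hX hs h').elim
  · obtain rfl : a = a1 + 1 := by omega
    subst r1 s1 s2; exact (nc_HV hX hs h').elim
  · obtain rfl : a = a1 + 1 := by omega
    subst r1 s1 s2; have := nc_HH hX hY hs h'; omega
  · obtain rfl : a = a1 + 1 := by omega
    obtain rfl : c = c1 + 1 := by omega
    subst r1 s1; have := nc_HH hX hY hs hs'; omega

end NC

/-- Ordinates in one column: thin bands at the heights `p j`, separators between the centres. -/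
noncomputable def YC (θ : ℝ) (B : ℤ) (c p : ℤ → ℝ) (b : ℤ) : ℝ :=
  if b % B = 0 then (c (b / B - 1) + c (b / B)) / 2 else p (b / B) + ((b % B : ℤ) : ℝ) * θ

section YC

variable {l θ : ℝ} {B : ℤ} {c p : ℤ → ℝ}

lemma YC_wall (hB : 0 < B) (j : ℤ) : YC θ B c p (j * B) = (c (j - 1) + c j) / 2 := by
  have e1 := row_div (B := B) (j := j) (β := 0) le_rfl hB
  have e2 := row_mod (B := B) (j := j) (β := 0) le_rfl hB
  rw [add_zero] at e1 e2
  simp only [YC, e1, e2, if_true]

lemma YC_in (j β : ℤ) (h0 : 1 ≤ β) (h1 : β < B) : YC θ B c p (j * B + β) = p j + β * θ := by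
  have e1 := row_div (B := B) (j := j) (β := β) (by omega) h1
  have e2 := row_mod (B := B) (j := j) (β := β) (by omega) h1
  simp only [YC, e1, e2]
  rw [if_neg (by omega)]

lemma YC_in_bd (hθ : 0 < θ) (hl : (B : ℝ) * θ ≤ l / 12) (hc : ∀ j, c j + l ≤ c (j + 1))
    (hm : ∀ j, |p j - c j| ≤ l / 3) (j β : ℤ) (h0 : 1 ≤ β) (h1 : β < B) :
    (c (j - 1) + c j) / 2 < YC θ B c p (j * B + β) ∧
      YC θ B c p (j * B + β) < (c j + c (j + 1)) / 2 := by
  rw [YC_in j β h0 h1]
  have := abs_le.1 (hm j)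
  have c1 := hc j
  have c2 := hc (j - 1)
  rw [sub_add_cancel] at c2
  have b0 : (1 : ℝ) ≤ β := by exact_mod_cast h0
  have b1 : (β : ℝ) ≤ B := by exact_mod_cast h1.le
  have b2 : (β : ℝ) * θ ≤ B * θ := mul_le_mul_of_nonneg_right b1 hθ.le
  have b3 : 0 < (β : ℝ) * θ := by positivity
  constructor <;> linarith [this.1, this.2]

lemma YC_bd (hB : 0 < B) (hθ : 0 < θ) (hl : (B : ℝ) * θ ≤ l / 12) (hc : ∀ j, c j + l ≤ c (j + 1))
    (hm : ∀ j, |p j - c j| ≤ l / 3) (j β : ℤ) (h0 : 0 ≤ β) (h1 : β ≤ B) :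
    (c (j - 1) + c j) / 2 ≤ YC θ B c p (j * B + β) ∧
      YC θ B c p (j * B + β) ≤ (c j + c (j + 1)) / 2 := by
  have hl0 : 0 < l := by
    have : 0 < (B : ℝ) * θ := mul_pos (by exact_mod_cast hB) hθ
    linarith
  have c1 := hc j
  have c2 := hc (j - 1)
  rw [sub_add_cancel] at c2
  rcases eq_or_lt_of_le h0 with r | r
  · rw [← r, add_zero, YC_wall hB]; constructor <;> linarith
  rcases eq_or_lt_of_le h1 with s | s
  · rw [s, show j * B + B = (j + 1) * B by ring, YC_wall hB, add_sub_cancel_right]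
    constructor <;> linarith
  have := YC_in_bd hθ hl hc hm j β r s
  exact ⟨this.1.le, this.2.le⟩

lemma YC_mono (hB : 2 ≤ B) (hθ : 0 < θ) (hl : (B : ℝ) * θ ≤ l / 12)
    (hc : ∀ j, c j + l ≤ c (j + 1)) (hm : ∀ j, |p j - c j| ≤ l / 3) :
    StrictMono (YC θ B c p) := by
  refine strictMono_int_of_lt_succ fun b => ?_
  obtain ⟨j, β, h0, h1, rfl⟩ := exists_row (show 0 < B by omega) b
  rcases eq_or_lt_of_le h0 with r | r
  · subst r
    have := (YC_in_bd hθ hl hc hm j 1 le_rfl (by omega)).1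
    rw [add_zero, YC_wall (by omega)]
    exact this
  rcases eq_or_lt_of_le (show β + 1 ≤ B by omega) with s | s
  · have := (YC_in_bd hθ hl hc hm j β r h1).2
    rw [show j * B + β + 1 = (j + 1) * B by rw [← s]; ring, YC_wall (by omega),
      add_sub_cancel_right]
    exact this
  · rw [add_assoc, YC_in j β r h1, YC_in j (β + 1) (by omega) s]
    push_cast; linarith

end YC

/-- Abscissas: the walls, and equally spaced columns in the boxes. -/
noncomputable def XX (l : ℝ) (A : ℤ) (xc xw : ℤ → ℝ) (a : ℤ) : ℝ :=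
  if a % A = 0 then xw (a / A) else xc (a / A) - l / 2 + ((a % A : ℤ) : ℝ) * (l / A)

section XX

variable {l : ℝ} {A : ℤ} {xc xw : ℤ → ℝ}

lemma XX_wall (hA : 0 < A) (i : ℤ) : XX l A xc xw (i * A) = xw i := by
  have e1 := row_div (B := A) (j := i) (β := 0) le_rfl hA
  have e2 := row_mod (B := A) (j := i) (β := 0) le_rfl hA
  rw [add_zero] at e1 e2
  simp only [XX, e1, e2, if_true]

lemma XX_in (i α : ℤ) (h0 : 1 ≤ α) (h1 : α < A) :
    XX l A xc xw (i * A + α) = xc i - l / 2 + α * (l / A) := by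
  have e1 := row_div (B := A) (j := i) (β := α) (by omega) h1
  have e2 := row_mod (B := A) (j := i) (β := α) (by omega) h1
  simp only [XX, e1, e2]
  rw [if_neg (by omega)]

lemma XX_in_bd (hl : 0 < l) (i α : ℤ) (h0 : 1 ≤ α) (h1 : α < A) :
    xc i - l / 2 < XX l A xc xw (i * A + α) ∧ XX l A xc xw (i * A + α) < xc i + l / 2 := by
  rw [XX_in i α h0 h1]
  have a0 : (0 : ℝ) < α := by exact_mod_cast (show 0 < α by omega)
  have a1 : (α : ℝ) < A := by exact_mod_cast h1
  have r : 0 < l / A := div_pos hl (by linarith)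
  have m : (A : ℝ) * (l / A) = l := by
    have : (A : ℝ) ≠ 0 := by linarith
    field_simp
  constructor <;> nlinarith

lemma XX_mono (hl : 0 < l) (hA : 2 ≤ A) (h1 : ∀ i, xw i + l / 2 ≤ xc i)
    (h2 : ∀ i, xc i + l / 2 ≤ xw (i + 1)) : StrictMono (XX l A xc xw) := by
  refine strictMono_int_of_lt_succ fun a => ?_
  obtain ⟨i, α, g0, g1, rfl⟩ := exists_row (show 0 < A by omega) a
  rcases eq_or_lt_of_le g0 with r | r
  · subst r
    have := (XX_in_bd (xc := xc) (xw := xw) hl i 1 le_rfl (show 1 < A by omega)).1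
    rw [add_zero, XX_wall (by omega)]
    linarith [h1 i]
  rcases eq_or_lt_of_le (show α + 1 ≤ A by omega) with s | s
  · have := (XX_in_bd (xc := xc) (xw := xw) hl i α r g1).2
    rw [show i * A + α + 1 = (i + 1) * A by rw [← s]; ring, XX_wall (by omega)]
    linarith [h2 i]
  · rw [add_assoc, XX_in i α r g1, XX_in i (α + 1) (by omega) s]
    have : 0 < l / A := div_pos hl (by exact_mod_cast (show 0 < A by omega))
    push_cast; linarith

end XX

end Pool.Agent.MP_d32a63_an.H13N.G
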