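import Pool.Agent.MP_d32a63_an.H13N.Defs
import Pool.Agent.MP_d32a63_an.H13N.GGeo

/-! Global vertices of the node trees and of the links. -/

namespace Pool.Agent.MP_d32a63_an.H13N

open Set Polynomial Pool.Agent.MP_d32a63_an.H95 G
open Pool.Agent.MP_d32a63_an.H23 (MM bb BB bb_cases bb_facts bb_add Adj On rt gl gl_inj gl_same
  row_unique row_div row_mod)

/-- Conditions on the parameters. -/
structure Ok (ℓ l Λ σ : ℝ) (N lo hi A : ℕ) (θ : ℝ) : Prop where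
  hℓ : 0 < ℓ
  hl : 0 < l
  hΛ : 0 ≤ Λ
  hσ : 0 ≤ σ
  hlo : 1 ≤ lo
  hlh : lo ≤ hi
  hhi : hi < N
  hA : 6 * N + 18 ≤ A
  hθ : 0 < θ
  hθl : ((BB N : ℤ) : ℝ) * θ ≤ ℓ / 12
  hθρ : θ ≤ ℓ / A

lemma BB_ge (N : ℕ) : 4 ≤ BB N := by
  have := bb_facts N N le_rfl
  omega

namespace GData

variable {n : ℕ} {s : Core n} {κ ℓ l Λ σ : ℝ} {N lo hi : ℕ} {τ : Type}
  (D : GData s κ ℓ l Λ σ N lo hi τ) (A : ℕ) (θ : ℝ)

/-- Abscissas of the grid. -/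
noncomputable def Xa : ℤ → ℝ := XX ℓ A D.xc D.xw

/-- The centres of the rows in the column `a`. -/
noncomputable def cc (a : ℤ) : ℤ → ℝ := if a % A = 0 then D.yx (a / A) else D.yc (a / A)

/-- The heights of the bands in the column `a`. -/
noncomputable def pp (a j : ℤ) : ℝ :=
  if a % A = 0 then D.yx (a / A) j else D.h (a / A, j) (D.Xa A a)

/-- Ordinates of the grid. -/
noncomputable def Y (a : ℤ) : ℤ → ℝ := YC θ (BB N) (D.cc A a) (D.pp A a)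

/-- Position of a grid vertex. -/
noncomputable def ps (v : ℤ × ℤ) : ℂ := pt (D.Xa A) (D.Y A θ) v

/-- The nodes of a cell. -/
def nd (Q : ℤ × ℤ) (ν : ℕ × ℕ) : Prop := ν.1 + ν.2 ≤ N ∧ ν.2 ≤ D.H Q

/-- The bottom node `(0, k)` of `Q` is shared. -/
def shD (Q : ℤ × ℤ) (k : ℕ) : Prop :=
  (Even (Q.1 + Q.2) ∧ D.shV (Q.1, Q.2) k) ∨ (¬ Even (Q.1 + Q.2) ∧ D.shV (Q.1, Q.2 - 1) k)

open Classical in
/-- The kind of a node. -/
noncomputable def kd (Q : ℤ × ℤ) (ν : ℕ × ℕ) : ℕ :=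
  if ν.2 = tp N (D.H Q) ν.1 ∧ D.shR (Q.1, Q.2) ν.1 then 1
  else if ν.2 = 0 ∧ D.shR (Q.1 - 1, Q.2) (N - ν.1) then 2
  else if ν.1 = 0 ∧ D.shD Q ν.2 then 3 else 0

/-- Vertex of the tree of the node `ν` of the cell `Q`. -/
def CV (Q : ℤ × ℤ) (ν : ℕ × ℕ) (α β t : ℤ) : Prop :=
  Q ∈ D.Act ∧ D.nd Q ν ∧ On A N (D.kd Q ν) ν.1 ν.2 α β t

/-- Link vertex between the strands `ν` (below) and `ν'` (above). -/
def LV (Q : ℤ × ℤ) (α β : ℤ) (ν ν' : ℕ × ℕ) : Prop :=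
  (N : ℤ) + 2 ≤ α ∧ α ≤ A - N - 2 ∧ β % 2 = 0 ∧ (∃ t, D.CV A Q ν α (β - 1) t) ∧
    ∃ t, D.CV A Q ν' α (β + 1) t

/-- The root of the tree, in global coordinates. -/
noncomputable def root (Q : ℤ × ℤ) (ν : ℕ × ℕ) : ℤ × ℤ :=
  gl A (BB N) Q (rt A N (D.kd Q ν) ν.1 ν.2).1 (rt A N (D.kd Q ν) ν.1 ν.2).2

variable {D A θ}

lemma kd_one {Q : ℤ × ℤ} {ν : ℕ × ℕ} (h : D.kd Q ν = 1) :
    ν.2 = tp N (D.H Q) ν.1 ∧ D.shR (Q.1, Q.2) ν.1 := by
  unfold kd at h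
  split_ifs at h with h1 h2 h3
  · exact h1
  · omega
  · omega

lemma kd_two {Q : ℤ × ℤ} {ν : ℕ × ℕ} (h : D.kd Q ν = 2) :
    ν.2 = 0 ∧ D.shR (Q.1 - 1, Q.2) (N - ν.1) := by
  unfold kd at h
  split_ifs at h with h1 h2 h3
  · omega
  · exact h2
  · omega

lemma kd_three {Q : ℤ × ℤ} {ν : ℕ × ℕ} (h : D.kd Q ν = 3) : ν.1 = 0 ∧ D.shD Q ν.2 := by
  unfold kd at h
  split_ifs at h with h1 h2 h3
  · omega
  · omega
  · exact h3

lemma kok {Q : ℤ × ℤ} {ν : ℕ × ℕ} (h : D.nd Q ν) : Kok N (D.H Q) (D.kd Q ν) ν.1 ν.2 := by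
  refine ⟨h.1, ?_, fun e => ?_, fun e => ?_, fun e => ?_, h.2⟩
  · unfold kd; split_ifs <;> omega
  · obtain ⟨a, b⟩ := kd_one e
    have := D.hR _ _ _ b
    unfold tp at a
    omega
  · obtain ⟨a, b⟩ := kd_two e
    have := D.hR _ _ _ b
    omega
  · obtain ⟨a, b | b⟩ := kd_three e
    · have := D.hV _ _ _ b.2
      omega
    · have := D.hV _ _ _ b.2
      omega

lemma gl_R {i j : ℤ} {X : ℕ} (h : X ≤ N) :
    gl A (BB N) (i + 1, j) 0 (bb N (N - X) + MM N) = gl A (BB N) (i, j) A (bb N X) := by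
  have e : bb N N = bb N (N - X) + bb N X := by rw [← bb_add]; congr 1; omega
  have p : Even (i + 1 + j) ↔ ¬ Even (i + j) := by
    rw [show i + 1 + j = (i + j) + 1 by ring, Int.even_add_one]
  simp only [gl, Prod.mk.injEq, p]
  refine ⟨by ring, ?_⟩
  unfold BB
  by_cases q : Even (i + j)
  · rw [if_neg (not_not.2 q), if_pos q]; omega
  · rw [if_pos q, if_neg q]; omega

lemma root_R {i j : ℤ} {X : ℕ} (h : D.shR (i, j) X) :
    D.root A (i, j) (X, tp N (D.H (i, j)) X) = gl A (BB N) (i, j) A (bb N X) ∧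
      D.root A (i + 1, j) (N - X, 0) = gl A (BB N) (i, j) A (bb N X) := by
  have hr := D.hR _ _ _ h
  have hH := D.hH (i + 1, j)
  have k1 : D.kd (i, j) (X, tp N (D.H (i, j)) X) = 1 := by
    unfold kd; rw [if_pos ⟨rfl, h⟩]
  have k2 : D.kd (i + 1, j) (N - X, 0) = 2 := by
    unfold kd
    rw [if_neg (fun e => by have := e.1; simp only [tp] at this; omega), if_pos]
    refine ⟨rfl, ?_⟩
    simp only [add_sub_cancel_right]
    rwa [show N - (N - X) = X by omega]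
  constructor
  · simp [root, k1, rt]
  · rw [← gl_R (by omega)]; simp [root, k2, rt]

lemma root_V {i j : ℤ} {k : ℕ} (h : D.shV (i, j) k) :
    D.root A (i, j) (0, k) = D.root A (i, j + 1) (0, k) := by
  have hr := D.hV _ _ _ h
  have p : ¬ Even (i + (j + 1)) := by
    rw [← add_assoc, Int.even_add_one]; exact not_not.2 hr.1
  have k1 : D.kd (i, j) (0, k) = 3 := by
    unfold kd
    rw [if_neg (fun e => by have := D.hR _ _ _ e.2; simp only at this; omega),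
      if_neg (fun e => by have := e.1; simp only at this; omega), if_pos ⟨rfl, Or.inl ⟨hr.1, h⟩⟩]
  have k2 : D.kd (i, j + 1) (0, k) = 3 := by
    unfold kd
    rw [if_neg (fun e => by have := D.hR _ _ _ e.2; simp only at this; omega),
      if_neg (fun e => by have := e.1; simp only at this; omega),
      if_pos ⟨rfl, Or.inr ⟨p, by simpa using h⟩⟩]
  simp only [root, k1, k2, rt, gl]
  simp only [p, hr.1]
  simp
  ring

lemma cv_box (o : Ok ℓ l Λ σ N lo hi A θ) {Q : ℤ × ℤ} {ν : ℕ × ℕ} {α β t : ℤ}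
    (h : D.CV A Q ν α β t) :
    0 ≤ α ∧ α ≤ A ∧ 0 ≤ β ∧ β + 1 ≤ BB N ∧ 0 ≤ t ∧ t ≤ 3 * A + 3 * MM N ∧
      (0 < t → 1 ≤ α ∧ α + 1 ≤ A ∧ 1 ≤ β) :=
  on_box (by have := o.hA; omega) (kok h.2.1) h.2.2

lemma col_wall {A i I α : ℤ} (h0 : 0 ≤ α) (h1 : α ≤ A) (hA : 0 < A) (e : i * A + α = I * A) :
    (α = 0 ∧ i = I) ∨ (α = A ∧ i = I - 1) := by
  rcases lt_trichotomy i (I - 1) with r | r | r
  · have : (i + 2) * A ≤ I * A := Int.mul_le_mul_of_nonneg_right (by omega) (by omega)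
    rw [add_mul] at this; omega
  · right
    subst r
    rw [sub_mul] at e; omega
  · rcases eq_or_lt_of_le (show I ≤ i by omega) with q | q
    · left; subst q; omega
    · have : (I + 1) * A ≤ i * A := Int.mul_le_mul_of_nonneg_right (by omega) (by omega)
      rw [add_mul] at this; omega

/-- A tree vertex on a vertical wall is the root of an arm. -/
lemma cv_wall (o : Ok ℓ l Λ σ N lo hi A θ) {Q : ℤ × ℤ} {ν : ℕ × ℕ} {α β t I : ℤ}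
    (h : D.CV A Q ν α β t) (e : (gl A (BB N) Q α β).1 = I * A) :
    ∃ j X, D.shR (I - 1, j) X ∧ gl A (BB N) Q α β = gl A (BB N) (I - 1, j) A (bb N X) ∧
      D.T Q ν = D.T (I - 1, j) (X, tp N (D.H (I - 1, j)) X) ∧ t = 0 := by
  have hA := o.hA
  have bx := cv_box o h
  have w := on_wall (by omega) (kok h.2.1) h.2.2
  obtain ⟨i, j⟩ := Q
  obtain ⟨X, k⟩ := ν
  rcases col_wall bx.1 bx.2.1 (by omega) e with ⟨a, b⟩ | ⟨a, b⟩
  · obtain ⟨w1, w2, w3⟩ := w.1 a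
    obtain ⟨k0, sh⟩ := kd_two w1
    simp only at b k0 sh w2
    subst b k0
    have hr := D.hR _ _ _ sh
    have hX : N - (N - X) = X := by omega
    refine ⟨j, N - X, sh, ?_, ?_, w3⟩
    · rw [← gl_R (by omega), hX, a, w2, sub_add_cancel]
    · rw [hr.2.2.2.2, hX, sub_add_cancel]
  · obtain ⟨w1, w2, w3⟩ := w.2.1 a
    obtain ⟨k0, sh⟩ := kd_one w1
    simp only at b k0 sh w2
    subst b
    subst k0
    exact ⟨j, X, sh, by rw [a, w2], rfl, w3⟩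

/-- A tree vertex on a horizontal wall is the root of a bottom arm. -/
lemma cv_floor (o : Ok ℓ l Λ σ N lo hi A θ) {Q : ℤ × ℤ} {ν : ℕ × ℕ} {α t : ℤ}
    (h : D.CV A Q ν α 0 t) :
    ∃ j, gl A (BB N) Q α 0 = (Q.1 * A + α, (j + 1) * BB N) ∧ α = A - 1 - N + ν.2 ∧
      D.T Q ν = D.T (Q.1, j) (0, ν.2) ∧ t = 0 := by
  have hA := o.hA
  obtain ⟨w1, w2, w3⟩ := (on_wall (by omega) (kok h.2.1) h.2.2).2.2 rfl
  obtain ⟨i, j⟩ := Q
  obtain ⟨X, k⟩ := ν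
  obtain ⟨x0, b | b⟩ := kd_three w1
  · simp only at x0 b
    subst x0
    refine ⟨j, ?_, w2, rfl, w3⟩
    simp only [gl, b.1, if_true, Prod.mk.injEq, true_and]; ring
  · simp only at x0 b
    subst x0
    refine ⟨j - 1, ?_, w2, ?_, w3⟩
    · simp only [gl, b.1, if_false, Prod.mk.injEq, true_and]; ring
    · have := (D.hV _ _ _ b.2).2.2.2.2.2.2.2
      rw [this, sub_add_cancel]

lemma gl_wall_inj {i j j' : ℤ} {X X' : ℕ} (h : 1 ≤ X) (h1 : X < N) (h' : 1 ≤ X') (h1' : X' < N)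
    (e : gl A (BB N) (i, j) A (bb N X) = gl A (BB N) (i, j') A (bb N X')) : j = j' ∧ X = X' := by
  have b := bb_facts N X h1.le
  have b' := bb_facts N X' h1'.le
  have e2 := congrArg Prod.snd e
  simp only [gl] at e2
  have := row_unique (by split_ifs <;> omega) (by split_ifs <;> omega) (by split_ifs <;> omega)
    (by split_ifs <;> omega) e2
  obtain ⟨rfl, -⟩ := this
  have := (gl_same e).2
  refine ⟨rfl, ?_⟩
  rcases bb_cases N X X' with r | r | r | r | r <;> omega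

lemma cv_same (o : Ok ℓ l Λ σ N lo hi A θ) {Q : ℤ × ℤ} {ν ν' : ℕ × ℕ} {α β t t' : ℤ}
    (h : D.CV A Q ν α β t) (h' : D.CV A Q ν' α β t') : ν = ν' ∧ t = t' := by
  have hA := o.hA
  obtain ⟨a, b, e⟩ := on_unique (by omega) (kok h.2.1) (kok h'.2.1)
    (fun a b => by rw [Prod.ext a b]) h.2.2 h'.2.2
  exact ⟨Prod.ext a b, e⟩

lemma cv_unique (o : Ok ℓ l Λ σ N lo hi A θ) {Q Q' : ℤ × ℤ} {ν ν' : ℕ × ℕ} {α β t α' β' t' : ℤ}
    (h : D.CV A Q ν α β t) (h' : D.CV A Q' ν' α' β' t')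
    (e : gl A (BB N) Q α β = gl A (BB N) Q' α' β') :
    t = t' ∧ D.T Q ν = D.T Q' ν' ∧ (0 < t → Q = Q' ∧ ν = ν' ∧ α = α' ∧ β = β') := by
  have hA := o.hA
  have bx := cv_box o h
  have bx' := cv_box o h'
  by_cases i1 : 1 ≤ α ∧ α + 1 ≤ A ∧ 1 ≤ β
  · obtain ⟨rfl, rfl, rfl⟩ := gl_inj i1.1 i1.2.1 i1.2.2 bx.2.2.2.1 bx'.1 bx'.2.1 bx'.2.2.1
      (by omega) e
    obtain ⟨rfl, rfl⟩ := cv_same o h h'
    exact ⟨rfl, rfl, fun _ => ⟨rfl, rfl, rfl, rfl⟩⟩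
  by_cases i2 : 1 ≤ α' ∧ α' + 1 ≤ A ∧ 1 ≤ β'
  · obtain ⟨rfl, rfl, rfl⟩ := gl_inj i2.1 i2.2.1 i2.2.2 bx'.2.2.2.1 bx.1 bx.2.1 bx.2.2.1
      (by omega) e.symm
    exact (i1 i2).elim
  have wl : ∀ I : ℤ, (gl A (BB N) Q α β).1 = I * A → t = t' ∧ D.T Q ν = D.T Q' ν' ∧
      (0 < t → Q = Q' ∧ ν = ν' ∧ α = α' ∧ β = β') := by
    intro I eI
    obtain ⟨j, X, a1, a2, a3, a4⟩ := cv_wall o h eI
    obtain ⟨j', X', b1, b2, b3, b4⟩ := cv_wall o h' (e ▸ eI)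
    have r := D.hR _ _ _ a1
    have r' := D.hR _ _ _ b1
    obtain ⟨rfl, rfl⟩ := gl_wall_inj r.2.2.1 r.2.2.2.1 r'.2.2.1 r'.2.2.2.1
      (a2.symm.trans (e.trans b2))
    exact ⟨by omega, a3.trans b3.symm, fun q => by omega⟩
  by_cases a0 : α = 0
  · exact wl Q.1 (by simp [gl, a0])
  by_cases a1 : α = A
  · exact wl (Q.1 + 1) (by simp only [gl, a1]; ring)
  by_cases a0' : α' = 0
  · exact wl Q'.1 (by rw [e]; simp [gl, a0'])
  by_cases a1' : α' = A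
  · exact wl (Q'.1 + 1) (by rw [e]; simp only [gl, a1']; ring)
  obtain rfl : β = 0 := by omega
  obtain rfl : β' = 0 := by omega
  obtain ⟨j, c1, c2, c3, c4⟩ := cv_floor o h
  obtain ⟨j', d1, d2, d3, d4⟩ := cv_floor o h'
  rw [c1, d1, Prod.mk.injEq] at e
  obtain ⟨u1, u2⟩ := row_unique (by omega) (by omega) bx'.1 bx'.2.1 e.1
  have hB := BB_ge N
  have u3 : j + 1 = j' + 1 := mul_right_cancel₀ (by omega) e.2
  have u4 : ν.2 = ν'.2 := by omega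
  refine ⟨by omega, ?_, fun q => by omega⟩
  rw [c3, d3, u1, u4, show j = j' by omega]

lemma lv_box (o : Ok ℓ l Λ σ N lo hi A θ) {Q : ℤ × ℤ} {ν ν' : ℕ × ℕ} {α β : ℤ}
    (h : D.LV A Q α β ν ν') :
    Q ∈ D.Act ∧ 1 ≤ α ∧ α + 1 ≤ A ∧ 2 ≤ β ∧ β + 2 ≤ BB N := by
  have hA := o.hA
  obtain ⟨h1, h2, h3, ⟨t, p⟩, ⟨t', p'⟩⟩ := h
  have m := on_main (by omega) (kok p.2.1) p.2.2 h1 h2
  have b := cv_box o p
  have b' := cv_box o p'
  exact ⟨p.1, by omega, by omega, by omega, by omega⟩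

lemma lv_not_cv (o : Ok ℓ l Λ σ N lo hi A θ) {Q Q' : ℤ × ℤ} {ν ν' μ : ℕ × ℕ} {α β α' β' t : ℤ}
    (h : D.LV A Q α β ν ν') (h' : D.CV A Q' μ α' β' t) :
    gl A (BB N) Q α β ≠ gl A (BB N) Q' α' β' := by
  intro e
  have hA := o.hA
  have b := lv_box o h
  have b' := cv_box o h'
  obtain ⟨rfl, rfl, rfl⟩ := gl_inj b.2.1 b.2.2.1 (by omega) (by omega) b'.1 b'.2.1 b'.2.2.1
    (by omega) e
  have := (on_main (by omega) (kok h'.2.1) h'.2.2 h.1 h.2.1).1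
  have := h.2.2.1
  omega

lemma lv_unique (o : Ok ℓ l Λ σ N lo hi A θ) {Q Q' : ℤ × ℤ} {ν ν' μ μ' : ℕ × ℕ} {α β α' β' : ℤ}
    (h : D.LV A Q α β ν ν') (h' : D.LV A Q' α' β' μ μ')
    (e : gl A (BB N) Q α β = gl A (BB N) Q' α' β') :
    Q = Q' ∧ α = α' ∧ β = β' ∧ ν = μ ∧ ν' = μ' := by
  have b := lv_box o h
  have b' := lv_box o h'
  obtain ⟨rfl, rfl, rfl⟩ := gl_inj b.2.1 b.2.2.1 (by omega) (by omega) (by omega) (by omega)
    (by omega) (by omega) e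
  obtain ⟨-, -, -, ⟨t, p⟩, ⟨t', p'⟩⟩ := h
  obtain ⟨-, -, -, ⟨u, q⟩, ⟨u', q'⟩⟩ := h'
  exact ⟨rfl, rfl, rfl, (cv_same o p q).1, (cv_same o p' q').1⟩

lemma gl_not_wall {A B : ℤ} {Q : ℤ × ℤ} {α β I : ℤ} (h1 : 1 ≤ α) (h2 : α + 1 ≤ A) :
    (gl A B Q α β).1 ≠ I * A := by
  intro e
  have := col_wall (i := Q.1) (I := I) (α := α) (by omega) (by omega) (by omega) e
  omega

lemma rho_pos (o : Ok ℓ l Λ σ N lo hi A θ) : 0 < ℓ / A := by
  have hA := o.hA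
  have : (0 : ℝ) < A := by exact_mod_cast (show 0 < A by omega)
  exact div_pos o.hℓ this

lemma mul_rho (o : Ok ℓ l Λ σ N lo hi A θ) : (A : ℝ) * (ℓ / A) = ℓ := by
  have hA := o.hA
  have : (A : ℝ) ≠ 0 := by exact_mod_cast (show A ≠ 0 by omega)
  field_simp

lemma X_mono (o : Ok ℓ l Λ σ N lo hi A θ) : StrictMono (D.Xa A) :=
  XX_mono o.hℓ (by have := o.hA; omega) D.hx1 D.hx2

lemma cc_step (a j : ℤ) : D.cc A a j + ℓ ≤ D.cc A a (j + 1) := by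
  unfold cc; split_ifs
  · exact D.hy2 _ _
  · exact D.hy1 _ _

lemma pp_near (o : Ok ℓ l Λ σ N lo hi A θ) (a j : ℤ) : |D.pp A a j - D.cc A a j| ≤ ℓ / 3 := by
  unfold cc pp; split_ifs
  · rw [sub_self, abs_zero]; linarith [o.hℓ]
  · exact D.hmid (a / A, j) _

lemma Y_mono (o : Ok ℓ l Λ σ N lo hi A θ) (a : ℤ) : StrictMono (D.Y A θ a) :=
  YC_mono (by have := BB_ge N; omega) o.hθ o.hθl (cc_step a) (pp_near o a)

lemma ps_inj (o : Ok ℓ l Λ σ N lo hi A θ) {v w : ℤ × ℤ} (h : D.ps A θ v = D.ps A θ w) : v = w :=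
  pt_inj (X_mono o) (Y_mono o) h

lemma Y_row (o : Ok ℓ l Λ σ N lo hi A θ) (a j β : ℤ) (h0 : 0 ≤ β) (h1 : β ≤ BB N) :
    (D.cc A a (j - 1) + D.cc A a j) / 2 ≤ D.Y A θ a (j * BB N + β) ∧
      D.Y A θ a (j * BB N + β) ≤ (D.cc A a j + D.cc A a (j + 1)) / 2 :=
  YC_bd (by have := BB_ge N; omega) o.hθ o.hθl (cc_step a) (pp_near o a) j β h0 h1

lemma Xa_wall (o : Ok ℓ l Λ σ N lo hi A θ) (i : ℤ) : D.Xa A (i * A) = D.xw i :=
  XX_wall (by have := o.hA; omega) i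

lemma Xa_in (i : ℤ) {α : ℤ} (h0 : 1 ≤ α) (h1 : α + 1 ≤ A) :
    D.Xa A (i * A + α) = D.xc i - ℓ / 2 + α * (ℓ / A) := by
  have := XX_in (l := ℓ) (A := A) (xc := D.xc) (xw := D.xw) i α h0 (by omega)
  rw [Int.cast_natCast] at this
  exact this

lemma cc_wall (o : Ok ℓ l Λ σ N lo hi A θ) (i : ℤ) :
    D.cc A (i * A) = D.yx i ∧ ∀ j, D.pp A (i * A) j = D.yx i j := by
  have hA := o.hA
  have e1 := row_div (B := A) (j := i) (β := 0) le_rfl (by omega)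
  have e2 := row_mod (B := A) (j := i) (β := 0) le_rfl (by omega)
  rw [add_zero] at e1 e2
  simp only [cc, pp, e1, e2, if_true, implies_true, and_self]

lemma cc_in (i : ℤ) {α : ℤ} (h0 : 1 ≤ α) (h1 : α + 1 ≤ A) :
    D.cc A (i * A + α) = D.yc i ∧
      ∀ j, D.pp A (i * A + α) j = D.h (i, j) (D.Xa A (i * A + α)) := by
  have e1 := row_div (B := A) (j := i) (β := α) (by omega) (by omega)
  have e2 := row_mod (B := A) (j := i) (β := α) (by omega) (by omega)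
  have e3 : ¬ α = 0 := by omega
  simp only [cc, pp, e1, e2, e3, if_false, implies_true, and_self]

lemma ps_wallG (o : Ok ℓ l Λ σ N lo hi A θ) (i j : ℤ) {β : ℤ} (h0 : 0 ≤ β) (h1 : β ≤ BB N) :
    D.ps A θ (i * A, j * BB N + β) ∈ wallG D.xw D.yx i j := by
  have y := Y_row (D := D) o (i * A) j β h0 h1
  rw [(cc_wall o i).1] at y
  exact ⟨Xa_wall o i, y.1, y.2⟩

lemma ps_reg (o : Ok ℓ l Λ σ N lo hi A θ) (Q : ℤ × ℤ) {α β : ℤ} (h0 : 0 ≤ α) (h1 : α ≤ A)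
    (h2 : 0 ≤ β) (h3 : β ≤ BB N) : D.ps A θ (gl A (BB N) Q α β) ∈ D.reg Q := by
  have b0 : 0 ≤ if Even (Q.1 + Q.2) then BB N - β else β := by split_ifs <;> omega
  have b1 : (if Even (Q.1 + Q.2) then BB N - β else β) ≤ BB N := by split_ifs <;> omega
  rcases eq_or_lt_of_le h0 with r | r
  · subst r
    refine D.wl Q ?_
    simp only [gl, add_zero]
    exact ps_wallG o _ _ b0 b1
  rcases eq_or_lt_of_le h1 with q | q
  · subst q
    refine D.wr Q ?_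
    simp only [gl]
    rw [show Q.1 * (A : ℤ) + A = (Q.1 + 1) * A by ring]
    exact ps_wallG o _ _ b0 b1
  have y := Y_row (D := D) o (Q.1 * A + α) Q.2 _ b0 b1
  rw [(cc_in Q.1 r (by omega)).1] at y
  have x := XX_in_bd (xc := D.xc) (xw := D.xw) o.hℓ Q.1 α r q
  refine D.box Q ⟨?_, y.1, y.2⟩
  show |XX ℓ A D.xc D.xw (Q.1 * A + α) - D.xc Q.1| ≤ ℓ / 2
  rw [abs_le]; constructor <;> linarith [x.1, x.2]

lemma ps_in (Q : ℤ × ℤ) {α β : ℤ} (h0 : 1 ≤ α) (h1 : α + 1 ≤ A) (h2 : 1 ≤ β)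
    (h3 : β + 1 ≤ BB N) :
    ∃ b : ℤ, 1 ≤ b ∧ b ≤ BB N ∧ (Even (Q.1 + Q.2) → b = BB N - β) ∧
      (¬ Even (Q.1 + Q.2) → b = β) ∧
      (D.ps A θ (gl A (BB N) Q α β)).re = D.xc Q.1 - ℓ / 2 + α * (ℓ / A) ∧
      (D.ps A θ (gl A (BB N) Q α β)).im =
        D.h Q (D.xc Q.1 - ℓ / 2 + α * (ℓ / A)) + b * θ := by
  refine ⟨if Even (Q.1 + Q.2) then BB N - β else β, by split_ifs <;> omega,
    by split_ifs <;> omega, fun e => if_pos e, fun e => if_neg e, Xa_in Q.1 h0 h1, ?_⟩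
  have := YC_in (θ := θ) (B := BB N) (c := D.cc A (Q.1 * A + α)) (p := D.pp A (Q.1 * A + α)) Q.2
    (if Even (Q.1 + Q.2) then BB N - β else β) (by split_ifs <;> omega) (by split_ifs <;> omega)
  rw [(cc_in Q.1 h0 h1).2, Xa_in Q.1 h0 h1] at this
  exact this

/-- Unit edges inside a band are short. -/
lemma ps_short (o : Ok ℓ l Λ σ N lo hi A θ) (Q : ℤ × ℤ) {α β α' β' : ℤ} (h : Adj α β α' β')
    (h0 : 1 ≤ α) (h1 : α + 1 ≤ A) (h2 : 1 ≤ β) (h3 : β + 1 ≤ BB N) (h0' : 1 ≤ α')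
    (h1' : α' + 1 ≤ A) (h2' : 1 ≤ β') (h3' : β' + 1 ≤ BB N) :
    ‖D.ps A θ (gl A (BB N) Q α β) - D.ps A θ (gl A (BB N) Q α' β')‖ ≤ (2 + Λ) * (ℓ / A) := by
  obtain ⟨b, -, -, b1, b2, e1, e2⟩ := ps_in (D := D) (A := A) (θ := θ) Q h0 h1 h2 h3
  obtain ⟨b', -, -, b1', b2', e1', e2'⟩ := ps_in (D := D) (A := A) (θ := θ) Q h0' h1' h2' h3'
  have r := rho_pos o
  have ha : |((α - α' : ℤ) : ℝ)| ≤ 1 := by
    have : |α - α'| ≤ 1 := by unfold Adj at h; rw [abs_le]; omega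
    exact_mod_cast this
  have hb : |((b - b' : ℤ) : ℝ)| ≤ 1 := by
    have : |b - b'| ≤ 1 := by
      unfold Adj at h; rw [abs_le]
      by_cases q : Even (Q.1 + Q.2)
      · have := b1 q; have := b1' q; omega
      · have := b2 q; have := b2' q; omega
    exact_mod_cast this
  set x := D.xc Q.1 - ℓ / 2 + α * (ℓ / A) with hx
  set x' := D.xc Q.1 - ℓ / 2 + α' * (ℓ / A) with hx'
  have dx : |x - x'| ≤ ℓ / A := by
    have : x - x' = ((α - α' : ℤ) : ℝ) * (ℓ / A) := by rw [hx, hx']; push_cast; ring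
    rw [this, abs_mul, abs_of_pos r]; nlinarith
  have lp := D.hlip Q x x'
  have db : |((b - b' : ℤ) : ℝ) * θ| ≤ ℓ / A := by
    rw [abs_mul, abs_of_pos o.hθ]; nlinarith [o.hθρ, o.hθ]
  refine (Complex.norm_le_abs_re_add_abs_im _).trans ?_
  rw [Complex.sub_re, Complex.sub_im, e1, e1', e2, e2']
  have : D.h Q x + b * θ - (D.h Q x' + b' * θ) =
      (D.h Q x - D.h Q x') + ((b - b' : ℤ) : ℝ) * θ := by push_cast; ring
  rw [this]
  have t := abs_add_le (D.h Q x - D.h Q x') (((b - b' : ℤ) : ℝ) * θ)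
  nlinarith [o.hΛ]

/-- Band vertices are close to the profile. -/
lemma ps_prof (o : Ok ℓ l Λ σ N lo hi A θ) (Q : ℤ × ℤ) {α β : ℤ} (h0 : 1 ≤ α) (h1 : α + 1 ≤ A)
    (h2 : 1 ≤ β) (h3 : β + 1 ≤ BB N) {z : ℂ} (hz : z.im = D.h Q z.re)
    (hx : |z.re - (D.xc Q.1 - ℓ / 2 + α * (ℓ / A))| ≤ ℓ / A) :
    ‖z - D.ps A θ (gl A (BB N) Q α β)‖ ≤ (1 + Λ) * (ℓ / A) + ((BB N : ℤ) : ℝ) * θ := by
  obtain ⟨b, b0, b1, -, -, e1, e2⟩ := ps_in (D := D) (A := A) (θ := θ) Q h0 h1 h2 h3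
  set x := D.xc Q.1 - ℓ / 2 + α * (ℓ / A)
  have lp := D.hlip Q z.re x
  have c0 : (1 : ℝ) ≤ b := by exact_mod_cast b0
  have c1 : (b : ℝ) ≤ (BB N : ℤ) := by exact_mod_cast b1
  refine (Complex.norm_le_abs_re_add_abs_im _).trans ?_
  rw [Complex.sub_re, Complex.sub_im, e1, e2, hz]
  have t := abs_sub (D.h Q z.re - D.h Q x) (b * θ)
  have u : |(b : ℝ) * θ| ≤ ((BB N : ℤ) : ℝ) * θ := by
    rw [abs_of_pos (by nlinarith [o.hθ])]; nlinarith [o.hθ]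
  rw [show D.h Q z.re - (D.h Q x + b * θ) = D.h Q z.re - D.h Q x - b * θ by ring]
  nlinarith [o.hΛ]

/-- Band vertices are close to the centre. -/
lemma ps_ct (o : Ok ℓ l Λ σ N lo hi A θ) (Q : ℤ × ℤ) {α β : ℤ} (h0 : 1 ≤ α) (h1 : α + 1 ≤ A)
    (h2 : 1 ≤ β) (h3 : β + 1 ≤ BB N) : ‖D.ps A θ (gl A (BB N) Q α β) - D.ct Q‖ ≤ ℓ := by
  obtain ⟨b, b0, b1, -, -, e1, e2⟩ := ps_in (D := D) (A := A) (θ := θ) Q h0 h1 h2 h3
  have x := XX_in_bd (xc := D.xc) (xw := D.xw) o.hℓ Q.1 α h0 (show α < A by omega)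
  rw [XX_in Q.1 α h0 (by omega), Int.cast_natCast] at x
  have m := abs_le.1 (D.hmid Q (D.xc Q.1 - ℓ / 2 + α * (ℓ / A)))
  have c0 : (1 : ℝ) ≤ b := by exact_mod_cast b0
  have c1 : (b : ℝ) ≤ (BB N : ℤ) := by exact_mod_cast b1
  have c2 : (b : ℝ) * θ ≤ ((BB N : ℤ) : ℝ) * θ := mul_le_mul_of_nonneg_right c1 o.hθ.le
  have c3 : 0 < (b : ℝ) * θ := mul_pos (by linarith) o.hθ
  refine (Complex.norm_le_abs_re_add_abs_im _).trans ?_
  rw [Complex.sub_re, Complex.sub_im, e1, e2]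
  have u : |D.xc Q.1 - ℓ / 2 + α * (ℓ / A) - (D.ct Q).re| ≤ ℓ / 2 := by
    simp only [ct]; rw [abs_le]; constructor <;> linarith [x.1, x.2]
  have v : |D.h Q (D.xc Q.1 - ℓ / 2 + α * (ℓ / A)) + b * θ - (D.ct Q).im| ≤ ℓ / 2 := by
    simp only [ct]; rw [abs_le]; constructor <;> linarith [m.1, m.2, o.hθl]
  linarith

/-- Wall vertices of a band are close to the crossing point. -/
lemma ps_wc (o : Ok ℓ l Λ σ N lo hi A θ) (i j : ℤ) {β : ℤ} (h2 : 1 ≤ β) (h3 : β + 1 ≤ BB N) :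
    ‖D.ps A θ (gl A (BB N) (i, j) A β) - D.wc (i + 1) j‖ ≤ ℓ := by
  set b := if Even (i + j) then BB N - β else β with hb
  have b0 : 1 ≤ b := by rw [hb]; split_ifs <;> omega
  have b1 : b < BB N := by rw [hb]; split_ifs <;> omega
  have e : gl A (BB N) (i, j) A β = ((i + 1) * A, j * BB N + b) := by
    simp only [gl, Prod.mk.injEq]; exact ⟨by ring, rfl⟩
  have y := YC_in (θ := θ) (c := D.cc A ((i + 1) * A)) (p := D.pp A ((i + 1) * A)) j b b0 b1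
  rw [(cc_wall o (i + 1)).2] at y
  have c0 : (1 : ℝ) ≤ b := by exact_mod_cast b0
  have c1 : (b : ℝ) ≤ (BB N : ℤ) := by exact_mod_cast b1.le
  have c2 : (b : ℝ) * θ ≤ ((BB N : ℤ) : ℝ) * θ := mul_le_mul_of_nonneg_right c1 o.hθ.le
  have c3 : 0 < (b : ℝ) * θ := mul_pos (by linarith) o.hθ
  refine (Complex.norm_le_abs_re_add_abs_im _).trans ?_
  rw [e, Complex.sub_re, Complex.sub_im]
  have u : (D.ps A θ ((i + 1) * A, j * BB N + b)).re = (D.wc (i + 1) j).re := Xa_wall o (i + 1)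
  have v : (D.ps A θ ((i + 1) * A, j * BB N + b)).im = (D.wc (i + 1) j).im + b * θ := y
  rw [u, v, sub_self, abs_zero, add_sub_cancel_left, abs_of_pos c3]
  linarith [o.hθl, o.hℓ]

/-- Floor vertices lie half way between the centres. -/
lemma ps_floor (o : Ok ℓ l Λ σ N lo hi A θ) (i j : ℤ) {α : ℤ} (h0 : 1 ≤ α) (h1 : α + 1 ≤ A)
    {ρ : ℝ} (hρ : ‖D.ct (i, j + 1) - D.ct (i, j)‖ ≤ ρ) :
    ℓ ≤ ρ ∧ ‖D.ps A θ (i * A + α, (j + 1) * BB N) - D.ct (i, j)‖ ≤ ρ ∧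
      ‖D.ps A θ (i * A + α, (j + 1) * BB N) - D.ct (i, j + 1)‖ ≤ ρ := by
  have r := (Complex.abs_im_le_norm _).trans hρ
  simp only [ct, Complex.sub_im] at r
  have s1 := D.hy1 i j
  have hl := o.hℓ
  rw [abs_of_nonneg (by linarith)] at r
  have x := XX_in_bd (xc := D.xc) (xw := D.xw) o.hℓ i α h0 (show α < A by omega)
  have y := YC_wall (θ := θ) (B := BB N) (c := D.cc A (i * A + α)) (p := D.pp A (i * A + α))
    (by have := BB_ge N; omega) (j + 1)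
  have u : (D.ps A θ (i * A + α, (j + 1) * BB N)).re = XX ℓ A D.xc D.xw (i * A + α) := rfl
  have v : (D.ps A θ (i * A + α, (j + 1) * BB N)).im = (D.yc i j + D.yc i (j + 1)) / 2 := by
    refine Eq.trans y ?_
    rw [(cc_in i h0 h1).1, add_sub_cancel_right]
  have w : |XX ℓ A D.xc D.xw (i * A + α) - D.xc i| ≤ ℓ / 2 := by
    rw [abs_le]; constructor <;> linarith [x.1, x.2]
  refine ⟨by linarith, (Complex.norm_le_abs_re_add_abs_im _).trans ?_,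
    (Complex.norm_le_abs_re_add_abs_im _).trans ?_⟩
  · rw [Complex.sub_re, Complex.sub_im, u, v]
    simp only [ct]
    rw [abs_of_nonneg (a := _ / 2 - _) (by linarith)]
    linarith
  · rw [Complex.sub_re, Complex.sub_im, u, v]
    simp only [ct]
    rw [abs_of_nonpos (a := _ / 2 - _) (by linarith)]
    linarith

end GData

end Pool.Agent.MP_d32a63_an.H13N
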