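import Pool.Agent.MP_d32a63_an.H13N.Pat
import Pool.Agent.MP_d32a63_an.H58.Adapt
import Pool.Agent.MP_d32a63_an.H95.GenSpec

/-! Positions of the columns, rows and walls of the pattern. -/

open Set Filter Topology Metric Polynomial
open Complex (I)
open Pool.Agent.MP_d32a63_an.H95 (Core Sec jet W0 Flat RealStmt)
open Pool.Agent.MP_d32a63_an.H58 hiding Cells Sq LAV LA1 LA2 LIMA LIMB LIM FIN

namespace Pool.Agent.MP_d32a63_an.H13N.GRID3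

noncomputable section

def xm (L : ℝ) (i : ℤ) : ℝ := (((i / 16 : ℤ) : ℝ) + 1 / 2) * L

def ym (L : ℝ) (j : ℤ) : ℝ := (((j / 6 : ℤ) : ℝ) + 1 / 2) * L

def xc (L ℓ : ℝ) (i : ℤ) : ℝ := xm L i + (((i % 16 : ℤ) : ℝ) - 8) * ℓ

def yr (L ℓ : ℝ) (j : ℤ) : ℝ := ym L j + ((j % 6 : ℤ) : ℝ) * ℓ

def yc (L ℓ : ℝ) (i j : ℤ) : ℝ :=
  if i % 16 = 15 ∧ j % 6 = 0 then yr L ℓ j - L + 6 * ℓ else yr L ℓ j

def xw (L ℓ : ℝ) (i : ℤ) : ℝ := if i % 16 = 0 then xm L i - L / 2 else xc L ℓ i - ℓ / 2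

def yx (L ℓ : ℝ) (i j : ℤ) : ℝ := if i % 16 = 0 then (j + 1 / 2) * (L / 6) else yr L ℓ j

variable {L ℓ : ℝ}

theorem clu_re (L : ℝ) (Q : ℤ × ℤ) : (cen L (clu Q)).re = xm L Q.1 := by
  rw [cen_re]; unfold clu xm; split_ifs <;> rfl

theorem clu_im (L : ℝ) (Q : ℤ × ℤ) :
    (cen L (clu Q)).im = if Q.1 % 16 = 15 ∧ Q.2 % 6 = 0 then ym L Q.2 - L else ym L Q.2 := by
  rw [cen_im]; unfold clu ym la lb
  split_ifs
  · push_cast; ring
  · rfl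

theorem xq_eq (L ℓ : ℝ) (Q : ℤ × ℤ) : xq L ℓ Q = ⟨xc L ℓ Q.1, yc L ℓ Q.1 Q.2⟩ := by
  apply Complex.ext
  · simp only [xq, Complex.add_re, clu_re, Complex.ofReal_re, Complex.mul_re, Complex.I_re,
      Complex.ofReal_im, Complex.I_im, xc, la]
    ring
  · simp only [xq, Complex.add_im, clu_im, Complex.ofReal_re, Complex.mul_im, Complex.I_re,
      Complex.ofReal_im, Complex.I_im, yc, yr, la, lb]
    split_ifs with h
    · rw [h.2]; push_cast; ring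
    · ring

theorem mod16 (i : ℤ) : (0 : ℝ) ≤ ((i % 16 : ℤ) : ℝ) ∧ ((i % 16 : ℤ) : ℝ) ≤ 15 :=
  ⟨by exact_mod_cast (by omega : 0 ≤ i % 16), by exact_mod_cast (by omega : i % 16 ≤ 15)⟩

theorem mod6 (j : ℤ) : (0 : ℝ) ≤ ((j % 6 : ℤ) : ℝ) ∧ ((j % 6 : ℤ) : ℝ) ≤ 5 :=
  ⟨by exact_mod_cast (by omega : 0 ≤ j % 6), by exact_mod_cast (by omega : j % 6 ≤ 5)⟩

theorem xw_succ (L ℓ : ℝ) (i : ℤ) :
    xw L ℓ (i + 1) = if i % 16 = 15 then xm L i + L / 2 else xc L ℓ i + ℓ / 2 := by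
  unfold xw xc xm
  by_cases h : i % 16 = 15
  · rw [if_pos h, if_pos (by omega), show (i + 1) / 16 = i / 16 + 1 by omega]
    push_cast; ring
  · rw [if_neg h, if_neg (by omega), show (i + 1) / 16 = i / 16 by omega,
      show (i + 1) % 16 = i % 16 + 1 by omega]
    push_cast; ring

theorem yr_succ (L ℓ : ℝ) (j : ℤ) :
    yr L ℓ (j + 1) = if j % 6 = 5 then yr L ℓ j + L - 5 * ℓ else yr L ℓ j + ℓ := by
  unfold yr ym
  by_cases h : j % 6 = 5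
  · rw [if_pos h, h, show (j + 1) / 6 = j / 6 + 1 by omega, show (j + 1) % 6 = 0 by omega]
    push_cast; ring
  · rw [if_neg h, show (j + 1) / 6 = j / 6 by omega, show (j + 1) % 6 = j % 6 + 1 by omega]
    push_cast; ring

theorem yc_succ (L ℓ : ℝ) (i j : ℤ) : yc L ℓ i (j + 1) = yc L ℓ i j + ℓ ∨
    (yc L ℓ i (j + 1) = yc L ℓ i j + L - 5 * ℓ ∧ clu (un (i, j)) ≠ clu (i, j)) := by
  unfold yc
  rw [yr_succ]
  by_cases h1 : i % 16 = 15 ∧ j % 6 = 0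
  · refine Or.inr ⟨?_, fun e => ?_⟩
    · rw [if_pos h1, if_neg (by omega), if_neg (by omega)]; ring
    · have := congrArg Prod.snd e
      unfold clu un la lb at this
      simp only at this
      rw [if_pos h1, if_neg (by omega)] at this
      simp only at this
      omega
  rw [if_neg h1]
  by_cases h2 : j % 6 = 5
  · by_cases h3 : i % 16 = 15
    · left
      rw [if_pos ⟨h3, by omega⟩, if_pos h2]; ring
    · refine Or.inr ⟨by rw [if_neg (by omega), if_pos h2], fun e => ?_⟩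
      have := congrArg Prod.snd e
      unfold clu un la lb at this
      simp only at this
      rw [if_neg h1, if_neg (by omega)] at this
      simp only at this
      omega
  · left
    rw [if_neg (by omega), if_neg h2]

section

variable (l0 : 0 < ℓ) (lL : 100 * ℓ ≤ L)
include l0 lL

theorem hx1 (i : ℤ) : xw L ℓ i + ℓ / 2 ≤ xc L ℓ i := by
  unfold xw
  split_ifs with h
  · unfold xc; rw [h]; push_cast; linarith
  · linarith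

theorem hx2 (i : ℤ) : xc L ℓ i + ℓ / 2 ≤ xw L ℓ (i + 1) := by
  rw [xw_succ]
  split_ifs with h
  · unfold xc; rw [h]; push_cast; linarith
  · linarith

theorem yc_step (i j : ℤ) :
    yc L ℓ i j + ℓ ≤ yc L ℓ i (j + 1) ∧ yc L ℓ i (j + 1) ≤ yc L ℓ i j + L := by
  rcases yc_succ L ℓ i j with h | ⟨h, -⟩ <;> rw [h] <;> constructor <;> linarith

theorem yx_step (i j : ℤ) :
    yx L ℓ i j + ℓ ≤ yx L ℓ i (j + 1) ∧ yx L ℓ i (j + 1) ≤ yx L ℓ i j + L := by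
  unfold yx
  split_ifs
  · push_cast; constructor <;> linarith
  · rw [yr_succ]; split_ifs <;> constructor <;> linarith

omit lL in
theorem xc_near (i : ℤ) : |xc L ℓ i - xm L i| ≤ 8 * ℓ := by
  obtain ⟨a, b⟩ := mod16 i
  unfold xc
  rw [abs_le]; constructor <;> nlinarith

theorem xw_near (i : ℤ) : |xw L ℓ i - xm L i| ≤ L / 2 ∧ |xw L ℓ (i + 1) - xm L i| ≤ L / 2 := by
  have := abs_le.1 (xc_near (L := L) l0 i)
  rw [xw_succ]
  unfold xw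
  constructor <;> split_ifs <;> rw [abs_le] <;> constructor <;> linarith [this.1, this.2]

theorem yx_near (i j : ℤ) : |yx L ℓ i j - ym L j| ≤ 5 * L / 12 := by
  obtain ⟨a, b⟩ := mod6 j
  unfold yx yr
  split_ifs
  · have e : (j : ℝ) = 6 * ((j / 6 : ℤ) : ℝ) + ((j % 6 : ℤ) : ℝ) := by
      exact_mod_cast (by omega : j = 6 * (j / 6) + j % 6)
    unfold ym
    generalize ((j / 6 : ℤ) : ℝ) = p at *
    generalize ((j % 6 : ℤ) : ℝ) = q at *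
    rw [e, abs_le]; constructor <;> nlinarith
  · rw [abs_le]; constructor <;> nlinarith

theorem mem_reg {z c : ℂ} (h1 : |z.re - c.re| ≤ L / 2) (h2 : |z.im - c.im| ≤ 23 * L / 12) :
    z ∈ ball c (2 * L) := by
  rw [mem_ball, dist_eq_norm]
  refine lt_of_pow_lt_pow_left₀ 2 (by linarith) ?_
  rw [Complex.sq_norm, Complex.normSq_apply, Complex.sub_re, Complex.sub_im]
  have a := sq_le_sq' (abs_le.1 h1).1 (abs_le.1 h1).2
  have b := sq_le_sq' (abs_le.1 h2).1 (abs_le.1 h2).2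
  nlinarith

theorem wall_reg (Q : ℤ × ℤ) {i : ℤ} (hi : i = Q.1 ∨ i = Q.1 + 1) :
    wallG (xw L ℓ) (yx L ℓ) i Q.2 ⊆ ball (cen L (clu Q)) (2 * L) := by
  rintro z ⟨h1, h2, h3⟩
  have a1 := yx_step l0 lL i (Q.2 - 1)
  have a2 := yx_step l0 lL i Q.2
  have a3 := abs_le.1 (yx_near l0 lL i Q.2)
  rw [sub_add_cancel] at a1
  refine mem_reg l0 lL ?_ ?_
  · rw [h1, clu_re]
    rcases hi with rfl | rfl
    · exact (xw_near l0 lL _).1
    · exact (xw_near l0 lL _).2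
  · rw [clu_im, abs_le]
    split_ifs <;> constructor <;> linarith [a1.1, a1.2, a2.1, a2.2, a3.1, a3.2]

theorem box_reg (Q : ℤ × ℤ) : boxG ℓ (xc L ℓ) (yc L ℓ) Q ⊆ ball (cen L (clu Q)) (2 * L) := by
  rintro z ⟨h1, h2, h3⟩
  have a1 := yc_step l0 lL Q.1 (Q.2 - 1)
  have a2 := yc_step l0 lL Q.1 Q.2
  rw [sub_add_cancel] at a1
  have a3 := xq_near l0.le L Q
  have a4 : ‖z - xq L ℓ Q‖ ≤ ℓ / 2 + L / 2 := by
    refine (Complex.norm_le_abs_re_add_abs_im _).trans (add_le_add ?_ ?_)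
    · rw [xq_eq]; exact h1
    · rw [xq_eq, Complex.sub_im, abs_le]
      constructor <;> linarith [a1.1, a1.2, a2.1, a2.2]
  rw [mem_ball, dist_eq_norm]
  linarith [norm_sub_le_norm_sub_add_norm_sub z (xq L ℓ Q) (cen L (clu Q))]

theorem wc_mem (i j : ℤ) : (⟨xw L ℓ i, yx L ℓ i j⟩ : ℂ) ∈ wallG (xw L ℓ) (yx L ℓ) i j := by
  have a1 := yx_step l0 lL i (j - 1)
  have a2 := yx_step l0 lL i j
  rw [sub_add_cancel] at a1
  exact ⟨rfl, by simp only; linarith [a1.1], by simp only; linarith [a2.1]⟩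

theorem wc_cen (Q : ℤ × ℤ) {i : ℤ} (hi : i = Q.1 ∨ i = Q.1 + 1) :
    ‖(⟨xw L ℓ i, yx L ℓ i Q.2⟩ : ℂ) - cen L (clu Q)‖ ≤ 2 * L :=
  (mem_ball_iff_norm.1 (wall_reg l0 lL Q hi (wc_mem l0 lL i Q.2))).le

theorem wc_xq (Q : ℤ × ℤ) {i : ℤ} (hi : i = Q.1 ∨ i = Q.1 + 1) :
    ‖(⟨xw L ℓ i, yx L ℓ i Q.2⟩ : ℂ) - xq L ℓ Q‖ ≤ 3 * L := by
  have a := wc_cen l0 lL Q hi
  have b := xq_near l0.le L Q
  rw [norm_sub_rev] at b
  linarith [norm_sub_le_norm_sub_add_norm_sub (⟨xw L ℓ i, yx L ℓ i Q.2⟩ : ℂ) (cen L (clu Q))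
    (xq L ℓ Q)]

theorem cen_sep {R R' : ℤ × ℤ} (h : R' ≠ R) : L ≤ ‖cen L R' - cen L R‖ := by
  have key : ∀ p q : ℤ, p ≠ q → L ≤ |((p : ℝ) + 1 / 2) * L - ((q : ℝ) + 1 / 2) * L| := by
    intro p q hpq
    have : (1 : ℝ) ≤ |(p : ℝ) - q| := by exact_mod_cast Int.one_le_abs (sub_ne_zero.2 hpq)
    rw [← sub_mul, add_sub_add_right_eq_sub, abs_mul, abs_of_pos (by linarith : 0 < L)]
    nlinarith
  by_cases h1 : R'.1 = R.1
  · refine le_trans ?_ (Complex.abs_im_le_norm _)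
    rw [Complex.sub_im, cen_im, cen_im]
    exact key _ _ fun e => h (Prod.ext h1 e)
  · refine le_trans ?_ (Complex.abs_re_le_norm _)
    rw [Complex.sub_re, cen_re, cen_re]
    exact key _ _ h1

/-- the vertical neighbour -/
theorem up_geo (Q : ℤ × ℤ) : ‖xq L ℓ (un Q) - xq L ℓ Q‖ ≤ ‖dl L Q (un Q)‖ + ℓ ∧
    ‖dl L Q (un Q)‖ ≤ 4 * L := by
  have e : ‖xq L ℓ (un Q) - xq L ℓ Q‖ = |yc L ℓ Q.1 (Q.2 + 1) - yc L ℓ Q.1 Q.2| := by
    rw [← Complex.abs_im_eq_norm.2 (by rw [xq_eq, xq_eq]; simp [un]), xq_eq, xq_eq]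
    rfl
  have a := yc_step l0 lL Q.1 Q.2
  have b := xq_sub l0.le L Q (un Q)
  have c := norm_sub_le (xq L ℓ (un Q) - xq L ℓ Q) (xq L ℓ (un Q) - xq L ℓ Q - dl L Q (un Q))
  rw [sub_sub_cancel] at c
  rw [abs_of_nonneg (by linarith [a.1])] at e
  refine ⟨?_, by linarith [a.2]⟩
  rcases yc_succ L ℓ Q.1 Q.2 with h | ⟨-, h⟩
  · linarith [norm_nonneg (dl L Q (un Q))]
  · have : L ≤ ‖dl L Q (un Q)‖ := cen_sep l0 lL h
    linarith [a.2]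

/-- the right neighbour -/
theorem rt_geo (Q : ℤ × ℤ) :
    ‖(⟨xw L ℓ (Q.1 + 1), yx L ℓ (Q.1 + 1) Q.2⟩ : ℂ) - xq L ℓ Q‖ ≤ 3 * (‖dl L Q (rn Q)‖ + ℓ) ∧
    ‖(⟨xw L ℓ (Q.1 + 1), yx L ℓ (Q.1 + 1) Q.2⟩ : ℂ) - xq L ℓ (rn Q)‖ ≤ 3 * (‖dl L Q (rn Q)‖ + ℓ) ∧
    ‖dl L Q (rn Q)‖ ≤ 4 * L := by
  have a := wc_cen l0 lL Q (Or.inr rfl)
  have b : ‖(⟨xw L ℓ (Q.1 + 1), yx L ℓ (Q.1 + 1) Q.2⟩ : ℂ) - cen L (clu (rn Q))‖ ≤ 2 * L :=
    wc_cen l0 lL (rn Q) (Or.inl rfl)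
  have c : ‖dl L Q (rn Q)‖ ≤ 4 * L := by
    rw [norm_sub_rev] at b
    unfold dl
    linarith [norm_sub_le_norm_sub_add_norm_sub (cen L (clu (rn Q)))
      (⟨xw L ℓ (Q.1 + 1), yx L ℓ (Q.1 + 1) Q.2⟩ : ℂ) (cen L (clu Q))]
  by_cases h : clu (rn Q) = clu Q
  · have h1 := congrArg Prod.fst h
    have h2 := congrArg Prod.snd h
    unfold clu rn la lb at h1 h2
    have h3 : Q.1 % 16 ≠ 15 := by
      intro e
      split_ifs at h1 <;> simp only at h1 <;> omega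
    have h4 : ¬((Q.1 + 1) % 16 = 15 ∧ Q.2 % 6 = 0) := by
      intro e
      simp only at h2
      rw [if_pos e, if_neg (by omega)] at h2
      simp only at h2
      omega
    have e1 : xw L ℓ (Q.1 + 1) = xc L ℓ Q.1 + ℓ / 2 := by rw [xw_succ, if_neg h3]
    have e2 : xw L ℓ (Q.1 + 1) = xc L ℓ (Q.1 + 1) - ℓ / 2 := if_neg (by omega)
    have e3 : yx L ℓ (Q.1 + 1) Q.2 = yr L ℓ Q.2 := if_neg (by omega)
    have e4 : yc L ℓ Q.1 Q.2 = yr L ℓ Q.2 := if_neg (by omega)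
    have e5 : yc L ℓ (Q.1 + 1) Q.2 = yr L ℓ Q.2 := if_neg h4
    have n0 := norm_nonneg (dl L Q (Q.1 + 1, Q.2))
    refine ⟨?_, ?_, c⟩ <;> refine (Complex.norm_le_abs_re_add_abs_im _).trans ?_ <;>
      rw [xq_eq] <;> simp only [Complex.sub_re, Complex.sub_im, rn]
    · rw [e1, e3, e4, sub_self, abs_zero, add_sub_cancel_left, abs_of_pos (by linarith)]
      linarith
    · rw [e2, e3, e5, sub_self, abs_zero, sub_sub_cancel_left, abs_neg, abs_of_pos (by linarith)]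
      linarith
  · have d : L ≤ ‖dl L Q (rn Q)‖ := cen_sep l0 lL h
    have a' := wc_xq l0 lL Q (Or.inr rfl)
    have b' : ‖(⟨xw L ℓ (Q.1 + 1), yx L ℓ (Q.1 + 1) Q.2⟩ : ℂ) - xq L ℓ (rn Q)‖ ≤ 3 * L :=
      wc_xq l0 lL (rn Q) (Or.inl rfl)
    exact ⟨by linarith, by linarith, c⟩

end

theorem xw_mul (L ℓ : ℝ) (k : ℤ) : xw L ℓ (16 * k) = k * L := by
  unfold xw xm
  rw [if_pos (by omega), show 16 * k / 16 = k by omega]
  ring

theorem yx_mul (L ℓ : ℝ) (k j : ℤ) : yx L ℓ (16 * k) j = (j + 1 / 2) * (L / 6) :=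
  if_pos (by omega)

theorem wall_sub (hL : 0 < L) (ℓ : ℝ) (k j : ℤ) :
    wallG (xw L ℓ) (yx L ℓ) (16 * k) j ⊆ H23.wall L k (j / 6) := by
  rintro z ⟨h1, h2, h3⟩
  rw [xw_mul] at h1
  simp only [yx_mul] at h2 h3
  push_cast at h2 h3
  obtain ⟨a, b⟩ := mod6 j
  have e : (j : ℝ) = 6 * ((j / 6 : ℤ) : ℝ) + ((j % 6 : ℤ) : ℝ) := by
    exact_mod_cast (by omega : j = 6 * (j / 6) + j % 6)
  refine ⟨h1, ?_, ?_⟩
  all_goals
    generalize ((j / 6 : ℤ) : ℝ) = p at *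
    generalize ((j % 6 : ℤ) : ℝ) = q at *
    rw [e] at h2 h3
    nlinarith

theorem rat_xc {q q' : ℚ} (i : ℤ) : ∃ r : ℚ, xc (q : ℝ) (q' : ℝ) i = r :=
  ⟨((i / 16 : ℤ) + 1 / 2) * q + ((i % 16 : ℤ) - 8) * q', by unfold xc xm; push_cast; ring⟩

theorem rat_xw {q q' : ℚ} (i : ℤ) : ∃ r : ℚ, xw (q : ℝ) (q' : ℝ) i = r := by
  unfold xw
  split_ifs
  · exact ⟨((i / 16 : ℤ) + 1 / 2) * q - q / 2, by unfold xm; push_cast; ring⟩
  · obtain ⟨r, hr⟩ := rat_xc (q := q) (q' := q') i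
    exact ⟨r - q' / 2, by rw [hr]; push_cast; ring⟩

/-- The profiles of the cells. -/
theorem exists_prof {n W F κ D O To ν} (H : GHyp3 n W F κ D O To ν) :
    ∃ h : ℤ × ℤ → ℝ → ℝ, (∀ Q x x', |h Q x - h Q x'| ≤ 1 / D.c * |x - x'|) ∧
      (∀ Q x, |h Q x - yc D.L D.ℓ Q.1 Q.2| ≤ D.ℓ / 3) ∧
      ∀ Q, act W D.L (clu Q) → ∀ ζ ∈ D.Z Q, ζ.im = h Q ζ.re := by
  have hl := H.l0
  have hc := H.c0
  have key : ∀ Q : ℤ × ℤ, ∃ h : ℝ → ℝ, (∀ x x', |h x - h x'| ≤ 1 / D.c * |x - x'|) ∧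
      (∀ x, |h x - yc D.L D.ℓ Q.1 Q.2| ≤ D.ℓ / 3) ∧
      ∀ z ∈ {z | act W D.L (clu Q) ∧ z ∈ D.Z Q}, z.im = h z.re := by
    intro Q
    have him : ∀ z ∈ {z | act W D.L (clu Q) ∧ z ∈ D.Z Q},
        |z.im - yc D.L D.ℓ Q.1 Q.2| ≤ D.ℓ / 3 := fun z hz => by
      have := (Complex.abs_im_le_norm _).trans (H.box Q hz.1 z hz.2)
      rwa [xq_eq] at this
    refine exists_profile _ _ _ _ (by positivity) (by positivity) (fun z hz z' hz' => ?_) him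
    by_cases hzz : z = z'
    · rw [hzz]; simp
    have h1 := abs_le.1 (him z hz)
    have h2 := abs_le.1 (him z' hz')
    have h4 := H.sep Q hz.1 z hz.2 z' hz'.2 hzz
    calc |z.im - z'.im| ≤ D.ℓ := by rw [abs_le]; constructor <;> linarith [h1.1, h1.2, h2.1, h2.2]
      _ = 1 / D.c * (D.c * D.ℓ) := by field_simp
      _ ≤ 1 / D.c * |z.re - z'.re| := by gcongr
  choose h h1 h2 h3 using key
  exact ⟨h, h1, h2, fun Q hQ ζ hζ => h3 Q ζ ⟨hQ, hζ⟩⟩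

/-- From Taylor order `n` to Taylor order two. -/
theorem comb (hB : BASIC) {n : ℕ} (hn : 2 ≤ n) {W : Set ℂ} {G : ℕ → ℂ → ℂ} (hG : Sec n W G)
    {p q z : ℂ} {A c Cg ρ u : ℝ} (hp : p ∈ closure W) (hq : q ∈ closure W) (p3 : ‖p‖ ≤ 3)
    (q3 : ‖q‖ ≤ 3) (hc : 0 < c) (c1 : c ≤ 1 / 10) (hCg : 1000 * 4 ^ n + 1000 * n ≤ Cg)
    (r0 : 0 ≤ ρ) (r1 : ρ ≤ 3 * u) (u1 : 9 * u ≤ 1) (zp : ‖z - p‖ ≤ 9 * u) (zq : ‖z - q‖ ≤ 9 * u)
    (h : ‖H95.tay n G p z - H95.tay n G q z‖ ≤ A + 4 ^ n * (40 + 20 * (1 / c)) * ρ ^ n) :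
    ‖(tay 2 G p - tay 2 G q).eval z‖ ≤ A + Cg / c * u ^ 2 := by
  have h2 := H95.tay_tail hB hn G p z zero_le_one (fun j hj => hG.bdd j hj.le _ hp p3) zp u1
  have h3 := H95.tay_tail hB hn G q z zero_le_one (fun j hj => hG.bdd j hj.le _ hq q3) zq u1
  rw [← hB.ev, ← hB.ev] at h
  have e : (tay 2 G p - tay 2 G q).eval z = ((tay n G p).eval z - (tay n G q).eval z) -
      ((tay n G p).eval z - (tay 2 G p).eval z) + ((tay n G q).eval z - (tay 2 G q).eval z) := by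
    rw [eval_sub]; ring
  have h4 := norm_sub_le ((tay n G p).eval z - (tay n G q).eval z)
    ((tay n G p).eval z - (tay 2 G p).eval z)
  have h5 : ρ ^ n ≤ (3 * u) ^ 2 :=
    (pow_le_pow_of_le_one r0 (by linarith) hn).trans (pow_le_pow_left₀ r0 r1 2)
  have h6 : (10 : ℝ) ≤ 1 / c := by rw [le_div_iff₀ hc]; linarith
  have h7 : Cg / c = Cg * (1 / c) := by ring
  have n0 : (0 : ℝ) ≤ n := Nat.cast_nonneg n
  have p0 : (0 : ℝ) < 4 ^ n := by positivity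
  generalize 1 / c = x at *
  have h8 : (4 : ℝ) ^ n * (40 + 20 * x) * ρ ^ n ≤ 4 ^ n * (24 * x) * (3 * u) ^ 2 := by
    gcongr; linarith
  have h9 : (1000 * 4 ^ n + 1000 * n) * x * u ^ 2 ≤ Cg * x * u ^ 2 := by gcongr
  have h10 : n * u ^ 2 ≤ n * x * u ^ 2 := by gcongr; nlinarith
  have h11 : 0 ≤ 4 ^ n * x * u ^ 2 := by positivity
  have h12 : 0 ≤ n * u ^ 2 := by positivity
  rw [e, h7]
  refine (norm_add_le _ _).trans ?_
  nlinarith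

end

end Pool.Agent.MP_d32a63_an.H13N.GRID3
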