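import Pool.Agent.MP_d32a63_an.H13N.GObj

/-! The family of edges and gaps satisfies the hypotheses of the realisation lemma. -/

namespace Pool.Agent.MP_d32a63_an.H13N

open Set Polynomial Pool.Agent.MP_d32a63_an.H95 G
open Pool.Agent.MP_d32a63_an.H23 (MM BB gl Ob mem_vseg)

namespace GData

variable {n : ℕ} {s : Core n} {κ ℓ l Λ σ : ℝ} {N lo hi : ℕ} {τ : Type}
  (D : GData s κ ℓ l Λ σ N lo hi τ) (A : ℕ) (θ : ℝ)

/-- A bound for the lengths of the threads. -/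
noncomputable def big : ℝ := ∑ t ∈ D.Th, |D.y1 t - D.y0 t|

/-- Label and potential of a vertex. -/
def Inf (v : ℤ × ℤ) (L : ℂ[X]) (r : ℝ) : Prop :=
  (∃ t b, D.TV A θ t b ∧ v = (D.I t * A, b) ∧ L = D.tlab t b ∧ r = |D.Yw A θ t b - D.y0 t|) ∨
  ((¬ ∃ t b, D.TV A θ t b ∧ v = (D.I t * A, b)) ∧
    ∃ Q ν α β d, D.CV A Q ν α β d ∧ v = gl A (BB N) Q α β ∧ L = D.T Q ν ∧ r = D.big + d) ∨
  (∃ Q α β ν ν', D.LV A Q α β ν ν' ∧ v = gl A (BB N) Q α β ∧ L = D.T Q ν' ∧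
    r = D.big + ((3 * A + 3 * MM N + 1 : ℤ) : ℝ))

/-- The chosen label and potential of a point. -/
noncomputable def sel (z : ℂ) : ℂ[X] × ℝ :=
  Classical.epsilon fun p : ℂ[X] × ℝ => ∃ v, D.ps A θ v = z ∧ D.Inf A θ v p.1 p.2

open Classical in
/-- The global jets. -/
noncomputable def JJ (j : ℕ) (z : ℂ) : ℂ :=
  if z ∈ closure s.W then s.F j z else jet (D.sel A θ z).1 j z

open Classical in
/-- The global potential. -/
noncomputable def phi (z : ℂ) : ℝ := if z ∈ closure s.W then 0 else (D.sel A θ z).2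

variable {D A θ}

lemma inf_unique (o : Ok ℓ l Λ σ N lo hi A θ) {v : ℤ × ℤ} {L L' : ℂ[X]} {r r' : ℝ}
    (h : D.Inf A θ v L r) (h' : D.Inf A θ v L' r') : L = L' ∧ r = r' := by
  rcases h with ⟨t, b, a1, a2, a3, a4⟩ | ⟨a0, Q, ν, α, β, d, a1, a2, a3, a4⟩ |
    ⟨Q, α, β, ν, ν', a1, a2, a3, a4⟩ <;>
  rcases h' with ⟨t', b', c1, c2, c3, c4⟩ | ⟨c0, Q', μ, α', β', d', c1, c2, c3, c4⟩ |
    ⟨Q', α', β', μ, μ', c1, c2, c3, c4⟩
  · obtain ⟨rfl, rfl⟩ := tv_unique o a1 c1 (a2.symm.trans c2)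
    exact ⟨a3.trans c3.symm, a4.trans c4.symm⟩
  · exact (c0 ⟨t, b, a1, a2⟩).elim
  · exact (hd_lv o c1 _ _ (congrArg Prod.fst (c2.symm.trans a2))).elim
  · exact (a0 ⟨t', b', c1, c2⟩).elim
  · obtain ⟨e1, e2, -⟩ := cv_unique o a1 c1 (a2.symm.trans c2)
    exact ⟨by rw [a3, c3, e2], by rw [a4, c4, e1]⟩
  · exact (lv_not_cv o c1 a1 (c2.symm.trans a2)).elim
  · exact (hd_lv o a1 _ _ (congrArg Prod.fst (a2.symm.trans c2))).elim
  · exact (lv_not_cv o a1 c1 (a2.symm.trans c2)).elim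
  · obtain ⟨rfl, rfl, rfl, rfl, rfl⟩ := lv_unique o a1 c1 (a2.symm.trans c2)
    exact ⟨a3.trans c3.symm, a4.trans c4.symm⟩

lemma cv_sq (o : Ok ℓ l Λ σ N lo hi A θ) {Q : ℤ × ℤ} {ν : ℕ × ℕ} {α β d : ℤ}
    (h : D.CV A Q ν α β d) : D.ps A θ (gl A (BB N) Q α β) ∈ D.reg Q := by
  have b := cv_box o h
  exact ps_reg o Q b.1 b.2.1 b.2.2.1 (by omega)

lemma lv_sq (o : Ok ℓ l Λ σ N lo hi A θ) {Q : ℤ × ℤ} {ν ν' : ℕ × ℕ} {α β : ℤ}
    (h : D.LV A Q α β ν ν') : D.ps A θ (gl A (BB N) Q α β) ∈ D.reg Q := by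
  have b := lv_box o h
  exact ps_reg o Q (by omega) (by omega) (by omega) (by omega)

lemma inf_free (o : Ok ℓ l Λ σ N lo hi A θ) {v : ℤ × ℤ} {L : ℂ[X]} {r : ℝ}
    (h : D.Inf A θ v L r) : D.ps A θ v ∉ closure s.W := by
  rcases h with ⟨t, b, a1, rfl, -⟩ | ⟨-, Q, ν, α, β, d, a1, rfl, -⟩ | ⟨Q, α, β, ν, ν', a1, rfl, -⟩
  · exact Set.disjoint_left.1 (D.free t a1.1) (tv_mem o a1)
  · exact Set.disjoint_left.1 (D.act Q a1.1) (cv_sq o a1)
  · exact Set.disjoint_left.1 (D.act Q (lv_box o a1).1) (lv_sq o a1)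

lemma inf_J (o : Ok ℓ l Λ σ N lo hi A θ) {v : ℤ × ℤ} {L : ℂ[X]} {r : ℝ} (h : D.Inf A θ v L r) :
    (∀ j, jet L j (D.ps A θ v) = D.JJ A θ j (D.ps A θ v)) ∧ D.phi A θ (D.ps A θ v) = r := by
  obtain ⟨w, e, hw⟩ := Classical.epsilon_spec
    (p := fun p : ℂ[X] × ℝ => ∃ w, D.ps A θ w = D.ps A θ v ∧ D.Inf A θ w p.1 p.2)
    ⟨(L, r), v, rfl, h⟩
  obtain rfl := ps_inj o e
  obtain ⟨e1, e2⟩ := inf_unique o h hw
  have f := inf_free o h
  refine ⟨fun j => ?_, ?_⟩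
  · unfold JJ; rw [if_neg f, e1]; rfl
  · unfold phi; rw [if_neg f, e2]; rfl

lemma tv_big {t : τ} {b : ℤ} (h : D.TV A θ t b) :
    |D.Yw A θ t b - D.y0 t| ≤ |D.y1 t - D.y0 t| ∧ |D.y1 t - D.y0 t| ≤ D.big := by
  refine ⟨?_, Finset.single_le_sum (f := fun t => |D.y1 t - D.y0 t|)
    (fun _ _ => abs_nonneg _) h.1⟩
  obtain ⟨-, a, b⟩ := h
  rcases le_total (D.y0 t) (D.y1 t) with r | r
  · rw [min_eq_left r] at a; rw [max_eq_right r] at b
    rw [abs_of_nonneg (by linarith), abs_of_nonneg (by linarith)]; linarith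
  · rw [min_eq_right r] at a; rw [max_eq_left r] at b
    rw [abs_of_nonpos (by linarith), abs_of_nonpos (by linarith)]; linarith

lemma inf_cv (o : Ok ℓ l Λ σ N lo hi A θ) {Q : ℤ × ℤ} {ν : ℕ × ℕ} {α β d : ℤ}
    (h : D.CV A Q ν α β d) :
    ∃ r, D.Inf A θ (gl A (BB N) Q α β) (D.T Q ν) r ∧ r ≤ D.big + d ∧ (0 < d → r = D.big + d) := by
  by_cases e : ∃ t b, D.TV A θ t b ∧ gl A (BB N) Q α β = (D.I t * A, b)
  · obtain ⟨t, b, e1, e2⟩ := e
    obtain ⟨u1, u2⟩ := cv_tv o h e1 e2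
    refine ⟨_, Or.inl ⟨t, b, e1, e2, u1, rfl⟩, ?_, fun q => by omega⟩
    rw [u2]; push_cast
    linarith [(tv_big e1).1, (tv_big e1).2]
  · exact ⟨_, Or.inr (Or.inl ⟨e, Q, ν, α, β, d, h, rfl, rfl, rfl⟩), le_rfl, fun _ => rfl⟩

lemma inf_lv {Q : ℤ × ℤ} {ν ν' : ℕ × ℕ} {α β : ℤ} (h : D.LV A Q α β ν ν') :
    D.Inf A θ (gl A (BB N) Q α β) (D.T Q ν') (D.big + ((3 * A + 3 * MM N + 1 : ℤ) : ℝ)) :=
  Or.inr (Or.inr ⟨Q, α, β, ν, ν', h, rfl, rfl, rfl⟩)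

lemma inf_tv {t : τ} {b : ℤ} (h : D.TV A θ t b) :
    D.Inf A θ (D.I t * A, b) (D.tlab t b) |D.Yw A θ t b - D.y0 t| :=
  Or.inl ⟨t, b, h, rfl, rfl, rfl⟩

lemma fr_te_in (o : Ok ℓ l Λ σ N lo hi A θ) {t : τ} {b : ℤ} (h : D.TV A θ t (b - D.dir t)) :
    D.fr A θ (.te t b) = D.ps A θ (D.I t * A, b - D.dir t) ∧
      D.labF A θ (.te t b) = D.tlab t (b - D.dir t) ∧
      D.lowY A θ t b = D.Yw A θ t (b - D.dir t) := by
  simp only [fr, labF, lowY, h, if_true, ps_wall o, and_self]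

lemma fr_te_out {t : τ} {b : ℤ} (h : ¬ D.TV A θ t (b - D.dir t)) :
    D.fr A θ (.te t b) = ⟨D.xw (D.I t), D.y0 t⟩ ∧ D.labF A θ (.te t b) = D.P t ∧
      D.lowY A θ t b = D.y0 t := by
  simp only [fr, labF, lowY, h, if_false, and_self]

lemma low_lt (o : Ok ℓ l Λ σ N lo hi A θ) {t : τ} {b : ℤ} (h : D.TV A θ t b) :
    |D.Yw A θ t b - D.y0 t| = |D.lowY A θ t b - D.y0 t| + |D.Yw A θ t b - D.lowY A θ t b| ∧
      0 < |D.Yw A θ t b - D.lowY A θ t b| := by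
  rcases low_between o h with r | r
  · obtain ⟨-, -, r1, r2, -⟩ := r
    rw [abs_of_nonneg (by linarith), abs_of_nonneg (by linarith), abs_of_nonneg (by linarith)]
    constructor <;> linarith
  · obtain ⟨-, -, r1, r2, -⟩ := r
    rw [abs_of_nonpos (by linarith), abs_of_nonpos (by linarith), abs_of_nonpos (by linarith)]
    constructor <;> linarith

lemma phi_lt (o : Ok ℓ l Λ σ N lo hi A θ) {x : Ob τ} (h : D.mem A θ x) (e : x.isE) :
    D.phi A θ (D.fr A θ x) < D.phi A θ (D.ps A θ (D.hd A θ x)) := by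
  cases x with
  | ce Q ν α β =>
    obtain ⟨d, hd, h⟩ := h
    obtain ⟨r, a1, -, a3⟩ := inf_cv o h
    obtain ⟨r', b1, b2, -⟩ := inf_cv o (par_spec o h hd).1
    simp only [fr, GData.hd]
    rw [(inf_J o a1).2, (inf_J o b1).2, a3 hd]
    push_cast at b2; linarith
  | le Q α β ν ν' =>
    obtain ⟨d, p⟩ := h.2.2.2.1
    obtain ⟨r', b1, b2, -⟩ := inf_cv o p
    simp only [fr, GData.hd]
    rw [(inf_J o (inf_lv h)).2, (inf_J o b1).2]
    have : d < 3 * A + 3 * MM N + 1 := by have := cv_box o p; omega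
    have : (d : ℝ) < ((3 * A + 3 * MM N + 1 : ℤ) : ℝ) := by exact_mod_cast this
    linarith
  | lg Q α β ν ν' => exact e.elim
  | te t b =>
    have u := low_lt o h
    have : D.phi A θ (D.fr A θ (.te t b)) = |D.lowY A θ t b - D.y0 t| := by
      by_cases q : D.TV A θ t (b - D.dir t)
      · obtain ⟨a1, -, a3⟩ := fr_te_in o q
        rw [a1, a3, (inf_J o (inf_tv q)).2]
      · obtain ⟨a1, -, a3⟩ := fr_te_out q
        rw [a1, a3, sub_self, abs_zero]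
        unfold phi; rw [if_pos (D.start t h.1).1]
    rw [this]
    simp only [GData.hd]
    rw [(inf_J o (inf_tv h)).2]
    linarith [u.1, u.2]
  | tg t => exact e.elim

lemma same_hd (o : Ok ℓ l Λ σ N lo hi A θ) {x y : Ob τ} (hx : D.mem A θ x) (hy : D.mem A θ y)
    (ex : x.isE) (ey : y.isE) (e1 : D.hd A θ x = D.hd A θ y) : x = y := by
  cases x with
  | ce Q ν α β =>
    cases y with
    | ce Q' ν' α' β' =>
      obtain ⟨t, ht, h⟩ := hx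
      obtain ⟨t', ht', h'⟩ := hy
      obtain ⟨rfl, rfl, rfl, rfl⟩ := (cv_unique o h h' e1).2.2 ht
      rfl
    | le Q' α' β' μ μ' => obtain ⟨t, ht, h⟩ := hx; exact (lv_not_cv o hy h e1.symm).elim
    | lg Q' α' β' μ μ' => exact ey.elim
    | te t b => exact (hd_ce o hx _ (congrArg Prod.fst e1)).elim
    | tg t => exact ey.elim
  | le Q α β ν ν' =>
    cases y with
    | ce Q' ν' α' β' => obtain ⟨t, ht, h⟩ := hy; exact (lv_not_cv o hx h e1).elim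
    | le Q' α' β' μ μ' =>
      obtain ⟨rfl, rfl, rfl, rfl, rfl⟩ := lv_unique o hx hy e1
      rfl
    | lg Q' α' β' μ μ' => exact ey.elim
    | te t b => exact (hd_lv o hx _ _ (congrArg Prod.fst e1)).elim
    | tg t => exact ey.elim
  | lg Q α β ν ν' => exact ex.elim
  | te t b =>
    cases y with
    | ce Q' ν' α' β' => exact (hd_ce o hy _ (congrArg Prod.fst e1).symm).elim
    | le Q' α' β' μ μ' => exact (hd_lv o hy _ _ (congrArg Prod.fst e1).symm).elim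
    | lg Q' α' β' μ μ' => exact ey.elim
    | te t' b' =>
      obtain ⟨rfl, rfl⟩ := tv_unique o hx hy e1
      rfl
    | tg t' => exact ey.elim
  | tg t => exact ex.elim

lemma ce_sq (o : Ok ℓ l Λ σ N lo hi A θ) {Q : ℤ × ℤ} {ν : ℕ × ℕ} {α β : ℤ}
    (h : D.mem A θ (.ce Q ν α β)) :
    segment ℝ (D.ps A θ (D.hd A θ (.ce Q ν α β))) (D.fr A θ (.ce Q ν α β)) ⊆ D.reg Q := by
  obtain ⟨d, hd, h⟩ := h
  exact (D.conv Q).segment_subset (cv_sq o h) (cv_sq o (par_spec o h hd).1)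

lemma le_sq (o : Ok ℓ l Λ σ N lo hi A θ) {Q : ℤ × ℤ} {ν ν' : ℕ × ℕ} {α β : ℤ}
    (h : D.LV A Q α β ν ν') :
    segment ℝ (D.ps A θ (D.hd A θ (.le Q α β ν ν'))) (D.fr A θ (.le Q α β ν ν')) ⊆ D.reg Q := by
  obtain ⟨d, p⟩ := h.2.2.2.1
  exact (D.conv Q).segment_subset (lv_sq o h) (cv_sq o p)

lemma lg_sq (o : Ok ℓ l Λ σ N lo hi A θ) {Q : ℤ × ℤ} {ν ν' : ℕ × ℕ} {α β : ℤ}
    (h : D.LV A Q α β ν ν') :
    segment ℝ (D.ps A θ (D.hd A θ (.lg Q α β ν ν'))) (D.fr A θ (.lg Q α β ν ν')) ⊆ D.reg Q := by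
  obtain ⟨d, p⟩ := h.2.2.2.2
  exact (D.conv Q).segment_subset (lv_sq o h) (cv_sq o p)

lemma open_free (o : Ok ℓ l Λ σ N lo hi A θ) {x : Ob τ} (h : D.mem A θ x) :
    Disjoint (openSegment ℝ (D.ps A θ (D.hd A θ x)) (D.fr A θ x)) (closure s.W) := by
  cases x with
  | ce Q ν α β =>
    obtain ⟨d, hd, h'⟩ := id h
    exact (D.act Q h'.1).mono_left ((openSegment_subset_segment _ _ _).trans (ce_sq o h))
  | le Q α β ν ν' =>
    exact (D.act Q (lv_box o h).1).mono_left ((openSegment_subset_segment _ _ _).trans (le_sq o h))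
  | lg Q α β ν ν' =>
    exact (D.act Q (lv_box o h).1).mono_left ((openSegment_subset_segment _ _ _).trans (lg_sq o h))
  | te t b => exact (D.free t h.1).mono_left (te_sub o h).2
  | tg t => exact (D.free t h.1).mono_left (tg_sub o h.1).2

lemma wall_seg {t : τ} (ht : t ∈ D.Th) {j : ℤ} {u v : ℝ} (h1 : j * l ≤ u) (h2 : u ≤ (j + 1) * l)
    (h3 : j * l ≤ v) (h4 : v ≤ (j + 1) * l) :
    segment ℝ (⟨D.xw (D.I t), u⟩ : ℂ) ⟨D.xw (D.I t), v⟩ ⊆ wallG D.xw D.yx (D.I t) j := by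
  intro z hz
  rw [mem_vseg] at hz
  exact (wall_iff ht j).2 ⟨hz.1, (le_min h1 h3).trans hz.2.1, hz.2.2.trans (max_le h2 h4)⟩

/-- A thread edge lies in one row. -/
lemma te_row (o : Ok ℓ l Λ σ N lo hi A θ) {t : τ} {b : ℤ} (h : D.TV A θ t b) :
    ∃ j : ℤ, segment ℝ (D.ps A θ (D.hd A θ (.te t b))) (D.fr A θ (.te t b)) ⊆ wallG D.xw D.yx (D.I t) j ∧
      D.LabOk t j (D.tlab t b) ∧ D.LabOk t j (D.tlab t (b - D.dir t)) ∧
      ∀ z ∈ wallG D.xw D.yx (D.I t) j,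
        ‖(D.tlab t b - D.tlab t (b - D.dir t)).eval z‖ ≤ D.Psd t b - D.Psd t (b - D.dir t) := by
  obtain ⟨j, a1, a2, a3, a4, a5, a6, a7⟩ := dir_row o h.1 b
  refine ⟨j, (car o (x := .te t b) h).2.2.1.trans ?_, a5, a6, a7⟩
  simp only [hd, tl, ps_wall o]
  exact wall_seg h.1 a1 a2 a3 a4

lemma tg_row (o : Ok ℓ l Λ σ N lo hi A θ) {t : τ} (h : D.mem A θ (.tg t)) :
    D.tlab t (D.last A θ t) = D.P t ∧
      ‖D.ps A θ (D.hd A θ (.tg t)) - D.fr A θ (.tg t)‖ ≤ l := by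
  obtain ⟨j, a1, a2, a3, a4, -, a6, -⟩ := dir_row o h.1 (D.last A θ t + D.dir t)
  rw [add_sub_cancel_right] at a3 a4 a6
  have u : segment ℝ (D.ps A θ (D.hd A θ (.tg t))) (D.fr A θ (.tg t)) ⊆ wallG D.xw D.yx (D.I t) j := by
    refine (car o h).2.2.1.trans ?_
    simp only [hd, tl, ps_wall o]
    exact wall_seg h.1 a3 a4 a1 a2
  have w := u (right_mem_segment _ _ _)
  refine ⟨labOk_old h.1 a6 w (D.stop t h.1 h.2).1, ?_⟩
  obtain ⟨-, w1, w2⟩ := (wall_iff h.1 j).1 w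
  simp only [fr] at w1 w2
  refine (Complex.norm_le_abs_re_add_abs_im _).trans ?_
  simp only [hd, fr, ps_wall o, Complex.sub_re, Complex.sub_im, sub_self, abs_zero, zero_add]
  rw [abs_le]; constructor <;> linarith

lemma te_first (o : Ok ℓ l Λ σ N lo hi A θ) {t : τ} {b : ℤ} (h : D.TV A θ t b)
    (q : ¬ D.TV A θ t (b - D.dir t)) : D.tlab t b = D.P t := by
  obtain ⟨j, a1, a2, -⟩ := te_row o h
  have w := a1 (right_mem_segment _ _ _)
  rw [(fr_te_out q).1] at w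
  exact labOk_old h.1 a2 w (D.start t h.1).1

lemma hd_inf (o : Ok ℓ l Λ σ N lo hi A θ) {x : Ob τ} (h : D.mem A θ x) :
    ∃ r, D.Inf A θ (D.hd A θ x) (D.labH x) r := by
  cases x with
  | ce Q ν α β =>
    obtain ⟨d, hd, h⟩ := h
    obtain ⟨r, a, -⟩ := inf_cv o h
    exact ⟨r, a⟩
  | le Q α β ν ν' => exact ⟨_, inf_lv h⟩
  | lg Q α β ν ν' => exact ⟨_, inf_lv h⟩
  | te t b => exact ⟨_, inf_tv h⟩
  | tg t =>
    have := inf_tv (last_spec o h.1).1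
    rw [(tg_row o h).1] at this
    exact ⟨_, this⟩

lemma fr_jet (o : Ok ℓ l Λ σ N lo hi A θ) {x : Ob τ} (h : D.mem A θ x) {j : ℕ} (hj : j ≤ n) :
    jet (D.labF A θ x) j (D.fr A θ x) = D.JJ A θ j (D.fr A θ x) := by
  cases x with
  | ce Q ν α β =>
    obtain ⟨d, hd, h⟩ := h
    obtain ⟨r, a, -⟩ := inf_cv o (par_spec o h hd).1
    exact (inf_J o a).1 j
  | le Q α β ν ν' =>
    obtain ⟨d, p⟩ := h.2.2.2.1
    obtain ⟨r, a, -⟩ := inf_cv o p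
    exact (inf_J o a).1 j
  | lg Q α β ν ν' =>
    obtain ⟨d, p⟩ := h.2.2.2.2
    obtain ⟨r, a, -⟩ := inf_cv o p
    exact (inf_J o a).1 j
  | te t b =>
    by_cases q : D.TV A θ t (b - D.dir t)
    · obtain ⟨a1, a2, -⟩ := fr_te_in o q
      rw [a1, a2]; exact (inf_J o (inf_tv q)).1 j
    · obtain ⟨a1, a2, -⟩ := fr_te_out q
      rw [a1, a2, (D.start t h.1).2 j hj]
      unfold JJ; rw [if_pos (D.start t h.1).1]
  | tg t =>
    simp only [labF, fr]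
    rw [(D.stop t h.1 h.2).2 j hj]
    unfold JJ; rw [if_pos (D.stop t h.1 h.2).1]

lemma seg_near (o : Ok ℓ l Λ σ N lo hi A θ) {x : Ob τ} (h : D.mem A θ x) {j : ℕ} (hj : j ≤ n)
    {z : ℂ} (hz : z ∈ segment ℝ (D.ps A θ (D.hd A θ x)) (D.fr A θ x)) :
    ‖jet (D.labF A θ x) j z - s.F j z‖ ≤ κ / 2 ∧ ‖jet (D.labH x) j z - s.F j z‖ ≤ κ / 2 := by
  cases x with
  | ce Q ν α β =>
    obtain ⟨d, hd, h'⟩ := id h
    have := D.lab Q h'.1 ν h'.2.1.1 h'.2.1.2 j hj z (ce_sq o h hz)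
    exact ⟨this, this⟩
  | le Q α β ν ν' =>
    obtain ⟨d, p⟩ := h.2.2.2.1
    obtain ⟨d', p'⟩ := h.2.2.2.2
    exact ⟨D.lab Q p.1 ν p.2.1.1 p.2.1.2 j hj z (le_sq o h hz),
      D.lab Q p.1 ν' p'.2.1.1 p'.2.1.2 j hj z (le_sq o h hz)⟩
  | lg Q α β ν ν' =>
    obtain ⟨d', p'⟩ := h.2.2.2.2
    have := D.lab Q p'.1 ν' p'.2.1.1 p'.2.1.2 j hj z (lg_sq o h hz)
    exact ⟨this, this⟩
  | te t b =>
    obtain ⟨i, a1, a2, a3, -⟩ := te_row o h
    have hs := (te_sub o h).1 hz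
    refine ⟨?_, labOk_near h.1 a2 (a1 hz) hs hj⟩
    by_cases q : D.TV A θ t (b - D.dir t)
    · rw [(fr_te_in o q).2.1]; exact labOk_near h.1 a3 (a1 hz) hs hj
    · rw [(fr_te_out q).2.1]; exact D.near t h.1 j hj z hs
  | tg t =>
    have := D.near t h.1 j hj z ((tg_sub o h.1).1 hz)
    exact ⟨this, this⟩

lemma gap_lab {x : Ob τ} (e : ¬ x.isE) : D.labF A θ x = D.labH x := by
  cases x with
  | ce Q ν α β => exact (e trivial).elim
  | le Q α β ν ν' => exact (e trivial).elim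
  | lg Q α β ν ν' => rfl
  | te t b => exact (e trivial).elim
  | tg t => rfl

/-- The realised stage, in terms of the objects. -/
lemma realise {C : ℝ} (hR : RealStmt n C) (o : Ok ℓ l Λ σ N lo hi A θ) (hκ : 0 < κ) {δ : ℝ}
    (hδ : 0 < δ) :
    ∃ s' : Core n, s.W ⊆ s'.W ∧ (∀ j ≤ n, ∀ z ∈ closure s.W, s'.F j z = s.F j z) ∧
      (∀ j ≤ n, ∀ z, ‖s'.F j z - s.F j z‖ ≤ κ) ∧
      (∀ e, D.mem A θ e → e.isE →
        D.fr A θ e ∈ closure s'.W ∧ D.ps A θ (D.hd A θ e) ∈ closure s'.W) ∧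
      (∀ g, D.mem A θ g → ¬ g.isE →
        Disjoint (openSegment ℝ (D.ps A θ (D.hd A θ g)) (D.fr A θ g)) (closure s'.W) ∧
        ∀ j ≤ n, ∀ z ∈ segment ℝ (D.ps A θ (D.hd A θ g)) (D.fr A θ g),
          s'.F j z = jet (D.labH g) j z) ∧
      ∀ G, Sec n s'.W G → ∀ e, D.mem A θ e → e.isE →
        ‖G 0 (D.fr A θ e) - G 0 (D.ps A θ (D.hd A θ e))‖ ≤
            ‖D.fr A θ e - D.ps A θ (D.hd A θ e)‖ +
              C * (‖(D.labH e - D.labF A θ e).eval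
                ((D.fr A θ e + D.ps A θ (D.hd A θ e)) / 2)‖ + δ) / κ ∧
          (D.labF A θ e = D.labH e →
            ‖G 0 (D.fr A θ e) - G 0 (D.ps A θ (D.hd A θ e))‖ ≤
              ‖D.fr A θ e - D.ps A θ (D.hd A θ e)‖ ∧
            ∀ (z : ℂ) (d : ℝ), ‖z - D.fr A θ e‖ ≤ d → ‖z - D.ps A θ (D.hd A θ e)‖ ≤ d →
              ‖tay n G (D.fr A θ e) z - tay n G (D.ps A θ (D.hd A θ e)) z‖ ≤
                ‖D.fr A θ e - D.ps A θ (D.hd A θ e)‖ * d ^ (n - 1)) := by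
  classical
  have mE : ∀ e, e ∈ (mem_finite (D := D) o).toFinset.filter Ob.isE ↔ D.mem A θ e ∧ e.isE := by
    intro e; simp
  have mG : ∀ e, e ∈ (mem_finite (D := D) o).toFinset.filter (fun e => ¬ e.isE) ↔
      D.mem A θ e ∧ ¬ e.isE := by
    intro e; simp
  obtain ⟨s', c1, c2, c3, c4, c5, c6⟩ := hR s κ δ hκ hδ (Ob τ) (Ob τ)
    ((mem_finite (D := D) o).toFinset.filter Ob.isE)
    ((mem_finite (D := D) o).toFinset.filter (fun e => ¬ e.isE))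
    (D.fr A θ) (fun e => D.ps A θ (D.hd A θ e)) (D.labF A θ) D.labH
    (fun e => D.ps A θ (D.hd A θ e)) (D.fr A θ) D.labH (D.JJ A θ) (D.phi A θ)
    (fun e he => phi_lt o ((mE e).1 he).1 ((mE e).1 he).2)
    (fun e he e' he' q => same_hd o ((mE e).1 he).1 ((mE e').1 he').1 ((mE e).1 he).2
      ((mE e').1 he').2 (ps_inj o q))
    (fun e he z hz => by
      obtain ⟨h1, h2⟩ := hz
      have m := ((mE e).1 he).1
      rw [segment_symm, ← insert_endpoints_openSegment] at h1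
      rcases h1 with rfl | rfl | h1
      · obtain ⟨r, a⟩ := hd_inf o m
        exact (inf_free o a h2).elim
      · rfl
      · exact (Set.disjoint_left.1 (open_free o m) h1 h2).elim)
    (fun e he e' he' q => by
      rw [openSegment_symm, segment_symm]
      exact nc_all o ((mE e).1 he).1 ((mE e').1 he').1 q)
    (fun g hg => ⟨(car o ((mG g).1 hg).1).2.1, open_free o ((mG g).1 hg).1⟩)
    (fun g hg g' hg' q => nc_all o ((mG g).1 hg).1 ((mG g').1 hg').1 q)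
    (fun e he g hg => by
      have q : e ≠ g := fun q => ((mG g).1 hg).2 (q ▸ ((mE e).1 he).2)
      constructor
      · rw [openSegment_symm]
        exact nc_all o ((mE e).1 he).1 ((mG g).1 hg).1 q
      · rw [segment_symm]
        exact nc_all o ((mG g).1 hg).1 ((mE e).1 he).1 q.symm)
    (fun j _ z hz => by unfold JJ; rw [if_pos hz])
    (fun e he j hj => by
      obtain ⟨r, a⟩ := hd_inf o ((mE e).1 he).1
      exact ⟨fr_jet o ((mE e).1 he).1 hj, (inf_J o a).1 j⟩)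
    (fun g hg j hj => by
      obtain ⟨r, a⟩ := hd_inf o ((mG g).1 hg).1
      refine ⟨(inf_J o a).1 j, ?_⟩
      rw [← gap_lab (A := A) (θ := θ) ((mG g).1 hg).2]
      exact fr_jet o ((mG g).1 hg).1 hj)
    (fun e he j hj z hz => seg_near o ((mE e).1 he).1 hj (by rwa [segment_symm]))
    (fun g hg j hj z hz => (seg_near o ((mG g).1 hg).1 hj hz).2)
  refine ⟨s', c1, c2, c3, fun e h1 h2 => c4 e ((mE e).2 ⟨h1, h2⟩),
    fun g h1 h2 => c5 g ((mG g).2 ⟨h1, h2⟩), fun G hG e h1 h2 => ?_⟩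
  exact c6 G hG e ((mE e).2 ⟨h1, h2⟩)

end GData

end Pool.Agent.MP_d32a63_an.H13N
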