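import Pool.Agent.MP_d32a63_an.H13N.Spec

/-! Row MOR: the discrete Morera theorem. -/

open Set Filter Topology Metric MeasureTheory
open Complex (I)
open Pool.Agent.MP_d32a63_an.H58 hiding Cells Sq LAV LA1 LA2 LIMA LIMB LIM FIN

namespace Pool.Agent.MP_d32a63_an.H13N

namespace MOR

theorem ii_of_bdd {g : ℝ → ℂ} (hm : Measurable g) {M : ℝ} (hb : ∀ x, ‖g x‖ ≤ M) (a b : ℝ) :
    IntervalIntegrable g volume a b :=
  (intervalIntegrable_const (c := M)).mono_fun' hm.aestronglyMeasurable (Eventually.of_forall hb)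

/-- Bounded measurable functions of two real variables. -/
def BM (φ : ℝ → ℝ → ℂ) : Prop :=
  Measurable (fun p : ℝ × ℝ => φ p.1 p.2) ∧ ∃ M, ∀ x y, ‖φ x y‖ ≤ M

theorem BM.swap {φ : ℝ → ℝ → ℂ} (h : BM φ) : BM fun y x => φ x y :=
  ⟨h.1.comp measurable_swap, h.2.imp fun _ hM x y => hM y x⟩

theorem BM.ii {φ : ℝ → ℝ → ℂ} (h : BM φ) (x c e : ℝ) : IntervalIntegrable (φ x) volume c e := by
  obtain ⟨M, hM⟩ := h.2
  exact ii_of_bdd (h.1.comp measurable_prodMk_left) (hM x) c e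

theorem BM.outer {φ : ℝ → ℝ → ℂ} (h : BM φ) (a b c e : ℝ) :
    IntervalIntegrable (fun x => ∫ y in c..e, φ x y) volume a b := by
  obtain ⟨M, hM⟩ := h.2
  refine ii_of_bdd (M := M * |e - c|) ?_ (fun x =>
    intervalIntegral.norm_integral_le_of_norm_le_const fun y _ => hM x y) a b
  exact (h.1.stronglyMeasurable.integral_prod_right'.sub
    h.1.stronglyMeasurable.integral_prod_right').measurable

theorem BM.fub {φ : ℝ → ℝ → ℂ} (h : BM φ) (a b c e : ℝ) :
    ∫ x in a..b, ∫ y in c..e, φ x y = ∫ y in c..e, ∫ x in a..b, φ x y := by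
  obtain ⟨M, hM⟩ := h.2
  refine intervalIntegral_intervalIntegral_swap (Measure.integrableOn_of_bounded (M := M) ?_
    h.1.aestronglyMeasurable (Eventually.of_forall fun p => hM p.1 p.2))
  rw [Measure.volume_eq_prod, Measure.prod_prod]
  exact ENNReal.mul_ne_top (by simp [uIoc]) (by simp [uIoc])

theorem BM.shift {φ : ℝ → ℝ → ℂ} (h : BM φ) (s : ℝ) : BM fun x y => φ x (y + s) - φ x y := by
  obtain ⟨M, hM⟩ := h.2
  exact ⟨(h.1.comp (measurable_fst.prodMk (measurable_snd.add_const s))).sub h.1, M + M,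
    fun x y => (norm_sub_le _ _).trans (add_le_add (hM _ _) (hM _ _))⟩

theorem short {g : ℝ → ℂ} (hg : ∀ a b, IntervalIntegrable g volume a b) {e s ε : ℝ} {A : ℂ}
    (h : ∀ t, |t| ≤ |s| → ‖g (e + t) - A‖ ≤ ε) : ‖(∫ y in e..e + s, g y) - s * A‖ ≤ ε * |s| := by
  have h1 : (∫ y in e..e + s, g y) - s * A = ∫ y in e..e + s, (g y - A) := by
    rw [intervalIntegral.integral_sub (hg _ _) intervalIntegrable_const]
    simp
  rw [h1]
  refine (intervalIntegral.norm_integral_le_of_norm_le_const (C := ε) fun y hy => ?_).trans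
    (by simp)
  have h2 := h (y - e) (by simpa using abs_sub_left_of_mem_uIcc (uIoc_subset_uIcc hy))
  simpa using h2

theorem line {g : ℝ → ℂ} (hg : ∀ a b, IntervalIntegrable g volume a b) {c e s ε : ℝ} {A B : ℂ}
    (hA : ∀ t, |t| ≤ |s| → ‖g (e + t) - A‖ ≤ ε) (hB : ∀ t, |t| ≤ |s| → ‖g (c + t) - B‖ ≤ ε) :
    ‖(∫ y in c..e, (g (y + s) - g y)) - s * (A - B)‖ ≤ 2 * ε * |s| := by
  have h0 : IntervalIntegrable (fun y => g (y + s)) volume c e := by
    simpa using (hg (c + s) (e + s)).comp_add_right s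
  have h1 : (∫ y in c..e, (g (y + s) - g y)) - s * (A - B) =
      ((∫ y in e..e + s, g y) - s * A) - ((∫ y in c..c + s, g y) - s * B) := by
    rw [intervalIntegral.integral_sub h0 (hg _ _), intervalIntegral.integral_comp_add_right,
      ← intervalIntegral.integral_add_adjacent_intervals (hg (c + s) c) (hg c (e + s)),
      ← intervalIntegral.integral_add_adjacent_intervals (hg c e) (hg e (e + s)),
      intervalIntegral.integral_symm c (c + s)]
    ring
  rw [h1]
  have := (norm_sub_le _ _).trans (add_le_add (short hg hA) (short hg hB))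
  linarith

theorem half {φ : ℝ → ℝ → ℂ} (h : BM φ) {a b c e s ε : ℝ} {p q : ℝ → ℂ}
    (hp : IntervalIntegrable p volume a b) (hq : IntervalIntegrable q volume a b)
    (H : ∀ x ∈ uIcc a b, ∀ t, |t| ≤ |s| → ‖φ x (e + t) - p x‖ ≤ ε ∧ ‖φ x (c + t) - q x‖ ≤ ε) :
    ‖(∫ x in a..b, ∫ y in c..e, (φ x (y + s) - φ x y)) -
      s * ((∫ x in a..b, p x) - ∫ x in a..b, q x)‖ ≤ 2 * ε * |s| * |b - a| := by
  rw [← intervalIntegral.integral_sub hp hq, ← intervalIntegral.integral_const_mul,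
    ← intervalIntegral.integral_sub ((h.shift s).outer a b c e) ((hp.sub hq).const_mul _)]
  exact intervalIntegral.norm_integral_le_of_norm_le_const fun x hx =>
    line (h.ii x) (fun t ht => (H x (uIoc_subset_uIcc hx) t ht).1)
      fun t ht => (H x (uIoc_subset_uIcc hx) t ht).2

theorem core {φ : ℝ → ℝ → ℂ} (h : BM φ) {a b c e ℓ ε δ : ℝ} (hℓ : 0 < ℓ) {p q r s : ℝ → ℂ}
    (hp : IntervalIntegrable p volume a b) (hq : IntervalIntegrable q volume a b)
    (hr : IntervalIntegrable r volume c e) (hs : IntervalIntegrable s volume c e)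
    (h1 : ∀ x ∈ uIcc a b, ∀ t, |t| ≤ ℓ → ‖φ x (e + t) - p x‖ ≤ ε ∧ ‖φ x (c + t) - q x‖ ≤ ε)
    (h2 : ∀ y ∈ uIcc c e, ∀ t, |t| ≤ ℓ → ‖φ (b + t) y - r y‖ ≤ ε ∧ ‖φ (a + t) y - s y‖ ≤ ε)
    (h3 : ∀ x ∈ uIcc a b, ∀ y ∈ uIcc c e,
      ‖φ x y - φ x (y + -ℓ) - I * (φ (x + ℓ) y - φ x y)‖ ≤ δ * ℓ) :
    ‖((∫ x in a..b, p x) - ∫ x in a..b, q x) - I * ((∫ y in c..e, r y) - ∫ y in c..e, s y)‖ ≤
      δ * |e - c| * |b - a| + 2 * ε * |b - a| + 2 * ε * |e - c| := by
  have e1 : |-ℓ| = ℓ := by rw [abs_neg, abs_of_pos hℓ]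
  have e2 : |ℓ| = ℓ := abs_of_pos hℓ
  have hP := half h (s := -ℓ) hp hq (by rwa [e1])
  have hQ := half h.swap (s := ℓ) hr hs (by rwa [e2])
  have hB := (h.swap.shift ℓ).swap
  rw [← hB.fub, e2] at hQ
  rw [e1] at hP
  have h4 : ‖(∫ x in a..b, ∫ y in c..e, (φ x (y + -ℓ) - φ x y)) +
      I * ∫ x in a..b, ∫ y in c..e, (φ (x + ℓ) y - φ x y)‖ ≤ δ * ℓ * |e - c| * |b - a| := by
    rw [← intervalIntegral.integral_const_mul, ← intervalIntegral.integral_add
      ((h.shift _).outer a b c e) ((hB.outer a b c e).const_mul _)]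
    refine intervalIntegral.norm_integral_le_of_norm_le_const fun x hx => ?_
    rw [← intervalIntegral.integral_const_mul, ← intervalIntegral.integral_add
      ((h.shift _).ii x c e) ((hB.ii x c e).const_mul _)]
    refine intervalIntegral.norm_integral_le_of_norm_le_const fun y hy => ?_
    rw [← norm_neg]
    refine le_of_eq_of_le (congrArg _ (by ring)) (h3 x (uIoc_subset_uIcc hx) y (uIoc_subset_uIcc hy))
  generalize (∫ x in a..b, ∫ y in c..e, (φ x (y + -ℓ) - φ x y)) = P at hP h4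
  generalize (∫ x in a..b, ∫ y in c..e, (φ (x + ℓ) y - φ x y)) = Q at hQ h4
  generalize ((∫ x in a..b, p x) - ∫ x in a..b, q x) = U at hP ⊢
  generalize ((∫ y in c..e, r y) - ∫ y in c..e, s y) = V at hQ ⊢
  have h5 : (ℓ : ℂ) * (U - I * V) = (P - ((-ℓ : ℝ) : ℂ) * U) + I * (Q - ℓ * V) - (P + I * Q) := by
    push_cast; ring
  have h6 : ℓ * ‖U - I * V‖ ≤ 2 * ε * ℓ * |b - a| + 2 * ε * ℓ * |e - c| +
      δ * ℓ * |e - c| * |b - a| := by
    have h7 := congrArg norm h5
    rw [norm_mul, Complex.norm_real, Real.norm_of_nonneg hℓ.le] at h7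
    rw [h7]
    refine (norm_sub_le _ _).trans (add_le_add ((norm_add_le _ _).trans (add_le_add hP ?_)) h4)
    rwa [norm_mul, Complex.norm_I, one_mul]
  exact le_of_mul_le_mul_left (h6.trans_eq (by ring)) hℓ

theorem cl_down {ℓ : ℝ} (hℓ : 0 < ℓ) (x y : ℝ) :
    cl ℓ (x + (y + -ℓ : ℝ) * I) = (⌊x / ℓ⌋, ⌊y / ℓ⌋ - 1) := by
  have : (y + -ℓ) / ℓ = y / ℓ - 1 := by field_simp; ring
  simp only [cl, Complex.add_re, Complex.ofReal_re, Complex.mul_re, Complex.I_re, mul_zero,
    Complex.ofReal_im, Complex.I_im, mul_one, sub_self, add_zero, Complex.add_im, Complex.mul_im,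
    zero_add, this, Int.floor_sub_one]

theorem cl_right {ℓ : ℝ} (hℓ : 0 < ℓ) (x y : ℝ) :
    cl ℓ ((x + ℓ : ℝ) + y * I) = (⌊x / ℓ⌋ + 1, ⌊y / ℓ⌋) := by
  have : (x + ℓ) / ℓ = x / ℓ + 1 := by field_simp
  simp only [cl, Complex.add_re, Complex.ofReal_re, Complex.mul_re, Complex.I_re, mul_zero,
    Complex.ofReal_im, Complex.I_im, mul_one, sub_self, add_zero, Complex.add_im, Complex.mul_im,
    zero_add, this, Int.floor_add_one]

theorem cl_eq (ℓ x y : ℝ) : cl ℓ (x + y * I) = (⌊x / ℓ⌋, ⌊y / ℓ⌋) := by simp [cl]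

theorem dist_v (x y t : ℝ) : dist ((x : ℂ) + (y + t : ℝ) * I) (x + y * I) = |t| := by
  rw [dist_eq_norm, show (x : ℂ) + (y + t : ℝ) * I - (x + y * I) = t * I by push_cast; ring]
  simp

theorem dist_h (x y t : ℝ) : dist (((x + t : ℝ) : ℂ) + y * I) (x + y * I) = |t| := by
  rw [dist_eq_norm, show ((x + t : ℝ) : ℂ) + y * I - (x + y * I) = t by push_cast; ring]
  simp

end MOR

open MOR

theorem rowMOR : R_MOR := by
  intro hB u f ℓ d z0 R hℓ hℓ0 hd0 hu hf hcr
  have : UF.NeBot := (hyperfilter ℕ).neBot'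
  refine (Complex.isConservativeOn_and_continuousOn_iff_isDifferentiableOn isOpen_ball).1
    ⟨fun z w hzw => ?_, hu⟩
  rw [← add_eq_zero_iff_eq_neg, Complex.wedgeIntegral_add_wedgeIntegral_eq]
  have hK : IsCompact (Complex.Rectangle z w) := isCompact_uIcc.reProdIm isCompact_uIcc
  obtain ⟨r, hr, hrK⟩ := hK.exists_cthickening_subset_open isOpen_ball hzw
  have hK' : IsCompact (cthickening r (Complex.Rectangle z w)) := hK.cthickening
  obtain ⟨M, hM⟩ := hK'.exists_bound_of_continuousOn (hu.mono hrK)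
  have hU := hK'.uniformContinuousOn_of_continuous (hu.mono hrK)
  have hmem : ∀ x ∈ uIcc z.re w.re, ∀ y ∈ uIcc z.im w.im,
      (x : ℂ) + y * I ∈ Complex.Rectangle z w := fun x hx y hy =>
    Complex.mem_reProdIm.2 ⟨by simpa using hx, by simpa using hy⟩
  have iH : ∀ y ∈ uIcc z.im w.im, IntervalIntegrable (fun x : ℝ => u (x + y * I)) volume
      z.re w.re := fun y hy =>
    (hu.comp (by fun_prop) fun x hx => hzw (hmem x hx y hy)).intervalIntegrable
  have iV : ∀ x ∈ uIcc z.re w.re, IntervalIntegrable (fun y : ℝ => u (x + y * I)) volume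
      z.im w.im := fun x hx =>
    (hu.comp (by fun_prop) fun y hy => hzw (hmem x hx y hy)).intervalIntegrable
  have key : ∀ η : ℝ, 0 < η → η ≤ 1 →
      ‖((∫ x : ℝ in z.re..w.re, u (x + w.im * I)) - ∫ x : ℝ in z.re..w.re, u (x + z.im * I)) -
        I * ((∫ y : ℝ in z.im..w.im, u (w.re + y * I)) - ∫ y : ℝ in z.im..w.im, u (z.re + y * I))‖ ≤
      η * |w.im - z.im| * |w.re - z.re| + 2 * (η + η) * |w.re - z.re| +
        2 * (η + η) * |w.im - z.im| := by
    intro η hη hη1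
    obtain ⟨ρ, hρ, hρu⟩ := Metric.uniformContinuousOn_iff_le.1 hU η hη
    obtain ⟨J, ⟨⟨⟨j1, j2⟩, j3⟩, j4⟩, j5⟩ := ((((hℓ0.eventually (ge_mem_nhds hρ)).and
      (hℓ0.eventually (ge_mem_nhds (half_pos hr)))).and (hd0.eventually (ge_mem_nhds hη))).and
      (Metric.tendstoUniformlyOn_iff.1 hf η hη)).and hcr |>.exists
    have hl := hℓ J
    have near : ∀ p ∈ Complex.Rectangle z w, ∀ q, dist q p ≤ r →
        q ∈ cthickening r (Complex.Rectangle z w) := fun p hp q hq =>
      mem_cthickening_of_dist_le q p r _ hp hq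
    obtain ⟨F, hF⟩ : ∃ F : ℂ → ℂ, F = (cthickening r (Complex.Rectangle z w)).indicator
      fun q => f J (cl (ℓ J) q) := ⟨_, rfl⟩
    have hF1 : ∀ p ∈ Complex.Rectangle z w, ∀ q, dist q p ≤ ℓ J → F q = f J (cl (ℓ J) q) :=
      fun p hp q hq => by rw [hF, indicator_of_mem (near p hp q (by linarith))]
    have hF2 : ∀ p ∈ Complex.Rectangle z w, ∀ q, dist q p ≤ ℓ J → ‖F q - u p‖ ≤ η + η := by
      intro p hp q hq
      have m1 := near p hp q (by linarith)
      have a1 := (j4 q (hrK m1)).le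
      have a2 := hρu q m1 p (self_subset_cthickening _ hp) (hq.trans j1)
      rw [hF1 p hp q hq, ← dist_eq_norm]
      exact (dist_triangle_left _ _ (u q)).trans (add_le_add a1 a2)
    have hF3 : ∀ p ∈ Complex.Rectangle z w, ∀ q, dist q p ≤ ℓ J →
        cen (ℓ J) (cl (ℓ J) q) ∈ ball z0 R := by
      intro p hp q hq
      have a1 := hB.cl1 (ℓ J) q hl
      rw [← dist_eq_norm] at a1
      exact hrK (near p hp _ ((dist_triangle_left _ _ q).trans (by
        rw [dist_comm q p] at *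
        linarith [dist_comm q p])))
    have hBM : BM fun x y => F (x + y * I) := by
      refine ⟨Measurable.comp (g := F) ?_ (by fun_prop), max (M + 1) 0, fun x y => ?_⟩
      · rw [hF]
        refine Measurable.indicator ((measurable_of_countable (f J)).comp ?_)
          isClosed_cthickening.measurableSet
        exact (Int.measurable_floor.comp (Complex.measurable_re.div_const _)).prodMk
          (Int.measurable_floor.comp (Complex.measurable_im.div_const _))
      · beta_reduce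
        by_cases m : (x : ℂ) + y * I ∈ cthickening r (Complex.Rectangle z w)
        · have a1 := (j4 _ (hrK m)).le
          rw [dist_eq_norm'] at a1
          rw [hF, indicator_of_mem m]
          refine le_max_of_le_left ((norm_le_norm_add_norm_sub' _ (u (x + y * I))).trans ?_)
          linarith [hM _ m]
        · rw [hF, indicator_of_notMem m, norm_zero]
          exact le_max_right _ _
    refine core hBM hl (iH _ right_mem_uIcc) (iH _ left_mem_uIcc) (iV _ right_mem_uIcc)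
      (iV _ left_mem_uIcc) (fun x hx t ht => ⟨?_, ?_⟩) (fun y hy t ht => ⟨?_, ?_⟩)
      fun x hx y hy => ?_
    · exact hF2 _ (hmem x hx _ right_mem_uIcc) _ (by rwa [dist_v])
    · exact hF2 _ (hmem x hx _ left_mem_uIcc) _ (by rwa [dist_v])
    · exact hF2 _ (hmem _ right_mem_uIcc y hy) _ (by rwa [dist_h])
    · exact hF2 _ (hmem _ left_mem_uIcc y hy) _ (by rwa [dist_h])
    · have m := hmem x hx y hy
      have d0 : dist ((x : ℂ) + y * I) (x + y * I) ≤ ℓ J := by rw [dist_self]; exact hl.le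
      have d1 : dist ((x : ℂ) + (y + -ℓ J : ℝ) * I) (x + y * I) ≤ ℓ J := by
        rw [dist_v, abs_neg, abs_of_pos hl]
      have d2 : dist (((x + ℓ J : ℝ) : ℂ) + y * I) (x + y * I) ≤ ℓ J := by
        rw [dist_h, abs_of_pos hl]
      have c0 := hF3 _ m _ d0
      have c1 := hF3 _ m _ d1
      have c2 := hF3 _ m _ d2
      rw [hF1 _ m _ d0, hF1 _ m _ d1, hF1 _ m _ d2]
      rw [cl_eq] at c0 ⊢
      rw [cl_down hl] at c1 ⊢
      rw [cl_right hl] at c2 ⊢
      exact (j5 _ _ c1 c0 c2).trans (mul_le_mul_of_nonneg_right j3 hl.le)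
  have lim : Tendsto (fun η : ℝ => η * |w.im - z.im| * |w.re - z.re| +
      2 * (η + η) * |w.re - z.re| + 2 * (η + η) * |w.im - z.im|) (𝓝[>] 0) (𝓝 0) :=
    tendsto_nhdsWithin_of_tendsto_nhds (Continuous.tendsto' (by fun_prop) _ _ (by simp))
  have h0 := norm_le_zero_iff.1 (ge_of_tendsto lim (by
    filter_upwards [Ioc_mem_nhdsGT one_pos] with η hη using key η hη.1 hη.2))
  simp only [smul_eq_mul]
  linear_combination -h0

end Pool.Agent.MP_d32a63_an.H13N
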