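import Pool.Agent.MP_d32a63_an.H82.CoreOne
import Pool.Agent.MP_d32a63_an.H82.Split

/-! Locality of triviality for order one, from the splitting of `A¹(S)`. -/

open Set Pool.Agent.MP_d32a63_an.H82

namespace Pool.Agent.MP_d32a63_an.H13N

theorem local_one (S S₁ S₂ : Set ℂ) (hS : IsClosed S) (hadm : Admissible S S₁ S₂)
    (h₁ : TrivialA 1 S₁) (h₂ : TrivialA 1 S₂) : TrivialA 1 S := by
  intro f hf
  obtain ⟨f₁, f₂, m₁, m₂, h⟩ :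
      ∃ f₁ f₂ : ℂ → ℂ, MemA 1 S₁ f₁ ∧ MemA 1 S₂ f₂ ∧ ∀ z ∈ Sᶜ, f z = f₁ z + f₂ z := by
    refine split_of_loc 1 S S₁ S₂ hS hadm (fun T hT _ g hg p r hr => ?_) f hf
    obtain ⟨F, hF, h0⟩ := hg.exists_jet hT
    exact loc_of_core hT hg h0 hr (core_one _ hT.isOpen_compl F hF p r hr)
  obtain ⟨g₁, d₁, e₁⟩ := h₁ f₁ m₁
  obtain ⟨g₂, d₂, e₂⟩ := h₂ f₂ m₂
  have s₁ : S₁ ⊆ S := by rw [hadm.2.2.1]; exact subset_union_left
  have s₂ : S₂ ⊆ S := by rw [hadm.2.2.1]; exact subset_union_right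
  refine ⟨fun z => g₁ z + g₂ z, d₁.add d₂, fun z hz => ?_⟩
  rw [h z hz, e₁ (fun hz' => hz (s₁ hz')), e₂ (fun hz' => hz (s₂ hz'))]

end Pool.Agent.MP_d32a63_an.H13N
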