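import Pool.Agent.MP_d32a63_an.H13N.Pat
import Pool.Agent.MP_d32a63_an.H95.GenPrep

/-! The data of a fine level, part A: the six link points of a cell. -/

open Set Filter Topology Metric Polynomial
open Complex (I)
open Pool.Agent.MP_d32a63_an.H95 (Core Sec jet W0 Flat RealStmt)
open Pool.Agent.MP_d32a63_an.H58 hiding Cells Sq LAV LA1 LA2 LIMA LIMB LIM FIN

namespace Pool.Agent.MP_d32a63_an.H13N.PREP3

noncomputable section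

/-- The six pairs of a direction and a jump of the colour. -/
def S6 : Finset (ℤ × ℤ × ℤ) :=
  {(1, 0, 1), (1, 0, -2), (0, 1, -1), (0, 1, 2), (-1, 1, 1), (-1, 1, -2)}

def tr (m m' : ℤ × ℤ) : ℤ × ℤ × ℤ :=
  (m'.1 - m.1, m'.2 - m.2, (m'.1 - m'.2) % 3 - (m.1 - m.2) % 3)

theorem mem_S6 {t : ℤ × ℤ × ℤ} : t ∈ S6 ↔ t = (1, 0, 1) ∨ t = (1, 0, -2) ∨ t = (0, 1, -1) ∨
    t = (0, 1, 2) ∨ t = (-1, 1, 1) ∨ t = (-1, 1, -2) := by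
  unfold S6
  simp only [Finset.mem_insert, Finset.mem_singleton]

theorem tr_mem {m m' : ℤ × ℤ} (h : Nb m m') : tr m m' ∈ S6 := by
  rw [mem_S6]
  unfold tr
  simp only [Prod.mk.injEq]
  rcases h with rfl | rfl | rfl <;> simp only <;> omega

def p0 (e1 e2 : ℂ) (t : ℤ × ℤ × ℤ) : ℂ := (t.1 : ℂ) * e1 + (t.2.1 : ℂ) * e2

def p1 (ε : ℝ) (ω f1 f2 : ℂ) (t : ℤ × ℤ × ℤ) : ℂ := p0 f1 f2 t + (ε : ℂ) * (t.2.2 : ℂ) * ω

theorem q0_eq (e1 e2 : ℂ) (m m' : ℤ × ℤ) : q0 e1 e2 m m' = p0 e1 e2 (tr m m') := rfl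

theorem q1_eq (ε : ℝ) (ω f1 f2 : ℂ) (m m' : ℤ × ℤ) :
    q1 ε ω f1 f2 m m' = p1 ε ω f1 f2 (tr m m') := by
  unfold q1 p1 col tr
  rw [q0_eq]
  simp only [tr, Int.cast_sub]

theorem s6_bd : ∀ t ∈ S6, |t.1| ≤ 1 ∧ |t.2.1| ≤ 1 ∧ 1 ≤ |t.2.2| := by decide

theorem s6_inj : ∀ t ∈ S6, ∀ t' ∈ S6, t.1 * t'.2.2 = t'.1 * t.2.2 →
    t.2.1 * t'.2.2 = t'.2.1 * t.2.2 → t = t' := by decide

theorem p0_le {e1 e2 : ℂ} {t : ℤ × ℤ × ℤ} (ht : t ∈ S6) {A : ℝ} (h1 : ‖e1‖ ≤ A) (h2 : ‖e2‖ ≤ A) :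
    ‖p0 e1 e2 t‖ ≤ 2 * A := by
  obtain ⟨a1, a2, -⟩ := s6_bd t ht
  have b1 : ‖(t.1 : ℂ)‖ ≤ 1 := by rw [Complex.norm_intCast]; exact_mod_cast a1
  have b2 : ‖(t.2.1 : ℂ)‖ ≤ 1 := by rw [Complex.norm_intCast]; exact_mod_cast a2
  unfold p0
  refine (norm_add_le _ _).trans ?_
  rw [norm_mul, norm_mul]
  have c1 : ‖(t.1 : ℂ)‖ * ‖e1‖ ≤ 1 * A := by gcongr
  have c2 : ‖(t.2.1 : ℂ)‖ * ‖e2‖ ≤ 1 * A := by gcongr
  linarith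

theorem jump_ge {t : ℤ × ℤ × ℤ} (ht : t ∈ S6) : 1 ≤ ‖(t.2.2 : ℂ)‖ := by
  rw [Complex.norm_intCast]; exact_mod_cast (s6_bd t ht).2.2

theorem jump_ne {t : ℤ × ℤ × ℤ} (ht : t ∈ S6) : (t.2.2 : ℂ) ≠ 0 := by
  intro h
  have := jump_ge ht
  rw [h, norm_zero] at this
  linarith

/-- The model value of a pair. -/
def vv (sg : ℂ) (k : ℤ) (t : ℤ × ℤ × ℤ) : ℂ :=
  -(sg * p0 (acol (k + 2) - acol k) (acol (k + 1) - acol k) t / (t.2.2 : ℂ))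

theorem vv_mem {sg : ℂ} (hs : sg = 1 ∨ sg = -1) (k : ℤ) {t : ℤ × ℤ × ℤ} (ht : t ∈ S6) :
    vv sg k t ∈ Vals := by
  unfold vv p0
  rcases mem_S6.1 ht with rfl | rfl | rfl | rfl | rfl | rfl <;> rcases hs with rfl | rfl
  · exact ⟨k, k + 2, by omega, Or.inl (by push_cast; ring)⟩
  · exact ⟨k + 2, k, by omega, Or.inl (by push_cast; ring)⟩
  · exact ⟨k + 2, k, by omega, Or.inr (by push_cast; ring)⟩
  · exact ⟨k, k + 2, by omega, Or.inr (by push_cast; ring)⟩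
  · exact ⟨k + 1, k, by omega, Or.inl (by push_cast; ring)⟩
  · exact ⟨k, k + 1, by omega, Or.inl (by push_cast; ring)⟩
  · exact ⟨k, k + 1, by omega, Or.inr (by push_cast; ring)⟩
  · exact ⟨k + 1, k, by omega, Or.inr (by push_cast; ring)⟩
  · exact ⟨k + 2, k + 1, by omega, Or.inl (by push_cast; ring)⟩
  · exact ⟨k + 1, k + 2, by omega, Or.inl (by push_cast; ring)⟩
  · exact ⟨k + 1, k + 2, by omega, Or.inr (by push_cast; ring)⟩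
  · exact ⟨k + 2, k + 1, by omega, Or.inr (by push_cast; ring)⟩

theorem vv_inj (hB : BASIC) {sg : ℂ} (hs : sg = 1 ∨ sg = -1) (k : ℤ) {t t' : ℤ × ℤ × ℤ}
    (ht : t ∈ S6) (ht' : t' ∈ S6) (h : vv sg k t = vv sg k t') : t = t' := by
  have n1 := jump_ne ht
  have n2 := jump_ne ht'
  have s0 : sg ≠ 0 := by rcases hs with rfl | rfl <;> simp
  have m := (model_nd hB k ((t.1 * t'.2.2 - t'.1 * t.2.2 : ℤ) : ℝ)
    ((t.2.1 * t'.2.2 - t'.2.1 * t.2.2 : ℤ) : ℝ)).1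
  unfold vv p0 at h
  rw [neg_inj, div_eq_div_iff n1 n2, mul_assoc, mul_assoc] at h
  have h' := mul_left_cancel₀ s0 h
  have e : ((((t.1 * t'.2.2 - t'.1 * t.2.2 : ℤ) : ℝ)) : ℂ) * (acol (k + 2) - acol k) +
      ((((t.2.1 * t'.2.2 - t'.2.1 * t.2.2 : ℤ) : ℝ)) : ℂ) * (acol (k + 1) - acol k) = 0 := by
    push_cast
    linear_combination h'
  rw [e, norm_zero] at m
  have a1 := abs_nonneg ((t.1 * t'.2.2 - t'.1 * t.2.2 : ℤ) : ℝ)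
  have a2 := abs_nonneg ((t.2.1 * t'.2.2 - t'.2.1 * t.2.2 : ℤ) : ℝ)
  have b1 : ((t.1 * t'.2.2 - t'.1 * t.2.2 : ℤ) : ℝ) = 0 := abs_eq_zero.1 (by linarith)
  have b2 : ((t.2.1 * t'.2.2 - t'.2.1 * t.2.2 : ℤ) : ℝ) = 0 := abs_eq_zero.1 (by linarith)
  rw [Int.cast_eq_zero, sub_eq_zero] at b1 b2
  exact s6_inj t ht t' ht' b1 b2

theorem one_root {ω v ξ A B : ℂ} {c γ : ℝ} (hω : ‖ω‖ = 1)
    (hr : ∀ h : ℂ[X], (∀ z ∈ closedBall (0 : ℂ) 3, ‖h.eval z - ((ω * z) ^ 1 - v)‖ ≤ γ) →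
      ∃ ξ', h.eval ξ' = 0 ∧ ‖ξ' - ξ‖ ≤ c)
    (hA : ‖A + v‖ ≤ γ / 4) (hB : ‖B‖ ≤ γ / 4) (hB1 : ‖B‖ < 1) :
    B + ω ≠ 0 ∧ ‖-(A / (B + ω)) - ξ‖ ≤ c := by
  have hne : B + ω ≠ 0 := by
    intro h
    have : B = -ω := by linear_combination h
    rw [this, norm_neg, hω] at hB1
    exact lt_irrefl _ hB1
  refine ⟨hne, ?_⟩
  obtain ⟨ξ', h1, h2⟩ := hr (C A + C (B + ω) * X) fun z hz => by
    have hz' : ‖z‖ ≤ 3 := by simpa using hz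
    have e : (C A + C (B + ω) * X).eval z - ((ω * z) ^ 1 - v) = (A + v) + B * z := by
      simp only [eval_add, eval_mul, eval_C, eval_X]; ring
    rw [e]
    refine (norm_add_le _ _).trans ?_
    rw [norm_mul]
    have : ‖B‖ * ‖z‖ ≤ γ / 4 * 3 := mul_le_mul hB hz' (norm_nonneg _) ((norm_nonneg _).trans hB)
    linarith
  simp only [eval_add, eval_mul, eval_C, eval_X] at h1
  have e : ξ' = -(A / (B + ω)) := by
    field_simp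
    linear_combination h1
  rwa [e] at h2

/-- The data of `ROOTS 1`. -/
structure RT (ω : ℂ) (c γ : ℝ) (Mod : ℂ → Finset ℂ) : Prop where
  om : ‖ω‖ = 1
  c0 : 0 < c
  c1 : c ≤ 1 / 10
  g0 : 0 < γ
  card : ∀ v ∈ Vals, (Mod v).card = 1 ∧ ∀ ξ ∈ Mod v, ‖ξ‖ ≤ 2
  sep : ∀ v ∈ Vals, ∀ v' ∈ Vals, ∀ ξ ∈ Mod v, ∀ ξ' ∈ Mod v', (v ≠ v' ∨ ξ ≠ ξ') →
    10 * c ≤ |ξ.re - ξ'.re|
  rt : ∀ v ∈ Vals, ∀ ξ ∈ Mod v, ∀ h : ℂ[X],
    (∀ z ∈ closedBall (0 : ℂ) 3, ‖h.eval z - ((ω * z) ^ 1 - v)‖ ≤ γ) →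
    ∃ ξ', h.eval ξ' = 0 ∧ ‖ξ' - ξ‖ ≤ c

theorem links (hB : BASIC) {ω : ℂ} {c γ : ℝ} {Mod : ℂ → Finset ℂ} (hR : RT ω c γ Mod)
    {ε ℓ δ : ℝ} (e0 : 0 < ε) (l0 : 0 < ℓ) (hδ : 8 * δ ≤ γ) (hδ1 : 4 * δ ≤ 1)
    {sg e1 e2 f1 f2 : ℂ} (hs : sg = 1 ∨ sg = -1) (k : ℤ)
    (h1 : ‖e1 - sg * (((ε * (ℓ / 8) : ℝ) : ℂ) * (acol (k + 2) - acol k))‖ ≤ δ * (ε * (ℓ / 8)))
    (h2 : ‖e2 - sg * (((ε * (ℓ / 8) : ℝ) : ℂ) * (acol (k + 1) - acol k))‖ ≤ δ * (ε * (ℓ / 8)))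
    (h3 : ‖f1‖ ≤ δ * ε) (h4 : ‖f2‖ ≤ δ * ε) :
    (∀ t ∈ S6, p1 ε ω f1 f2 t ≠ 0 ∧ ‖p0 e1 e2 t / p1 ε ω f1 f2 t‖ ≤ ℓ / 3) ∧
      ∀ t ∈ S6, ∀ t' ∈ S6, t ≠ t' →
        c * ℓ ≤ |(p0 e1 e2 t / p1 ε ω f1 f2 t).re - (p0 e1 e2 t' / p1 ε ω f1 f2 t').re| := by
  have hεc : (ε : ℂ) ≠ 0 := by exact_mod_cast e0.ne'
  have hℓc : (ℓ : ℂ) ≠ 0 := by exact_mod_cast l0.ne'
  have δ0 : 0 ≤ δ := by
    have := (norm_nonneg _).trans h3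
    exact nonneg_of_mul_nonneg_left this e0
  have key : ∀ t ∈ S6, p1 ε ω f1 f2 t ≠ 0 ∧ ∃ ξ ∈ Mod (vv sg k t), ∃ u : ℂ, ‖u - ξ‖ ≤ c ∧
      p0 e1 e2 t / p1 ε ω f1 f2 t = -(((ℓ / 8 : ℝ) : ℂ) * u) := by
    intro t ht
    have hv := vv_mem hs k ht
    obtain ⟨ξ, hξ⟩ := Finset.card_pos.1 (by rw [(hR.card _ hv).1]; exact one_pos)
    have n1 := jump_ne ht
    have n2 := jump_ge ht
    have a1 : ‖p0 e1 e2 t / (((ε * (ℓ / 8) : ℝ) : ℂ) * (t.2.2 : ℂ)) + vv sg k t‖ ≤ 2 * δ := by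
      have e : p0 e1 e2 t / (((ε * (ℓ / 8) : ℝ) : ℂ) * (t.2.2 : ℂ)) + vv sg k t =
          p0 (e1 - sg * (((ε * (ℓ / 8) : ℝ) : ℂ) * (acol (k + 2) - acol k)))
            (e2 - sg * (((ε * (ℓ / 8) : ℝ) : ℂ) * (acol (k + 1) - acol k))) t /
            (((ε * (ℓ / 8) : ℝ) : ℂ) * (t.2.2 : ℂ)) := by
        unfold vv p0
        push_cast
        field_simp
        ring
      rw [e, norm_div, norm_mul, Complex.norm_real, Real.norm_eq_abs, abs_of_pos (by positivity),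
        div_le_iff₀ (by positivity)]
      refine (p0_le ht h1 h2).trans ?_
      have : 0 ≤ δ * (ε * (ℓ / 8)) := by positivity
      nlinarith
    have a2 : ‖p0 f1 f2 t / ((ε : ℂ) * (t.2.2 : ℂ))‖ ≤ 2 * δ := by
      rw [norm_div, norm_mul, Complex.norm_real, Real.norm_eq_abs, abs_of_pos e0,
        div_le_iff₀ (by positivity)]
      refine (p0_le ht h3 h4).trans ?_
      have : 0 ≤ δ * ε := by positivity
      nlinarith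
    obtain ⟨b1, b2⟩ := one_root hR.om (hR.rt _ hv ξ hξ) (a1.trans (by linarith))
      (a2.trans (by linarith)) (a2.trans_lt (by linarith))
    have e : p1 ε ω f1 f2 t = (ε : ℂ) * (t.2.2 : ℂ) *
        (p0 f1 f2 t / ((ε : ℂ) * (t.2.2 : ℂ)) + ω) := by
      unfold p1; field_simp
    refine ⟨by rw [e]; exact mul_ne_zero (mul_ne_zero hεc n1) b1, ξ, hξ, _, b2, ?_⟩
    rw [e]
    generalize p0 f1 f2 t / ((ε : ℂ) * (t.2.2 : ℂ)) + ω = w at b1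
    push_cast
    field_simp
  constructor
  · intro t ht
    obtain ⟨a1, ξ, hξ, u, a2, a3⟩ := key t ht
    refine ⟨a1, ?_⟩
    have b1 := (hR.card _ (vv_mem hs k ht)).2 ξ hξ
    have b2 : ‖u‖ ≤ 2 + 1 / 10 := by
      have := norm_add_le (u - ξ) ξ
      rw [sub_add_cancel] at this
      linarith [hR.c1]
    rw [a3, norm_neg, norm_mul, Complex.norm_real, Real.norm_eq_abs, abs_of_pos (by positivity)]
    nlinarith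
  · intro t ht t' ht' hne
    obtain ⟨-, ξ, hξ, u, a2, a3⟩ := key t ht
    obtain ⟨-, ξ', hξ', u', a2', a3'⟩ := key t' ht'
    have b1 := hR.sep _ (vv_mem hs k ht) _ (vv_mem hs k ht') ξ hξ ξ' hξ'
      (Or.inl fun h => hne (vv_inj hB hs k ht ht' h))
    have b2 : |u.re - ξ.re| ≤ c := by
      rw [← Complex.sub_re]; exact (Complex.abs_re_le_norm _).trans a2
    have b3 : |u'.re - ξ'.re| ≤ c := by
      rw [← Complex.sub_re]; exact (Complex.abs_re_le_norm _).trans a2'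
    have b4 : 8 * c ≤ |u.re - u'.re| := by
      have c1 := abs_sub_le ξ.re u.re ξ'.re
      have c2 := abs_sub_le u.re u'.re ξ'.re
      rw [abs_sub_comm ξ.re u.re] at c1
      linarith
    rw [a3, a3']
    simp only [Complex.neg_re, Complex.re_ofReal_mul]
    rw [show -(ℓ / 8 * u.re) - -(ℓ / 8 * u'.re) = -(ℓ / 8 * (u.re - u'.re)) by ring, abs_neg,
      abs_mul, abs_of_pos (show 0 < ℓ / 8 by positivity)]
    nlinarith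

end

end Pool.Agent.MP_d32a63_an.H13N.PREP3
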