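import Pool.Agent.MP_d32a63_an.H13N.PREP3A

/-! The data of a fine level, part B: the polynomials of a cell. -/

open Set Filter Topology Metric Polynomial
open Complex (I)
open Pool.Agent.MP_d32a63_an.H95 (Core Sec jet W0 Flat RealStmt)
open Pool.Agent.MP_d32a63_an.H58 hiding Cells Sq LAV LA1 LA2 LIMA LIMB LIM FIN

namespace Pool.Agent.MP_d32a63_an.H13N.PREP3

noncomputable section

/-- The coarse scale `L` is fine for the field `F` with error `g`. -/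
structure Fn (n : ℕ) (F : ℕ → ℂ → ℂ) (g L : ℝ) : Prop where
  n2 : 2 ≤ n
  L0 : 0 < L
  L1 : L ≤ 1 / 100
  mo : ∀ y z : ℂ, ‖y‖ ≤ 2 → ‖z - y‖ ≤ 3 * L → ∀ j ≤ n, ‖jet (tay (n + 1) F y) j z - F j z‖ ≤ g

variable {n N : ℕ} {F : ℕ → ℂ → ℂ} {g τ s L ℓ ε : ℝ} {ω : ℂ} {Q : ℤ × ℤ}

theorem cen_left (L : ℝ) (R : ℤ × ℤ) : cen L (R.1 - 1, R.2) = cen L R - L := by
  unfold cen; push_cast; ring

theorem cen_right (L : ℝ) (R : ℤ × ℤ) : cen L (R.1 + 1, R.2) = cen L R + L := by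
  unfold cen; push_cast; ring

theorem cen_up (L : ℝ) (R : ℤ × ℤ) : cen L (R.1, R.2 + 1) = cen L R + I * L := by
  unfold cen; push_cast; ring

theorem cen_down (L : ℝ) (R : ℤ × ℤ) : cen L (R.1, R.2 - 1) = cen L R - I * L := by
  unfold cen; push_cast; ring

theorem norm_L (h : 0 < L) : ‖(L : ℂ)‖ = L := by
  rw [Complex.norm_real, Real.norm_eq_abs, abs_of_pos h]

theorem norm_IL (h : 0 < L) : ‖I * (L : ℂ)‖ = L := by
  rw [norm_mul, Complex.norm_I, one_mul, norm_L h]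

theorem Fn.ep (h : Fn n F g L) {R R' : ℤ × ℤ} (hR : ‖cen L R‖ ≤ 1)
    (hR' : R' = R ∨ R' = (R.1 - 1, R.2) ∨ R' = (R.1, R.2 + 1)) {z : ℂ}
    (hz : ‖z - cen L R‖ ≤ 2 * L) {j : ℕ} (hj : j ≤ n) : ‖jet (EP n F L R') j z - F j z‖ ≤ g := by
  have l0 := h.L0
  have l1 := h.L1
  have a1 : ‖cen L R' - cen L R‖ ≤ L := by
    rcases hR' with rfl | rfl | rfl
    · rw [sub_self, norm_zero]; exact l0.le
    · rw [cen_left, sub_sub_cancel_left, norm_neg, norm_L l0]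
    · rw [cen_up, add_sub_cancel_left, norm_IL l0]
  refine h.mo _ z ?_ ?_ j hj
  · have := norm_add_le (cen L R' - cen L R) (cen L R)
    rw [sub_add_cancel] at this
    linarith
  · have := norm_sub_le (z - cen L R) (cen L R' - cen L R)
    rw [sub_sub_sub_cancel_right] at this
    linarith

/-- A vertex polynomial of the cell `Q`. -/
def Fm (n : ℕ) (F : ℕ → ℂ → ℂ) (τ L : ℝ) (Q : ℤ × ℤ) (P : ℂ[X]) : Prop :=
  ∃ k : ℤ, (k = ix Q - 1 ∨ k = ix Q ∨ k = ix Q + 1) ∧ ∃ c : ℂ, ‖c‖ ≤ 4 * τ ∧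
    P = EP n F L (bs Q k) + C c

theorem col_le (hB : BASIC) (t0 : 0 < τ) (p : ℤ) : ‖(τ : ℂ) * acol p‖ ≤ 2 * τ := by
  rw [norm_mul, norm_L t0]
  nlinarith [hB.ac2 p]

theorem ee_le (hB : BASIC) (t0 : 0 < τ) (p : ℤ) {u : ℂ} (hu : ‖u‖ ≤ 1) :
    ‖u * ee τ p‖ ≤ 2 * τ := by
  unfold ee
  rw [norm_mul, norm_mul, norm_L t0, hB.ac3 (p + 2) p (by omega)]
  nlinarith

theorem fm_vp (hB : BASIC) (t0 : 0 < τ) {k : ℤ} (hk : k = ix Q - 1 ∨ k = ix Q ∨ k = ix Q + 1) :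
    Fm n F τ L Q (VP n F τ L Q k) :=
  ⟨k, hk, _, (col_le hB t0 k).trans (by linarith), rfl⟩

theorem fm_vpe (hB : BASIC) (t0 : 0 < τ) {k : ℤ} (hk : k = ix Q - 1 ∨ k = ix Q ∨ k = ix Q + 1)
    {u : ℂ} (hu : ‖u‖ ≤ 2 * τ) : Fm n F τ L Q (VP n F τ L Q k + C u) :=
  ⟨k, hk, τ * acol k + u, (norm_add_le _ _).trans (by linarith [col_le hB t0 k]), by
    unfold VP; rw [C_add, add_assoc]⟩

theorem fm_all (hB : BASIC) (t0 : 0 < τ) (s0 : 0 ≤ s) (s1 : s ≤ 1) (Q : ℤ × ℤ) :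
    Fm n F τ L Q (E0 n F τ s L Q) ∧ Fm n F τ L Q (E1 n F τ s L Q) ∧
      Fm n F τ L Q (E2 n F τ s L Q) := by
  have a1 : ‖(s : ℂ)‖ ≤ 1 := by rw [Complex.norm_real, Real.norm_eq_abs, abs_of_nonneg s0]; exact s1
  have a2 : ‖(s : ℂ) - 1‖ ≤ 1 := by
    rw [← Complex.ofReal_one, ← Complex.ofReal_sub, Complex.norm_real, Real.norm_eq_abs, abs_le]
    constructor <;> linarith
  have a3 := ee_le hB t0 (ix Q) (u := 1) (by simp)
  rw [one_mul] at a3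
  refine ⟨?_, ?_, ?_⟩
  · unfold E0; split_ifs
    · exact fm_vp hB t0 (Or.inl rfl)
    · exact fm_vp hB t0 (Or.inr (Or.inl rfl))
    · exact fm_vpe hB t0 (Or.inr (Or.inr rfl)) (ee_le hB t0 _ a1)
  · unfold E1; split_ifs
    · exact fm_vp hB t0 (Or.inr (Or.inr rfl))
    · exact fm_vpe hB t0 (Or.inr (Or.inl rfl)) a3
    · exact fm_vpe hB t0 (Or.inr (Or.inr rfl)) (ee_le hB t0 _ a2)
  · unfold E2; split_ifs
    · exact fm_vp hB t0 (Or.inr (Or.inl rfl))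
    · exact fm_vp hB t0 (Or.inr (Or.inr rfl))
    · exact fm_vpe hB t0 (Or.inr (Or.inl rfl)) (ee_le hB t0 _ a1)

theorem Fm.close (hB : BASIC) (h : Fn n F g L) (hQ : ‖cen L (clu Q)‖ ≤ 1) {P : ℂ[X]}
    (hP : Fm n F τ L Q P) {z : ℂ} (hz : ‖z - cen L (clu Q)‖ ≤ 2 * L) {j : ℕ} (hj : j ≤ n) :
    ‖jet P j z - F j z‖ ≤ g + 4 * τ := by
  obtain ⟨k, hk, c, hc, rfl⟩ := hP
  have h1 := h.ep hQ (bs_cases Q hk) hz hj
  have h2 : ‖jet (C c) j z‖ ≤ 4 * τ := by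
    cases j with
    | zero => rw [hB.j0, eval_C]; exact hc
    | succ j => rw [hB.jC, norm_zero]; exact (norm_nonneg _).trans hc
  rw [hB.jadd, add_sub_right_comm]
  exact (norm_add_le _ _).trans (add_le_add h1 h2)

theorem Fm.diff (hB : BASIC) (h : Fn n F g L) (hQ : ‖cen L (clu Q)‖ ≤ 1) {P P' : ℂ[X]}
    (hP : Fm n F τ L Q P) (hP' : Fm n F τ L Q P') {z : ℂ} (hz : ‖z - cen L (clu Q)‖ ≤ 2 * L)
    {j : ℕ} (hj : j + 1 ≤ n) : ‖jet (P' - P) (j + 1) z‖ ≤ 2 * g := by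
  obtain ⟨k, hk, c, -, rfl⟩ := hP
  obtain ⟨k', hk', c', -, rfl⟩ := hP'
  have h1 := h.ep hQ (bs_cases Q hk) hz hj
  have h2 := h.ep hQ (bs_cases Q hk') hz hj
  rw [hB.jsub, hB.jadd, hB.jadd, hB.jC, hB.jC, add_zero, add_zero,
    ← sub_sub_sub_cancel_right _ _ (F (j + 1) z)]
  exact (norm_sub_le _ _).trans (by linarith)

/-- The node polynomials of the cell `Q`. -/
def TT (n N : ℕ) (F : ℕ → ℂ → ℂ) (τ s L ℓ ε : ℝ) (ω : ℂ) (Q m : ℤ × ℤ) : ℂ[X] :=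
  tnode N (E0 n F τ s L Q) (E1 n F τ s L Q) (E2 n F τ s L Q) ε (upol 1 ω (xq L ℓ Q)) m

theorem tt_close (hB : BASIC) (h : Fn n F g L) (hQ : ‖cen L (clu Q)‖ ≤ 1) (t0 : 0 < τ)
    (s0 : 0 ≤ s) (s1 : s ≤ 1) (l0 : 0 < ℓ) (lL : 100 * ℓ ≤ L) (e0 : 0 < ε) (om : ‖ω‖ = 1)
    (N0 : 0 < N) {κ : ℝ} (hκ : g + 4 * τ + 2 * ε ≤ κ / 2) {H : ℕ} {m : ℤ × ℤ} (hm : Nd2 N H m) :
    Close n F κ (TT n N F τ s L ℓ ε ω Q m) (ball (cen L (clu Q)) (2 * L)) := by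
  intro j hj z hz
  have hz1 := (mem_ball_iff_norm.1 hz).le
  obtain ⟨f0, f1, f2⟩ := fm_all (n := n) (F := F) (L := L) hB t0 s0 s1 Q
  have h1 := H95.conv3 N0 (m := m) ⟨hm.1, hm.2.2.1, hm.2.2.2⟩ (f0.close hB h hQ hz1 hj)
    (f1.close hB h hQ hz1 hj) (f2.close hB h hQ hz1 hj)
  have h0 : ‖z - xq L ℓ Q‖ ≤ 1 := by
    have := norm_sub_le (z - cen L (clu Q)) (xq L ℓ Q - cen L (clu Q))
    rw [sub_sub_sub_cancel_right] at this
    linarith [xq_near l0.le L Q, h.L1]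
  have h2 := hB.up 1 ω (xq L ℓ Q) j z om h0
  rw [Nat.factorial_one, Nat.cast_one] at h2
  have h3 : ‖((((m.1 - m.2) % 3 : ℤ)) : ℂ)‖ ≤ 2 := by
    have a1 : 0 ≤ (m.1 - m.2) % 3 := by omega
    have a2 : (m.1 - m.2) % 3 ≤ 2 := by omega
    rw [Complex.norm_intCast, abs_of_nonneg (by exact_mod_cast a1)]
    exact_mod_cast a2
  unfold TT tnode
  rw [hB.jadd, hB.jmul, H95.ebar_jet hB, add_sub_right_comm]
  refine (norm_add_le _ _).trans ((add_le_add h1 ?_).trans hκ)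
  rw [norm_mul, norm_mul, norm_L e0]
  calc ε * ‖((((m.1 - m.2) % 3 : ℤ)) : ℂ)‖ * ‖jet (upol 1 ω (xq L ℓ Q)) j z‖ ≤ ε * 2 * 1 := by
        gcongr
    _ = 2 * ε := by ring

theorem tt_pq (N0 : 0 < N) {m : ℤ × ℤ} (hm : (m.1 - m.2) % 3 = 0) (z : ℂ) :
    (TT n N F τ s L ℓ ε ω Q m).eval z =
      pq (fun _ R => (EP n F L R).eval z) τ s Q ((m.1 : ℝ) / N) ((m.2 : ℝ) / N) := by
  have hNc : (N : ℂ) ≠ 0 := by exact_mod_cast N0.ne'
  unfold TT tnode pq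
  simp only [hm, Int.cast_zero, mul_zero, C_0, zero_mul, add_zero]
  rw [H41.ebar_eval, E0_eval, E1_eval, E2_eval]
  push_cast
  field_simp
  ring

theorem tt_shv (N0 : 0 < N) (hQ : VS Q) {x : ℤ} (hx : Sh N x) :
    TT n N F τ s L ℓ ε ω Q (x, 0) = TT n N F τ s L ℓ ε ω (un Q) (x, 0) := by
  have h1 : (x - 0) % 3 = 0 := by have := hx.2.2; omega
  refine Polynomial.funext fun z => ?_
  rw [tt_pq N0 (m := (x, 0)) h1, tt_pq N0 (m := (x, 0)) h1]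
  simp only [Int.cast_zero, zero_div]
  exact pq_up (fun R => (EP n F L R).eval z) τ s hQ _

theorem tt_shh (N0 : 0 < N) (h6 : 6 ∣ N) {hh : ℕ} (h3 : 3 ∣ hh) (hs : (hh : ℝ) = s * N)
    (hQ : la Q ≠ 15 ∨ lb Q ≤ 3) {x : ℤ} (hx : Sh N x) (hk : kd Q = 0 ∨ (hh : ℤ) ≤ x) :
    TT n N F τ s L ℓ ε ω Q (rnd N hh Q x) = TT n N F τ s L ℓ ε ω (rn Q) (0, x) := by
  have hN : (0 : ℝ) < N := by exact_mod_cast N0
  obtain ⟨x0, x1, x3⟩ := hx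
  have h1 : ((rnd N hh Q x).1 - (rnd N hh Q x).2) % 3 = 0 := by
    obtain ⟨P, hP⟩ := h6
    obtain ⟨P', hP'⟩ := h3
    unfold rnd HH
    simp only
    split_ifs <;> omega
  have h2 : ((0 : ℤ) - x) % 3 = 0 := by omega
  refine Polynomial.funext fun z => ?_
  rw [tt_pq N0 h1, tt_pq N0 (m := (0, x)) h2]
  have a1 : (((rnd N hh Q x).1 : ℤ) : ℝ) / N = min (hq s Q) ((x : ℝ) / N) := by
    have : hq s Q = (HH N hh Q : ℝ) / N := by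
      unfold hq HH
      split_ifs
      · rw [div_self hN.ne']
      · rw [hs, mul_div_cancel_right₀ _ hN.ne']
    rw [this, min_div_div_right hN.le]
    unfold rnd
    push_cast
    rfl
  have a2 : (((rnd N hh Q x).2 : ℤ) : ℝ) / N = 1 - (x : ℝ) / N := by
    unfold rnd
    push_cast
    field_simp
  rw [a1, a2]
  simp only [Int.cast_zero, zero_div]
  refine pq_right (fun R => (EP n F L R).eval z) τ s hQ ?_ (hk.imp id fun h => ?_)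
  · rw [div_le_one hN]; exact_mod_cast x1.le
  · rw [le_div_iff₀ hN, ← hs]; exact_mod_cast h

theorem tt_mid (N0 : 0 < N) (R : ℤ × ℤ) {x : ℤ} (hx : x % 3 = 0) (z : ℂ) :
    (TT n N F τ s L ℓ ε ω (cel R 0 3) (0, x)).eval z =
      (EP n F L (R.1 - 1, R.2)).eval z + ((τ * ((2 * x - N) / N) : ℝ) : ℂ) := by
  have hNc : (N : ℂ) ≠ 0 := by exact_mod_cast N0.ne'
  have h2 : ((0 : ℤ) - x) % 3 = 0 := by omega
  rw [tt_pq N0 (m := (0, x)) h2]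
  unfold pq v0 v1 v2 vp
  simp (disch := norm_num) only [kd_cel, ix_cel, bs_cel]
  simp [kd0, ix0, acol]
  field_simp
  ring

/-- The sides of the lattice of a cell and their derivatives. -/
def d1 (n N : ℕ) (F : ℕ → ℂ → ℂ) (τ s L ℓ : ℝ) (j : ℕ) (Q : ℤ × ℤ) : ℂ :=
  jet (E1 n F τ s L Q - E0 n F τ s L Q) j (xq L ℓ Q) / N

def d2 (n N : ℕ) (F : ℕ → ℂ → ℂ) (τ s L ℓ : ℝ) (j : ℕ) (Q : ℤ × ℤ) : ℂ :=
  jet (E2 n F τ s L Q - E0 n F τ s L Q) j (xq L ℓ Q) / N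

/-- The link points. -/
def zz (n N : ℕ) (F : ℕ → ℂ → ℂ) (τ s L ℓ ε : ℝ) (ω : ℂ) (Q : ℤ × ℤ) (t : ℤ × ℤ × ℤ) : ℂ :=
  xq L ℓ Q - p0 (d1 n N F τ s L ℓ 0 Q) (d2 n N F τ s L ℓ 0 Q) t /
    p1 ε ω (d1 n N F τ s L ℓ 1 Q) (d2 n N F τ s L ℓ 1 Q) t

theorem div_le (N0 : 0 < N) {u : ℂ} {A : ℝ} (h : ‖u‖ ≤ A) : ‖u / N‖ ≤ A / N := by
  have hN : (0 : ℝ) < N := by exact_mod_cast N0
  rw [norm_div, Complex.norm_natCast]
  gcongr

theorem tt_lk (hB : BASIC) (h : Fn n F g L) (hQ : ‖cen L (clu Q)‖ ≤ 1) (t0 : 0 < τ)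
    (s0 : 0 ≤ s) (s1 : s ≤ 1) (l0 : 0 < ℓ) (lL : 100 * ℓ ≤ L) (N0 : 0 < N) {m m' : ℤ × ℤ}
    (hm : Nb m m') (h1 : p1 ε ω (d1 n N F τ s L ℓ 1 Q) (d2 n N F τ s L ℓ 1 Q) (tr m m') ≠ 0)
    (h2 : ‖zz n N F τ s L ℓ ε ω Q (tr m m') - xq L ℓ Q‖ ≤ ℓ / 3) :
    ‖(TT n N F τ s L ℓ ε ω Q m' - TT n N F τ s L ℓ ε ω Q m).eval
      (zz n N F τ s L ℓ ε ω Q (tr m m'))‖ ≤ g * ℓ ^ 2 := by
  have hN : (1 : ℝ) ≤ N := by exact_mod_cast N0
  have hNc : (N : ℂ) ≠ 0 := by exact_mod_cast N0.ne'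
  obtain ⟨f0, f1, f2⟩ := fm_all (n := n) (F := F) (L := L) hB t0 s0 s1 Q
  have a0 : p0 (d1 n N F τ s L ℓ 0 Q) (d2 n N F τ s L ℓ 0 Q) (tr m m') +
      p1 ε ω (d1 n N F τ s L ℓ 1 Q) (d2 n N F τ s L ℓ 1 Q) (tr m m') *
        (zz n N F τ s L ℓ ε ω Q (tr m m') - xq L ℓ Q) = 0 := by
    unfold zz
    field_simp
    ring
  generalize zz n N F τ s L ℓ ε ω Q (tr m m') = ζ at a0 h2
  have x1 := xq_near l0.le L Q
  have x2 : xq L ℓ Q ∈ closedBall (cen L (clu Q)) (2 * L) :=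
    mem_closedBall_iff_norm.2 (by linarith)
  have x3 : ζ ∈ closedBall (cen L (clu Q)) (2 * L) := by
    have := norm_add_le (ζ - xq L ℓ Q) (xq L ℓ Q - cen L (clu Q))
    rw [sub_add_sub_cancel] at this
    exact mem_closedBall_iff_norm.2 (by linarith)
  have g0 : 0 ≤ 2 * g :=
    (norm_nonneg _).trans (f0.diff hB h hQ f0 (mem_closedBall_iff_norm.1 x2) (j := 1) h.n2)
  have k : ∀ P, Fm n F τ L Q P → ‖((P - E0 n F τ s L Q).eval ζ -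
      (P - E0 n F τ s L Q).eval (xq L ℓ Q) -
      jet (P - E0 n F τ s L Q) 1 (xq L ℓ Q) * (ζ - xq L ℓ Q)) / N‖ ≤ g * ℓ ^ 2 / 2 := by
    intro P hP
    have b1 := hB.snd (P - E0 n F τ s L Q) _ (2 * g) (convex_closedBall _ _)
      (fun z hz => f0.diff hB h hQ hP (mem_closedBall_iff_norm.1 hz) (j := 1) h.n2) _ x2 _ x3
    have b2 : 2 * g * ‖ζ - xq L ℓ Q‖ ^ 2 ≤ 2 * g * (ℓ / 3) ^ 2 := by gcongr
    have b3 : 0 ≤ g * ℓ ^ 2 := mul_nonneg (by linarith) (sq_nonneg _)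
    refine (div_le N0 (b1.trans b2)).trans ((div_le_self (by positivity) hN).trans ?_)
    nlinarith
  refine le_of_eq_of_le (congrArg _ ?_) ((p0_le (tr_mem hm) (k _ f1) (k _ f2)).trans (by linarith))
  unfold p1 p0 d1 d2 tr at a0
  rw [hB.j0, hB.j0] at a0
  unfold TT tnode upol p0 tr
  simp only [eval_sub, eval_add, H41.ebar_eval, eval_mul, eval_C, eval_X, pow_one] at a0 ⊢
  push_cast at a0 ⊢
  linear_combination a0

theorem cell_geo (hB : BASIC) (h : Fn n F g L) (hQ : ‖cen L (clu Q)‖ ≤ 1) (t0 : 0 < τ)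
    (s0 : 0 ≤ s) (s1 : s ≤ 1) (l0 : 0 < ℓ) (lL : 100 * ℓ ≤ L) (N0 : 0 < N) :
    (∃ sg : ℂ, (sg = 1 ∨ sg = -1) ∧
      ‖d1 n N F τ s L ℓ 0 Q - sg * (((τ / N : ℝ) : ℂ) * (acol (lx Q + 2) - acol (lx Q)))‖ ≤
        2 * g / N ∧
      ‖d2 n N F τ s L ℓ 0 Q - sg * (((τ / N : ℝ) : ℂ) * (acol (lx Q + 1) - acol (lx Q)))‖ ≤
        2 * g / N) ∧
      ‖d1 n N F τ s L ℓ 1 Q‖ ≤ 2 * g / N ∧ ‖d2 n N F τ s L ℓ 1 Q‖ ≤ 2 * g / N ∧
      ‖(v1 (bvF n F L) τ s Q - v0 (bvF n F L) τ s Q) / N - d1 n N F τ s L ℓ 0 Q‖ ≤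
        28 * g * ℓ / N ∧
      ‖(v2 (bvF n F L) τ s Q - v0 (bvF n F L) τ s Q) / N - d2 n N F τ s L ℓ 0 Q‖ ≤
        28 * g * ℓ / N := by
  have hNc : (N : ℂ) ≠ 0 := by exact_mod_cast N0.ne'
  obtain ⟨f0, f1, f2⟩ := fm_all (n := n) (F := F) (L := L) hB t0 s0 s1 Q
  have x1 := xq_near l0.le L Q
  have x2 : ‖xq L ℓ Q - cen L (clu Q)‖ ≤ 2 * L := by linarith
  have n1 : 0 + 1 ≤ n := by linarith [h.n2]
  have g0 : 0 ≤ 2 * g := (norm_nonneg _).trans (f0.diff hB h hQ f0 x2 n1)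
  have k : ∀ P, Fm n F τ L Q P → ‖(P - E0 n F τ s L Q).eval (cen L (clu Q)) / N -
      jet (P - E0 n F τ s L Q) 0 (xq L ℓ Q) / N‖ ≤ 28 * g * ℓ / N := by
    intro P hP
    have b1 := hB.lip (P - E0 n F τ s L Q) 0 _ (2 * g) (convex_closedBall _ _)
      (fun z hz => f0.diff hB h hQ hP (mem_closedBall_iff_norm.1 hz) n1) _
      (mem_closedBall_iff_norm.2 x2) _ (mem_closedBall_self (by linarith [h.L0]))
    rw [hB.j0 _ (cen L (clu Q)), norm_sub_rev (cen L (clu Q))] at b1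
    have b2 : 2 * g * ‖xq L ℓ Q - cen L (clu Q)‖ ≤ 2 * g * (14 * ℓ) := by gcongr
    rw [← sub_div]
    exact div_le N0 (by linarith)
  refine ⟨?_, div_le N0 (f0.diff hB h hQ f1 x2 n1), div_le N0 (f0.diff hB h hQ f2 x2 n1), ?_, ?_⟩
  · obtain ⟨sg, hs, a1, a2⟩ := sides_near (B := fun R => (EP n F L R).eval (xq L ℓ Q))
      (w := F 0 (xq L ℓ Q)) (g := g) τ s Q fun k hk => by
        have := h.ep hQ (bs_cases Q hk) x2 (Nat.zero_le n)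
        rwa [hB.j0] at this
    rw [← E1_eval, ← E0_eval] at a1
    rw [← E2_eval, ← E0_eval] at a2
    refine ⟨sg, hs, le_of_eq_of_le (congrArg _ ?_) (div_le N0 a1),
      le_of_eq_of_le (congrArg _ ?_) (div_le N0 a2)⟩
    · unfold d1; rw [hB.j0, eval_sub]; push_cast; ring
    · unfold d2; rw [hB.j0, eval_sub]; push_cast; ring
  · refine le_of_eq_of_le (congrArg _ ?_) (k _ f1)
    rw [eval_sub, E1_eval, E0_eval]; rfl
  · refine le_of_eq_of_le (congrArg _ ?_) (k _ f2)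
    rw [eval_sub, E2_eval, E0_eval]; rfl

theorem bv_ok (hB : BASIC) (h : Fn n F g L) {W : Set ℂ} (hW : W0 ⊆ W) {M : ℝ} (M0 : 0 < M)
    (hM : ∀ j ≤ n, ∀ z : ℂ, ‖z‖ ≤ 3 → ‖F j z‖ ≤ M) (hg : g ≤ τ / 3000) :
    BV W L τ (21 * M) (F 0) (bvF n F L) := by
  have l0 := h.L0
  have l1 := h.L1
  have b0 : ∀ R, bvF n F L R R = F 0 (cen L R) := fun R => by
    unfold bvF EP
    rw [← hB.j0, hB.jt _ _ _ 0 (by omega)]
  refine ⟨b0, fun R hR => ?_, fun R hR => ?_⟩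
  · have hc := H41.act_norm hB hW l0 hR
    have z0 : ‖cen L R - cen L R‖ ≤ 2 * L := by rw [sub_self, norm_zero]; linarith
    have a1 := h.ep hc (Or.inr (Or.inl rfl)) z0 (Nat.zero_le n)
    have a2 := h.ep hc (Or.inr (Or.inr rfl)) z0 (Nat.zero_le n)
    rw [hB.j0] at a1 a2
    rw [b0]
    exact ⟨a1.trans hg, a2.trans hg⟩
  · have hc := H41.act_norm hB hW l0 hR
    have a1 := hB.snd (EP n F L R) (closedBall (cen L R) 3) (21 * M) (convex_closedBall _ _)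
      (fun z hz => hB.bd (n + 1) F (cen L R) M M0.le
        (fun j hj => hM j (by omega) _ (by linarith)) 2 z (mem_closedBall_iff_norm.1 hz)) _
      (mem_closedBall_self (by norm_num))
    have a2 : jet (EP n F L R) 1 (cen L R) = F 1 (cen L R) :=
      hB.jt _ _ _ 1 (by linarith [h.n2])
    rw [a2] at a1
    refine ⟨F 1 (cen L R), (hM 1 (by linarith [h.n2]) _ (by linarith)).trans (by linarith), ?_, ?_⟩
    · have := a1 (cen L R + L) (mem_closedBall_iff_norm.2 (by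
        rw [add_sub_cancel_left, norm_L l0]; linarith))
      rw [add_sub_cancel_left, norm_L l0] at this
      unfold bvF
      rw [cen_right]
      exact this
    · have := a1 (cen L R - I * L) (mem_closedBall_iff_norm.2 (by
        rw [sub_sub_cancel_left, norm_neg, norm_IL l0]; linarith))
      rw [sub_sub_cancel_left, norm_neg, norm_IL l0, mul_neg, sub_neg_eq_add] at this
      unfold bvF
      rw [cen_down]
      exact this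

end

end Pool.Agent.MP_d32a63_an.H13N.PREP3
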