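import Pool.Agent.MP_d32a63_an.H13N.Spec

/-! Basic facts about the pattern of `16 × 6` cells. -/

open Set Filter Topology Metric Polynomial
open Complex (I)
open Pool.Agent.MP_d32a63_an.H95 (Core Sec jet W0 Flat RealStmt)
open Pool.Agent.MP_d32a63_an.H58 hiding Cells Sq LAV LA1 LA2 LIMA LIMB LIM FIN

namespace Pool.Agent.MP_d32a63_an.H13N

noncomputable section

/-! ### Local coordinates -/

theorem la_bd (Q : ℤ × ℤ) : 0 ≤ la Q ∧ la Q < 16 := by unfold la; omega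

theorem lb_bd (Q : ℤ × ℤ) : 0 ≤ lb Q ∧ lb Q < 6 := by unfold lb; omega

theorem cel_rc (Q : ℤ × ℤ) : cel (rc Q) (la Q) (lb Q) = Q := by
  unfold cel rc la lb
  exact Prod.ext (by simp only; omega) (by simp only; omega)

theorem exists_cel (Q : ℤ × ℤ) :
    ∃ R a b, 0 ≤ a ∧ a < 16 ∧ 0 ≤ b ∧ b < 6 ∧ Q = cel R a b :=
  ⟨_, _, _, (la_bd Q).1, (la_bd Q).2, (lb_bd Q).1, (lb_bd Q).2, (cel_rc Q).symm⟩

section cel

variable (R : ℤ × ℤ) {a b : ℤ}

theorem la_cel (h0 : 0 ≤ a) (h1 : a < 16) (b : ℤ) : la (cel R a b) = a := by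
  unfold la cel; simp only; omega

theorem lb_cel (a : ℤ) (h0 : 0 ≤ b) (h1 : b < 6) : lb (cel R a b) = b := by
  unfold lb cel; simp only; omega

theorem rc_cel (h0 : 0 ≤ a) (h1 : a < 16) (h2 : 0 ≤ b) (h3 : b < 6) : rc (cel R a b) = R := by
  unfold rc cel
  exact Prod.ext (by simp only; omega) (by simp only; omega)

theorem clu_eq (Q : ℤ × ℤ) :
    clu Q = if la Q = 15 ∧ lb Q = 0 then ((rc Q).1, (rc Q).2 - 1) else rc Q := rfl

theorem clu_cel (h0 : 0 ≤ a) (h1 : a < 16) (h2 : 0 ≤ b) (h3 : b < 6) (h : ¬(a = 15 ∧ b = 0)) :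
    clu (cel R a b) = R := by
  rw [clu_eq, la_cel R h0 h1, lb_cel R a h2 h3, if_neg h, rc_cel R h0 h1 h2 h3]

theorem clu_ten : clu (cel R 15 0) = (R.1, R.2 - 1) := by
  rw [clu_eq, la_cel R (by norm_num) (by norm_num), lb_cel R _ le_rfl (by norm_num),
    if_pos ⟨rfl, rfl⟩, rc_cel R (by norm_num) (by norm_num) le_rfl (by norm_num)]

theorem kd_cel (h0 : 0 ≤ a) (h1 : a < 16) (h2 : 0 ≤ b) (h3 : b < 6) :
    kd (cel R a b) = kd0 a b := by
  unfold kd; rw [la_cel R h0 h1, lb_cel R a h2 h3]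

theorem ix_cel (h0 : 0 ≤ a) (h1 : a < 16) (h2 : 0 ≤ b) (h3 : b < 6) :
    ix (cel R a b) = ix0 a b := by
  unfold ix; rw [la_cel R h0 h1, lb_cel R a h2 h3]

theorem bs_cel (h0 : 0 ≤ a) (h1 : a < 16) (h2 : 0 ≤ b) (h3 : b < 6) (k : ℤ) :
    bs (cel R a b) k = if b ≤ 3 then (if k ≤ 5 then (R.1 - 1, R.2) else R)
      else if b = 4 ∧ 6 ≤ k then R else (R.1, R.2 + 1) := by
  unfold bs; rw [lb_cel R a h2 h3, rc_cel R h0 h1 h2 h3]

theorem rn_cel (a b : ℤ) : rn (cel R a b) = cel R (a + 1) b := by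
  unfold rn cel; exact Prod.ext (by simp only; ring) rfl

theorem rn_last (b : ℤ) : rn (cel R 15 b) = cel (R.1 + 1, R.2) 0 b := by
  unfold rn cel; exact Prod.ext (by simp only; ring) rfl

theorem un_cel (a b : ℤ) : un (cel R a b) = cel R a (b + 1) := by
  unfold un cel; exact Prod.ext rfl (by simp only; ring)

theorem un_last (a : ℤ) : un (cel R a 5) = cel (R.1, R.2 + 1) a 0 := by
  unfold un cel; exact Prod.ext rfl (by simp only; ring)

end cel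

theorem kd_le (Q : ℤ × ℤ) : kd Q = 0 ∨ kd Q = 1 ∨ kd Q = 2 := by
  unfold kd kd0; split_ifs <;> simp

theorem vs_even {Q : ℤ × ℤ} (h : VS Q) : Even (Q.1 + Q.2) := by
  unfold VS la lb at h
  rw [Int.even_iff]; omega

/-! ### Neighbours -/

/-- The index of the first vertex of the left side. -/
def lx (Q : ℤ × ℤ) : ℤ := if kd Q = 0 then ix Q - 1 else ix Q

/-- The offset of the base cluster. -/
def of0 (b k : ℤ) : ℤ × ℤ :=
  if b ≤ 3 then (if k ≤ 5 then (-1, 0) else (0, 0)) else if b = 4 ∧ 6 ≤ k then (0, 0) else (0, 1)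

def lx0 (a b : ℤ) : ℤ := if kd0 a b = 0 then ix0 a b - 1 else ix0 a b

theorem bs_of (Q : ℤ × ℤ) (k : ℤ) :
    bs Q k = ((rc Q).1 + (of0 (lb Q) k).1, (rc Q).2 + (of0 (lb Q) k).2) := by
  unfold bs of0
  split_ifs <;> simp [sub_eq_add_neg]

theorem tabR : ∀ a ∈ Finset.Ico (0 : ℤ) 15, ∀ b ∈ Finset.Ico (0 : ℤ) 6,
    lx0 (a + 1) b = ix0 a b ∧ (kd0 (a + 1) b = 2 ↔ kd0 a b = 1) := by decide

theorem tabW : ∀ b ∈ Finset.Ico (0 : ℤ) 4,
    lx0 0 b % 3 = ix0 15 b % 3 ∧ (kd0 0 b = 2 ↔ kd0 15 b = 1) ∧ of0 b (lx0 0 b) = (-1, 0) ∧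
      of0 b (lx0 0 b + 1) = (-1, 0) ∧ of0 b (ix0 15 b) = (0, 0) ∧
      of0 b (ix0 15 b + 1) = (0, 0) := by decide

theorem rn_tab {Q : ℤ × ℤ} (h : la Q ≠ 15 ∨ lb Q ≤ 3) :
    bs (rn Q) (lx (rn Q)) = bs Q (ix Q) ∧ bs (rn Q) (lx (rn Q) + 1) = bs Q (ix Q + 1) ∧
      lx (rn Q) % 3 = ix Q % 3 ∧ (kd (rn Q) = 2 ↔ kd Q = 1) := by
  obtain ⟨R, a, b, a0, a1, b0, b1, rfl⟩ := exists_cel Q
  rw [la_cel R a0 a1, lb_cel R a b0 b1] at h
  by_cases ha : a = 15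
  · subst ha
    obtain ⟨t1, t2, t3, t4, t5, t6⟩ := tabW b (Finset.mem_Ico.2 ⟨b0, by omega⟩)
    have e : lx (cel (R.1 + 1, R.2) 0 b) = lx0 0 b := by
      unfold lx lx0; rw [kd_cel _ le_rfl (by norm_num) b0 b1, ix_cel _ le_rfl (by norm_num) b0 b1]
    rw [rn_last, e, bs_of, bs_of, bs_of, bs_of, rc_cel _ le_rfl (by norm_num) b0 b1,
      rc_cel _ a0 a1 b0 b1, lb_cel _ _ b0 b1, lb_cel _ _ b0 b1, ix_cel _ a0 a1 b0 b1,
      kd_cel _ a0 a1 b0 b1, kd_cel _ le_rfl (by norm_num) b0 b1, t3, t4, t5, t6]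
    exact ⟨by simp, by simp, t1, t2⟩
  · obtain ⟨t1, t2⟩ := tabR a (Finset.mem_Ico.2 ⟨a0, by omega⟩) b (Finset.mem_Ico.2 ⟨b0, b1⟩)
    have a2 : 0 ≤ a + 1 := by omega
    have a3 : a + 1 < 16 := by omega
    have e : lx (cel R (a + 1) b) = lx0 (a + 1) b := by
      unfold lx lx0; rw [kd_cel _ a2 a3 b0 b1, ix_cel _ a2 a3 b0 b1]
    rw [rn_cel, e, t1, bs_cel _ a2 a3 b0 b1, bs_cel _ a2 a3 b0 b1, bs_cel _ a0 a1 b0 b1,
      bs_cel _ a0 a1 b0 b1, ix_cel _ a0 a1 b0 b1, kd_cel _ a0 a1 b0 b1, kd_cel _ a2 a3 b0 b1]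
    exact ⟨rfl, rfl, rfl, t2⟩

theorem acol_mod {p q : ℤ} (h : p % 3 = q % 3) : acol p = acol q := by unfold acol; rw [h]

theorem ee_mod (τ : ℝ) {p q : ℤ} (h : p % 3 = q % 3) : ee τ p = ee τ q := by
  unfold ee; rw [acol_mod h, acol_mod (p := p + 2) (q := q + 2) (by omega)]

/-- The values of a cell only use the row of `bv` that belongs to its cluster. -/
theorem pq_row (bv : ℤ × ℤ → ℤ × ℤ → ℂ) (τ s : ℝ) (Q : ℤ × ℤ) :
    pq bv τ s Q = pq (fun _ => bv (clu Q)) τ s Q := rfl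

/-- The left side of a cell. -/
theorem pq_left (bv : ℤ × ℤ → ℤ × ℤ → ℂ) (τ s : ℝ) (Q : ℤ × ℤ) (t : ℝ) :
    pq bv τ s Q 0 t = if kd Q = 2 then
      vp bv τ Q (lx Q + 1) + t * (vp bv τ Q (lx Q) - vp bv τ Q (lx Q + 1)) + s * ee τ (lx Q)
      else vp bv τ Q (lx Q) + t * (vp bv τ Q (lx Q + 1) - vp bv τ Q (lx Q)) := by
  unfold pq v0 v1 v2 lx
  rcases kd_le Q with h | h | h <;> (simp only [h]; simp; try ring)

/-- The right side of a cell. -/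
theorem pq_rt (bv : ℤ × ℤ → ℤ × ℤ → ℂ) (τ s : ℝ) (Q : ℤ × ℤ) {t : ℝ} (h1 : t ≤ 1)
    (h : kd Q = 0 ∨ s ≤ t) :
    pq bv τ s Q (min (hq s Q) t) (1 - t) = if kd Q = 1 then
      vp bv τ Q (ix Q + 1) + t * (vp bv τ Q (ix Q) - vp bv τ Q (ix Q + 1)) + s * ee τ (ix Q)
      else vp bv τ Q (ix Q) + t * (vp bv τ Q (ix Q + 1) - vp bv τ Q (ix Q)) := by
  unfold pq v0 v1 v2 hq
  rcases kd_le Q with k | k | k
  · simp only [k, if_true, min_eq_right h1]; simp; ring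
  · have hs : s ≤ t := h.resolve_left (by omega)
    simp only [k]; simp [min_eq_left hs]; ring
  · have hs : s ≤ t := h.resolve_left (by omega)
    simp only [k]; simp [min_eq_left hs]; ring

/-- The right side of a cell is the left side of its neighbour. -/
theorem pq_right (B : ℤ × ℤ → ℂ) (τ s : ℝ) {Q : ℤ × ℤ} (hQ : la Q ≠ 15 ∨ lb Q ≤ 3) {t : ℝ}
    (h1 : t ≤ 1) (h : kd Q = 0 ∨ s ≤ t) :
    pq (fun _ => B) τ s Q (min (hq s Q) t) (1 - t) = pq (fun _ => B) τ s (rn Q) 0 t := by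
  obtain ⟨t1, t2, t3, t4⟩ := rn_tab hQ
  have e1 : vp (fun _ => B) τ (rn Q) (lx (rn Q)) = vp (fun _ => B) τ Q (ix Q) := by
    unfold vp; rw [t1, acol_mod t3]
  have e2 : vp (fun _ => B) τ (rn Q) (lx (rn Q) + 1) = vp (fun _ => B) τ Q (ix Q + 1) := by
    unfold vp; rw [t2, acol_mod (p := lx (rn Q) + 1) (q := ix Q + 1) (by omega)]
  rw [pq_rt _ _ _ _ h1 h, pq_left, e1, e2, ee_mod τ t3]
  simp only [t4]

theorem v_up (B : ℤ × ℤ → ℂ) (τ s : ℝ) {Q : ℤ × ℤ} (hQ : VS Q) :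
    v0 (fun _ => B) τ s Q = v0 (fun _ => B) τ s (un Q) ∧
      v1 (fun _ => B) τ s Q = v1 (fun _ => B) τ s (un Q) := by
  obtain ⟨R, a, b, a0, a1, b0, b1, rfl⟩ := exists_cel Q
  unfold VS at hQ
  rw [la_cel R a0 a1, lb_cel R a b0 b1] at hQ
  rcases hQ with ⟨rfl, rfl | rfl⟩ | ⟨rfl, rfl | rfl⟩ | ⟨rfl, rfl⟩ | ⟨rfl, rfl | rfl | rfl | rfl⟩
  all_goals
    first | rw [un_last] | rw [un_cel]
    unfold v0 v1 vp
    simp (disch := norm_num) only [kd_cel, ix_cel, bs_cel]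
    simp [kd0, ix0, ee, acol]
    try ring

/-- The upper side of a cell is shared with the upper neighbour. -/
theorem pq_up (B : ℤ × ℤ → ℂ) (τ s : ℝ) {Q : ℤ × ℤ} (hQ : VS Q) (t : ℝ) :
    pq (fun _ => B) τ s Q t 0 = pq (fun _ => B) τ s (un Q) t 0 := by
  unfold pq; rw [(v_up B τ s hQ).1, (v_up B τ s hQ).2]; simp

/-! ### Polynomials and values -/

theorem E0_eval (n : ℕ) (F : ℕ → ℂ → ℂ) (τ s L : ℝ) (Q : ℤ × ℤ) (z : ℂ) :
    (E0 n F τ s L Q).eval z = v0 (fun _ R => (EP n F L R).eval z) τ s Q := by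
  unfold E0 v0 VP vp; split_ifs <;> simp

theorem E1_eval (n : ℕ) (F : ℕ → ℂ → ℂ) (τ s L : ℝ) (Q : ℤ × ℤ) (z : ℂ) :
    (E1 n F τ s L Q).eval z = v1 (fun _ R => (EP n F L R).eval z) τ s Q := by
  unfold E1 v1 VP vp; split_ifs <;> simp

theorem E2_eval (n : ℕ) (F : ℕ → ℂ → ℂ) (τ s L : ℝ) (Q : ℤ × ℤ) (z : ℂ) :
    (E2 n F τ s L Q).eval z = v2 (fun _ R => (EP n F L R).eval z) τ s Q := by
  unfold E2 v2 VP vp; split_ifs <;> simp

/-! ### Geometry of the values -/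

theorem tabB : ∀ a ∈ Finset.Ico (0 : ℤ) 16, ∀ b ∈ Finset.Ico (0 : ℤ) 6, a = 15 ∧ b = 0 →
    of0 b (ix0 a b - 1) = (0, 0) ∧ of0 b (ix0 a b) = (0, 0) ∧ of0 b (ix0 a b + 1) = (0, 0) := by
  decide

/-- The base of a vertex of `Q` is the cluster of `Q`, its left or its upper neighbour. -/
theorem bs_cases (Q : ℤ × ℤ) {k : ℤ} (hk : k = ix Q - 1 ∨ k = ix Q ∨ k = ix Q + 1) :
    bs Q k = clu Q ∨ bs Q k = ((clu Q).1 - 1, (clu Q).2) ∨ bs Q k = ((clu Q).1, (clu Q).2 + 1) := by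
  obtain ⟨R, a, b, a0, a1, b0, b1, rfl⟩ := exists_cel Q
  by_cases h : a = 15 ∧ b = 0
  · obtain ⟨t1, t2, t3⟩ := tabB a (Finset.mem_Ico.2 ⟨a0, a1⟩) b (Finset.mem_Ico.2 ⟨b0, b1⟩) h
    rw [ix_cel _ a0 a1 b0 b1] at hk
    right; right
    rw [bs_of, lb_cel _ _ b0 b1, rc_cel _ a0 a1 b0 b1]
    obtain ⟨rfl, rfl⟩ := h
    rw [clu_ten]
    rcases hk with rfl | rfl | rfl
    · rw [t1]; simp
    · rw [t2]; simp
    · rw [t3]; simp
  · rw [clu_cel _ a0 a1 b0 b1 h, bs_cel _ a0 a1 b0 b1]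
    split_ifs <;> simp

section val

variable {W : Set ℂ} {L τ M : ℝ} {F0 : ℂ → ℂ} {bv : ℤ × ℤ → ℤ × ℤ → ℂ}

theorem vp_near (hτ : 0 < τ) (h : BV W L τ M F0 bv) {Q : ℤ × ℤ} (hQ : act W L (clu Q)) {k : ℤ}
    (hk : k = ix Q - 1 ∨ k = ix Q ∨ k = ix Q + 1) :
    ‖vp bv τ Q k - (bv (clu Q) (clu Q) + τ * acol k)‖ ≤ τ / 3000 := by
  unfold vp
  rw [add_sub_add_right_eq_sub]
  rcases bs_cases Q hk with e | e | e <;> rw [e]
  · rw [sub_self, norm_zero]; positivity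
  · exact (h.b1 _ hQ).1
  · exact (h.b1 _ hQ).2

theorem tri_full (hτ : 0 < τ) (hτ1 : τ ≤ 1) (h : BV W L τ M F0 bv) (s : ℝ) {Q : ℤ × ℤ}
    (hQ : act W L (clu Q)) (hk : kd Q = 0) :
    Tri τ (bv (clu Q) (clu Q)) (ix Q - 1) (v0 bv τ s Q) (v2 bv τ s Q) (v1 bv τ s Q) := by
  unfold v0 v1 v2
  simp only [hk, if_true]
  refine ⟨hτ, hτ1, (vp_near hτ h hQ (Or.inl rfl)).trans (by linarith), ?_, ?_⟩
  · rw [sub_add_cancel]
    exact (vp_near hτ h hQ (Or.inr (Or.inl rfl))).trans (by linarith)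
  · rw [show ix Q - 1 + 2 = ix Q + 1 by ring]
    exact (vp_near hτ h hQ (Or.inr (Or.inr rfl))).trans (by linarith)

theorem model_nd (hB : BASIC) (k : ℤ) (x y : ℝ) :
    |x| + |y| ≤ ‖(x : ℂ) * (acol (k + 2) - acol k) + (y : ℂ) * (acol (k + 1) - acol k)‖ ∧
      ‖(x : ℂ) * (acol (k + 2) - acol k) + (y : ℂ) * (acol (k + 1) - acol k)‖ ≤
        2 * (|x| + |y|) := by
  have n1 := hB.ac3 (k + 2) k (by omega)
  have n2 := hB.ac3 (k + 1) k (by omega)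
  have n3 := hB.ac3 (k + 2) (k + 1) (by omega)
  set p := acol (k + 2) - acol k with hp
  set q := acol (k + 1) - acol k with hq
  have n4 : ‖p - q‖ = 2 := by rw [hp, hq, sub_sub_sub_cancel_right]; exact n3
  constructor
  · have s1 : p.re ^ 2 + p.im ^ 2 = 4 := by
      have := Complex.sq_norm p
      rw [n1, Complex.normSq_apply] at this; linarith
    have s2 : q.re ^ 2 + q.im ^ 2 = 4 := by
      have := Complex.sq_norm q
      rw [n2, Complex.normSq_apply] at this; linarith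
    have s3 : (p.re - q.re) ^ 2 + (p.im - q.im) ^ 2 = 4 := by
      have := Complex.sq_norm (p - q)
      rw [n4, Complex.normSq_apply, Complex.sub_re, Complex.sub_im] at this; linarith
    have s4 : p.re * q.re + p.im * q.im = 2 := by linarith
    have s5 : ‖(x : ℂ) * p + (y : ℂ) * q‖ ^ 2 = 4 * (x ^ 2 + y ^ 2 + x * y) := by
      rw [Complex.sq_norm, Complex.normSq_apply]
      simp only [Complex.add_re, Complex.add_im, Complex.mul_re, Complex.mul_im,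
        Complex.ofReal_re, Complex.ofReal_im, zero_mul, sub_zero, add_zero]
      linear_combination x ^ 2 * s1 + y ^ 2 * s2 + 2 * x * y * s4
    refine le_of_sq_le_sq ?_ (norm_nonneg _)
    rw [s5]
    have a1 := sq_abs x
    have a2 := sq_abs y
    have a3 : -(|x| * |y|) ≤ x * y := by rw [← abs_mul]; exact neg_abs_le _
    nlinarith [sq_nonneg (|x| - |y|)]
  · refine (norm_add_le _ _).trans (le_of_eq ?_)
    rw [norm_mul, norm_mul, n1, n2, Complex.norm_real, Complex.norm_real, Real.norm_eq_abs,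
      Real.norm_eq_abs]
    ring

/-- Perturbation of the model vectors. -/
theorem nd_of (hB : BASIC) (hτ : 0 < τ) (k : ℤ) {ε e1 e2 : ℂ} (hε : ε = 1 ∨ ε = -1)
    (h1 : ‖e1 - ε * (τ * (acol (k + 2) - acol k))‖ ≤ τ / 2)
    (h2 : ‖e2 - ε * (τ * (acol (k + 1) - acol k))‖ ≤ τ / 2) : ND τ e1 e2 := by
  intro x y
  obtain ⟨m1, m2⟩ := model_nd hB k x y
  set p := acol (k + 2) - acol k
  set q := acol (k + 1) - acol k
  have e : (x : ℂ) * e1 + (y : ℂ) * e2 = ε * (τ * ((x : ℂ) * p + (y : ℂ) * q)) +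
      ((x : ℂ) * (e1 - ε * (τ * p)) + (y : ℂ) * (e2 - ε * (τ * q))) := by ring
  have n1 : ‖ε * (τ * ((x : ℂ) * p + (y : ℂ) * q))‖ = τ * ‖(x : ℂ) * p + (y : ℂ) * q‖ := by
    rw [norm_mul, norm_mul, Complex.norm_real, Real.norm_eq_abs, abs_of_pos hτ]
    rcases hε with rfl | rfl <;> simp
  have n2 : ‖(x : ℂ) * (e1 - ε * (τ * p)) + (y : ℂ) * (e2 - ε * (τ * q))‖ ≤
      τ / 2 * (|x| + |y|) := by
    refine (norm_add_le _ _).trans ?_
    rw [norm_mul, norm_mul, Complex.norm_real, Complex.norm_real, Real.norm_eq_abs,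
      Real.norm_eq_abs]
    nlinarith [abs_nonneg x, abs_nonneg y]
  have m3 := mul_le_mul_of_nonneg_left m1 hτ.le
  have m4 := mul_le_mul_of_nonneg_left m2 hτ.le
  have m5 : 0 ≤ τ * (|x| + |y|) := by positivity
  rw [e]
  constructor
  · have := norm_sub_norm_le (ε * (τ * ((x : ℂ) * p + (y : ℂ) * q)))
      (-((x : ℂ) * (e1 - ε * (τ * p)) + (y : ℂ) * (e2 - ε * (τ * q))))
    rw [norm_neg, sub_neg_eq_add] at this
    linarith
  · refine (norm_add_le _ _).trans ?_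
    linarith

/-- The sides of a cell are close to the sides of the model triangle. -/
theorem sides_near {B : ℤ × ℤ → ℂ} {w : ℂ} {g : ℝ} (τ s : ℝ) (Q : ℤ × ℤ)
    (h : ∀ k, (k = ix Q - 1 ∨ k = ix Q ∨ k = ix Q + 1) → ‖B (bs Q k) - w‖ ≤ g) :
    ∃ ε : ℂ, (ε = 1 ∨ ε = -1) ∧
      ‖v1 (fun _ => B) τ s Q - v0 (fun _ => B) τ s Q -
        ε * (τ * (acol (lx Q + 2) - acol (lx Q)))‖ ≤ 2 * g ∧
      ‖v2 (fun _ => B) τ s Q - v0 (fun _ => B) τ s Q -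
        ε * (τ * (acol (lx Q + 1) - acol (lx Q)))‖ ≤ 2 * g := by
  have a1 := h _ (Or.inl rfl)
  have a2 := h _ (Or.inr (Or.inl rfl))
  have a3 := h _ (Or.inr (Or.inr rfl))
  have g0 : 0 ≤ g := (norm_nonneg _).trans a1
  have k : ∀ p q : ℂ, ‖p - w‖ ≤ g → ‖q - w‖ ≤ g → ‖p - q‖ ≤ 2 * g := fun p q hp hq => by
    have := norm_sub_le (p - w) (q - w)
    rw [sub_sub_sub_cancel_right] at this; linarith
  unfold v0 v1 v2 lx vp ee
  rcases kd_le Q with e | e | e <;> simp only [e]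
  · refine ⟨1, Or.inl rfl, ?_, ?_⟩
    · refine le_of_eq_of_le (congrArg _ ?_) (k _ _ a3 a1)
      simp only [if_true]; rw [show ix Q - 1 + 2 = ix Q + 1 by ring]; ring
    · refine le_of_eq_of_le (congrArg _ ?_) (k _ _ a2 a1)
      simp only [if_true]; rw [sub_add_cancel]; ring
  · refine ⟨1, Or.inl rfl, ?_, ?_⟩
    · refine le_of_eq_of_le (congrArg _ ?_) (k _ _ a2 a2)
      simp
    · refine le_of_eq_of_le (congrArg _ ?_) (k _ _ a3 a2)
      simp; ring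
  · refine ⟨-1, Or.inr rfl, ?_, ?_⟩
    · refine le_of_eq_of_le (congrArg _ ?_) (k _ _ a2 a2)
      simp; ring
    · refine le_of_eq_of_le (congrArg _ ?_) (k _ _ a2 a3)
      simp; ring

theorem nd_cell (hB : BASIC) (hτ : 0 < τ) (h : BV W L τ M F0 bv) (s : ℝ) {Q : ℤ × ℤ}
    (hQ : act W L (clu Q)) :
    ND τ (v1 bv τ s Q - v0 bv τ s Q) (v2 bv τ s Q - v0 bv τ s Q) := by
  obtain ⟨ε, hε, h1, h2⟩ := sides_near (B := bv (clu Q)) (w := bv (clu Q) (clu Q))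
    (g := τ / 3000) τ s Q fun k hk => by
      have := vp_near hτ h hQ hk
      unfold vp at this
      rwa [add_sub_add_right_eq_sub] at this
  exact nd_of hB hτ (lx Q) hε (h1.trans (by linarith)) (h2.trans (by linarith))

end val

theorem rg_convex (bv : ℤ × ℤ → ℤ × ℤ → ℂ) (τ s : ℝ) (Q : ℤ × ℤ) : Convex ℝ (Rg bv τ s Q) := by
  rintro _ ⟨x, y, a1, a2, a3, a4, rfl⟩ _ ⟨x', y', b1, b2, b3, b4, rfl⟩ p q hp hq hpq
  refine ⟨p * x + q * x', p * y + q * y', by positivity, by nlinarith, by positivity,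
    by nlinarith, ?_⟩
  have e : (q : ℂ) = 1 - p := by rw [← Complex.ofReal_one, ← hpq]; push_cast; ring
  unfold pq
  simp only [Complex.real_smul]
  push_cast
  rw [e]; ring

theorem mem_hull {a b c u : ℂ} : u ∈ hull a b c ↔
    ∃ x y : ℝ, 0 ≤ x ∧ 0 ≤ y ∧ x + y ≤ 1 ∧ u = a + (x : ℂ) * (c - a) + (y : ℂ) * (b - a) := by
  constructor
  · intro hu
    have hc : Convex ℝ {u : ℂ | ∃ x y : ℝ, 0 ≤ x ∧ 0 ≤ y ∧ x + y ≤ 1 ∧
        u = a + (x : ℂ) * (c - a) + (y : ℂ) * (b - a)} := by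
      rintro _ ⟨x, y, a1, a3, a4, rfl⟩ _ ⟨x', y', b1, b3, b4, rfl⟩ p q hp hq hpq
      refine ⟨p * x + q * x', p * y + q * y', by positivity, by positivity, by nlinarith, ?_⟩
      have e : (q : ℂ) = 1 - p := by rw [← Complex.ofReal_one, ← hpq]; push_cast; ring
      simp only [Complex.real_smul]
      push_cast
      rw [e]; ring
    refine convexHull_min ?_ hc hu
    rintro _ (rfl | rfl | rfl)
    · exact ⟨0, 0, le_rfl, le_rfl, by norm_num, by simp⟩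
    · exact ⟨0, 1, le_rfl, zero_le_one, by norm_num, by simp⟩
    · exact ⟨1, 0, zero_le_one, le_rfl, by norm_num, by simp⟩
  · rintro ⟨x, y, a1, a2, a3, rfl⟩
    have := (convex_convexHull ℝ ({a, b, c} : Set ℂ)).sum_mem (t := Finset.univ)
      (w := ![1 - x - y, y, x]) (z := ![a, b, c])
      (fun i _ => by fin_cases i <;> simp <;> linarith) (by simp [Fin.sum_univ_three])
      (fun i _ => subset_convexHull ℝ _ (by fin_cases i <;> simp))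
    have e : ∑ i, ![1 - x - y, y, x] i • ![a, b, c] i =
        a + (x : ℂ) * (c - a) + (y : ℂ) * (b - a) := by
      simp [Fin.sum_univ_three]; ring
    rw [e] at this
    exact this

/-- The region of a full cell is its triangle. -/
theorem rg_full (bv : ℤ × ℤ → ℤ × ℤ → ℂ) (τ s : ℝ) {Q : ℤ × ℤ} (hk : kd Q = 0) :
    Rg bv τ s Q = hull (v0 bv τ s Q) (v2 bv τ s Q) (v1 bv τ s Q) := by
  ext u
  rw [mem_hull]
  unfold Rg hq pq
  simp only [hk, if_true, mem_ofPred_eq]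
  constructor
  · rintro ⟨x, y, a1, -, a3, a4, e⟩; exact ⟨x, y, a1, a3, a4, e⟩
  · rintro ⟨x, y, a1, a3, a4, e⟩; exact ⟨x, y, a1, by linarith, a3, a4, e⟩

theorem tg_eq (τ : ℝ) (w : ℂ) (k : ℤ) :
    hull (w + τ * acol k) (w + τ * acol (k + 1)) (w + τ * acol (k + 2)) = Tg τ w := by
  unfold Tg hull
  congr 1
  have h : k % 3 = 0 ∨ k % 3 = 1 ∨ k % 3 = 2 := by omega
  rcases h with h | h | h
  · rw [acol_mod (p := k) (q := 3) (by omega), acol_mod (p := k + 1) (q := 4) (by omega),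
      acol_mod (p := k + 2) (q := 2) (by omega)]
    ext u; simp only [mem_insert_iff, mem_singleton_iff]; tauto
  · rw [acol_mod (p := k) (q := 4) (by omega), acol_mod (p := k + 1) (q := 2) (by omega),
      acol_mod (p := k + 2) (q := 3) (by omega)]
    ext u; simp only [mem_insert_iff, mem_singleton_iff]; tauto
  · rw [acol_mod (p := k) (q := 2) (by omega), acol_mod (p := k + 1) (q := 3) (by omega),
      acol_mod (p := k + 2) (q := 4) (by omega)]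

/-- A full cell whose three vertices have the same base is a model triangle. -/
theorem rg_exact (bv : ℤ × ℤ → ℤ × ℤ → ℂ) (τ s : ℝ) {Q R : ℤ × ℤ} (hk : kd Q = 0)
    (h0 : bs Q (ix Q - 1) = R) (h1 : bs Q (ix Q) = R) (h2 : bs Q (ix Q + 1) = R) :
    Rg bv τ s Q = Tg τ (bv (clu Q) R) := by
  rw [rg_full bv τ s hk, ← tg_eq τ _ (ix Q - 1)]
  unfold v0 v1 v2 vp
  simp only [hk, if_true]
  rw [h0, h1, h2, sub_add_cancel, show ix Q - 1 + 2 = ix Q + 1 by ring]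

/-! ### Positions -/

theorem xq_near {ℓ : ℝ} (hℓ : 0 ≤ ℓ) (L : ℝ) (Q : ℤ × ℤ) :
    ‖xq L ℓ Q - cen L (clu Q)‖ ≤ 14 * ℓ := by
  have a0 : (0 : ℝ) ≤ la Q := by exact_mod_cast (la_bd Q).1
  have a1 : (la Q : ℝ) ≤ 16 := by exact_mod_cast (la_bd Q).2.le
  have b0 : (0 : ℝ) ≤ lb Q := by exact_mod_cast (lb_bd Q).1
  have b1 : (lb Q : ℝ) ≤ 6 := by exact_mod_cast (lb_bd Q).2.le
  unfold xq
  rw [add_assoc, add_sub_cancel_left]
  refine (norm_add_le _ _).trans ?_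
  rw [norm_mul, Complex.norm_I, mul_one, Complex.norm_real, Complex.norm_real, Real.norm_eq_abs,
    Real.norm_eq_abs, abs_mul, abs_mul, abs_of_nonneg hℓ]
  have c1 : |(la Q : ℝ) - 8| ≤ 8 := by rw [abs_le]; constructor <;> linarith
  have c2 : |if la Q = 15 ∧ lb Q = 0 then (6 : ℝ) else (lb Q : ℝ)| ≤ 6 := by
    split_ifs <;> rw [abs_le] <;> constructor <;> linarith
  nlinarith

theorem xq_sub {ℓ : ℝ} (hℓ : 0 ≤ ℓ) (L : ℝ) (Q Q' : ℤ × ℤ) :
    ‖xq L ℓ Q' - xq L ℓ Q - dl L Q Q'‖ ≤ 28 * ℓ := by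
  have e : xq L ℓ Q' - xq L ℓ Q - dl L Q Q' =
      (xq L ℓ Q' - cen L (clu Q')) - (xq L ℓ Q - cen L (clu Q)) := by unfold dl; ring
  rw [e]
  linarith [norm_sub_le (xq L ℓ Q' - cen L (clu Q')) (xq L ℓ Q - cen L (clu Q)),
    xq_near hℓ L Q, xq_near hℓ L Q']

theorem cen_add (L : ℝ) (R : ℤ × ℤ) (p q : ℤ) :
    cen L (R.1 + p, R.2 + q) = cen L R + (p + q * I) * L := by
  unfold cen; push_cast; ring

theorem fin_cells (hB : BASIC) {W : Set ℂ} {L : ℝ} (hW : W0 ⊆ W) (hL : 0 < L) :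
    {Q | act W L (clu Q)}.Finite := by
  have h := hB.finA W L hW hL
  have f := ((h.prod (Set.finite_Icc (0 : ℤ) 16)).prod (Set.finite_Icc (0 : ℤ) 6)).image
    fun p => cel p.1.1 p.1.2 p.2
  refine f.subset fun Q hQ => ?_
  obtain ⟨R, a, b, a0, a1, b0, b1, rfl⟩ := exists_cel Q
  by_cases e : a = 15 ∧ b = 0
  · obtain ⟨rfl, rfl⟩ := e
    refine ⟨(((R.1, R.2 - 1), 15), 6), ⟨⟨?_, by simp⟩, by simp⟩, ?_⟩
    · have : act W L (clu (cel R 15 0)) := hQ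
      rwa [clu_ten] at this
    · unfold cel; exact Prod.ext rfl (by simp only; ring)
  · refine ⟨((R, a), b), ⟨⟨?_, ⟨a0, a1.le⟩⟩, ⟨b0, b1.le⟩⟩, rfl⟩
    have : act W L (clu (cel R a b)) := hQ
    rwa [clu_cel _ a0 a1 b0 b1 e] at this

end

end Pool.Agent.MP_d32a63_an.H13N
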